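import Pool.Agent.MVII.St1
import Pool.Agent.GBQ.Div
import Pool.Agent.Helper88.MD.Div

set_option autoImplicit false

/-!
# MVII [Ep]: elementary bounds with `X ^ ε`
-/

namespace Pool.Agent.MVII

open Finset Filter
open Pool.Agent.GBQ (ee lam nd Admissible)
open Pool.Agent.LIN (PP pz)

theorem ep_large (C e : ℝ) (he : 0 < e) : ∀ᶠ X : ℕ in atTop, C ≤ (X : ℝ) ^ e :=
  ((tendsto_rpow_atTop he).comp tendsto_natCast_atTop_atTop).eventually_ge_atTop C

theorem ep_omega (m : ℕ) (hm : 1 ≤ m) : (2 : ℝ) ^ m.primeFactors.card ≤ m.divisors.card := by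
  have h : 2 ^ m.primeFactors.card ≤ m.divisors.card := by
    rw [Nat.card_divisors (by omega), ← Finset.prod_const]
    refine Finset.prod_le_prod' fun p hp => ?_
    have h1 : 0 < m.factorization p :=
      (Nat.prime_of_mem_primeFactors hp).factorization_pos_of_dvd (by omega)
        (Nat.dvd_of_mem_primeFactors hp)
    omega
  exact_mod_cast h

/-- divisor bound -/
theorem ep_div (e : ℝ) (he : 0 < e) : ∀ᶠ X : ℕ in atTop, ∀ n : ℕ, 1 ≤ n → n ≤ X ^ 4 →
    (n.divisors.card : ℝ) ≤ (X : ℝ) ^ e := by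
  obtain ⟨C, hC⟩ := Pool.Agent.Helper88.MD.divisorBound (e / 8) (by positivity)
  filter_upwards [ep_large (max C 0) (e / 2) (by positivity), eventually_ge_atTop 1] with X h1 h2
  intro n hn hnX
  have hX0 : (0 : ℝ) < X := by exact_mod_cast h2
  have hn0 : (0 : ℝ) ≤ n := Nat.cast_nonneg n
  have h3 : (n : ℝ) ^ (e / 8) ≤ (X : ℝ) ^ (e / 2) := by
    calc (n : ℝ) ^ (e / 8) ≤ ((X : ℝ) ^ 4) ^ (e / 8) :=
          Real.rpow_le_rpow hn0 (by exact_mod_cast hnX) (by positivity)
      _ = (X : ℝ) ^ (e / 2) := by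
          rw [← Real.rpow_natCast (X : ℝ) 4, ← Real.rpow_mul hX0.le]
          congr 1
          push_cast
          ring
  calc (n.divisors.card : ℝ) ≤ C * (n : ℝ) ^ (e / 8) := hC n hn
    _ ≤ max C 0 * (n : ℝ) ^ (e / 8) :=
        mul_le_mul_of_nonneg_right (le_max_left _ _) (Real.rpow_nonneg hn0 _)
    _ ≤ (X : ℝ) ^ (e / 2) * (X : ℝ) ^ (e / 2) := mul_le_mul h1 h3 (Real.rpow_nonneg hn0 _)
        (Real.rpow_nonneg hX0.le _)
    _ = (X : ℝ) ^ e := by
        rw [← Real.rpow_add hX0]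
        congr 1
        ring

/-- powers of the logarithm -/
theorem ep_log (e : ℝ) (he : 0 < e) (k : ℕ) :
    ∀ᶠ X : ℕ in atTop, (1 + Real.log (2 * X)) ^ k ≤ (X : ℝ) ^ e := by
  set d : ℝ := e / (2 * (k + 1)) with hd
  have hd0 : 0 < d := by positivity
  set C : ℝ := 1 + 2 ^ d / d with hC
  have hC0 : 0 < C := by positivity
  filter_upwards [ep_large (C ^ k) (e / 2) (by positivity), eventually_ge_atTop 1] with X h1 h2
  have hX1 : (1 : ℝ) ≤ X := by exact_mod_cast h2
  have hX0 : (0 : ℝ) < X := by linarith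
  have hXd : 1 ≤ (X : ℝ) ^ d := Real.one_le_rpow hX1 hd0.le
  have h3 : Real.log (2 * X) ≤ 2 ^ d / d * (X : ℝ) ^ d := by
    have h4 := Real.log_le_rpow_div (x := 2 * (X : ℝ)) (by positivity) hd0
    rw [Real.mul_rpow (by norm_num) hX0.le] at h4
    calc Real.log (2 * X) ≤ 2 ^ d * (X : ℝ) ^ d / d := h4
      _ = _ := by ring
  have h4 : 0 ≤ 1 + Real.log (2 * X) := by
    have : 0 ≤ Real.log (2 * X) := Real.log_nonneg (by linarith)
    linarith
  have h5 : 1 + Real.log (2 * X) ≤ C * (X : ℝ) ^ d := by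
    rw [hC, add_mul]
    linarith
  have h6 : ((X : ℝ) ^ d) ^ k ≤ (X : ℝ) ^ (e / 2) := by
    rw [← Real.rpow_natCast, ← Real.rpow_mul hX0.le]
    refine Real.rpow_le_rpow_of_exponent_le hX1 ?_
    rw [hd, div_mul_eq_mul_div, div_le_div_iff₀ (by positivity) (by norm_num)]
    have hk : (0 : ℝ) ≤ k := Nat.cast_nonneg k
    nlinarith
  calc (1 + Real.log (2 * X)) ^ k ≤ (C * (X : ℝ) ^ d) ^ k := pow_le_pow_left₀ h4 h5 k
    _ = C ^ k * ((X : ℝ) ^ d) ^ k := by rw [mul_pow]
    _ ≤ (X : ℝ) ^ (e / 2) * (X : ℝ) ^ (e / 2) := mul_le_mul h1 h6 (by positivity) (by positivity)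
    _ = (X : ℝ) ^ e := by
        rw [← Real.rpow_add hX0]
        congr 1
        ring

/-- the part of `k` which divides `x`, and the other part -/
noncomputable def ep_g (x : ℤ) (k : ℕ) : ℕ := ∏ p ∈ k.primeFactors.filter (fun p : ℕ => (p : ℤ) ∣ x), p
noncomputable def ep_h (x : ℤ) (k : ℕ) : ℕ :=
  ∏ p ∈ k.primeFactors.filter (fun p : ℕ => ¬ (p : ℤ) ∣ x), p

theorem ep_gh (x : ℤ) (k : ℕ) (hk : Squarefree k) : ep_g x k * ep_h x k = k := by
  unfold ep_g ep_h
  rw [Finset.prod_filter_mul_prod_filter_not]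
  exact Nat.prod_primeFactors_of_squarefree hk

theorem ep_g_dvd (x : ℤ) (k : ℕ) : ep_g x k ∣ x.natAbs := by
  refine Finset.prod_primes_dvd _ ?_ ?_
  · intro p hp
    rw [mem_filter] at hp
    exact (Nat.prime_of_mem_primeFactors hp.1).prime
  · intro p hp
    rw [mem_filter] at hp
    exact Int.natCast_dvd.1 hp.2

/-- the terms of the truncated singular series -/
theorem ep_term (x : ℤ) (k : ℕ) (hk : Squarefree k) :
    |cs k x| / k.totient ≤ (2 : ℝ) ^ (ep_h x k).primeFactors.card / (ep_h x k : ℕ) := by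
  set P := k.primeFactors with hP
  have hpr : ∀ p ∈ P, p.Prime := fun p hp => Nat.prime_of_mem_primeFactors hp
  have hk0 : k ≠ 0 := hk.ne_zero
  have htot : (k.totient : ℝ) = ∏ p ∈ P, ((p : ℝ) - 1) := by
    have h1 : k.totient * ∏ p ∈ P, p = k * ∏ p ∈ P, (p - 1) := Nat.totient_mul_prod_primeFactors k
    rw [Nat.prod_primeFactors_of_squarefree hk, mul_comm] at h1
    have h2 : k.totient = ∏ p ∈ P, (p - 1) := Nat.eq_of_mul_eq_mul_left (Nat.pos_of_ne_zero hk0) h1
    rw [h2]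
    push_cast
    refine prod_congr rfl fun p hp => ?_
    rw [Nat.cast_sub (hpr p hp).one_le]
    simp
  have hcs : |cs k x| = ∏ p ∈ P.filter (fun p : ℕ => (p : ℤ) ∣ x), ((p : ℝ) - 1) := by
    unfold cs
    rw [abs_prod, ← hP, ← Finset.prod_filter_mul_prod_filter_not P (fun p : ℕ => (p : ℤ) ∣ x)]
    have e1 : ∏ p ∈ P.filter (fun p : ℕ => ¬ (p : ℤ) ∣ x), |cp p x| = 1 := by
      refine prod_eq_one fun p hp => ?_
      rw [mem_filter] at hp
      simp [cp, hp.2]
    rw [e1, mul_one]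
    refine prod_congr rfl fun p hp => ?_
    rw [mem_filter] at hp
    have h3 : (1 : ℝ) ≤ p := by exact_mod_cast (hpr p hp.1).one_le
    rw [cp, if_pos hp.2, abs_of_nonneg (by linarith)]
  have hpos : 0 < ∏ p ∈ P.filter (fun p : ℕ => (p : ℤ) ∣ x), ((p : ℝ) - 1) := by
    refine prod_pos fun p hp => ?_
    rw [mem_filter] at hp
    have h3 : (2 : ℝ) ≤ p := by exact_mod_cast (hpr p hp.1).two_le
    linarith
  have hcard : (ep_h x k).primeFactors = P.filter (fun p : ℕ => ¬ (p : ℤ) ∣ x) := by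
    unfold ep_h
    exact Nat.primeFactors_prod fun p hp => hpr p (mem_filter.1 hp).1
  rw [hcs, htot, ← Finset.prod_filter_mul_prod_filter_not P (fun p : ℕ => (p : ℤ) ∣ x), hcard,
    div_mul_eq_div_div, div_self hpos.ne']
  unfold ep_h
  rw [← prod_const, Nat.cast_prod, ← prod_div_distrib, one_div, ← prod_inv_distrib]
  refine prod_le_prod (fun p hp => ?_) fun p hp => ?_
  · rw [mem_filter] at hp
    have h3 : (2 : ℝ) ≤ p := by exact_mod_cast (hpr p hp.1).two_le
    exact inv_nonneg.2 (by linarith)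
  · rw [mem_filter] at hp
    have h3 : (2 : ℝ) ≤ p := by exact_mod_cast (hpr p hp.1).two_le
    rw [inv_eq_one_div, div_le_div_iff₀ (by linarith) (by linarith)]
    linarith

/-- the truncated singular series -/
theorem ep_ar (Q r : ℕ) (x : ℤ) (hr : 1 ≤ r) (hx : x ≠ 0) (hN : 1 ≤ Q / r) :
    |ar Q r x| ≤ (r : ℝ) / r.totient *
      ((x.natAbs.divisors.card : ℝ) * (1 + Real.log ((Q / r : ℕ) : ℝ)) ^ 2) := by
  have hr0 : (0 : ℝ) ≤ (r : ℝ) / r.totient := by positivity
  unfold ar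
  rw [abs_mul, abs_of_nonneg hr0]
  refine mul_le_mul_of_nonneg_left ?_ hr0
  set N := Q / r with hNdef
  set S := (Icc 1 N).filter (fun k => r.Coprime k) with hS
  have h1 : |∑ k ∈ S, (ArithmeticFunction.moebius k : ℝ) / k.totient * cs k x| ≤
      ∑ k ∈ S.filter Squarefree, (2 : ℝ) ^ (ep_h x k).primeFactors.card / (ep_h x k : ℕ) := by
    refine le_trans (Finset.abs_sum_le_sum_abs _ _) ?_
    rw [sum_filter (fun k : ℕ => Squarefree k)]
    refine Finset.sum_le_sum (fun (k : ℕ) _ => ?_)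
    by_cases hk : Squarefree k
    · rw [if_pos hk]
      refine le_trans ?_ (ep_term x k hk)
      rw [abs_mul, abs_div, Nat.abs_cast, div_mul_eq_mul_div]
      refine div_le_div_of_nonneg_right ?_ (Nat.cast_nonneg _)
      have h2 : |(ArithmeticFunction.moebius k : ℝ)| ≤ 1 := by
        exact_mod_cast ArithmeticFunction.abs_moebius_le_one
      exact mul_le_of_le_one_left (abs_nonneg _) h2
    · rw [if_neg hk, ArithmeticFunction.moebius_eq_zero_of_not_squarefree hk]
      simp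
  refine h1.trans ?_
  set F : ℕ → ℝ := fun h => (2 : ℝ) ^ h.primeFactors.card / h with hF
  have hF0 : ∀ h, 0 ≤ F h := fun h => by positivity
  have hinj : Set.InjOn (fun k => (ep_g x k, ep_h x k)) (S.filter Squarefree : Finset ℕ) := by
    intro a ha b hb hab
    have ha' := (mem_filter.1 (mem_coe.1 ha)).2
    have hb' := (mem_filter.1 (mem_coe.1 hb)).2
    simp only [Prod.mk.injEq] at hab
    rw [← ep_gh x a ha', ← ep_gh x b hb', hab.1, hab.2]
  have hsub : (S.filter Squarefree).image (fun k => (ep_g x k, ep_h x k)) ⊆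
      x.natAbs.divisors ×ˢ Icc 1 N := by
    intro z hz
    rw [mem_image] at hz
    obtain ⟨k, hk, rfl⟩ := hz
    rw [mem_filter, hS, mem_filter, mem_Icc] at hk
    have hgh := ep_gh x k hk.2
    rw [mem_product, Nat.mem_divisors, mem_Icc]
    have hh : 0 < ep_h x k := by
      rcases Nat.eq_zero_or_pos (ep_h x k) with h | h
      · rw [h, mul_zero] at hgh
        omega
      · exact h
    have hle : ep_h x k ≤ k := Nat.le_of_dvd (by omega) ⟨ep_g x k, by rw [mul_comm]; exact hgh.symm⟩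
    exact ⟨⟨ep_g_dvd x k, Int.natAbs_ne_zero.2 hx⟩, hh, hle.trans hk.1.1.2⟩
  calc ∑ k ∈ S.filter Squarefree, (2 : ℝ) ^ (ep_h x k).primeFactors.card / (ep_h x k : ℕ)
      = ∑ z ∈ (S.filter Squarefree).image (fun k => (ep_g x k, ep_h x k)), F z.2 := by
        rw [sum_image hinj]
    _ ≤ ∑ z ∈ x.natAbs.divisors ×ˢ Icc 1 N, F z.2 :=
        sum_le_sum_of_subset_of_nonneg hsub fun z _ _ => hF0 _
    _ = (x.natAbs.divisors.card : ℝ) * ∑ h ∈ Icc 1 N, F h := by
        rw [sum_product]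
        simp only [sum_const, nsmul_eq_mul]
    _ ≤ (x.natAbs.divisors.card : ℝ) * (1 + Real.log (N : ℝ)) ^ 2 := by
        refine mul_le_mul_of_nonneg_left ?_ (Nat.cast_nonneg _)
        have h9 := Pool.Agent.GBQ.thm_Div 2 N hN
        rw [Nat.cast_ofNat] at h9
        exact h9

/-- the sieve weight -/
theorem ep_SS (q₁ w : ℕ) (D : ℝ) (ψ : Finset ℕ → ℝ) (y : ℤ) (hψ : IsPsi w D ψ) :
    |SS q₁ w ψ y| ≤ ((y ^ 2 - 2).natAbs.divisors.card : ℝ) := by
  have hne : y ^ 2 - 2 ≠ 0 := by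
    intro h
    have h1 : y ^ 2 = 2 := by linarith
    have h2 : y < 2 := by nlinarith
    have h3 : -2 < y := by nlinarith
    interval_cases y <;> omega
  have hsg : ∀ U, |sg q₁ ψ U| ≤ 1 := by
    intro U
    unfold sg
    rw [abs_mul, abs_pow, abs_neg, abs_one, one_pow, one_mul]
    exact hψ.bd _
  unfold SS
  rw [← sum_filter]
  refine (abs_sum_le_sum_abs _ _).trans ?_
  calc ∑ U ∈ (PP 2 w).powerset.filter (fun U : Finset ℕ => ∀ p ∈ U, ((p : ℕ) : ℤ) ∣ y ^ 2 - 2), |sg q₁ ψ U|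
      ≤ ∑ U ∈ (PP 2 w).powerset.filter (fun U : Finset ℕ => ∀ p ∈ U, ((p : ℕ) : ℤ) ∣ y ^ 2 - 2), (1 : ℝ) :=
        sum_le_sum fun U _ => hsg U
    _ = (((PP 2 w).powerset.filter (fun U : Finset ℕ => ∀ p ∈ U, ((p : ℕ) : ℤ) ∣ y ^ 2 - 2)).card : ℝ) := by
        rw [sum_const, nsmul_eq_mul, mul_one]
    _ ≤ (((y ^ 2 - 2).natAbs.primeFactors.powerset).card : ℝ) := by
        have h1 : (PP 2 w).powerset.filter (fun U : Finset ℕ => ∀ p ∈ U, ((p : ℕ) : ℤ) ∣ y ^ 2 - 2) ⊆
            (y ^ 2 - 2).natAbs.primeFactors.powerset := by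
          intro U hU
          rw [mem_filter, mem_powerset] at hU
          rw [mem_powerset]
          intro p hp
          have h2 := hU.1 hp
          unfold PP at h2
          rw [mem_filter] at h2
          rw [Nat.mem_primeFactors]
          exact ⟨h2.2, Int.natCast_dvd.1 (hU.2 p hp), Int.natAbs_ne_zero.2 hne⟩
        exact_mod_cast card_le_card h1
    _ = (2 : ℝ) ^ (y ^ 2 - 2).natAbs.primeFactors.card := by
        rw [card_powerset]
        push_cast
        rfl
    _ ≤ _ := ep_omega _ (Nat.one_le_iff_ne_zero.2 (Int.natAbs_ne_zero.2 hne))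

theorem thm_Ep : St_Ep := by
  intro ε hε k
  filter_upwards [ep_div (ε / 4) (by positivity), ep_log (ε / 4) (by positivity) k,
    ep_log (ε / 4) (by positivity) 2, eventually_ge_atTop 3] with X hdiv hlogk hlog2 hX3
  have hX1 : (1 : ℝ) ≤ X := by exact_mod_cast (by omega : 1 ≤ X)
  have hX0 : (0 : ℝ) < X := by linarith
  have hmono : ∀ a b : ℝ, a ≤ b → (X : ℝ) ^ a ≤ (X : ℝ) ^ b := fun a b h =>
    Real.rpow_le_rpow_of_exponent_le hX1 h
  have hq4 : ∀ q : ℕ, q ≤ X → q ≤ X ^ 4 := fun q hq => hq.trans (Nat.le_self_pow (by norm_num) X)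
  have hr : ∀ q : ℕ, 1 ≤ q → q ≤ X → (q : ℝ) ≤ q.totient * (X : ℝ) ^ (ε / 4) := by
    intro q hq1 hqX
    have h1 := Pool.Agent.Helper88.MD.le_totient_mul_divisors q hq1
    have h2 : (q : ℝ) ≤ (q.totient : ℝ) * (q.divisors.card : ℝ) := by exact_mod_cast h1
    exact h2.trans (mul_le_mul_of_nonneg_left (hdiv q hq1 (hq4 q hqX)) (Nat.cast_nonneg _))
  refine ⟨?_, ?_, ?_, ?_, ?_⟩
  · intro n hn hnX
    exact (hdiv n hn hnX).trans (hmono _ _ (by linarith))
  · exact hlogk.trans (hmono _ _ (by linarith))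
  · intro q hq1 hqX
    refine ⟨(hr q hq1 hqX).trans
      (mul_le_mul_of_nonneg_left (hmono _ _ (by linarith)) (Nat.cast_nonneg _)), ?_⟩
    have h1 : (4 : ℝ) ^ q.primeFactors.card = ((2 : ℝ) ^ q.primeFactors.card) ^ 2 := by
      rw [← pow_mul, mul_comm, pow_mul]
      norm_num
    rw [h1]
    have h2 := (ep_omega q hq1).trans (hdiv q hq1 (hq4 q hqX))
    calc ((2 : ℝ) ^ q.primeFactors.card) ^ 2 ≤ ((X : ℝ) ^ (ε / 4)) ^ 2 :=
          pow_le_pow_left₀ (by positivity) h2 2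
      _ = (X : ℝ) ^ (ε / 2) := by
          rw [← Real.rpow_natCast, ← Real.rpow_mul hX0.le]
          congr 1
          push_cast
          ring
      _ ≤ (X : ℝ) ^ ε := hmono _ _ (by linarith)
  · intro Q r x hQ hr1 hrX hx hxX
    rcases Nat.eq_zero_or_pos (Q / r) with h0 | h0
    · have : ar Q r x = 0 := by
        unfold ar
        rw [h0]
        simp
      rw [this, abs_zero]
      positivity
    · have h1 := ep_ar Q r x hr1 hx h0
      have htot : (0 : ℝ) < r.totient := by exact_mod_cast Nat.totient_pos.2 hr1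
      have h2 : (r : ℝ) / r.totient ≤ (X : ℝ) ^ (ε / 4) := by
        rw [div_le_iff₀ htot, mul_comm]
        exact hr r hr1 hrX
      have hxn : x.natAbs ≤ X ^ 4 := by
        have h3 : x.natAbs ≤ 2 * X := by
          have h5 : ((x.natAbs : ℕ) : ℤ) ≤ 2 * X := by
            rw [Int.natCast_natAbs]
            exact hxX
          exact_mod_cast h5
        have h4 : 2 * X ≤ X ^ 4 := by
          calc 2 * X ≤ X * X := Nat.mul_le_mul_right X (by omega)
            _ ≤ X ^ 4 := by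
                rw [← pow_two]
                exact Nat.pow_le_pow_right (by omega) (by norm_num)
        exact h3.trans h4
      have h3 := hdiv x.natAbs (Nat.one_le_iff_ne_zero.2 (Int.natAbs_ne_zero.2 hx)) hxn
      have h4 : (1 + Real.log ((Q / r : ℕ) : ℝ)) ^ 2 ≤ (X : ℝ) ^ (ε / 4) := by
        refine le_trans ?_ hlog2
        have h5 : (1 : ℝ) ≤ ((Q / r : ℕ) : ℝ) := by exact_mod_cast h0
        have h6 : ((Q / r : ℕ) : ℝ) ≤ 2 * X := by
          have : ((Q / r : ℕ) : ℝ) ≤ X := by exact_mod_cast (Nat.div_le_self Q r).trans hQ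
          linarith
        have h7 : Real.log ((Q / r : ℕ) : ℝ) ≤ Real.log (2 * X) :=
          Real.log_le_log (by linarith) h6
        have h8 : 0 ≤ Real.log ((Q / r : ℕ) : ℝ) := Real.log_nonneg h5
        exact pow_le_pow_left₀ (by linarith) (by linarith) 2
      calc |ar Q r x| ≤ (r : ℝ) / r.totient *
            ((x.natAbs.divisors.card : ℝ) * (1 + Real.log ((Q / r : ℕ) : ℝ)) ^ 2) := h1
        _ ≤ (X : ℝ) ^ (ε / 4) * ((X : ℝ) ^ (ε / 4) * (X : ℝ) ^ (ε / 4)) := by
            refine mul_le_mul h2 (mul_le_mul h3 h4 (by positivity) (by positivity))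
              (by positivity) (by positivity)
        _ = (X : ℝ) ^ (3 * ε / 4) := by
            rw [← Real.rpow_add hX0, ← Real.rpow_add hX0]
            congr 1
            ring
        _ ≤ (X : ℝ) ^ ε := hmono _ _ (by linarith)
  · intro q₁ w D ψ y hψ hy
    have h1 := ep_SS q₁ w D ψ y hψ
    have hne : y ^ 2 - 2 ≠ 0 := by
      intro h
      have h1 : y ^ 2 = 2 := by linarith
      have h2 : y < 2 := by nlinarith
      have h3 : -2 < y := by nlinarith
      interval_cases y <;> omega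
    have hle : (y ^ 2 - 2).natAbs ≤ X ^ 4 := by
      have h2 : |y ^ 2 - 2| ≤ 4 * (X : ℤ) ^ 2 + 2 := by
        have h3 : y ^ 2 ≤ (2 * (X : ℤ)) ^ 2 := by
          rw [← sq_abs]
          exact pow_le_pow_left₀ (abs_nonneg y) hy 2
        rw [abs_le]
        constructor
        · nlinarith [sq_nonneg y, sq_nonneg (X : ℤ)]
        · nlinarith
      have h4 : 4 * (X : ℤ) ^ 2 + 2 ≤ (X : ℤ) ^ 4 := by
        have h5 : (3 : ℤ) ≤ X := by exact_mod_cast hX3
        have h6 : 9 ≤ (X : ℤ) ^ 2 := by nlinarith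
        nlinarith
      have h5 : ((y ^ 2 - 2).natAbs : ℤ) ≤ (X : ℤ) ^ 4 := by
        rw [Int.natCast_natAbs]
        linarith
      exact_mod_cast h5
    have h2 := hdiv _ (Nat.one_le_iff_ne_zero.2 (Int.natAbs_ne_zero.2 hne)) hle
    exact (h1.trans h2).trans (hmono _ _ (by linarith))

end Pool.Agent.MVII
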