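import Pool.Agent.MVII.St1

set_option autoImplicit false

/-!
# MVII, module Kt: bounds for the number of close fractions
-/

namespace Pool.Agent.MVII

open Finset Filter
open Pool.Agent.GBQ (ee lam nd Admissible)
open Pool.Agent.MVX (Chr tent Bm Um prm Win GP)
open Pool.Agent.LIN (PP pz)

theorem kt_ee_int (x : ℝ) (n : ℤ) : ee (x + n) = ee x := by
  unfold ee
  have h1 : (((2 * Real.pi * (x + n) : ℝ) : ℂ) * Complex.I) =
      ((2 * Real.pi * x : ℝ) : ℂ) * Complex.I + n * (2 * Real.pi * Complex.I) := by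
    push_cast
    ring
  rw [h1, Complex.exp_add, Complex.exp_int_mul_two_pi_mul_I, mul_one]

theorem kt_fj_int (h : ℕ) (γ : ℝ) (n : ℤ) : fj h (γ + n) = fj h γ := by
  unfold fj
  have h1 : ∀ j ∈ range h, ee ((γ + n) * j) = ee (γ * j) := by
    intro j _
    have h2 : (γ + n) * (j : ℝ) = γ * j + ((n * (j : ℤ) : ℤ) : ℝ) := by
      push_cast
      ring
    rw [h2, kt_ee_int]
  rw [Finset.sum_congr rfl h1]

theorem kt_card (T : ℕ) : (((Icc 1 T).sigma fun q => rr q).card : ℝ) ≤ (T : ℝ) ^ 2 := by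
  have h1 : ((Icc 1 T).sigma fun q => rr q).card ≤ T ^ 2 := by
    rw [Finset.card_sigma]
    calc ∑ q ∈ Icc 1 T, (rr q).card ≤ ∑ q ∈ Icc 1 T, T := by
          refine Finset.sum_le_sum fun q hq => ?_
          refine (Finset.card_filter_le _ _).trans ?_
          rw [Finset.card_range]
          exact (Finset.mem_Icc.mp hq).2
      _ = T ^ 2 := by
          rw [Finset.sum_const, Nat.card_Icc, smul_eq_mul, Nat.add_sub_cancel, sq]
  exact_mod_cast h1

theorem thm_Kt (h1 : St_Fj) (h2 : St_Sp) : St_Kt := by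
  classical
  intro T h α hT hh
  have hT' : (0 : ℝ) < T := by exact_mod_cast hT
  have hh' : (0 : ℝ) < h := by exact_mod_cast hh
  have hKT : KT T h α = ∑ p ∈ (Icc 1 T).sigma fun q => rr q, fj h (α + (p.2 : ℝ) / p.1) := by
    unfold KT
    rw [Finset.sum_sigma]
  have hfar : ∀ γ : ℝ, 1 / (2 * (T : ℝ) ^ 2) ≤ nd γ → fj h γ ≤ (T : ℝ) ^ 4 / (h : ℝ) ^ 2 := by
    intro γ hγ
    obtain ⟨h3, -, h4, -⟩ := h1 h γ hh
    have h5 : 0 < nd γ := lt_of_lt_of_le (by positivity) hγ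
    have h6 : (1 : ℝ) ≤ 2 * (T : ℝ) ^ 2 * nd γ := by
      rw [div_le_iff₀ (by positivity)] at hγ
      linarith
    have h7 : (1 : ℝ) ≤ (2 * (T : ℝ) ^ 2 * nd γ) ^ 2 := one_le_pow₀ h6
    rw [le_div_iff₀ (by positivity)]
    have h8 : 4 * ((h : ℝ) * nd γ) ^ 2 * fj h γ * (T : ℝ) ^ 4 ≤ 1 * (T : ℝ) ^ 4 :=
      mul_le_mul_of_nonneg_right h4 (by positivity)
    have h9 : 0 ≤ fj h γ * (h : ℝ) ^ 2 := by positivity
    have h10 : fj h γ * (h : ℝ) ^ 2 * 1 ≤
        fj h γ * (h : ℝ) ^ 2 * (2 * (T : ℝ) ^ 2 * nd γ) ^ 2 :=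
      mul_le_mul_of_nonneg_left h7 h9
    nlinarith [h8, h10]
  refine ⟨?_, ?_, ?_⟩
  · rw [hKT]
    exact Finset.sum_nonneg fun p _ => (h1 h _ hh).1
  · rw [hKT]
    have hc : 0 ≤ (T : ℝ) ^ 4 / (h : ℝ) ^ 2 := by positivity
    have hcard := kt_card T
    by_cases hnear : ∃ p ∈ (Icc 1 T).sigma fun q => rr q,
        nd (α + (p.2 : ℝ) / p.1) < 1 / (2 * (T : ℝ) ^ 2)
    · obtain ⟨p, hp, hpn⟩ := hnear
      rw [← Finset.add_sum_erase _ _ hp]
      have h3 : ∑ x ∈ ((Icc 1 T).sigma fun q => rr q).erase p, fj h (α + (x.2 : ℝ) / x.1) ≤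
          ∑ x ∈ ((Icc 1 T).sigma fun q => rr q).erase p, (T : ℝ) ^ 4 / (h : ℝ) ^ 2 := by
        refine Finset.sum_le_sum fun x hx => hfar _ ?_
        rw [Finset.mem_erase] at hx
        obtain ⟨hne, hx⟩ := hx
        rw [Finset.mem_sigma, Finset.mem_Icc] at hp hx
        refine h2 T p.1 p.2 x.1 x.2 α hT hp.1.1 hp.1.2 hx.1.1 hx.1.2 hp.2 hx.2 ?_ hpn
        by_contra hcon
        push Not at hcon
        apply hne
        obtain ⟨p1, p2⟩ := p
        obtain ⟨x1, x2⟩ := x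
        obtain ⟨h4, h5⟩ := hcon
        simp only at h4 h5
        subst h4
        subst h5
        rfl
      rw [Finset.sum_const, nsmul_eq_mul] at h3
      have h4 : (((((Icc 1 T).sigma fun q => rr q).erase p).card : ℝ)) ≤ (T : ℝ) ^ 2 := by
        refine le_trans ?_ hcard
        exact_mod_cast Finset.card_erase_le
      have h5 := (h1 h (α + (p.2 : ℝ) / p.1) hh).2.1
      calc fj h (α + (p.2 : ℝ) / p.1) +
            ∑ x ∈ ((Icc 1 T).sigma fun q => rr q).erase p, fj h (α + (x.2 : ℝ) / x.1)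
          ≤ 1 + (T : ℝ) ^ 2 * ((T : ℝ) ^ 4 / (h : ℝ) ^ 2) :=
            add_le_add h5 (h3.trans (mul_le_mul_of_nonneg_right h4 hc))
        _ = 1 + (T : ℝ) ^ 6 / (h : ℝ) ^ 2 := by ring
    · push Not at hnear
      have h3 : ∑ x ∈ (Icc 1 T).sigma fun q => rr q, fj h (α + (x.2 : ℝ) / x.1) ≤
          ∑ x ∈ (Icc 1 T).sigma fun q => rr q, (T : ℝ) ^ 4 / (h : ℝ) ^ 2 :=
        Finset.sum_le_sum fun x hx => hfar _ (hnear x hx)
      rw [Finset.sum_const, nsmul_eq_mul] at h3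
      calc ∑ x ∈ (Icc 1 T).sigma fun q => rr q, fj h (α + (x.2 : ℝ) / x.1)
          ≤ (T : ℝ) ^ 2 * ((T : ℝ) ^ 4 / (h : ℝ) ^ 2) :=
            h3.trans (mul_le_mul_of_nonneg_right hcard hc)
        _ = (T : ℝ) ^ 6 / (h : ℝ) ^ 2 := by ring
        _ ≤ 1 + (T : ℝ) ^ 6 / (h : ℝ) ^ 2 := by linarith
  · intro q a ρ hq hqT ha hρ
    have hq0 : (q : ℤ) ≠ 0 := by exact_mod_cast (by omega : q ≠ 0)
    have hqR : (q : ℝ) ≠ 0 := by exact_mod_cast (by omega : q ≠ 0)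
    obtain ⟨b, hb⟩ : ∃ b : ℕ, (b : ℤ) = (-a) % q :=
      ⟨((-a) % (q : ℤ)).toNat, Int.toNat_of_nonneg (Int.emod_nonneg _ hq0)⟩
    have hbq : b < q := by
      have h3 : (-a) % (q : ℤ) < q := Int.emod_lt_of_pos _ (by exact_mod_cast hq)
      rw [← hb] at h3
      exact_mod_cast h3
    have hdiv : -a = (q : ℤ) * ((-a) / q) + b := by
      rw [hb]
      exact (Int.mul_ediv_add_emod (-a) q).symm
    have hbc : b.Coprime q := by
      rw [← Nat.isCoprime_iff_coprime]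
      have h3 : (b : ℤ) = -a + (q : ℤ) * (-((-a) / q)) := by
        linear_combination -hdiv
      rw [h3]
      exact IsCoprime.add_mul_left_left ha.neg_left _
    have hmem : (⟨q, b⟩ : (_ : ℕ) × ℕ) ∈ (Icc 1 T).sigma fun q => rr q := by
      rw [Finset.mem_sigma, Finset.mem_Icc]
      refine ⟨⟨hq, hqT⟩, ?_⟩
      unfold rr
      rw [Finset.mem_filter, Finset.mem_range]
      exact ⟨hbq, hbc⟩
    have h3 : fj h (α + (b : ℝ) / q) = fj h (α - a / q) := by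
      have h4 : α + (b : ℝ) / q = (α - a / q) + ((-((-a) / q) : ℤ) : ℝ) := by
        have h5 : ((-a : ℤ) : ℝ) = (q : ℝ) * (((-a) / q : ℤ) : ℝ) + b := by
          have h6 : ((-a : ℤ) : ℝ) = (((q : ℤ) * ((-a) / q) + b : ℤ) : ℝ) := by rw [← hdiv]
          rw [h6]
          push_cast
          ring
        have h7 : (b : ℝ) / q = (((-a : ℤ) : ℝ) - (q : ℝ) * (((-a) / q : ℤ) : ℝ)) / q := by
          rw [h5]
          ring
        rw [h7, sub_div, mul_div_cancel_left₀ _ hqR]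
        push_cast
        ring
      rw [h4, kt_fj_int]
    rw [hKT]
    obtain ⟨f, hf⟩ : ∃ f : ((_ : ℕ) × ℕ) → ℝ, ∀ p, f p = fj h (α + (p.2 : ℝ) / p.1) :=
      ⟨_, fun _ => rfl⟩
    have h8 : f ⟨q, b⟩ ≤ ∑ p ∈ (Icc 1 T).sigma fun q => rr q, f p :=
      Finset.single_le_sum (fun p _ => by rw [hf]; exact (h1 h _ hh).1) hmem
    rw [Finset.sum_congr rfl fun p _ => hf p, hf] at h8
    refine le_trans ?_ h8
    rw [h3]
    refine le_trans ?_ (h1 h (α - a / q) hh).2.2.2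
    have h9 : (h : ℝ) * |α - a / q| ≤ h * ρ := mul_le_mul_of_nonneg_left hρ hh'.le
    have h10 : 0 ≤ 2 * Real.pi := by have := Real.pi_pos; positivity
    have h11 := mul_le_mul_of_nonneg_left h9 h10
    linarith

end Pool.Agent.MVII
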