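import Pool.Agent.MVII.St1

set_option autoImplicit false

/-!
# MVII, module Wc: bounds for the components of the model
-/

namespace Pool.Agent.MVII

open Finset Filter
open Pool.Agent.GBQ (ee lam nd Admissible)
open Pool.Agent.MVX (Chr tent Bm Um prm Win GP)
open Pool.Agent.LIN (PP pz)

theorem wc_ee_norm (x : ℝ) : ‖ee x‖ = 1 := Complex.norm_exp_ofReal_mul_I _

theorem wc_ee_add (x y : ℝ) : ee (x + y) = ee x * ee y := by
  unfold ee
  rw [← Complex.exp_add]
  congr 1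
  push_cast
  ring

theorem wc_fj_nonneg (h : ℕ) (γ : ℝ) : 0 ≤ fj h γ := by
  unfold fj
  positivity

theorem wc_fj_le (h : ℕ) (hh : 1 ≤ h) (γ : ℝ) : fj h γ ≤ 1 := by
  unfold fj
  have h1 : ‖∑ j ∈ range h, ee (γ * j)‖ ≤ h := by
    refine (norm_sum_le _ _).trans ?_
    rw [Finset.sum_congr rfl fun j _ => wc_ee_norm _, Finset.sum_const, Finset.card_range,
      nsmul_eq_mul, mul_one]
  have h2 : (0 : ℝ) < (h : ℝ) ^ 2 := by
    have : (0 : ℝ) < h := by exact_mod_cast hh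
    positivity
  rw [div_le_one h2]
  exact pow_le_pow_left₀ (norm_nonneg _) h1 2

theorem wc_lam_nonneg (n : ℕ) : 0 ≤ lam n := ArithmeticFunction.vonMangoldt_nonneg

/-- the coefficient of `lam n * ee (γ * n)` in the transform of the component -/
noncomputable def wc_B (T q a n : ℕ) : ℂ :=
  ∑ r ∈ ud T q, ((ArithmeticFunction.moebius (q / r) : ℂ) / (q.totient : ℂ)) *
    ∑ χ ∈ prm r, ((r : ℂ) / gs ⟨r, χ⟩) * (starRingEnd ℂ) (χ ((q / r : ℕ) : ZMod r)) *
      χ (a : ZMod r) * χ (n : ZMod r)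

theorem wc_mem_ud {T q r : ℕ} (hr : r ∈ ud T q) : 1 ≤ r ∧ r ≤ T ∧ r ≤ q ∧ r ∣ q := by
  unfold ud at hr
  rw [Finset.mem_filter] at hr
  have h1 := Nat.pos_of_mem_divisors hr.1
  have h2 := Nat.divisor_le hr.1
  exact ⟨h1, hr.2.1, h2, Nat.dvd_of_mem_divisors hr.1⟩

theorem wc_gs (h2 : St_Ga) {r : ℕ} (hr : 1 ≤ r) {χ : DirichletCharacter ℂ r} (hχ : χ ∈ prm r) :
    ‖(r : ℂ) / gs ⟨r, χ⟩‖ = Real.sqrt r := by
  have h3 := (h2 r hr χ hχ).1
  have hr' : (0 : ℝ) < r := by exact_mod_cast hr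
  have h4 : ‖gs ⟨r, χ⟩‖ = Real.sqrt r := by
    rw [← h3, Real.sqrt_sq (norm_nonneg _)]
  rw [norm_div, h4, Complex.norm_natCast, div_eq_iff (Real.sqrt_pos.mpr hr').ne']
  exact (Real.mul_self_sqrt hr'.le).symm

theorem wc_mu (n q : ℕ) : ‖(ArithmeticFunction.moebius n : ℂ) / (q.totient : ℂ)‖ ≤
    1 / (q.totient : ℝ) := by
  rw [norm_div, Complex.norm_natCast]
  refine div_le_div_of_nonneg_right ?_ (Nat.cast_nonneg _)
  have h1 : |ArithmeticFunction.moebius n| ≤ 1 := ArithmeticFunction.abs_moebius_le_one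
  rw [Complex.norm_intCast]
  exact_mod_cast h1

theorem wc_term (h2 : St_Ga) {r : ℕ} (hr : 1 ≤ r) {χ : DirichletCharacter ℂ r} (hχ : χ ∈ prm r)
    (k a : ℕ) : ‖((r : ℂ) / gs ⟨r, χ⟩) * (starRingEnd ℂ) (χ ((k : ℕ) : ZMod r)) *
      χ (a : ZMod r)‖ ≤ Real.sqrt r := by
  rw [norm_mul, norm_mul, wc_gs h2 hr hχ]
  have h3 : ‖(starRingEnd ℂ) (χ ((k : ℕ) : ZMod r))‖ ≤ 1 := by
    rw [RCLike.norm_conj]
    exact χ.norm_le_one _
  have h4 : ‖χ (a : ZMod r)‖ ≤ 1 := χ.norm_le_one _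
  calc Real.sqrt r * ‖(starRingEnd ℂ) (χ ((k : ℕ) : ZMod r))‖ * ‖χ (a : ZMod r)‖
      ≤ Real.sqrt r * 1 * 1 := by gcongr
    _ = Real.sqrt r := by ring

theorem wc_one (h2 : St_Ga) (T h u v q a x : ℕ) :
    ‖Wc T h u v q a x‖ ≤ Real.sqrt T / q.totient * NB (BI h u v x) T := by
  unfold Wc
  have hsub : ud T q ⊆ Icc 1 T := fun r hr => by
    have := wc_mem_ud hr
    exact Finset.mem_Icc.mpr ⟨this.1, this.2.1⟩
  calc ‖∑ r ∈ ud T q, ((ArithmeticFunction.moebius (q / r) : ℂ) / (q.totient : ℂ)) *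
        ∑ χ ∈ prm r, ((r : ℂ) / gs ⟨r, χ⟩) * (starRingEnd ℂ) (χ ((q / r : ℕ) : ZMod r)) *
          χ (a : ZMod r) * BI h u v x ⟨r, χ⟩‖
      ≤ ∑ r ∈ ud T q, (1 / (q.totient : ℝ)) *
          ∑ χ ∈ prm r, Real.sqrt T * ‖BI h u v x ⟨r, χ⟩‖ := by
        refine (norm_sum_le _ _).trans (Finset.sum_le_sum fun r hr => ?_)
        have hr' := wc_mem_ud hr
        rw [norm_mul]
        refine mul_le_mul (wc_mu _ _) ?_ (norm_nonneg _) (by positivity)
        refine (norm_sum_le _ _).trans (Finset.sum_le_sum fun χ hχ => ?_)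
        rw [norm_mul]
        refine mul_le_mul_of_nonneg_right ?_ (norm_nonneg _)
        refine (wc_term h2 hr'.1 hχ _ _).trans ?_
        exact Real.sqrt_le_sqrt (by exact_mod_cast hr'.2.1)
    _ ≤ ∑ r ∈ Icc 1 T, (1 / (q.totient : ℝ)) *
          ∑ χ ∈ prm r, Real.sqrt T * ‖BI h u v x ⟨r, χ⟩‖ := by
        refine Finset.sum_le_sum_of_subset_of_nonneg hsub fun r _ _ => ?_
        refine mul_nonneg (by positivity) (Finset.sum_nonneg fun χ _ => ?_)
        exact mul_nonneg (Real.sqrt_nonneg _) (norm_nonneg _)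
    _ = Real.sqrt T / q.totient * NB (BI h u v x) T := by
        unfold NB
        rw [Finset.mul_sum]
        refine Finset.sum_congr rfl fun r _ => ?_
        rw [← Finset.mul_sum]
        ring

theorem wc_trans (h1 : St_Bf) (T h u v q a : ℕ) (γ : ℝ) (hh : 1 ≤ h) (hu : h ≤ u) (hv : u ≤ v) :
    ∑ x ∈ range (v + h), Wc T h u v q a x * ee (γ * x) =
      ((fj h γ : ℝ) : ℂ) * ∑ n ∈ Ioc u v, ((lam n : ℝ) : ℂ) * ee (γ * n) * wc_B T q a n := by
  have e1 : ∑ x ∈ range (v + h), Wc T h u v q a x * ee (γ * x) =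
      ∑ r ∈ ud T q, ((ArithmeticFunction.moebius (q / r) : ℂ) / (q.totient : ℂ)) *
        ∑ χ ∈ prm r, ((r : ℂ) / gs ⟨r, χ⟩) * (starRingEnd ℂ) (χ ((q / r : ℕ) : ZMod r)) *
          χ (a : ZMod r) * ∑ x ∈ range (v + h), BI h u v x ⟨r, χ⟩ * ee (γ * x) := by
    unfold Wc
    simp_rw [Finset.sum_mul]
    rw [Finset.sum_comm]
    refine Finset.sum_congr rfl fun r _ => ?_
    simp_rw [Finset.mul_sum, Finset.sum_mul]
    rw [Finset.sum_comm]
    refine Finset.sum_congr rfl fun χ _ => ?_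
    refine Finset.sum_congr rfl fun x _ => ?_
    ring
  rw [e1]
  have e2 : ∀ r ∈ ud T q, ∀ χ ∈ prm r, ∑ x ∈ range (v + h), BI h u v x ⟨r, χ⟩ * ee (γ * x) =
      ((fj h γ : ℝ) : ℂ) * ∑ n ∈ Ioc u v, (((lam n : ℝ) : ℂ) * χ (n : ZMod r)) * ee (γ * n) :=
    fun r _ χ _ => h1 h u v ⟨r, χ⟩ γ hh hu hv
  have e3 : ∀ r ∈ ud T q, ((ArithmeticFunction.moebius (q / r) : ℂ) / (q.totient : ℂ)) *
        ∑ χ ∈ prm r, ((r : ℂ) / gs ⟨r, χ⟩) * (starRingEnd ℂ) (χ ((q / r : ℕ) : ZMod r)) *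
          χ (a : ZMod r) * ∑ x ∈ range (v + h), BI h u v x ⟨r, χ⟩ * ee (γ * x) =
      ∑ n ∈ Ioc u v, ((fj h γ : ℝ) : ℂ) * (((lam n : ℝ) : ℂ) * ee (γ * n) *
        (((ArithmeticFunction.moebius (q / r) : ℂ) / (q.totient : ℂ)) *
        ∑ χ ∈ prm r, ((r : ℂ) / gs ⟨r, χ⟩) * (starRingEnd ℂ) (χ ((q / r : ℕ) : ZMod r)) *
          χ (a : ZMod r) * χ (n : ZMod r))) := by
    intro r hr
    rw [Finset.sum_congr rfl fun χ hχ => by rw [e2 r hr χ hχ]]
    simp_rw [Finset.mul_sum]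
    rw [Finset.sum_comm]
    refine Finset.sum_congr rfl fun n _ => ?_
    refine Finset.sum_congr rfl fun χ _ => ?_
    ring
  rw [Finset.sum_congr rfl e3, Finset.sum_comm, Finset.mul_sum]
  refine Finset.sum_congr rfl fun n _ => ?_
  unfold wc_B
  rw [← Finset.mul_sum, ← Finset.mul_sum]

theorem wc_B_bd (h2 : St_Ga) (h4 : St_Bl) (T q a n : ℕ) (hq : 1 ≤ q) :
    ‖wc_B T q a n‖ ≤ (q : ℝ) ^ 3 := by
  unfold wc_B
  have hq' : (1 : ℝ) ≤ q := by exact_mod_cast hq
  have hφ : (1 : ℝ) ≤ (q.totient : ℝ) := by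
    exact_mod_cast Nat.totient_pos.mpr hq
  have hcard : ((ud T q).card : ℝ) ≤ q := by
    have h3 : ud T q ⊆ Icc 1 q := fun r hr => by
      have := wc_mem_ud hr
      exact Finset.mem_Icc.mpr ⟨this.1, this.2.2.1⟩
    have h5 := Finset.card_le_card h3
    rw [Nat.card_Icc, Nat.add_sub_cancel] at h5
    exact_mod_cast h5
  calc ‖∑ r ∈ ud T q, ((ArithmeticFunction.moebius (q / r) : ℂ) / (q.totient : ℂ)) *
        ∑ χ ∈ prm r, ((r : ℂ) / gs ⟨r, χ⟩) * (starRingEnd ℂ) (χ ((q / r : ℕ) : ZMod r)) *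
          χ (a : ZMod r) * χ (n : ZMod r)‖
      ≤ ∑ r ∈ ud T q, (q : ℝ) ^ 2 := by
        refine (norm_sum_le _ _).trans (Finset.sum_le_sum fun r hr => ?_)
        have hr' := wc_mem_ud hr
        have hr1 : (1 : ℝ) ≤ r := by exact_mod_cast hr'.1
        have hrq : (r : ℝ) ≤ q := by exact_mod_cast hr'.2.2.1
        rw [norm_mul]
        have h6 : ‖∑ χ ∈ prm r, ((r : ℂ) / gs ⟨r, χ⟩) *
            (starRingEnd ℂ) (χ ((q / r : ℕ) : ZMod r)) * χ (a : ZMod r) * χ (n : ZMod r)‖ ≤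
            (q : ℝ) ^ 2 := by
          calc _ ≤ ∑ χ ∈ prm r, (r : ℝ) := by
                refine (norm_sum_le _ _).trans (Finset.sum_le_sum fun χ hχ => ?_)
                rw [norm_mul]
                have h7 := wc_term h2 hr'.1 hχ (q / r) a
                have h8 : ‖χ (n : ZMod r)‖ ≤ 1 := χ.norm_le_one _
                have h9 : Real.sqrt r ≤ r := by
                  rw [Real.sqrt_le_left (by linarith)]
                  nlinarith
                calc _ ≤ Real.sqrt r * 1 := mul_le_mul h7 h8 (norm_nonneg _) (Real.sqrt_nonneg _)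
                  _ ≤ r := by rw [mul_one]; exact h9
            _ = ((prm r).card : ℝ) * r := by rw [Finset.sum_const, nsmul_eq_mul]
            _ ≤ (r : ℝ) * r := by
                refine mul_le_mul_of_nonneg_right ?_ (by linarith)
                exact_mod_cast h4.2.2.2.2 r hr'.1
            _ ≤ (q : ℝ) ^ 2 := by rw [sq]; gcongr
        calc _ ≤ 1 * (q : ℝ) ^ 2 := by
              refine mul_le_mul ((wc_mu _ _).trans ?_) h6 (norm_nonneg _) zero_le_one
              rw [div_le_one (by linarith)]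
              exact hφ
          _ = (q : ℝ) ^ 2 := one_mul _
    _ = ((ud T q).card : ℝ) * (q : ℝ) ^ 2 := by rw [Finset.sum_const, nsmul_eq_mul]
    _ ≤ (q : ℝ) * (q : ℝ) ^ 2 := by gcongr
    _ = (q : ℝ) ^ 3 := by ring

theorem wc_B_eq (h3 : St_Gi) (T q a n : ℕ) (hq : 1 ≤ q) (hqT : q ≤ T) (ha : a.Coprime q)
    (hn : n.Coprime q) : wc_B T q a n = ee (-((a : ℝ) * n) / q) := by
  have hud : ud T q = ud q q := by
    unfold ud
    refine Finset.filter_congr fun r hr => ?_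
    have h5 := Nat.divisor_le hr
    constructor
    · rintro ⟨-, h6⟩
      exact ⟨h5, h6⟩
    · rintro ⟨-, h6⟩
      exact ⟨h5.trans hqT, h6⟩
  have h5 := h3 q ((a * n : ℕ) : ℤ) hq (by
    rw [Nat.isCoprime_iff_coprime]
    exact Nat.Coprime.mul_left ha hn)
  have h6 : ee (-((((a * n : ℕ) : ℤ)) : ℝ) / q) = ee (-((a : ℝ) * n) / q) := by
    push_cast
    rfl
  rw [← h6, ← h5]
  unfold wc_B
  rw [hud]
  refine Finset.sum_congr rfl fun r _ => ?_
  congr 1
  refine Finset.sum_congr rfl fun χ _ => ?_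
  rw [mul_assoc _ (χ (a : ZMod r)), ← map_mul]
  push_cast
  rfl

/-- the numbers which are not coprime to `q` -/
theorem wc_noncop (u v q : ℕ) (hq : 1 ≤ q) (hv : 1 ≤ v) :
    ∑ n ∈ (Ioc u v).filter (fun n => ¬ n.Coprime q), lam n ≤ (q : ℝ) * Real.log v := by
  classical
  have hlv : 0 ≤ Real.log v := Real.log_nonneg (by exact_mod_cast hv)
  set S := ((Ioc u v).filter (fun n => ¬ n.Coprime q)).filter (fun n => IsPrimePow n) with hS
  have e1 : ∑ n ∈ (Ioc u v).filter (fun n => ¬ n.Coprime q), lam n = ∑ n ∈ S, lam n := by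
    rw [hS, Finset.sum_filter (fun n => IsPrimePow n)]
    refine Finset.sum_congr rfl fun n _ => ?_
    split_ifs with h
    · rfl
    · unfold lam
      exact (ArithmeticFunction.vonMangoldt_eq_zero_iff).mpr h
  rw [e1]
  have hmaps : ∀ n ∈ S, n.minFac ∈ q.primeFactors := by
    intro n hn
    rw [hS, Finset.mem_filter, Finset.mem_filter] at hn
    obtain ⟨⟨-, h1⟩, h2⟩ := hn
    obtain ⟨p, hp, hpn, hpq⟩ := Nat.Prime.not_coprime_iff_dvd.mp h1
    have h3 : n.minFac = p := by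
      obtain ⟨p', k, hp', hk, rfl⟩ := h2
      have hp'' : p'.Prime := hp'.nat_prime
      rw [hp''.pow_minFac hk.ne']
      exact ((Nat.prime_dvd_prime_iff_eq hp hp'').mp (hp.dvd_of_dvd_pow hpn)).symm
    rw [h3]
    exact Nat.mem_primeFactors.mpr ⟨hp, hpq, by omega⟩
  rw [← Finset.sum_fiberwise_of_maps_to hmaps]
  have e2 : ∀ p ∈ q.primeFactors, ∑ n ∈ S with n.minFac = p, lam n ≤ Real.log v := by
    intro p hp
    have hpp := Nat.prime_of_mem_primeFactors hp
    have hlp : 0 ≤ Real.log p := Real.log_nonneg (by exact_mod_cast hpp.one_lt.le)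
    have h1 : ∑ n ∈ S with n.minFac = p, lam n = ∑ n ∈ S with n.minFac = p, Real.log p := by
      refine Finset.sum_congr rfl fun n hn => ?_
      rw [Finset.mem_filter, hS, Finset.mem_filter] at hn
      unfold lam
      rw [ArithmeticFunction.vonMangoldt_apply, if_pos hn.1.2, hn.2]
    have h2 : (S.filter (fun n => n.minFac = p)).card ≤ Nat.log p v := by
      have h3 : S.filter (fun n => n.minFac = p) ⊆ (Icc 1 (Nat.log p v)).image (fun j => p ^ j) := by
        intro n hn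
        rw [Finset.mem_filter, hS, Finset.mem_filter, Finset.mem_filter, Finset.mem_Ioc] at hn
        obtain ⟨⟨⟨⟨-, hnv⟩, -⟩, hpw⟩, hmin⟩ := hn
        obtain ⟨p', k, hp', hk, rfl⟩ := hpw
        have hp'' : p'.Prime := hp'.nat_prime
        rw [hp''.pow_minFac hk.ne'] at hmin
        subst hmin
        refine Finset.mem_image.mpr ⟨k, Finset.mem_Icc.mpr ⟨hk, ?_⟩, rfl⟩
        exact Nat.le_log_of_pow_le hpp.one_lt hnv
      refine (Finset.card_le_card h3).trans (Finset.card_image_le.trans ?_)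
      rw [Nat.card_Icc, Nat.add_sub_cancel]
    rw [h1, Finset.sum_const, nsmul_eq_mul]
    calc ((S.filter (fun n => n.minFac = p)).card : ℝ) * Real.log p
        ≤ (Nat.log p v : ℝ) * Real.log p := by
          refine mul_le_mul_of_nonneg_right ?_ hlp
          exact_mod_cast h2
      _ = Real.log ((p : ℝ) ^ Nat.log p v) := by rw [Real.log_pow]
      _ ≤ Real.log v := by
          refine Real.log_le_log (by have := hpp.pos; positivity) ?_
          exact_mod_cast Nat.pow_log_le_self p (by omega)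
  calc ∑ p ∈ q.primeFactors, ∑ n ∈ S with n.minFac = p, lam n
      ≤ ∑ p ∈ q.primeFactors, Real.log v := Finset.sum_le_sum e2
    _ = (q.primeFactors.card : ℝ) * Real.log v := by rw [Finset.sum_const, nsmul_eq_mul]
    _ ≤ (q : ℝ) * Real.log v := by
        refine mul_le_mul_of_nonneg_right ?_ hlv
        have h3 : q.primeFactors ⊆ Icc 1 q := fun p hp => by
          have h4 := Nat.mem_primeFactors.mp hp
          exact Finset.mem_Icc.mpr ⟨h4.1.one_lt.le, Nat.le_of_dvd (by omega) h4.2.1⟩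
        have h5 := Finset.card_le_card h3
        rw [Nat.card_Icc, Nat.add_sub_cancel] at h5
        exact_mod_cast h5

theorem thm_Wc (h1 : St_Bf) (h2 : St_Ga) (h3 : St_Gi) (h4 : St_Bl) : St_Wc := by
  intro T h u v q a γ hh hu hv hq ha
  have ha' : a.Coprime q := by
    unfold rr at ha
    exact (Finset.mem_filter.mp ha).2
  refine ⟨wc_one h2 T h u v q a, ?_, ?_⟩
  · rw [wc_trans h1 T h u v q a γ hh hu hv, norm_mul, Complex.norm_real,
      Real.norm_of_nonneg (wc_fj_nonneg h γ)]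
    refine mul_le_mul_of_nonneg_left ?_ (wc_fj_nonneg h γ)
    rw [Finset.mul_sum]
    refine (norm_sum_le _ _).trans (Finset.sum_le_sum fun n _ => ?_)
    rw [norm_mul, norm_mul, wc_ee_norm, mul_one, Complex.norm_real,
      Real.norm_of_nonneg (wc_lam_nonneg n), mul_comm]
    exact mul_le_mul_of_nonneg_right (wc_B_bd h2 h4 T q a n hq) (wc_lam_nonneg n)
  · intro hqT
    have hq0 : (q : ℝ) ≠ 0 := by
      have : 0 < q := hq
      positivity
    have hq1 : (1 : ℝ) ≤ q := by exact_mod_cast hq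
    have hv1 : 1 ≤ v := by omega
    have hlv : 0 ≤ Real.log v := Real.log_nonneg (by exact_mod_cast hv1)
    rw [wc_trans h1 T h u v q a γ hh hu hv, ← mul_sub, ← Finset.sum_sub_distrib, norm_mul,
      Complex.norm_real, Real.norm_of_nonneg (wc_fj_nonneg h γ)]
    have e1 : ∀ n ∈ Ioc u v, ‖((lam n : ℝ) : ℂ) * ee (γ * n) * wc_B T q a n -
        ((lam n : ℝ) : ℂ) * ee ((γ - a / q) * n)‖ ≤
        if ¬ n.Coprime q then lam n * ((q : ℝ) ^ 3 + 1) else 0 := by
      intro n _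
      have e2 : ee ((γ - a / q) * n) = ee (γ * n) * ee (-((a : ℝ) * n) / q) := by
        rw [← wc_ee_add]
        congr 1
        field_simp
        ring
      rw [e2, ← mul_assoc, ← mul_sub, norm_mul, norm_mul, wc_ee_norm, mul_one, Complex.norm_real,
        Real.norm_of_nonneg (wc_lam_nonneg n)]
      by_cases hn : n.Coprime q
      · rw [if_neg (not_not.mpr hn), wc_B_eq h3 T q a n hq hqT ha' hn, sub_self, norm_zero,
          mul_zero]
      · rw [if_pos hn]
        refine mul_le_mul_of_nonneg_left ?_ (wc_lam_nonneg n)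
        refine (norm_sub_le _ _).trans ?_
        rw [wc_ee_norm]
        exact add_le_add (wc_B_bd h2 h4 T q a n hq) le_rfl
    have e3 : ‖∑ n ∈ Ioc u v, (((lam n : ℝ) : ℂ) * ee (γ * n) * wc_B T q a n -
        ((lam n : ℝ) : ℂ) * ee ((γ - a / q) * n))‖ ≤ (q : ℝ) * Real.log v * ((q : ℝ) ^ 3 + 1) := by
      refine (norm_sum_le _ _).trans ((Finset.sum_le_sum e1).trans ?_)
      rw [← Finset.sum_filter, ← Finset.sum_mul]
      exact mul_le_mul_of_nonneg_right (wc_noncop u v q hq hv1) (by positivity)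
    calc fj h γ * ‖∑ n ∈ Ioc u v, (((lam n : ℝ) : ℂ) * ee (γ * n) * wc_B T q a n -
          ((lam n : ℝ) : ℂ) * ee ((γ - a / q) * n))‖
        ≤ 1 * ((q : ℝ) * Real.log v * ((q : ℝ) ^ 3 + 1)) :=
          mul_le_mul (wc_fj_le h hh γ) e3 (norm_nonneg _) zero_le_one
      _ ≤ 1 * ((q : ℝ) * Real.log v * (2 * (q : ℝ) ^ 3)) := by
          have h5 : (1 : ℝ) ≤ (q : ℝ) ^ 3 := one_le_pow₀ hq1
          gcongr
          linarith
      _ = 2 * (q : ℝ) ^ 4 * Real.log v := by ring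

end Pool.Agent.MVII
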