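import Mathlib
import Pool.Agent.GBQ.Defs
import Pool.Agent.LIN.Defs
import Pool.Agent.MVX.GP

set_option autoImplicit false

/-!
# MVII: Part II of the Montgomery-Vaughan campaign (problem MP_4011c3_nt)

Circle method, local model, sieve.  Input: `MVX.GP` (local means of `Λ χ`, conductors `≤ X ^ δ`).
Output: for `m ≤ X ^ (δ/10)` at most `X ^ (1 - δ/2)` of the `n` in the block `[X/2, 3X/4]` have no
representation.  Definitions.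
-/

namespace Pool.Agent.MVII

open Finset Filter
open Pool.Agent.GBQ (ee lam nd Admissible)
open Pool.Agent.MVX (Chr tent Bm Um prm Win GP)
open Pool.Agent.LIN (PP pz)

/-! ### parameters -/

/-- conductors `r ≤ T` -/
noncomputable def TT (δ : ℝ) (X : ℕ) : ℕ := ⌊(X : ℝ) ^ δ⌋₊
/-- denominators `r k ≤ Q` -/
noncomputable def QQ (δ : ℝ) (X : ℕ) : ℕ := ⌊(X : ℝ) ^ (30 * δ)⌋₊
/-- windows of the local means -/
noncomputable def HH (δ : ℝ) (X : ℕ) : ℕ := ⌈(X : ℝ) ^ (1 - 10 * δ)⌉₊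
/-- intervals on which the local means are constant -/
noncomputable def H0 (δ : ℝ) (X : ℕ) : ℕ := ⌊(X : ℝ) ^ (1 - 20 * δ)⌋₊

/-! ### Ramanujan sums and the model -/

/-- the Ramanujan sum `c_p(x)` -/
noncomputable def cp (p : ℕ) (x : ℤ) : ℝ := if (p : ℤ) ∣ x then (p : ℝ) - 1 else -1

/-- the Ramanujan sum `c_k(x)` for squarefree `k` -/
noncomputable def cs (k : ℕ) (x : ℤ) : ℝ := ∏ p ∈ k.primeFactors, cp p x

/-- the local factor of the full singular series -/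
noncomputable def gp (p : ℕ) (x : ℤ) : ℝ := if (p : ℤ) ∣ x then 0 else (p : ℝ) / (p - 1)

/-- `∏_{p ≤ Q} (p/(p-1)) 1_{p ∤ x}` -/
noncomputable def GQ (Q : ℕ) (x : ℤ) : ℝ := ∏ p ∈ pz Q, gp p x

/-- the truncated singular series -/
noncomputable def ar (Q r : ℕ) (x : ℤ) : ℝ :=
  (r : ℝ) / r.totient * ∑ k ∈ (Icc 1 (Q / r)).filter (fun k => r.Coprime k),
    (ArithmeticFunction.moebius k : ℝ) / k.totient * cs k x

/-- `∑_{r ≤ T} ∑_{χ mod r primitive} b_χ conj χ(x)` -/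
noncomputable def PL (b : Chr → ℂ) (T : ℕ) (x : ℤ) : ℂ :=
  ∑ r ∈ Icc 1 T, ∑ χ ∈ prm r, b ⟨r, χ⟩ * (starRingEnd ℂ) (χ (x : ZMod r))

/-- the model with constant coefficients `b_χ` -/
noncomputable def PM (b : Chr → ℂ) (T Q : ℕ) (x : ℤ) : ℂ :=
  ∑ r ∈ Icc 1 T, ∑ χ ∈ prm r, b ⟨r, χ⟩ * (starRingEnd ℂ) (χ (x : ZMod r)) * ((ar Q r x : ℝ) : ℂ)

/-- `∑_{r ≤ T} ∑_χ |b_χ|` -/
noncomputable def NB (b : Chr → ℂ) (T : ℕ) : ℝ := ∑ r ∈ Icc 1 T, ∑ χ ∈ prm r, ‖b ⟨r, χ⟩‖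

/-- the local mean at `x` (window `(x - h, x + h)`) of `Λ χ` restricted to `(u, v]` -/
noncomputable def BI (h u v x : ℕ) (c : Chr) : ℂ :=
  ((h : ℂ) ^ 2)⁻¹ * ∑ n ∈ Ioc u v, (((lam n : ℝ) : ℂ) * c.2 (n : ZMod c.1)) * ((tent h x n : ℝ) : ℂ)

/-- the local means of the interface, as a function of the character -/
noncomputable def Bc (h x : ℕ) (c : Chr) : ℂ := Bm h x c.2

/-- the model of `Λ` on `(u, v]` -/
noncomputable def Md (T Q h u v x : ℕ) : ℂ := PM (BI h u v x) T Q (x : ℤ)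

/-! ### Fourier side -/

/-- the kernel of Fejér -/
noncomputable def fj (h : ℕ) (γ : ℝ) : ℝ := ‖∑ j ∈ range h, ee (γ * j)‖ ^ 2 / (h : ℝ) ^ 2

/-- the Gauss sum -/
noncomputable def gs (c : Chr) : ℂ := ∑ b ∈ range c.1, c.2 (b : ZMod c.1) * ee ((b : ℝ) / c.1)

/-- reduced residues modulo `q` -/
def rr (q : ℕ) : Finset ℕ := (range q).filter (fun a => a.Coprime q)

/-- unitary divisors `r ≤ T` of `q` -/
def ud (T q : ℕ) : Finset ℕ := q.divisors.filter (fun r => r ≤ T ∧ r.Coprime (q / r))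

/-- the component of the model at `e(a x / q)` -/
noncomputable def Wc (T h u v q a x : ℕ) : ℂ :=
  ∑ r ∈ ud T q, ((ArithmeticFunction.moebius (q / r) : ℂ) / (q.totient : ℂ)) *
    ∑ χ ∈ prm r, ((r : ℂ) / gs ⟨r, χ⟩) * (starRingEnd ℂ) (χ ((q / r : ℕ) : ZMod r)) *
      χ (a : ZMod r) * BI h u v x ⟨r, χ⟩

/-! ### the sieve -/

/-- lower bound weights of the fundamental lemma -/
structure IsPsi (w : ℕ) (D : ℝ) (ψ : Finset ℕ → ℝ) : Prop where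
  bd : ∀ T, |ψ T| ≤ 1
  supp : ∀ T, ψ T ≠ 0 → T ⊆ PP 2 w ∧ ((∏ p ∈ T, p : ℕ) : ℝ) ≤ D
  low : ∀ S ⊆ PP 2 w, ∑ T ∈ S.powerset, ψ T ≤ if S = ∅ then (1 : ℝ) else 0
  main : ∀ g : ℕ → ℝ, (∀ p : ℕ, p.Prime → 0 ≤ g p ∧ g p ≤ 3 / 4 ∧ g p ≤ 4 / p) →
    3 / 4 * ∏ p ∈ PP 2 w, (1 - g p) ≤ ∑ T ∈ (PP 2 w).powerset, ψ T * ∏ p ∈ T, g p

/-- the combined coefficients: exact for `p ∣ q₁`, weights `ψ` for `p ∤ q₁` -/
noncomputable def sg (q₁ : ℕ) (ψ : Finset ℕ → ℝ) (U : Finset ℕ) : ℝ :=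
  (-1) ^ (U.filter (fun p => p ∣ q₁)).card * ψ (U.filter (fun p => ¬ p ∣ q₁))

/-- the sieve weight for `y ^ 2 - 2` -/
noncomputable def SS (q₁ w : ℕ) (ψ : Finset ℕ → ℝ) (y : ℤ) : ℝ :=
  ∑ U ∈ (PP 2 w).powerset, if ∀ p ∈ U, (p : ℤ) ∣ y ^ 2 - 2 then sg q₁ ψ U else 0

/-! ### means of periodic functions -/

/-- period `M` -/
def Per (M : ℕ) (f : ℤ → ℂ) : Prop := ∀ y : ℤ, f (y + M) = f y

/-- mean over a period -/
noncomputable def mn (M : ℕ) (f : ℤ → ℂ) : ℂ := (∑ y ∈ range M, f y) / M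

/-- the weight `∏_{p ≤ Q} gp p (n - m y) gp p y` -/
noncomputable def wq (Q m n : ℕ) (y : ℤ) : ℝ := GQ Q (n - m * y) * GQ Q y

/-- number of admissible residues modulo `p` -/
noncomputable def nl (w m n p : ℕ) : ℕ :=
  ((range p).filter (fun y : ℕ => ¬ (p : ℤ) ∣ (y : ℤ) ∧ ¬ (p : ℤ) ∣ (n : ℤ) - m * y ∧
    (p < w → ¬ (p : ℤ) ∣ (y : ℤ) ^ 2 - 2))).card

/-- the local density -/
noncomputable def loc (w m n p : ℕ) : ℝ := ((p : ℝ) / (p - 1)) ^ 2 * (nl w m n p / p)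

/-! ### the three sums -/

/-- `∑ Λ(y) S(y) Λ(n - m y)` -/
noncomputable def R0 (m K q₁ w : ℕ) (ψ : Finset ℕ → ℝ) (n : ℕ) : ℝ :=
  ∑ y ∈ Ioc (K / 2) K, lam y * SS q₁ w ψ y * lam (n - m * y)

/-- one function replaced by its model -/
noncomputable def R1 (δ : ℝ) (X m K q₁ w : ℕ) (ψ : Finset ℕ → ℝ) (n : ℕ) : ℝ :=
  ∑ y ∈ Ioc (K / 2) K, lam y * SS q₁ w ψ y *
    (Md (TT δ X) (QQ δ X) (HH δ X) (X / 8) X (n - m * y)).re

/-- both functions replaced by their models -/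
noncomputable def R2 (δ : ℝ) (X m K q₁ w : ℕ) (ψ : Finset ℕ → ℝ) (n : ℕ) : ℝ :=
  ∑ y ∈ range (K + HH δ X), (Md (TT δ X) (QQ δ X) (HH δ X) (K / 2) K y).re * SS q₁ w ψ y *
    (Md (TT δ X) (QQ δ X) (HH δ X) (X / 8) X (n - m * y)).re

/-- the hypothesis on the local means used on the Fourier side -/
def Sum4 (δ : ℝ) (X : ℕ) : Prop :=
  ∀ x : ℕ, HH δ X ≤ x → x ≤ X → NB (Bc (HH δ X) x) (TT δ X) ≤ 4

/-- the block -/
def Blk (X m n : ℕ) : Prop := X ≤ 2 * (n + m) ∧ 4 * n ≤ 3 * X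

/-- what Part II uses of the interface, at `X` -/
structure Dat (δ : ℝ) (X q₁ : ℕ) (χ₁ : DirichletCharacter ℂ q₁) (U : ℕ → ℝ) (l : ℝ) : Prop where
  cond : 1 ≤ q₁ ∧ q₁ ≤ TT δ X
  real : ∀ a : ZMod q₁, (χ₁ a).im = 0
  low : (X : ℝ) ^ (-(δ / 1000)) ≤ l
  one : l ≤ 1
  U_bd : ∀ x : ℕ, HH δ X ≤ x → x ≤ X → 0 ≤ U x ∧ U x ≤ 1 - l / 4
  sum : Sum4 δ X
  main : ∀ x : ℕ, HH δ X ≤ x → x ≤ X → ∀ a : ℤ,
    ‖PL (Bc (HH δ X) x) (TT δ X) a - (1 - χ₁ (a : ZMod q₁) * ((U x : ℝ) : ℂ))‖ ≤ l ^ 3 / 1000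

/-- `y` is a prime, `n - m y` is a prime and `y ^ 2 - 2` has at most `R` prime factors -/
def Sol (R m n y : ℕ) : Prop :=
  y.Prime ∧ m * y < n ∧ (n - m * y).Prime ∧ ArithmeticFunction.cardFactors (y ^ 2 - 2) ≤ R

end Pool.Agent.MVII
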