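import Mathlib
import Pool.Agent.GBQ.Stmts
import Pool.Agent.MVII.Defs

set_option autoImplicit false

/-!
# MVII: statements, first part (Fourier side: the model is close to `Λ` at every frequency)
-/

namespace Pool.Agent.MVII

open Finset Filter
open Pool.Agent.GBQ (ee lam nd Admissible)
open Pool.Agent.MVX (Chr tent Bm Um prm Win GP)
open Pool.Agent.LIN (PP pz)

/-! ### elementary facts -/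

/-- FJ.  The kernel of Fejér.

Proof.  `0 ≤ fj` clear, `‖∑_{j<h} ee(γ j)‖ ≤ h` so `fj ≤ 1`.  If `nd γ ≠ 0` then
`‖∑_{j<h} ee(γ j)‖ ≤ 1/(2 nd γ)` (`GBQ.thm_Geo`, GBQ/... , or BVX; sum over `range h` is `1 +` a sum over
`Ioc 0 (h-1)`, so rather use the geometric sum: `|ee(γ h) - 1| / |ee γ - 1|`, `|ee γ - 1| = 2 |sin(π γ)| ≥ 4 nd γ`);
so `4 (h nd γ)^2 fj ≤ 1`.  `|1 - ee(γ j)| ≤ 2 π |γ| j`, so `‖∑ ee(γ j)‖ ≥ h - π |γ| h^2`,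
`fj ≥ (1 - π |γ| h)^2 ≥ 1 - 2 π |γ| h` if `π |γ| h ≤ 1`; otherwise the right side is negative. -/
def St_Fj : Prop := ∀ (h : ℕ) (γ : ℝ), 1 ≤ h → 0 ≤ fj h γ ∧ fj h γ ≤ 1 ∧
  4 * ((h : ℝ) * nd γ) ^ 2 * fj h γ ≤ 1 ∧ 1 - 2 * Real.pi * (h * |γ|) ≤ fj h γ

/-- BF.  The Fourier transform of the local means.

Proof.  For every `n ∈ (u, v]`, `u ≥ h`: `∑_{x < v + h} tent h x n ee(γ x) = ee(γ n) ∑_{|d| < h} (h - |d|) ee(γ d)`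
(`tent h x n = max 0 (h - |n - x|)` vanishes unless `n - h < x < n + h`, all these `x` are in `[1, v + h)`), and
`∑_{|d|<h} (h - |d|) ee(γ d) = ∑_{i,j<h} ee(γ (i - j)) = ‖∑_{j<h} ee(γ j)‖^2 = h^2 fj h γ`. -/
def St_Bf : Prop := ∀ (h u v : ℕ) (c : Chr) (γ : ℝ), 1 ≤ h → h ≤ u → u ≤ v →
  ∑ x ∈ range (v + h), BI h u v x c * ee (γ * x) =
    ((fj h γ : ℝ) : ℂ) * ∑ n ∈ Ioc u v, (((lam n : ℝ) : ℂ) * c.2 (n : ZMod c.1)) * ee (γ * n)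

/-- BL.  Local means: trivial bound, interior, Lipschitz; number of primitive characters.

Proof.  `∑_n tent h x n ≤ h^2` (the sum of `h - |d|` over `|d| < h`), `Λ(n) ≤ log n ≤ log v`: first claim.
Second: if `u + h ≤ x`, `x + h ≤ v + 1` then `tent h x n ≠ 0` implies `x - h < n < x + h`, so `u < n ≤ v`, and
`1 ≤ n ≤ x + h`: the sums over `Ioc u v` and `Icc 1 (x + h)` are equal.  Third: `BI h u v x c = 0` if `x ≤ u - h` or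
`x ≥ v + h`.  Fourth: `|tent h x n - tent h x' n| ≤ |x - x'|` and the difference vanishes unless
`|n - x| < h` or `|n - x'| < h` (at most `4 h` values `n ≥ 1`, all `≤ x + h` or `≤ x' + h`, so
`Λ(n) ≤ log(2 X)` for `x, x' ≤ X`, `h ≤ X`): `‖Bm h x - Bm h x'‖ ≤ h^{-2} 4 h |x - x'| log(2X)`.
Fifth: the number of Dirichlet characters modulo `r ≥ 1` is `φ(r) ≤ r`
(Mathlib `DirichletCharacter.card_eq_totient_of_hasEnoughRootsOfUnity`, or `BVX.all_chars`). -/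
def St_Bl : Prop :=
  (∀ (h u v x : ℕ) (c : Chr), 1 ≤ h → 1 ≤ v → ‖BI h u v x c‖ ≤ Real.log v) ∧
  (∀ (h u v x : ℕ) (c : Chr), 1 ≤ h → u + h ≤ x → x + h ≤ v + 1 → BI h u v x c = Bc h x c) ∧
  (∀ (h u v x : ℕ) (c : Chr), (x + h ≤ u ∨ v + h ≤ x) → BI h u v x c = 0) ∧
  (∀ (X h x x' : ℕ) (c : Chr), 1 ≤ h → h ≤ X → x ≤ X → x' ≤ X →
    ‖Bc h x c - Bc h x' c‖ ≤ 4 * |(x : ℝ) - x'| * Real.log (2 * X) / h) ∧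
  (∀ r : ℕ, 1 ≤ r → (prm r).card ≤ r)

/-- EP.  Elementary bounds with `X ^ ε`.

Proof.  (1) the divisor bound `τ(n) ≤ C_η n^η` (find it in the library or prove it: `n = ∏ p^a`,
`(a + 1)/p^{a η} ≤ C`, `≤ 1` for `p ≥ p₀`), applied to `n ≤ X^4`, `η = ε/8`, `C_η ≤ X^{ε/2}` for large `X`.
(2) `log X ^ k = o(X^ε)`.
(3) `q = ∏ p^a ≥ ∏_{p ∣ q} p`, `q/φ(q) = ∏ p/(p-1) ≤ 2^{ω(q)} ≤ τ(q)`.
(4) `|cs k x| = ∏_{p ∣ k, p ∣ x} (p-1) ≤ φ(gcd(k,x))` for squarefree `k`; so `|ar Q r x| ≤ (r/φ(r)) ∑_{g ∣ x} ∑_{k' ≤ Q}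
μ^2(k')/φ(k')` (`k = g k'`, `g = gcd(k, x)`), `1/φ(k') ≤ 2^{ω(k')}/k'` for squarefree `k'`, and `GBQ.thm_Div`
(`∑_{k ≤ Q} 2^{ω(k)}/k ≤ (1 + log Q)^2`): `|ar Q r x| ≤ τ(r) τ(|x|) (1 + log Q)^2`.
(5) `|sg| ≤ 1` and the `U` with `p ∣ y^2 - 2` for all `p ∈ U` are subsets of the prime factors of `y^2 - 2 ≠ 0`:
at most `2^{ω} ≤ τ(|y^2 - 2|)`, `|y^2 - 2| ≤ 4 X^2 + 2 ≤ X^3`.
(6) `4^{ω(q)} ≤ τ(q)^2`. -/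
def St_Ep : Prop := ∀ ε : ℝ, 0 < ε → ∀ k : ℕ, ∀ᶠ X : ℕ in atTop,
  (∀ n : ℕ, 1 ≤ n → n ≤ X ^ 4 → (n.divisors.card : ℝ) ≤ (X : ℝ) ^ ε) ∧
  (1 + Real.log (2 * X)) ^ k ≤ (X : ℝ) ^ ε ∧
  (∀ q : ℕ, 1 ≤ q → q ≤ X → (q : ℝ) ≤ q.totient * (X : ℝ) ^ ε ∧
    (4 : ℝ) ^ q.primeFactors.card ≤ (X : ℝ) ^ ε) ∧
  (∀ (Q r : ℕ) (x : ℤ), Q ≤ X → 1 ≤ r → r ≤ X → x ≠ 0 → |x| ≤ 2 * X → |ar Q r x| ≤ (X : ℝ) ^ ε) ∧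
  (∀ (q₁ w : ℕ) (D : ℝ) (ψ : Finset ℕ → ℝ) (y : ℤ), IsPsi w D ψ → |y| ≤ 2 * X →
    |SS q₁ w ψ y| ≤ (X : ℝ) ^ ε)

/-- SP.  Separation of fractions.

Proof.  If both are `< 1/(2 Q^2)`: `nd(a/q - a'/q') < 1/Q^2` (`nd` is subadditive and even), but
`a/q - a'/q'` is not an integer (two different fractions in lowest terms in `[0, 1)`; `a = a' = 0` only for
`q = q' = 1`) and has denominator `≤ q q' ≤ Q^2`, so `nd ≥ 1/Q^2`.  See `BVX.farey_spacing`. -/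
def St_Sp : Prop := ∀ (Q q a q' a' : ℕ) (α : ℝ), 1 ≤ Q → 1 ≤ q → q ≤ Q → 1 ≤ q' → q' ≤ Q →
  a ∈ rr q → a' ∈ rr q' → (q ≠ q' ∨ a ≠ a') → nd (α + a / q) < 1 / (2 * (Q : ℝ) ^ 2) →
  1 / (2 * (Q : ℝ) ^ 2) ≤ nd (α + a' / q')

/-! ### characters -/

/-- GA.  Gauss sums.

Proof.  With `ψ = ZMod.stdAddChar`: `gs ⟨r, χ⟩ = gaussSum χ ψ` (sum over `ZMod r` as a sum over `range r`, `BVX.std_ee`).
(1) `BVX.gauss_sq`.  (2) Mathlib `gaussSum_mulShift_of_isPrimitive` (`χ⁻¹ x = conj (χ x)`), for all `x`.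
(3) For all `q = r k`, all `χ ∈ prm r`: `∑_{a mod q, (a,q)=1} χ(a) ee(a/q) = ∑_{d ∣ q} μ(d) χ(d) ∑_{b mod q/d} χ(b) ee(b/(q/d))`
(`∑_{d ∣ (a,q)} μ(d)`, `a = d b`).  If `r ∤ q/d` then `χ(d) = 0` (if `(d, r) = 1` then `r ∣ d (q/d)` gives `r ∣ q/d`).
If `q/d = r j`, `b = b₀ + r i`, `i < j`: the inner sum is `∑_{b₀ mod r} χ(b₀) ee(b₀/(r j)) ∑_{i<j} ee(i/j)`, which is `0` for
`j > 1`.  So only `d = k` is left: `μ(k) χ(k) gs`.  The general `c` coprime to `q`: substitute `a → a c⁻¹`: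
`∑_a χ(a) ee(c a/q) = conj χ(c) ∑_a χ(a) ee(a/q)`. -/
def St_Ga : Prop := ∀ (r : ℕ), 1 ≤ r → ∀ χ ∈ prm r,
  (‖gs ⟨r, χ⟩‖ ^ 2 = r) ∧
  (∀ x : ℤ, ∑ b ∈ range r, χ (b : ZMod r) * ee ((b : ℝ) * x / r) =
    (starRingEnd ℂ) (χ (x : ZMod r)) * gs ⟨r, χ⟩) ∧
  (∀ (k : ℕ) (c : ℤ), 1 ≤ k → IsCoprime c ((r * k : ℕ) : ℤ) →
    ∑ a ∈ rr (r * k), χ (a : ZMod r) * ee ((c : ℝ) * a / (r * k : ℕ)) =
      (starRingEnd ℂ) (χ (c : ZMod r)) * (ArithmeticFunction.moebius k : ℂ) * χ (k : ZMod r) *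
        gs ⟨r, χ⟩)

/-- CR.  Expansion of `conj χ(x) c_k(x)` in additive characters.

Proof.  (i) For coprime `r`, `k`: `(b, c) ↦ (b k + c r) mod r k` is a bijection of `rr r × rr k` onto `rr (r k)`.
(ii) `cs k x = ∑_{c ∈ rr k} ee(c x/k)` for squarefree `k`: both sides are multiplicative in `k` (by (i)), and for a prime
`∑_{c=1}^{p-1} ee(c x/p) = p 1_{p ∣ x} - 1 = cp p x`.
(iii) `∑_{a ∈ rr (r k)} χ(a) ee(a x/(r k)) = ∑_{b,c} χ(b k) ee(b x/r) ee(c x/k) = χ(k) (∑_b χ(b) ee(b x/r)) cs k x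
= χ(k) conj(χ x) gs cs k x` by GA (2) (`χ(b) = 0` for `b` not coprime to `r`), and `conj χ(k) χ(k) = 1`, `gs ≠ 0`. -/
def St_Cr : Prop := ∀ (r k : ℕ), 1 ≤ r → Squarefree k → r.Coprime k → ∀ χ ∈ prm r, ∀ x : ℤ,
  (starRingEnd ℂ) (χ (x : ZMod r)) * ((cs k x : ℝ) : ℂ) =
    (starRingEnd ℂ) (χ (k : ZMod r)) / gs ⟨r, χ⟩ *
      ∑ a ∈ rr (r * k), χ (a : ZMod r) * ee ((a : ℝ) * x / (r * k : ℕ))

/-- GI.  All characters modulo `q` together give `ee(- c/q)`.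

Proof.  Orthogonality of the Dirichlet characters modulo `q`: for `(c, q) = 1`
`ee(-c/q) = (1/φ(q)) ∑_{ψ mod q} ψ(c) ∑_{a ∈ rr q} conj ψ(a) ee(-a/q)`.  Every `ψ` is induced by exactly one
`χ ∈ prm r`, `r ∣ q` (`r` = conductor); `ψ(a) = χ(a)` for `(a, q) = 1`.  `conj χ ∈ prm r` (`BVX.isPrimitive_inv`), and by
GA (3) with `conj χ`, `c = -1`, `k = q/r`:
`∑_a conj χ(a) ee(-a/q) = χ(-1) μ(k) conj χ(k) gs(conj χ)`, which is `0` unless `(k, r) = 1`.  Finally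
`χ(-1) gs(conj χ) = conj(gs χ) = r/gs χ` (`|gs χ|^2 = r`). -/
def St_Gi : Prop := ∀ (q : ℕ) (c : ℤ), 1 ≤ q → IsCoprime c (q : ℤ) →
  ∑ r ∈ ud q q, ((ArithmeticFunction.moebius (q / r) : ℂ) / (q.totient : ℂ)) *
    ∑ χ ∈ prm r, ((r : ℂ) / gs ⟨r, χ⟩) * (starRingEnd ℂ) (χ ((q / r : ℕ) : ZMod r)) *
      χ (c : ZMod r) = ee (-(c : ℝ) / q)

/-- EX.  The model as a sum of components.

Proof.  Insert CR in `Md = ∑_r ∑_χ BI (r/φ(r)) ∑_{k ≤ Q/r, (k,r)=1} (μ(k)/φ(k)) conj χ(x) cs k x` (terms with `μ(k) ≠ 0`,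
so `k` squarefree) and order by `q = r k` (`r ≤ T`, `k ≤ Q/r` iff `q ≤ Q`, `r ∈ ud T q`, `k = q/r`; `T ≤ Q` not
needed); `φ(r) φ(k) = φ(q)`; the sum over `χ` and the sum over `a` are interchanged. -/
def St_Ex : Prop := ∀ T Q h u v x : ℕ, Md T Q h u v x =
  ∑ q ∈ Icc 1 Q, ∑ a ∈ rr q, ee ((a : ℝ) * x / q) * Wc T h u v q a x

/-- WC.  Bounds for the components.

Proof.  (1) `‖r/gs‖ = √r ≤ √T`, `|μ| ≤ 1`, `|χ| ≤ 1`, `ud T q ⊆ Icc 1 T`.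
(2) By BF the sum is `fj h γ ∑_n lam(n) ee(γ n) B_T(n)`,
`B_T(n) = ∑_{r ∈ ud T q} (μ(q/r)/φ(q)) ∑_χ (r/gs) conj χ(q/r) χ(a) χ(n)`,
`|B_T(n)| ≤ ∑_{r ∣ q} √r r/φ(q) ≤ q^3` (`#prm r ≤ r`).
(3) If `q ≤ T` then `ud T q = ud q q` and `B_T(n) = ee(-a n/q)` for `(n, q) = 1` by GI (`(a n, q) = 1`).  The `n` with
`(n, q) > 1`: `∑_{n ≤ v, (n,q)>1} Λ(n) ≤ ∑_{p ∣ q} log v ≤ q log v` (`Λ(n) ≠ 0` only for `n = p^j`, `j ≤ log v/log p`),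
each with an error `≤ q^3 + 1`. -/
def St_Wc : Prop := ∀ (T h u v q a : ℕ) (γ : ℝ), 1 ≤ h → h ≤ u → u ≤ v → 1 ≤ q → a ∈ rr q →
  (∀ x : ℕ, ‖Wc T h u v q a x‖ ≤ Real.sqrt T / q.totient * NB (BI h u v x) T) ∧
  (‖∑ x ∈ range (v + h), Wc T h u v q a x * ee (γ * x)‖ ≤
    fj h γ * ((q : ℝ) ^ 3 * ∑ n ∈ Ioc u v, lam n)) ∧
  (q ≤ T → ‖∑ x ∈ range (v + h), Wc T h u v q a x * ee (γ * x) -
    ((fj h γ : ℝ) : ℂ) * ∑ n ∈ Ioc u v, ((lam n : ℝ) : ℂ) * ee ((γ - a / q) * n)‖ ≤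
      2 * (q : ℝ) ^ 4 * Real.log v)

/-- the number of fractions with denominator `≤ T` close to `-α`, with the kernel as weight -/
noncomputable def KT (T h : ℕ) (α : ℝ) : ℝ := ∑ q ∈ Icc 1 T, ∑ a ∈ rr q, fj h (α + a / q)

/-- KT.  Bounds for `K_T`.

Proof.  `fj ≥ 0`.  By SP (with `Q := T`) at most one pair `(q, a)` has `nd (α + a/q) < 1/(2 T^2)`; for the others
`4 (h nd)^2 fj ≤ 1` gives `fj ≤ T^4/h^2`; at most `T^2` pairs: `K_T ≤ 1 + T^6/h^2`.  Second: `a' = (-a) mod q ∈ rr q`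
(`q = 1`: `a' = 0`), `α + a'/q = (α - a/q) + integer`, `fj` has period `1`, FJ: `fj h (α + a'/q) ≥ 1 - 2 π h ρ`. -/
def St_Kt : Prop := ∀ (T h : ℕ) (α : ℝ), 1 ≤ T → 1 ≤ h → 0 ≤ KT T h α ∧
  KT T h α ≤ 1 + (T : ℝ) ^ 6 / (h : ℝ) ^ 2 ∧
  ∀ (q : ℕ) (a : ℤ) (ρ : ℝ), 1 ≤ q → q ≤ T → IsCoprime a (q : ℤ) → |α - a / q| ≤ ρ →
    1 - 2 * Real.pi * (h * ρ) ≤ KT T h α

/-- MF.  The transform of the model, finite form.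

Proof.  By EX the transform of the model is `∑_{q ≤ Q} ∑_{a ∈ rr q} ∑_x Wc(x) ee((α + a/q) x)`.
`q ≤ T`: WC (3) with `γ = α + a/q` (`γ - a/q = α`), at most `T^2` pairs: `F K_T + O(2 T^6 log v)`.
`T < q ≤ Q`: by SP (with `Q`) at most one pair has `nd γ < 1/(2 Q^2)`: for it `‖∑_x Wc ee‖ ≤ ∑_x ‖Wc‖ ≤ √T η ∑_x NB` (WC (1)).
The others: `fj h γ ≤ Q^4/h^2` and WC (2): at most `Q^2 (Q^4/h^2) Q^3 ∑ lam`. -/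
def St_Mf : Prop := ∀ (T Q h u v : ℕ) (α η : ℝ), 1 ≤ h → h ≤ u → u ≤ v → 1 ≤ T → T ≤ Q → 0 ≤ η →
  (∀ q : ℕ, T < q → q ≤ Q → 1 / (q.totient : ℝ) ≤ η) →
  ‖∑ x ∈ range (v + h), Md T Q h u v x * ee (α * x) -
      ((KT T h α : ℝ) : ℂ) * ∑ n ∈ Ioc u v, ((lam n : ℝ) : ℂ) * ee (α * n)‖ ≤
    2 * (T : ℝ) ^ 6 * Real.log v + (Q : ℝ) ^ 9 / (h : ℝ) ^ 2 * ∑ n ∈ Ioc u v, lam n +
      Real.sqrt T * η * ∑ x ∈ range (v + h), NB (BI h u v x) T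

/-- SU.  The Fourier transform of the difference is small everywhere.

Proof.  `F = ∑_{n ∈ Ioc u v} Λ(n) ee(α n)`, `ε = δ/1000`.
(I) MF with `η = X^{-δ+ε}` (`φ(q) ≥ q X^{-ε}`, `q ≥ T + 1 > X^δ`, EP).  `∑_{x < v + h} NB (BI h u v x) T`: the
interior `x` (`u + h ≤ x`, `x + h ≤ v + 1`) have `NB ≤ 4` by BL (2) and the hypothesis; the others with `BI ≠ 0` (BL (3)) are at
most `4 h + 4` values with `NB ≤ T^2 log X` (BL (1), (5)): total `≤ 4 X + (4h+4) T^2 log X ≤ 5 X` (`-10 δ + 2 δ < 0`).  So the three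
error terms are `≤ X^{1 - δ/2 + 2ε}` (`Q^9 X log X/h^2 ≤ 1` since `270 δ + 20 δ < 1`).
(II) it remains `‖F‖ |1 - K_T|`.  Dirichlet (`Real.exists_rat_abs_sub_le_and_den_le`), `N₀ = ⌊X^{1-δ}⌋`:
`|α - a/q| ≤ 1/(q (N₀+1))`, `q ≤ N₀`.
If `q ≤ T`: `‖F‖ ≤ X log X`, `|1 - K_T| ≤ 2 π h X^{-1+δ} + T^6/h^2 ≤ 20 X^{-9δ}` (KT).
If `q > T`: `GBQ.St_Vin` for `N = v` and `N = u` (`≥ 3`): `‖F‖ ≤ 2 C (X/√q + X^{5/6} + √(X q)) (log X)^C ≤ X^{1-δ/2+ε}`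
(`X^δ < q ≤ X^{1-δ}`, `5/6 ≤ 1 - δ/2`), and `|1 - K_T| ≤ 2`.  Everything together `≤ X^{1 - 0.49 δ}`. -/
def St_Su : Prop := ∀ δ : ℝ, 0 < δ → δ ≤ 1 / 310 → ∀ᶠ X : ℕ in atTop, Sum4 δ X →
  ∀ u v : ℕ, HH δ X ≤ u → u ≤ v → v ≤ X → ∀ α : ℝ,
  ‖∑ x ∈ range (v + HH δ X), (((if u < x ∧ x ≤ v then lam x else 0 : ℝ) : ℂ) -
      Md (TT δ X) (QQ δ X) (HH δ X) u v x) * ee (α * x)‖ ≤ (X : ℝ) ^ (1 - 49 / 100 * δ)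

/-! ### replacing the functions -/

/-- RE.  The model is real.

Proof.  `χ ↦ χ⁻¹` is a bijection of `prm r` (`BVX.isPrimitive_inv`), `χ⁻¹ x = conj (χ x)`
(`MulChar.star_apply'`), `BI h u v x ⟨r, χ⁻¹⟩ = conj (BI h u v x ⟨r, χ⟩)` and `ar` is real:
the sum over `χ ∈ prm r` is equal to its conjugate. -/
def St_Re : Prop := ∀ T Q h u v x : ℕ, (Md T Q h u v x).im = 0

/-- SW.  The sieve weight costs little in the supremum norm.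

Proof.  `1_{y = ν mod d} = (1/d) ∑_{j<d} ee(j (y - ν)/d)`, so multiplication by it does not increase
`sup_α ‖∑ F(x) ee(α x)‖`.  For `U` with `sg q₁ ψ U ≠ 0`, `d = ∏_{p ∈ U} p`:
`1_{∀ p ∈ U, p ∣ y^2 - 2} = ∑_ν 1_{y = ν mod d}` over the `ν < d` with `∀ p ∈ U, p ∣ ν^2 - 2`, at most `2^{#U}` of them
(at most two roots modulo each prime, Chinese remainder: `GBQ.thm_Crt`).  Sum over `U = U₁ ∪ T`,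
`U₁ = {p ∈ U : p ∣ q₁}`, `ψ T ≠ 0`: `∑ 2^{#U₁ + #T} ≤ 3^{ω(q₁)} ∑_{T : ∏ T ≤ D} 2^{#T} ≤ 3^{ω(q₁)} ∑_{d ≤ D} d
≤ 4^{ω(q₁)} D^2` (`2^{#T} ≤ ∏ T`, `T ↦ ∏ T` is injective). -/
def St_Sw : Prop := ∀ (q₁ w N : ℕ) (D M : ℝ) (ψ : Finset ℕ → ℝ) (F : ℕ → ℂ), 1 ≤ q₁ → 1 ≤ D →
  IsPsi w D ψ → (∀ α : ℝ, ‖∑ x ∈ range N, F x * ee (α * x)‖ ≤ M) → ∀ α : ℝ,
  ‖∑ x ∈ range N, F x * ((SS q₁ w ψ (x : ℤ) : ℝ) : ℂ) * ee (α * x)‖ ≤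
    (4 : ℝ) ^ q₁.primeFactors.card * D ^ 2 * M

/-- E1.  The mean square of the first error.

Proof.  `K = X/(8m)` (natural division), `h = HH δ X`, `ε = δ/1000`, `M = X^{1 - 0.49 δ}`.  SU for `(u, v) = (X/8, X)`; the same bound
holds for the real part of the model (`∑ (Re G)(x) ee(α x) = (1/2) (∑ G ee(α x) + conj ∑ G ee(-α x))`, `G = Md`, the rest is real).
`R0 - R1 = ∑_y w(y) f(n - m y)`, `w(y) = Λ(y) SS(y) 1_{K/2 < y ≤ K}`, `f(x) = Λ(x) 1_{X/8 < x ≤ X} - Re Md(x)`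
(for `n` in the block and `y ≤ K`: `X/8 < n - m y ≤ X`).  `GBQ.St_L2` with `2 X` in place of `X` (`f = 0` beyond `X + h`, BL (3)):
`∑_n (R0 - R1)^2 ≤ M^2 ∑ w^2 ≤ X^{2 - 0.98 δ} X^{1 + 3ε}` (EP (5), `Λ ≤ log X ≤ X^{ε/2}`). -/
def St_E1 : Prop := ∀ δ : ℝ, 0 < δ → δ ≤ 1 / 310 → ∀ᶠ X : ℕ in atTop, Sum4 δ X →
  ∀ (m q₁ w : ℕ) (ψ : Finset ℕ → ℝ), 1 ≤ m → (m : ℝ) ≤ (X : ℝ) ^ (δ / 10) → 1 ≤ q₁ →
  q₁ ≤ TT δ X → IsPsi w ((X : ℝ) ^ (δ / 40)) ψ → ∀ F : Finset ℕ, (∀ n ∈ F, Blk X m n) →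
  ∑ n ∈ F, (R0 m (X / (8 * m)) q₁ w ψ n - R1 δ X m (X / (8 * m)) q₁ w ψ n) ^ 2 ≤
    (X : ℝ) ^ (3 - 97 / 100 * δ)

/-- E2.  The mean square of the second error.

Proof.  `K`, `h`, `ε`, `M` as in E1; for large `X`: `2 h ≤ K/2` (`m ≤ X^{δ/10}`).  SU for `(u, v) = (K/2, K)`.
`R1 - R2 = ∑_{y < K + h} F(y) SS(y) w₂(n - m y)`, `F(y) = Λ(y) 1_{K/2<y≤K} - Re Md(y)`, `w₂ = Re Md` for `(X/8, X)`
(`m y ≤ X/8 + m h ≤ n`).  This is `∑_{k ≤ n} w₂(k) f₂(n - k)`, `f₂(v) = F(v/m) SS(v/m)` if `m ∣ v`, else `0`;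
`sup |f₂^(α)| = sup |(F SS)^(α m)| ≤ 4^{ω(q₁)} D^2 M ≤ X^{1 - 0.49 δ + δ/20 + ε} = M₂` (SW, `D = X^{δ/40}`, `4^{ω} ≤ X^ε`).
`GBQ.St_L2` with `m = 1`, `K = X = 2X`: `≤ M₂^2 ∑ w₂^2`; `|w₂(x)| ≤ NB(BI x) sup|ar| ≤ 4 X^ε` in the interior, `≤ T^2 (log X) X^ε` for at
most `4 h + 4` other `x` (BL, EP): `∑ w₂^2 ≤ X^{1+3ε}` (`-10 δ + 4 δ < 0`).  Total `X^{3 - 0.88 δ + 5 ε}`. -/
def St_E2 : Prop := ∀ δ : ℝ, 0 < δ → δ ≤ 1 / 310 → ∀ᶠ X : ℕ in atTop, Sum4 δ X →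
  ∀ (m q₁ w : ℕ) (ψ : Finset ℕ → ℝ), 1 ≤ m → (m : ℝ) ≤ (X : ℝ) ^ (δ / 10) → 1 ≤ q₁ →
  q₁ ≤ TT δ X → IsPsi w ((X : ℝ) ^ (δ / 40)) ψ → ∀ F : Finset ℕ, (∀ n ∈ F, Blk X m n) →
  ∑ n ∈ F, (R1 δ X m (X / (8 * m)) q₁ w ψ n - R2 δ X m (X / (8 * m)) q₁ w ψ n) ^ 2 ≤
    (X : ℝ) ^ (3 - 87 / 100 * δ)

end Pool.Agent.MVII
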