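import Mathlib
import Pool.Agent.MVII.Defs

set_option autoImplicit false

/-!
# MVII: statements, second part (local model and sieve)
-/

namespace Pool.Agent.MVII

open Finset Filter
open Pool.Agent.GBQ (ee lam nd Admissible)
open Pool.Agent.MVX (Chr tent Bm Um prm Win GP)
open Pool.Agent.LIN (PP pz)

/-! ### means of periodic functions -/

/-- MT.  Means: independence of the period, products over coprime periods, short sums.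

Proof.  (1) both are equal to `mn (a b) f` (`∑_{y < a b} f = b ∑_{y < a} f`).
(2) `∑_{y < a b} f(y) g(y)`: `y ↦ (y mod a, y mod b)` is a bijection of `range (a b)` onto `range a × range b`, `f(y) = f(y mod a)`.
(3) induction on `S` with (2) (the product over `S` has period `∏_{p ∈ S} p`).
(4) write `L = c q + s`, `s < q`: `c` full periods give `c q mn q f`, the remaining `s < q` terms and
`s mn q f` are at most `q B` each (`‖mn q f‖ ≤ B`).  The sum of a function of period `q` over any `q` consecutive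
integers is `q mn q f`. -/
def St_Mt : Prop :=
  (∀ (a b : ℕ) (f : ℤ → ℂ), 1 ≤ a → 1 ≤ b → Per a f → Per b f → mn a f = mn b f) ∧
  (∀ (a b : ℕ) (f g : ℤ → ℂ), 1 ≤ a → 1 ≤ b → a.Coprime b → Per a f → Per b g →
    mn (a * b) (fun y => f y * g y) = mn a f * mn b g) ∧
  (∀ (S : Finset ℕ) (f : ℕ → ℤ → ℂ), (∀ p ∈ S, p.Prime) → (∀ p ∈ S, Per p (f p)) →
    mn (∏ p ∈ S, p) (fun y => ∏ p ∈ S, f p y) = ∏ p ∈ S, mn p (f p)) ∧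
  (∀ (q t L : ℕ) (f : ℤ → ℂ) (B : ℝ), 1 ≤ q → Per q f → (∀ y, ‖f y‖ ≤ B) →
    ‖∑ y ∈ Ioc t (t + L), f (y : ℤ) - (L : ℂ) * mn q f‖ ≤ 2 * q * B)

/-- LO.  Means of the local Ramanujan sums.

Proof.  `cp p` takes the value `p - 1` on one residue class and `-1` on the others: mean `0`.  `n - m y ≡ 0` holds for
exactly one class of `y` as `p ∤ m`.  Product: if `p ∣ n` both are `p - 1` for `y ≡ 0` and `-1` otherwise: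
`((p-1)^2 + (p-1))/p = p - 1 = cp p n`.  If `p ∤ n` the two classes are different:
`(2 (p-1)(-1) + (p-2))/p = -1 = cp p n`. -/
def St_Lo : Prop := ∀ (p m : ℕ) (n : ℤ), p.Prime → ¬ p ∣ m →
  mn p (fun y => ((cp p y : ℝ) : ℂ)) = 0 ∧ mn p (fun y => ((cp p (n - m * y) : ℝ) : ℂ)) = 0 ∧
  mn p (fun y => ((cp p (n - m * y) * cp p y : ℝ) : ℂ)) = ((cp p n : ℝ) : ℂ)

/-- OR.  Orthogonality.  `V`, `W` sets of primes, `Φ` of period `E`, bounded by `1`.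

Proof.  Let `A`, `A'` be the sets of the `p ∈ V`, `p ∈ W` that do not divide `E`.  The function is `f g` with
`f = Φ ∏_{p ∈ V∖A} cp p (n - m y) ∏_{p ∈ W∖A'} cp p y` of period `E`,
`‖f‖ ≤ ∏_{V∖A} (p-1) ∏_{W∖A'} (p-1)` (`|cp p x| ≤ p - 1`),
and `g = ∏_{p ∈ A} cp p (n - m y) ∏_{p ∈ A'} cp p y` of period `∏_{p ∈ A ∪ A'} p`, coprime to `E`.
MT (1)-(3): `mn M (f g) = mn E f ∏_{p ∈ A ∪ A'} (local mean)`, and by LO (`p ∤ m` as `m ∣ E`) the local mean is `0` for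
`p` in only one of `A`, `A'` and `cp p n` for `p ∈ A ∩ A'`. -/
def St_Or : Prop := ∀ (M E m : ℕ) (n : ℤ) (V W : Finset ℕ) (Φ : ℤ → ℂ), 1 ≤ M → 1 ≤ E → m ∣ E →
  (∀ p ∈ V ∪ W, p.Prime ∧ p ∣ M) → Per E Φ → Per M Φ → (∀ y, ‖Φ y‖ ≤ 1) →
  ‖mn M (fun y => Φ y * ((∏ p ∈ V, cp p (n - m * y) : ℝ) : ℂ) * ((∏ p ∈ W, cp p y : ℝ) : ℂ))‖ ≤
    if V.filter (fun p => ¬ p ∣ E) = W.filter (fun p => ¬ p ∣ E) then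
      (∏ p ∈ V.filter (fun p => p ∣ E), ((p : ℝ) - 1)) *
        (∏ p ∈ W.filter (fun p => p ∣ E), ((p : ℝ) - 1)) *
        ∏ p ∈ V.filter (fun p => ¬ p ∣ E), |cp p n| else 0

/-- TA.  The tail of the singular series.

Proof.  `v(p) = |cp p n|/(p-1)^2` is `1/(p-1)` if `p ∣ n`, `1/(p-1)^2` if not.  Rankin: the left side is
`≤ z^{-1/2} ∏_{p ≤ Q} (1 + √p v(p))` (`1 ≤ √(∏ p/z)`).  The factors with `p ∤ n`: `≤ exp(∑ √p/(p-1)^2) ≤ exp(∑_{j ≥ 2} √j/(j-1)^2)`,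
a constant.  The factors with `p ∣ n`: `1 + √p/(p-1) ≤ 4`, at most `4^{ω(n)} ≤ τ(n)^2`. -/
def St_Ta : Prop := ∃ C : ℝ, 0 < C ∧ ∀ (Q n : ℕ) (z : ℝ), 1 ≤ n → 0 < z →
  ∑ V ∈ (pz Q).powerset.filter (fun V => z < ((∏ p ∈ V, p : ℕ) : ℝ)),
    ∏ p ∈ V, (|cp p n| / ((p : ℝ) - 1) ^ 2) ≤ C * (n.divisors.card : ℝ) ^ 2 / Real.sqrt z

/-! ### completion -/

/-- BR.  The truncated singular series as a sum over sets of primes, and the full one.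

Proof.  `μ(k) ≠ 0` only for squarefree `k`; `k ↦ k.primeFactors` is a bijection onto the sets `V` of primes `≤ Q` with
`r ∏ V ≤ Q`, `p ∤ r`; `μ(k)/φ(k) cs k x = ∏_{p ∈ V} (-cp p x/(p-1))`.  Second: without the condition on the size the sum is
`∏_{p ≤ Q, p ∤ r} (1 - cp p x/(p-1)) = ∏_{p ≤ Q, p ∤ r} gp p x`, and `r/φ(r) = ∏_{p ∣ r} p/(p-1)`, all `p ∣ r` are `≤ r ≤ Q`
and do not divide `x` if `χ(x) ≠ 0`. -/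
def St_Br : Prop := (∀ (Q r : ℕ) (x : ℤ), 1 ≤ r → r ≤ Q → ar Q r x =
    (r : ℝ) / r.totient * ∑ V ∈ (pz Q).powerset.filter (fun V => r * ∏ p ∈ V, p ≤ Q ∧
      ∀ p ∈ V, ¬ p ∣ r), ∏ p ∈ V, (-(cp p x / ((p : ℝ) - 1)))) ∧
  (∀ (Q r : ℕ) (χ : DirichletCharacter ℂ r) (x : ℤ), 1 ≤ r → r ≤ Q →
    (starRingEnd ℂ) (χ (x : ZMod r)) * (((r : ℝ) / r.totient *
      ∑ V ∈ (pz Q).powerset.filter (fun V => ∀ p ∈ V, ¬ p ∣ r),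
        ∏ p ∈ V, (-(cp p x / ((p : ℝ) - 1))) : ℝ) : ℂ) =
    (starRingEnd ℂ) (χ (x : ZMod r)) * ((GQ Q x : ℝ) : ℂ))

/-- CQ.  The missing pairs of sets of primes.

Proof.  By OR (`M = Q!`) the mean for `(V, W)` is, in norm and including the factors `1/(p-1)`, at most
`∏_{p ∈ A} |cp p n|/(p-1)^2` if `V`, `W` have the same part `A` prime to `E` (the factors `p - 1` of the part dividing `E` cancel), and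
`0` otherwise.  A missing pair has `r ∏ V > Q` or `r' ∏ W > Q`; the product of the primes dividing `E` is `≤ E`, `r, r' ≤ T`, so
`∏ A > Q/(T E)`.  For every `A` there are at most `4^{ω(E)} ≤ E^2` pairs (`2^{ω(E)} ≤ E`).  TA with `z = Q/(T E)`. -/
def St_Cq : Prop := ∃ C : ℝ, 0 < C ∧ ∀ (T Q m n E r r' : ℕ) (Φ : ℤ → ℂ) (A : Finset (Finset ℕ × Finset ℕ)),
  1 ≤ Q → 1 ≤ T → 1 ≤ n → 1 ≤ E → m ∣ E → 1 ≤ r → r ≤ T → 1 ≤ r' → r' ≤ T → Per E Φ →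
  Per Q.factorial Φ → (∀ y, ‖Φ y‖ ≤ 1) →
  (∀ v ∈ A, v.1 ⊆ pz Q ∧ v.2 ⊆ pz Q ∧ (Q < r * ∏ p ∈ v.1, p ∨ Q < r' * ∏ p ∈ v.2, p)) →
  ∑ v ∈ A, ‖mn Q.factorial (fun y => Φ y *
      ((∏ p ∈ v.1, (-(cp p (n - m * y) / ((p : ℝ) - 1))) : ℝ) : ℂ) *
      ((∏ p ∈ v.2, (-(cp p y / ((p : ℝ) - 1))) : ℝ) : ℂ))‖ ≤
    C * (E : ℝ) ^ 2 * (n.divisors.card : ℝ) ^ 2 * Real.sqrt (T * E / Q)

/-- CP.  Completion: in the mean the truncation of the singular series costs little.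

Proof.  By BR both functions are sums over `(r, χ)`, `(r', χ')`, `U`, `V`, `W` (`V` for `n - m y`, `W` for `y`, with `p ∤ r`
for `p ∈ V`, `p ∤ r'` for `p ∈ W`); the first has in addition the conditions `r ∏ V ≤ Q`, `r' ∏ W ≤ Q`
(`PL b T x GQ Q x = ∑ b_χ conj χ(x) (r/φ(r)) ∑_V ...` by BR (2)).  The difference for fixed
`(r, χ), (r', χ'), U` with `sg q₁ ψ U ≠ 0`: CQ with `Φ(y) = conj χ(n - m y) conj χ'(y) 1_{∀ p ∈ U, p ∣ y^2-2}`,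
`E = r r' (∏ U) m`; `Φ` has also the period `Q!` (`r, r', ∏ U ≤ q₁ D ≤ Q` divide `Q!`).
Finally `(r/φ(r)) (r'/φ(r')) ≤ T^2`, `∑ |b| ∑ |b'| ≤ 16`, `|sg| ≤ 1`, at most `q₁ D` sets `U` (`U ↦ ∏ U ≤ q₁ D` is injective),
`E ≤ T^2 q₁ D m`. -/
def St_Cp : Prop := ∃ C : ℝ, 0 < C ∧ ∀ (T Q m n q₁ w : ℕ) (D : ℝ) (ψ : Finset ℕ → ℝ)
  (b b' : Chr → ℂ), 1 ≤ T → T ≤ Q → 1 ≤ m → 1 ≤ n → 1 ≤ q₁ → 1 ≤ D → (q₁ : ℝ) * D ≤ Q →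
  IsPsi w D ψ → NB b T ≤ 4 → NB b' T ≤ 4 →
  ‖mn Q.factorial (fun y => PM b T Q (n - m * y) * PM b' T Q y * ((SS q₁ w ψ y : ℝ) : ℂ)) -
    mn Q.factorial (fun y => PL b T (n - m * y) * PL b' T y *
      ((wq Q m n y * SS q₁ w ψ y : ℝ) : ℂ))‖ ≤
    C * (T : ℝ) ^ 2 * (q₁ * D) * ((T : ℝ) ^ 2 * (q₁ * D) * m) ^ 2 * (n.divisors.card : ℝ) ^ 2 *
      Real.sqrt (T * ((T : ℝ) ^ 2 * (q₁ * D) * m) / Q)

/-- WI.  Sums over short intervals.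

Proof.  Expand `P(y) = PM b T Q (n - m y) PM b' T Q y SS(y)` in `(r, χ), (r', χ')`, `k ≤ Q/r`, `l ≤ Q/r'`, `U`: the functions
`conj χ(n - m y) cs k (n - m y) conj χ'(y) cs l y 1_{∀ p ∈ U, p ∣ y^2 - 2}` have the period
`lcm(r, k, r', l, ∏ U)`, which divides `Q!` and is `≤ Q^2 q₁ D`; the coefficient times the function is at most
`B^2 (r/φ(r)) (r'/φ(r')) (1/φ(k) φ(l)) |cs k| |cs l| ≤ B^2 T^2` (`|cs k x| ≤ φ(k)`).  MT (1), (4) for each of them: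
error `≤ 2 Q^2 q₁ D B^2 T^2`.  Number of terms: `r, r' ≤ T`, `χ, χ'`: `≤ T` each (BL (5)), `k, l ≤ Q`, at most `q₁ D` sets `U`:
`T^4 Q^2 q₁ D`. -/
def St_Wi : Prop := ∀ (T Q m n q₁ w t L : ℕ) (D B : ℝ) (ψ : Finset ℕ → ℝ) (b b' : Chr → ℂ),
  1 ≤ T → T ≤ Q → 1 ≤ q₁ → 1 ≤ D → (q₁ : ℝ) * D ≤ Q → 0 ≤ B → IsPsi w D ψ →
  (∀ c, ‖b c‖ ≤ B) → (∀ c, ‖b' c‖ ≤ B) →
  ‖∑ y ∈ Ioc t (t + L), PM b T Q (n - m * (y : ℤ)) * PM b' T Q (y : ℤ) *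
        ((SS q₁ w ψ (y : ℤ) : ℝ) : ℂ) -
      (L : ℂ) * mn Q.factorial (fun y => PM b T Q (n - m * y) * PM b' T Q y *
        ((SS q₁ w ψ y : ℝ) : ℂ))‖ ≤
    2 * B ^ 2 * (T : ℝ) ^ 6 * (Q : ℝ) ^ 4 * (q₁ * D) ^ 2

/-! ### the sieve and positivity -/

/-- SF.  The sieve weight as a product; what positivity means; existence of the weights.

Proof.  (1) `U = U₁ ∪ T`, `U₁ ⊆ {p < w, p ∣ q₁, p ∣ y^2-2}`, `T ⊆ {p < w, p ∤ q₁, p ∣ y^2 - 2}`: the sum factors and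
`∑_{U₁} (-1)^{#U₁} = 1` if the first set is empty, `0` otherwise.
(2) the first factor is `1` and by `IsPsi.low` the second set is empty (otherwise the sum is `≤ 0`).
(3) `LIN.St_Fl` (proved: `LIN.thm_Fl`, LIN/Fl.lean) with `η = 1/4`; `D = w^s`. -/
def St_Sf : Prop :=
  (∀ (q₁ w : ℕ) (D : ℝ) (ψ : Finset ℕ → ℝ) (y : ℤ), IsPsi w D ψ → SS q₁ w ψ y =
    (if ∀ p ∈ PP 2 w, p ∣ q₁ → ¬ (p : ℤ) ∣ y ^ 2 - 2 then (1 : ℝ) else 0) *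
      ∑ T ∈ ((PP 2 w).filter (fun p => ¬ p ∣ q₁ ∧ (p : ℤ) ∣ y ^ 2 - 2)).powerset, ψ T) ∧
  (∀ (q₁ w : ℕ) (D : ℝ) (ψ : Finset ℕ → ℝ) (y : ℤ), IsPsi w D ψ → 0 < SS q₁ w ψ y →
    ∀ p ∈ PP 2 w, ¬ (p : ℤ) ∣ y ^ 2 - 2) ∧
  (∃ s : ℕ, 1 ≤ s ∧ ∀ w : ℕ, 2 ≤ w → ∃ ψ : Finset ℕ → ℝ, IsPsi w ((w : ℝ) ^ s) ψ)

/-- LC.  The local densities are positive.

Proof.  `(n, m) = 1`, `n + m` odd.  `p = 2`: `y = 1`: `n - m` is odd, `1 - 2 = -1`: `nl ≥ 1`, `loc ≥ 4 (1/2) = 2`.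
`p ≥ 3`: `y ≢ 0`; `n ≡ m y` excludes at most one class `≢ 0` (none if `p ∣ m`, then `n ≢ 0`);
`y^2 ≡ 2` has no solution modulo `3`, `5` and at most two for the others.  So `nl ≥ 1` for `p = 3`, `≥ 3` for `p = 5`, `≥ p - 4` for
`p ≥ 7`.  `(p/(p-1))^2 nl/p ≥ (1 - 1/p)^8`: `3/4 ≥ (2/3)^8`; `3/5 ≥ (4/5)^8`; `1 - 4x ≥ (1-x)^8` for `x ≤ 1/7`
(`(1-x)^8 ≤ 1 - 8x + 28 x^2`).  Second: `(1 - 1/p)^8` multiplied over `p ≤ Q` is `rho(Q)^8 ≥ (c/log Q)^8`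
(`GBQ.thm_RhoLow`; `pz Q = GBQ.pr Q`).  Third: with `A = {y ≢ 0, n - m y ≢ 0}`, `B = {y ∈ A, y^2 ≡ 2}`: for `p ∤ q₁`
`#A ≥ 1` and `#B/#A ≤ 3/4`, `≤ 4/p`: `#B = 0` for `p = 2, 3, 5`; `#B ≤ 2`, `#A ≥ p - 2` for `p ≥ 7`:
`2/(p-2) ≤ 4/p`, `≤ 2/5`. -/
def St_Lc : Prop := ∃ c : ℝ, 0 < c ∧ ∀ (m n : ℕ), n.Coprime m → (n + m) % 2 = 1 →
  (∀ w p : ℕ, p.Prime → (1 - 1 / (p : ℝ)) ^ 8 ≤ loc w m n p) ∧
  (∀ w Q : ℕ, 2 ≤ Q → (c / Real.log Q) ^ 8 ≤ ∏ p ∈ pz Q, loc w m n p) ∧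
  (∀ p : ℕ, p.Prime →
    0 < ((range p).filter (fun y : ℕ => ¬ (p : ℤ) ∣ (y : ℤ) ∧ ¬ (p : ℤ) ∣ (n : ℤ) - m * y)).card ∧
    (((range p).filter (fun y : ℕ => ¬ (p : ℤ) ∣ (y : ℤ) ∧ ¬ (p : ℤ) ∣ (n : ℤ) - m * y ∧
      (p : ℤ) ∣ (y : ℤ) ^ 2 - 2)).card : ℝ) /
      ((range p).filter (fun y : ℕ => ¬ (p : ℤ) ∣ (y : ℤ) ∧ ¬ (p : ℤ) ∣ (n : ℤ) - m * y)).card ≤
      min (3 / 4 : ℝ) (4 / (p : ℝ)))

/-- PF.  The two means (`ℓ` a nonnegative function of period `q₁`).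

Proof.  All functions have the period `q₁ ∏_{p ≤ Q, p ∤ q₁} p` (every `p ≤ Q` with `p ∣ q₁` divides `q₁`).  Let
`f_p(y) = gp p (n - m y) gp p y`, `P₁ = {p ≤ Q : p ∣ q₁}`, `P₂ = {p ≤ Q : p ∤ q₁}`,
`F₁(y) = ℓ(y) ∏_{P₁} f_p(y) 1_{∀ p < w, p ∣ q₁: p ∤ y^2 - 2}` of period `q₁`,
`F₂(y) = ∏_{P₂} f_p(y) ∑_{T ⊆ {p < w, p ∤ q₁, p ∣ y^2-2}} ψ T`, `F₂'(y) = ∏_{P₂} f_p(y) 1_{∀ p < w, p ∤ q₁ : p ∤ y^2-2}` of period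
`∏ P₂` (`w ≤ Q`).  SF (1): `ℓ wq SS = F₁ F₂`.  MT (1), (2): `mn (Q!) (F₁ F₂) = mn q₁ F₁ · mn (∏ P₂) F₂`, same for `F₂'`.
MT (3): `mn (∏ P₂) F₂ = ∑_{T ⊆ PP 2 w ∩ P₂} ψ T ∏_{p ∈ P₂∖T} mn p f_p ∏_{p ∈ T} mn p (f_p 1_{p ∣ y^2-2})
= G₀ ∑_T ψ T ∏_{p ∈ T} g(p)`, `G₀ = ∏_{P₂} mn p f_p > 0`, `g(p)` = the quotient of the two numbers in LC (third), for `p ∈ P₂`, `p < w`,
and `g(p) = 0` for all other `p` (so all `T ⊆ PP 2 w` may be used); `mn (∏ P₂) F₂' = G₀ ∏_{p < w} (1 - g p)`.  `IsPsi.main`: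
the first is at least `3/4` of the second. -/
def St_Pf : Prop := ∀ (Q m n q₁ w : ℕ) (D : ℝ) (ψ : Finset ℕ → ℝ) (ℓ : ℤ → ℝ),
  n.Coprime m → (n + m) % 2 = 1 → 1 ≤ q₁ → q₁ ≤ Q → 2 ≤ w → w ≤ Q → IsPsi w D ψ →
  (∀ y, 0 ≤ ℓ y) → (∀ y : ℤ, ℓ (y + q₁) = ℓ y) →
  3 / 4 * (mn Q.factorial (fun y => ((ℓ y * wq Q m n y *
      (if ∀ p ∈ PP 2 w, ¬ (p : ℤ) ∣ y ^ 2 - 2 then (1 : ℝ) else 0) : ℝ) : ℂ))).re ≤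
    (mn Q.factorial (fun y => ((ℓ y * wq Q m n y * SS q₁ w ψ y : ℝ) : ℂ))).re

/-- PL.  The mean of the exact sieve function is the product of the local densities.

Proof.  MT (3) with `S = pz Q`, `f_p(y) = gp p (n - m y) gp p y 1_{p < w → p ∤ y^2 - 2}`: `mn p f_p = loc w m n p`
(`f_p` is `(p/(p-1))^2` on the `nl` admissible classes), and MT (1) (`∏_{p ≤ Q} p ∣ Q!`; `w ≤ Q`). -/
def St_Pl : Prop := ∀ (Q m n w : ℕ), 1 ≤ Q → w ≤ Q →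
  mn Q.factorial (fun y => ((wq Q m n y *
      (if ∀ p ∈ PP 2 w, ¬ (p : ℤ) ∣ y ^ 2 - 2 then (1 : ℝ) else 0) : ℝ) : ℂ)) =
    ((∏ p ∈ pz Q, loc w m n p : ℝ) : ℂ)

/-- PO.  Positivity of the completed mean.

Proof.  `v = U`, `v' = U'`, `ℓ(x) = 1 - Re χ₁(x) v`, `ℓ' = 1 - Re χ₁(x) v'`: both `≥ l/4` (`|χ₁| ≤ 1`, `v ≤ 1 - l/4`).
`‖L - ℓ‖ ≤ l^3/1000 ≤ (4 l^2/1000) ℓ`, so `|Re(L(n - m y) L'(y)) - ℓ ℓ'| ≤ θ ℓ ℓ'`, `θ = 1/100`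
(`2 (4/1000) + (4/1000)^2`).  Let `s` be the indicator function of `∀ p < w, p ∤ y^2 - 2`, `S = SS`.  Then `S ≤ s` and where `s = 0`, `S ≤ 0`
(SF (2)); `s - S ≥ 0`: `Re(L L') S = Re(L L') s - Re(L L') (s - S) ≥ (1-θ) ℓ ℓ' s - (1+θ) ℓ ℓ' (s - S) = (1+θ) ℓℓ' S - 2 θ ℓ ℓ' s`
(`S ≤ 1` by `IsPsi.low` and SF (1)).
Multiply by `wq ≥ 0`, take the mean over `Q!` and use PF for `ℓ(n - m y) ℓ'(y)`: `≥ ((3/4)(1+θ) - 2θ) mn(ℓ ℓ' wq s)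
≥ (1/2) (l/4)^2 mn(wq s)`, PL. -/
def St_Po : Prop := ∀ (T Q m n q₁ w : ℕ) (D l v v' : ℝ) (ψ : Finset ℕ → ℝ) (b b' : Chr → ℂ)
  (χ₁ : DirichletCharacter ℂ q₁), n.Coprime m → (n + m) % 2 = 1 → 1 ≤ q₁ → q₁ ≤ Q → 2 ≤ w →
  w ≤ Q → T ≤ Q → IsPsi w D ψ → (∀ a : ZMod q₁, (χ₁ a).im = 0) → 0 < l → l ≤ 1 →
  0 ≤ v → v ≤ 1 - l / 4 → 0 ≤ v' → v' ≤ 1 - l / 4 →
  (∀ a : ℤ, ‖PL b T a - (1 - χ₁ (a : ZMod q₁) * ((v : ℝ) : ℂ))‖ ≤ l ^ 3 / 1000) →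
  (∀ a : ℤ, ‖PL b' T a - (1 - χ₁ (a : ZMod q₁) * ((v' : ℝ) : ℂ))‖ ≤ l ^ 3 / 1000) →
  1 / 2 * (l / 4) ^ 2 * ∏ p ∈ pz Q, loc w m n p ≤
    (mn Q.factorial (fun y => PL b T (n - m * y) * PL b' T y *
      ((wq Q m n y * SS q₁ w ψ y : ℝ) : ℂ))).re

end Pool.Agent.MVII
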