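import Mathlib
import Pool.Agent.AAN.Stmts
import Pool.Agent.MVII.St1
import Pool.Agent.MVII.St2

set_option autoImplicit false

/-!
# MVII: statements, third part (assembly)
-/

namespace Pool.Agent.MVII

open Finset Filter
open Pool.Agent.GBQ (ee lam nd Admissible)
open Pool.Agent.MVX (Chr tent Bm Um prm Win GP)
open Pool.Agent.LIN (PP pz)

/-- GD.  From the interface to what is used.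

Proof.  `GP` with `κ = 1/1000`, `a = 30` (`31 δ ≤ 1/10`, so `δ ≤ 1/310`), for real `X`, along `X : ℕ`
(`tendsto_natCast_atTop_atTop.eventually`).  `U x = e * Um b (HH δ X) x`, `l = lam`.  `Win X δ 30 h x` for
`h = HH δ X = ⌈X^{1-10δ}⌉ ≤ x ≤ X`.  `q₁ ≤ X^δ` so `q₁ ≤ TT δ X`; `χ₁^2 = 1` gives `χ₁(a) ∈ {0, 1, -1}`.
`prm 1 = {1}`.  `NB ≤ ∑ E + 1 + U ≤ κ + 2`.  For `PL`: subtract the main terms `1` (`r = 1`, `conj 1 = 1`) and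
`- U conj χ₁(a) = - U χ₁(a)` (`r = q₁`, `χ₁ ∈ prm q₁`, `1 < q₁`): the rest is `≤ ∑ E ≤ κ l^3`. -/
def St_Gd : Prop := GP → ∃ δ : ℝ, 0 < δ ∧ δ ≤ 1 / 310 ∧ ∀ᶠ X : ℕ in atTop,
  ∃ (q₁ : ℕ) (χ₁ : DirichletCharacter ℂ q₁) (U : ℕ → ℝ) (l : ℝ), Dat δ X q₁ χ₁ U l

/-- W0.  In a short interval the local means can be taken constant.

Proof.  `T = TT`, `Q = QQ`, `h = HH`, `L = H0`, `ε = δ/2000`.  For `y ∈ (t, t + L]`: `Md ... y = PM (Bc h y) T Q y`,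
`Md ... (n - m y) = PM (Bc h (n - m y)) T Q (n - m y)` (BL (2): `y` and `n - m y` are in the interior, `n - m y ∈ [X/4, 3X/4]` as `m y ≤ X/8`,
`n ≥ X/2 - m`), and both are real (RE), so the product of the real parts is the real part of the product.
BL (4): `‖PM b₁ x - PM b₂ x‖ ≤ ∑ ‖b₁ - b₂‖ sup|ar| ≤ T^2 (4 m L log(2X)/h) X^ε` for the pairs `(Bc h y, Bc h t)`,
`(Bc h (n - m y), Bc h (n - m t))`; `‖PM‖ ≤ NB sup|ar| ≤ 4 X^ε` (`Sum4`), `|SS| ≤ X^ε` (EP): the total error is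
`≤ L X^{(2 + 1/10 - 10) δ + 5 ε} ≤ L X^{-7δ}` (`L/h ≤ X^{-10δ}`). -/
def St_W0 : Prop := ∀ δ : ℝ, 0 < δ → δ ≤ 1 / 310 → ∀ᶠ X : ℕ in atTop, Sum4 δ X →
  ∀ (m q₁ w : ℕ) (ψ : Finset ℕ → ℝ), 1 ≤ m → (m : ℝ) ≤ (X : ℝ) ^ (δ / 10) →
  IsPsi w ((X : ℝ) ^ (δ / 40)) ψ → ∀ n : ℕ, Blk X m n →
  ∀ t : ℕ, X / (8 * m) / 2 + HH δ X ≤ t → t + H0 δ X + HH δ X ≤ X / (8 * m) →
  |∑ y ∈ Ioc t (t + H0 δ X),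
      (Md (TT δ X) (QQ δ X) (HH δ X) (X / (8 * m) / 2) (X / (8 * m)) y).re * SS q₁ w ψ y *
        (Md (TT δ X) (QQ δ X) (HH δ X) (X / 8) X (n - m * y)).re -
    (∑ y ∈ Ioc t (t + H0 δ X), PM (Bc (HH δ X) (n - m * t)) (TT δ X) (QQ δ X) (n - m * (y : ℤ)) *
      PM (Bc (HH δ X) t) (TT δ X) (QQ δ X) (y : ℤ) * ((SS q₁ w ψ (y : ℤ) : ℝ) : ℂ)).re| ≤
    (H0 δ X : ℝ) * (X : ℝ) ^ (-(7 * δ))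

/-- W1.  The sum over one short interval.

Proof.  `T = TT`, `Q = QQ`, `h = HH`, `L = H0`, `D = X^{δ/40}`, `ε = δ/2000`, `b = Bc h (n - m t)`, `b' = Bc h t`; `q₁ D ≤ Q`,
`NB b T ≤ 4`, `NB b' T ≤ 4` (`Dat.sum`; `n - m t ∈ [X/4, X]`).
(1) W0: error `≤ L X^{-7δ}`.
(2) WI with `B = log(2X)` (`‖Bc h x c‖ ≤ log(2X)` for `h ≤ x ≤ X`: `Bc h x = BI h 0 (x + h) x` by BL (2) or directly, BL (1)): error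
`≤ X^{(6 + 120 + 2 + 1/20) δ + ε} ≤ L X^{-δ}` (`128.05 δ + 20 δ + δ + ... ≤ 1`, since `δ ≤ 1/310`).
(3) CP: error `≤ X^{(2 + 1.03 + 2 (2 + 1.03 + 0.1) + (1 + 3.13 - 30)/2) δ + ε} ≤ X^{-3 δ}`
(`3.03 + 6.26 - 12.93 = -3.64`).
(4) PO and LC: `(1/2)(l/4)^2 (c/log Q)^8 ≥ X^{-2 δ/1000 - ε} / C ≥ X^{-3 δ/1000}`.
Sum: `≥ L (X^{-3δ/1000} - X^{-δ} ...) ≥ L X^{-δ/200}`. -/
def St_W1 : Prop := ∀ δ : ℝ, 0 < δ → δ ≤ 1 / 310 → ∀ᶠ X : ℕ in atTop,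
  ∀ (q₁ : ℕ) (χ₁ : DirichletCharacter ℂ q₁) (U : ℕ → ℝ) (l : ℝ), Dat δ X q₁ χ₁ U l →
  ∀ (m w : ℕ) (ψ : Finset ℕ → ℝ), 1 ≤ m → (m : ℝ) ≤ (X : ℝ) ^ (δ / 10) → 2 ≤ w → w ≤ QQ δ X →
  IsPsi w ((X : ℝ) ^ (δ / 40)) ψ → ∀ n : ℕ, Blk X m n → n.Coprime m → (n + m) % 2 = 1 →
  ∀ t : ℕ, X / (8 * m) / 2 + HH δ X ≤ t → t + H0 δ X + HH δ X ≤ X / (8 * m) →
  (H0 δ X : ℝ) * (X : ℝ) ^ (-(δ / 200)) ≤ ∑ y ∈ Ioc t (t + H0 δ X),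
    (Md (TT δ X) (QQ δ X) (HH δ X) (X / (8 * m) / 2) (X / (8 * m)) y).re * SS q₁ w ψ y *
      (Md (TT δ X) (QQ δ X) (HH δ X) (X / 8) X (n - m * y)).re

/-- MN.  The main term from below.

Proof.  `K = X/(8m)`, `h = HH`, `L = H0`.  `a = K/2 + h`, `J = (K - h - a)/L` (natural division), the windows
`(a + i L, a + (i+1) L]`, `i < J`, are disjoint, inside `(a, K - h]`: W1 gives `≥ J L X^{-δ/200} ≥ (K/4) X^{-δ/200}`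
(`K ≥ X^{1-δ/10}/16 - 1`, `h, L = o(K)`).  The other `y < K + h` with a nonzero term are in `(K/2 - h, a]` or
`(a + J L, K + h)`: at most `4 h + L + 4` values, each term `≤ (T^2 (log X) X^ε)^2 X^ε` (BL (1), (3), (5), EP):
`≤ X^{1 - 10 δ + 4 δ + 6ε}`, negligible.  `X^{1 - δ/10 - δ/200 - ε} ≥ X^{1 - 0.11 δ}`. -/
def St_Mn : Prop := ∀ δ : ℝ, 0 < δ → δ ≤ 1 / 310 → ∀ᶠ X : ℕ in atTop,
  ∀ (q₁ : ℕ) (χ₁ : DirichletCharacter ℂ q₁) (U : ℕ → ℝ) (l : ℝ), Dat δ X q₁ χ₁ U l →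
  ∀ (m w : ℕ) (ψ : Finset ℕ → ℝ), 1 ≤ m → (m : ℝ) ≤ (X : ℝ) ^ (δ / 10) → 2 ≤ w → w ≤ QQ δ X →
  IsPsi w ((X : ℝ) ^ (δ / 40)) ψ → ∀ n : ℕ, Blk X m n → n.Coprime m → (n + m) % 2 = 1 →
  (X : ℝ) ^ (1 - 11 / 100 * δ) ≤ R2 δ X m (X / (8 * m)) q₁ w ψ n

/-- few exceptions in a block -/
def BlockH (δ : ℝ) (R : ℕ) : Prop := ∀ᶠ X : ℕ in atTop, ∀ m : ℕ, 1 ≤ m →
  (m : ℝ) ≤ (X : ℝ) ^ (δ / 10) → ∀ F : Finset ℕ,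
  (∀ n ∈ F, Blk X m n ∧ n.Coprime m ∧ (n + m) % 2 = 1 ∧ ∀ y : ℕ, ¬ Sol R m n y) →
  (F.card : ℝ) ≤ (X : ℝ) ^ (1 - 6 / 10 * δ)

/-- UP.  Without solutions the sum is small.

Proof.  `R = ⌈82 s/δ⌉₊`, `K = X/(8m)`.  In `R0(n) = ∑_{K/2 < y ≤ K} Λ(y) SS(y) Λ(n - m y)` a term with `y`, `n - m y` prime is `≤ 0`:
otherwise `SS(y) > 0`, by SF (2) no prime `< w` divides `y^2 - 2` (`y ≥ 2`), so `w^{Ω(y^2-2)} ≤ y^2 - 2 ≤ X^2` and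
`Ω ≤ 2 log X/log w ≤ R`, `m y ≤ X/8 < n`, and `y` would be a solution.  The terms with `y` or `n - m y` a proper prime power: at most
`C √X log X` values of `y` (see `coreu_PP`, GBQ/CoreUA or CoreUB, and `GBQ.thm_Bad`), each `≤ (log X)^2 X^{1/100}` (EP (5)). -/
def St_Up : Prop := ∀ δ : ℝ, 0 < δ → δ ≤ 1 / 310 → ∀ s : ℕ, 1 ≤ s → ∃ R : ℕ, ∀ᶠ X : ℕ in atTop,
  ∀ (m q₁ w : ℕ) (D : ℝ) (ψ : Finset ℕ → ℝ), 1 ≤ m → 2 ≤ w → (X : ℝ) ^ (δ / (41 * s)) ≤ w →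
  IsPsi w D ψ → ∀ n : ℕ, Blk X m n → (∀ y : ℕ, ¬ Sol R m n y) → 8 * m ≤ X →
  R0 m (X / (8 * m)) q₁ w ψ n ≤ (X : ℝ) ^ (3 / 4 : ℝ)

/-- BK.  The block estimate.

Proof.  `s` from SF (3), `w = ⌊X^{δ/(40 s)}⌋`, `ψ` for this `w` (`IsPsi` is monotone in `D`; `w^s ≤ X^{δ/40}`), `w ≥ X^{δ/(41 s)}`,
`2 ≤ w ≤ QQ` for large `X`, `R` from UP.  For `n ∈ F`: `R0(n) ≤ X^{3/4}` (UP), `R2(n) ≥ X^{1 - 0.11 δ}` (MN, `Dat` exists):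
`(R0 - R2)^2 ≥ X^{2 - 0.22 δ}/4`.  `(R0-R2)^2 ≤ 2 (R0-R1)^2 + 2 (R1-R2)^2`, E1, E2 (`Dat.sum`, `Dat.cond`):
`#F ≤ 16 X^{3 - 0.87 δ - 2 + 0.22 δ} ≤ X^{1 - 0.6 δ}`. -/
def St_Bk : Prop := ∀ δ : ℝ, 0 < δ → δ ≤ 1 / 310 → (∀ᶠ X : ℕ in atTop,
    ∃ (q₁ : ℕ) (χ₁ : DirichletCharacter ℂ q₁) (U : ℕ → ℝ) (l : ℝ), Dat δ X q₁ χ₁ U l) →
  ∃ R : ℕ, BlockH δ R

/-- `n` is bad for `m` -/
def Bad (R m n : ℕ) : Prop := ∀ p : ℕ, p.Prime → p < n → ((n - p) / m).Prime →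
  R < ArithmeticFunction.cardFactors (((n - p) / m) ^ 2 - 2)

/-- FI.  The theorem.

Proof.  `BlockH δ₀ R₀`; `R = max R₀ 5`, `C` from `AAN.FinH` (with `A = 0`), `δ = δ₀/50`.
(I) `m #F ≤ N (log N)^C`: a bad `n` has `EVN.SolP EVN.Phi m n = ∅` (`Phi` implies `Ω ≤ 5 ≤ R`): `FinH`.
(II) `m > N^{δ₀/40}`: (I) gives `#F ≤ N^{1 - δ₀/40} (log N)^C ≤ N^{1-δ}`.
(III) `m ≤ N^{δ₀/40}`: blocks with `X ≥ √N` (`m ≤ X^{δ₀/20}`): for a block set `F` of bad admissible `n` choose `r < m`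
with `n - r` coprime to `m`, `n - r + m` odd (`GBQ.thm_Red`); `n' = n - r` has no solution (`y` prime, `n' - m y = p` prime gives
`(n - p)/m = y`), `Blk X m n'`, and each `n'` comes from at most `m` values `n`:
`#F ≤ m X^{1 - 0.6 δ₀} ≤ X^{1 - δ₀/2}`.  `AAN.St_Dya` with `X₀ = ⌈√N⌉ + X₁`, `D = N^{-δ₀/4}`
(`X^{-δ₀/2} ≤ N^{-δ₀/4}` for `X ≥ √N`): `#F ≤ X₀ + 8 N^{1-δ₀/4} ≤ N^{1-δ}`. -/
def St_Fi : Prop := (∃ (δ : ℝ) (R : ℕ), 0 < δ ∧ δ ≤ 1 / 310 ∧ BlockH δ R) →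
  (∃ (c : ℝ) (j : ℕ), AAN.FinH c j EVN.Phi) →
  ∃ (δ : ℝ) (R C N₀ : ℕ), 0 < δ ∧ ∀ N ≥ N₀, ∀ m : ℕ, ∀ F : Finset ℕ,
    (∀ n ∈ F, n ≤ N ∧ Admissible m n ∧ Bad R m n) →
    (F.card : ℝ) ≤ (N : ℝ) ^ (1 - δ) ∧ (m : ℝ) * F.card ≤ N * Real.log N ^ C

end Pool.Agent.MVII
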