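import Mathlib
import Pool.Agent.MVII.St3

set_option autoImplicit false

/-!
# MVII: the assembly with the number of representations

The same theorem with `none` replaced by `fewer than n ^ (1 - ε)`.
-/

namespace Pool.Agent.MVII

open Finset Filter
open Pool.Agent.GBQ (ee lam nd Admissible)
open Pool.Agent.MVX (Chr tent Bm Um prm Win GP)

open scoped Classical in
/-- the `y` of `Sol` -/
noncomputable def SolY (R m n : ℕ) : Finset ℕ := (range (n + 1)).filter (fun y => Sol R m n y)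

open scoped Classical in
/-- the primes `p < n` with `q = (n - p) / m` prime and `q ^ 2 - 2` with at most `R` prime factors -/
noncomputable def SolN (R m n : ℕ) : Finset ℕ :=
  (range n).filter (fun p => p.Prime ∧ ((n - p) / m).Prime ∧
    ArithmeticFunction.cardFactors (((n - p) / m) ^ 2 - 2) ≤ R)

/-- GDC.  As GD, with `δ` as small as we like.

Proof.  Copy `thm_Gd` with `GP (1/1000) a`, `a = 30 + ⌈1/ε⌉₊`: `(a + 1) δ ≤ 1/10` gives `δ ≤ 1/310` and `δ ≤ ε`; the windows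
`h = HH δ X = ⌈X^{1-10δ}⌉` are windows for `a ≥ 30` (`X^{1 - a δ} ≤ X^{1-10δ}`). -/
def St_GdC : Prop := GP → ∀ ε : ℝ, 0 < ε → ∃ δ : ℝ, 0 < δ ∧ δ ≤ 1 / 310 ∧ δ ≤ ε ∧ ∀ᶠ X : ℕ in atTop,
  ∃ (q₁ : ℕ) (χ₁ : DirichletCharacter ℂ q₁) (U : ℕ → ℝ) (l : ℝ), Dat δ X q₁ χ₁ U l

/-- UPC.  As UP, with the solutions counted.

Proof.  Copy `thm_Up`: in `hterm` the set `E` is replaced by `E ∪ SolY R m n` (in the last case, `y` and `n - m y` prime,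
`SS > 0`, now `y ∈ SolY R m n`; `y ≤ n` because `m y < n`, `m ≥ 1`).  So `R0 ≤ (#E + #SolY) B`, `#E B ≤ X^{3/4}` as before, and
`B = (log X)^2 X^{ε'} ≤ X^ε` with `ε' = ε/2` in `St_Ep` (use `St_Ep` twice, once with `1/100` for `#E`, once with `ε/2`, and
the bound of `|SS|` by the smaller of the two; or first WLOG `ε ≤ 1/50`). -/
def St_UpC : Prop := ∀ δ : ℝ, 0 < δ → δ ≤ 1 / 310 → ∀ s : ℕ, 1 ≤ s → ∃ R : ℕ, ∀ ε : ℝ, 0 < ε →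
  ∀ᶠ X : ℕ in atTop,
  ∀ (m q₁ w : ℕ) (D : ℝ) (ψ : Finset ℕ → ℝ), 1 ≤ m → 2 ≤ w → (X : ℝ) ^ (δ / (41 * s)) ≤ w →
  IsPsi w D ψ → ∀ n : ℕ, Blk X m n → 8 * m ≤ X →
  R0 m (X / (8 * m)) q₁ w ψ n ≤ (X : ℝ) ^ (3 / 4 : ℝ) + (SolY R m n).card * (X : ℝ) ^ ε

/-- few exceptions in a block -/
def BlockC (δ ε : ℝ) (R : ℕ) : Prop := ∀ᶠ X : ℕ in atTop, ∀ m : ℕ, 1 ≤ m →
  (m : ℝ) ≤ (X : ℝ) ^ (δ / 10) → ∀ F : Finset ℕ,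
  (∀ n ∈ F, Blk X m n ∧ n.Coprime m ∧ (n + m) % 2 = 1 ∧
    ((SolY R m n).card : ℝ) ≤ (X : ℝ) ^ (1 - ε)) →
  (F.card : ℝ) ≤ (X : ℝ) ^ (1 - 6 / 10 * δ)

/-- BKC.  Copy `thm_Bk`; with `UPC` for `ε/2`: `R0 ≤ X^{3/4} + X^{1-ε} X^{ε/2} ≤ X^{3/4} + X^{1-δ/2} ≤ X^{1 - 0.11 δ}/2`. -/
def St_BkC : Prop := ∀ δ ε : ℝ, 0 < δ → δ ≤ 1 / 310 → δ ≤ ε → (∀ᶠ X : ℕ in atTop,
    ∃ (q₁ : ℕ) (χ₁ : DirichletCharacter ℂ q₁) (U : ℕ → ℝ) (l : ℝ), Dat δ X q₁ χ₁ U l) →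
  ∃ R : ℕ, BlockC δ ε R

/-- FIC.  The theorem.

Proof.  As `thm_Fi`.  `R = max R₀ 5`, `δ' = δ/50`, `C = C₀ + 1`, `C₀` from `FinH c 3 Phi`.  Let `n₁` be such that
`n^{1-ε} ≤ c n/(log n)^3` for `n ≥ n₁`.
(I) Split `F = F₁ ∪ F₂`, `F₂` the `n < n₁` of the second kind (`12 m ≤ n`): `m #F₂ ≤ n₁^2 ≤ N`; for the others
`EVN.SolP EVN.Phi m n ⊆ SolN R m n` shows that they are exceptional for `FinH`: `m #F₁ ≤ N (log N)^{C₀}`; sum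
`≤ N (log N)^{C₀+1}`.
(II) `m > N^{δ/40}`: from (I) as before (`fi_large`).
(III) `m ≤ N^{δ/40}`: `fi_block`, `fi_small` with `BlockC`: for an exceptional `n` (of both kinds) and `n' = n - r`:
`#SolY R₀ m n' ≤ #SolN R m n ≤ n^{1-ε} ≤ X^{1-ε}` (the map `y ↦ n' - m y` is injective into `SolN R m n`; WLOG `ε ≤ 1`). -/
def St_FiC : Prop := (∀ ε : ℝ, 0 < ε → ∃ (δ : ℝ) (R : ℕ), 0 < δ ∧ δ ≤ 1 / 310 ∧ BlockC δ ε R) →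
  (∃ c : ℝ, 0 < c ∧ AAN.FinH c 3 EVN.Phi) →
  ∃ C : ℕ, ∀ ε : ℝ, 0 < ε → ∃ (δ : ℝ) (R N₀ : ℕ), 0 < δ ∧ ∀ N ≥ N₀, ∀ m : ℕ, ∀ F : Finset ℕ,
    (∀ n ∈ F, n ≤ N ∧ Admissible m n ∧
      (SolN R m n = ∅ ∨ (12 * m ≤ n ∧ ((SolN R m n).card : ℝ) < (n : ℝ) ^ (1 - ε)))) →
    (F.card : ℝ) ≤ (N : ℝ) ^ (1 - δ) ∧ (m : ℝ) * F.card ≤ N * Real.log N ^ C

end Pool.Agent.MVII
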