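import Pool.Agent.MVII.St2

set_option autoImplicit false

/-!
# MVII, module Mt: means of periodic functions (helper18)
-/

namespace Pool.Agent.MVII

open Finset

private lemma mt_per_mul {a : ℕ} {f : ℤ → ℂ} (h : Per a f) (y : ℤ) (k : ℕ) :
    f (y + ((a * k : ℕ) : ℤ)) = f y := by
  induction k with
  | zero => simp
  | succ k ih =>
    have h1 := h (y + ((a * k : ℕ) : ℤ))
    rw [ih] at h1
    rw [← h1]
    congr 1
    push_cast
    ring

/-- values at natural numbers -/
private lemma mt_mod {a : ℕ} {f : ℤ → ℂ} (h : Per a f) (y : ℕ) : f (y : ℤ) = f ((y % a : ℕ) : ℤ) := by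
  conv_lhs => rw [← Nat.mod_add_div y a]
  rw [Nat.cast_add]
  exact mt_per_mul h _ _

/-- sum over several periods -/
private lemma mt_sum_mul {a : ℕ} {f : ℤ → ℂ} (h : Per a f) (k : ℕ) :
    ∑ y ∈ range (a * k), f (y : ℤ) = k * ∑ y ∈ range a, f (y : ℤ) := by
  induction k with
  | zero => simp
  | succ k ih =>
    rw [Nat.mul_succ, Finset.sum_range_add, ih]
    have h1 : ∀ x ∈ range a, f ((a * k + x : ℕ) : ℤ) = f (x : ℤ) := by
      intro x _
      rw [Nat.add_comm, Nat.cast_add]
      exact mt_per_mul h _ _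
    rw [Finset.sum_congr rfl h1]
    push_cast
    ring

private lemma mt_mn_mul {a k : ℕ} {f : ℤ → ℂ} (hk : 1 ≤ k) (h : Per a f) : mn (a * k) f = mn a f := by
  unfold mn
  rw [mt_sum_mul h k]
  have hk0 : (k : ℂ) ≠ 0 := by
    have : k ≠ 0 := by omega
    exact_mod_cast this
  push_cast
  rcases Nat.eq_zero_or_pos a with rfl | ha
  · simp
  · have ha0 : (a : ℂ) ≠ 0 := by
      have : a ≠ 0 := by omega
      exact_mod_cast this
    field_simp

private lemma mt_one : ∀ (a b : ℕ) (f : ℤ → ℂ), 1 ≤ a → 1 ≤ b → Per a f → Per b f →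
    mn a f = mn b f := by
  intro a b f ha hb h1 h2
  rw [← mt_mn_mul hb h1, ← mt_mn_mul ha h2, Nat.mul_comm]

private lemma mt_two : ∀ (a b : ℕ) (f g : ℤ → ℂ), 1 ≤ a → 1 ≤ b → a.Coprime b → Per a f → Per b g →
    mn (a * b) (fun y => f y * g y) = mn a f * mn b g := by
  intro a b f g ha hb hab hf hg
  unfold mn
  have ha0 : (a : ℂ) ≠ 0 := by
    have : a ≠ 0 := by omega
    exact_mod_cast this
  have hb0 : (b : ℂ) ≠ 0 := by
    have : b ≠ 0 := by omega
    exact_mod_cast this
  have h1 : ∑ y ∈ range (a * b), f (y : ℤ) * g (y : ℤ) =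
      (∑ y ∈ range a, f (y : ℤ)) * ∑ y ∈ range b, g (y : ℤ) := by
    rw [Finset.sum_mul_sum, ← Finset.sum_product']
    refine Finset.sum_bij' (fun y _ => (y % a, y % b))
      (fun p _ => (Nat.chineseRemainder hab p.1 p.2 : ℕ)) ?_ ?_ ?_ ?_ ?_
    · intro y _
      exact Finset.mem_product.2 ⟨Finset.mem_range.2 (Nat.mod_lt _ (by omega)),
        Finset.mem_range.2 (Nat.mod_lt _ (by omega))⟩
    · intro p _
      exact Finset.mem_range.2 (Nat.chineseRemainder_lt_mul hab _ _ (by omega) (by omega))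
    · intro y hy
      have hy' := Finset.mem_range.1 hy
      have e1 := (Nat.chineseRemainder hab (y % a) (y % b)).2
      have e2 : (Nat.chineseRemainder hab (y % a) (y % b) : ℕ) ≡ y [MOD a * b] := by
        refine (Nat.modEq_and_modEq_iff_modEq_mul hab).1 ⟨?_, ?_⟩
        · exact e1.1.trans (Nat.mod_modEq y a)
        · exact e1.2.trans (Nat.mod_modEq y b)
      exact Nat.ModEq.eq_of_lt_of_lt e2
        (Nat.chineseRemainder_lt_mul hab _ _ (by omega) (by omega)) hy'
    · intro p hp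
      obtain ⟨h1, h2⟩ := Finset.mem_product.1 hp
      have e1 := (Nat.chineseRemainder hab p.1 p.2).2
      refine Prod.ext ?_ ?_
      · show (Nat.chineseRemainder hab p.1 p.2 : ℕ) % a = p.1
        rw [e1.1]
        exact Nat.mod_eq_of_lt (Finset.mem_range.1 h1)
      · show (Nat.chineseRemainder hab p.1 p.2 : ℕ) % b = p.2
        rw [e1.2]
        exact Nat.mod_eq_of_lt (Finset.mem_range.1 h2)
    · intro y _
      rw [mt_mod hf y, mt_mod hg y]
  rw [h1]
  push_cast
  field_simp

private lemma mt_per_dvd {p q : ℕ} {f : ℤ → ℂ} (h : Per p f) (hd : p ∣ q) : Per q f := by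
  obtain ⟨k, rfl⟩ := hd
  exact fun y => mt_per_mul h y k

private lemma mt_three : ∀ (S : Finset ℕ) (f : ℕ → ℤ → ℂ), (∀ p ∈ S, p.Prime) →
    (∀ p ∈ S, Per p (f p)) →
    mn (∏ p ∈ S, p) (fun y => ∏ p ∈ S, f p y) = ∏ p ∈ S, mn p (f p) := by
  intro S f hS hf
  induction S using Finset.induction_on with
  | empty => simp [mn]
  | insert p S hp ih =>
    have hS' : ∀ q ∈ S, q.Prime := fun q hq => hS q (Finset.mem_insert_of_mem hq)
    have hpp := hS p (Finset.mem_insert_self _ _)
    have hf' : ∀ q ∈ S, Per q (f q) := fun q hq => hf q (Finset.mem_insert_of_mem hq)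
    rw [Finset.prod_insert hp, Finset.prod_insert hp, ← ih hS' hf']
    have h1 : (fun y => ∏ q ∈ insert p S, f q y) = fun y => f p y * ∏ q ∈ S, f q y := by
      funext y
      rw [Finset.prod_insert hp]
    rw [h1]
    refine mt_two p (∏ q ∈ S, q) (f p) _ hpp.one_lt.le
      (Finset.prod_pos fun q hq => (hS' q hq).pos) ?_ (hf p (Finset.mem_insert_self _ _)) ?_
    · refine Nat.Coprime.prod_right fun q hq => ?_
      refine (Nat.coprime_primes hpp (hS' q hq)).2 ?_
      rintro rfl
      exact hp hq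
    · intro y
      exact Finset.prod_congr rfl fun q hq =>
        mt_per_dvd (hf' q hq) (Finset.dvd_prod_of_mem _ hq) y

/-- sum over a shifted period -/
private lemma mt_shift {q : ℕ} {f : ℤ → ℂ} (h : Per q f) (t : ℕ) :
    ∑ y ∈ Ioc t (t + q), f (y : ℤ) = ∑ y ∈ range q, f (y : ℤ) := by
  induction t with
  | zero =>
    rw [zero_add]
    rcases Nat.eq_zero_or_pos q with rfl | hq
    · simp
    have e1 : Ioc 0 q = (Ioo 0 q) ∪ {q} := by
      ext y
      simp only [Finset.mem_Ioc, Finset.mem_union, Finset.mem_Ioo, Finset.mem_singleton]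
      omega
    have e2 : range q = (Ioo 0 q) ∪ {0} := by
      ext y
      simp only [Finset.mem_range, Finset.mem_union, Finset.mem_Ioo, Finset.mem_singleton]
      omega
    rw [e1, e2, Finset.sum_union (by simp), Finset.sum_union (by simp), Finset.sum_singleton,
      Finset.sum_singleton]
    congr 1
    have := h 0
    rwa [zero_add] at this
  | succ t ih =>
    rw [← ih]
    rcases Nat.eq_zero_or_pos q with rfl | hq
    · simp
    have e1 : Ioc (t + 1) (t + 1 + q) = (Ioc (t + 1) (t + q)) ∪ {t + q + 1} := by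
      ext y
      simp only [Finset.mem_Ioc, Finset.mem_union, Finset.mem_singleton]
      omega
    have e2 : Ioc t (t + q) = (Ioc (t + 1) (t + q)) ∪ {t + 1} := by
      ext y
      simp only [Finset.mem_Ioc, Finset.mem_union, Finset.mem_singleton]
      omega
    rw [e1, e2, Finset.sum_union (by simp), Finset.sum_union (by simp), Finset.sum_singleton,
      Finset.sum_singleton]
    congr 1
    have := h ((t + 1 : ℕ) : ℤ)
    rw [← this]
    congr 1
    push_cast
    ring

private lemma mt_shift_mul {q : ℕ} {f : ℤ → ℂ} (h : Per q f) (t k : ℕ) :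
    ∑ y ∈ Ioc t (t + q * k), f (y : ℤ) = k * ∑ y ∈ range q, f (y : ℤ) := by
  have h1 : Per (q * k) f := fun y => mt_per_mul h y k
  rw [mt_shift h1, mt_sum_mul h]

private lemma mt_four : ∀ (q t L : ℕ) (f : ℤ → ℂ) (B : ℝ), 1 ≤ q → Per q f → (∀ y, ‖f y‖ ≤ B) →
    ‖∑ y ∈ Ioc t (t + L), f (y : ℤ) - (L : ℂ) * mn q f‖ ≤ 2 * q * B := by
  intro q t L f B hq hf hB
  have hq0 : (0 : ℝ) < q := by exact_mod_cast hq
  have hqc : (q : ℂ) ≠ 0 := by
    have : q ≠ 0 := by omega
    exact_mod_cast this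
  have hB0 : 0 ≤ B := (norm_nonneg _).trans (hB 0)
  set c := L / q with hc
  set s := L % q with hs
  have hL : L = q * c + s := (Nat.div_add_mod L q).symm
  have hsq : s < q := Nat.mod_lt _ (by omega)
  have hmn : ‖mn q f‖ ≤ B := by
    unfold mn
    rw [norm_div, Complex.norm_natCast, div_le_iff₀ hq0]
    refine (norm_sum_le _ _).trans ?_
    refine (Finset.sum_le_sum fun (y : ℕ) _ => hB (y : ℤ)).trans ?_
    rw [Finset.sum_const, Finset.card_range, nsmul_eq_mul, mul_comm]
  have h1 : ∑ y ∈ Ioc t (t + L), f (y : ℤ) = ∑ y ∈ Ioc t (t + q * c), f (y : ℤ) +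
      ∑ y ∈ Ioc (t + q * c) (t + q * c + s), f (y : ℤ) := by
    rw [Finset.sum_Ioc_consecutive _ (by omega) (by omega)]
    congr 2
    omega
  have h2 : (∑ y ∈ range q, f (y : ℤ)) = q * mn q f := by
    unfold mn
    rw [mul_div_cancel₀ _ hqc]
  have h3 : ∑ y ∈ Ioc t (t + L), f (y : ℤ) - (L : ℂ) * mn q f =
      ∑ y ∈ Ioc (t + q * c) (t + q * c + s), f (y : ℤ) - (s : ℂ) * mn q f := by
    rw [h1, mt_shift_mul hf, h2]
    have h4 : (L : ℂ) = q * c + s := by
      rw [hL]
      push_cast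
      rfl
    rw [h4]
    ring
  rw [h3]
  have h5 : ‖∑ y ∈ Ioc (t + q * c) (t + q * c + s), f (y : ℤ)‖ ≤ q * B := by
    refine (norm_sum_le _ _).trans ?_
    refine (Finset.sum_le_sum fun (y : ℕ) _ => hB (y : ℤ)).trans ?_
    rw [Finset.sum_const, Nat.card_Ioc, nsmul_eq_mul, Nat.add_sub_cancel_left]
    have : (s : ℝ) ≤ q := by exact_mod_cast hsq.le
    exact mul_le_mul_of_nonneg_right this hB0
  have h6 : ‖(s : ℂ) * mn q f‖ ≤ q * B := by
    rw [norm_mul, Complex.norm_natCast]
    have : (s : ℝ) ≤ q := by exact_mod_cast hsq.le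
    exact mul_le_mul this hmn (norm_nonneg _) hq0.le
  calc _ ≤ _ := norm_sub_le _ _
    _ ≤ q * B + q * B := add_le_add h5 h6
    _ = 2 * q * B := by ring

theorem thm_Mt : St_Mt := ⟨mt_one, mt_two, mt_three, mt_four⟩

end Pool.Agent.MVII
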