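import Mathlib
import Pool.Agent.MVII.St1
import Pool.Agent.MVII.St2

set_option autoImplicit false

/-!
# MVII: WI, sums over short intervals
-/

namespace Pool.Agent.MVII

open Finset Filter
open Pool.Agent.GBQ (ee lam nd Admissible)
open Pool.Agent.MVX (Chr tent Bm Um prm Win GP)
open Pool.Agent.LIN (PP pz)

/-- the error -/
noncomputable def wi_E (t L M : ℕ) (f : ℤ → ℂ) : ℝ :=
  ‖∑ y ∈ Ioc t (t + L), f (y : ℤ) - (L : ℂ) * mn M f‖

theorem wi_sum {ι : Type*} (t L M : ℕ) (s : Finset ι) (f : ι → ℤ → ℂ) (e : ℝ)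
    (h : ∀ j ∈ s, wi_E t L M (f j) ≤ e) :
    wi_E t L M (fun y => ∑ j ∈ s, f j y) ≤ s.card * e := by
  have h1 : ∑ y ∈ Ioc t (t + L), (∑ j ∈ s, f j (y : ℤ)) -
      (L : ℂ) * mn M (fun y => ∑ j ∈ s, f j y) =
      ∑ j ∈ s, (∑ y ∈ Ioc t (t + L), f j (y : ℤ) - (L : ℂ) * mn M (f j)) := by
    rw [sum_sub_distrib, sum_comm]
    congr 1
    unfold mn
    rw [sum_comm, sum_div, mul_sum]
  unfold wi_E
  rw [h1]
  refine (norm_sum_le _ _).trans ?_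
  rw [← nsmul_eq_mul]
  exact sum_le_card_nsmul _ _ _ h

theorem wi_per_mul {N : ℕ} {f : ℤ → ℂ} (h : Per N f) (y k : ℤ) : f (y + N * k) = f y := by
  have h0 : ∀ (z : ℤ) (j : ℕ), f (z + N * j) = f z := by
    intro z j
    induction j with
    | zero => simp
    | succ j ih =>
      rw [← ih, ← h (z + N * j)]
      congr 1
      push_cast
      ring
  obtain ⟨j, rfl | rfl⟩ := k.eq_nat_or_neg
  · exact h0 y j
  · have h1 := h0 (y + N * (-(j : ℤ))) j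
    rw [← h1]
    congr 1
    ring

theorem wi_per_dvd {N N' : ℕ} {f : ℤ → ℂ} (h : Per N f) (hd : N ∣ N') : Per N' f := by
  obtain ⟨k, rfl⟩ := hd
  intro y
  have h1 := wi_per_mul h y k
  rw [← h1]
  push_cast
  rfl

theorem wi_per_lin {N : ℕ} {f : ℤ → ℂ} (h : Per N f) (n m : ℤ) : Per N (fun y => f (n - m * y)) := by
  intro y
  have h1 := wi_per_mul h (n - m * y) (-m)
  simp only
  rw [← h1]
  congr 1
  ring

theorem wi_per_mul2 {N : ℕ} {f g : ℤ → ℂ} (h : Per N f) (h' : Per N g) :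
    Per N (fun y => f y * g y) := fun y => by simp only [h y, h' y]

/-- one summand of the truncated singular series -/
noncomputable def wi_a (r k : ℕ) (x : ℤ) : ℝ :=
  (r : ℝ) / r.totient * ((ArithmeticFunction.moebius k : ℝ) / k.totient * cs k x)

/-- one summand of the model -/
noncomputable def wi_t (b : Chr → ℂ) (c : Chr) (k : ℕ) (x : ℤ) : ℂ :=
  b c * (starRingEnd ℂ) (c.2 (x : ZMod c.1)) * ((wi_a c.1 k x : ℝ) : ℂ)

theorem wi_cp_le {p : ℕ} (hp : p.Prime) (x : ℤ) : |cp p x| ≤ (p : ℝ) - 1 := by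
  have h : (2 : ℝ) ≤ p := by exact_mod_cast hp.two_le
  unfold cp
  split_ifs
  · rw [abs_of_nonneg (by linarith)]
  · rw [abs_neg, abs_one]
    linarith

theorem wi_cs_le {k : ℕ} (hk : 1 ≤ k) (x : ℤ) : |cs k x| ≤ (k.totient : ℝ) := by
  have h1 : |cs k x| ≤ ∏ p ∈ k.primeFactors, ((p : ℝ) - 1) := by
    unfold cs
    rw [abs_prod]
    exact prod_le_prod (fun p _ => abs_nonneg _) fun p hp =>
      wi_cp_le (Nat.prime_of_mem_primeFactors hp) x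
  have h2 : ∏ p ∈ k.primeFactors, ((p : ℝ) - 1) =
      ((∏ p ∈ k.primeFactors, (p - 1) : ℕ) : ℝ) := by
    push_cast
    refine prod_congr rfl fun p hp => ?_
    rw [Nat.cast_sub (Nat.prime_of_mem_primeFactors hp).one_le]
    simp
  rw [h2] at h1
  refine h1.trans ?_
  norm_cast
  have h3 := Nat.totient_mul_prod_primeFactors k
  have h4 : ∏ p ∈ k.primeFactors, p ≤ k := Nat.le_of_dvd hk (Nat.prod_primeFactors_dvd k)
  have h5 : 0 < ∏ p ∈ k.primeFactors, p :=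
    prod_pos fun p hp => (Nat.prime_of_mem_primeFactors hp).pos
  refine Nat.le_of_mul_le_mul_right ?_ h5
  rw [h3, mul_comm]
  exact Nat.mul_le_mul_right _ h4

theorem wi_a_le {r k : ℕ} (hr : 1 ≤ r) (hk : 1 ≤ k) (x : ℤ) : |wi_a r k x| ≤ r := by
  have h1 : (1 : ℝ) ≤ r.totient := by exact_mod_cast Nat.totient_pos.mpr hr
  have h2 : (1 : ℝ) ≤ k.totient := by exact_mod_cast Nat.totient_pos.mpr hk
  have h3 := wi_cs_le hk x
  have h4 : |(ArithmeticFunction.moebius k : ℝ)| ≤ 1 := by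
    exact_mod_cast ArithmeticFunction.abs_moebius_le_one
  unfold wi_a
  rw [abs_mul, abs_mul, abs_div, abs_div]
  rw [abs_of_nonneg (by positivity : (0 : ℝ) ≤ (r : ℝ)),
    abs_of_nonneg (by positivity : (0 : ℝ) ≤ (r.totient : ℝ)),
    abs_of_nonneg (by positivity : (0 : ℝ) ≤ (k.totient : ℝ))]
  have h5 : (r : ℝ) / r.totient ≤ r := div_le_self (by positivity) h1
  have h6 : |(ArithmeticFunction.moebius k : ℝ)| / k.totient * |cs k x| ≤ 1 := by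
    rw [div_mul_eq_mul_div, div_le_one (by linarith)]
    calc |(ArithmeticFunction.moebius k : ℝ)| * |cs k x| ≤ 1 * (k.totient : ℝ) :=
          mul_le_mul h4 h3 (abs_nonneg _) zero_le_one
      _ = _ := one_mul _
  calc (r : ℝ) / r.totient * (|(ArithmeticFunction.moebius k : ℝ)| / k.totient * |cs k x|)
      ≤ r * 1 := mul_le_mul h5 h6 (by positivity) (by positivity)
    _ = r := mul_one _

theorem wi_t_le {b : Chr → ℂ} {B : ℝ} (hb : ∀ c, ‖b c‖ ≤ B) {c : Chr} {k T : ℕ} (hc : 1 ≤ c.1)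
    (hcT : c.1 ≤ T) (hk : 1 ≤ k) (x : ℤ) : ‖wi_t b c k x‖ ≤ B * T := by
  unfold wi_t
  rw [norm_mul, norm_mul, Complex.norm_conj, Complex.norm_real, Real.norm_eq_abs]
  have h1 : ‖c.2 (x : ZMod c.1)‖ ≤ 1 := DirichletCharacter.norm_le_one _ _
  have h2 : |wi_a c.1 k x| ≤ (T : ℝ) := (wi_a_le hc hk x).trans (by exact_mod_cast hcT)
  have hB : 0 ≤ B := (norm_nonneg _).trans (hb c)
  calc ‖b c‖ * ‖c.2 (x : ZMod c.1)‖ * |wi_a c.1 k x| ≤ B * 1 * T := by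
        refine mul_le_mul (mul_le_mul (hb c) h1 (norm_nonneg _) hB) h2 (abs_nonneg _) ?_
        linarith
    _ = B * T := by ring

theorem wi_cs_per {k : ℕ} (x : ℤ) (j : ℤ) : cs k (x + k * j) = cs k x := by
  unfold cs
  refine prod_congr rfl fun p hp => ?_
  unfold cp
  have h1 : (p : ℤ) ∣ (k : ℤ) * j :=
    Dvd.dvd.mul_right (by exact_mod_cast Nat.dvd_of_mem_primeFactors hp) _
  have h2 : (p : ℤ) ∣ x + k * j ↔ (p : ℤ) ∣ x := dvd_add_left h1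
  simp only [h2]

theorem wi_t_per (b : Chr → ℂ) (c : Chr) (k : ℕ) : Per (c.1 * k) (wi_t b c k) := by
  intro x
  unfold wi_t wi_a
  have h1 : ((x + ((c.1 * k : ℕ) : ℤ) : ℤ) : ZMod c.1) = (x : ZMod c.1) := by
    push_cast
    simp
  have h2 : cs k (x + ((c.1 * k : ℕ) : ℤ)) = cs k x := by
    have := wi_cs_per (k := k) x c.1
    rw [← this]
    congr 1
    push_cast
    ring
  rw [h1, h2]

theorem wi_PM_eq (b : Chr → ℂ) (T Q : ℕ) (x : ℤ) : PM b T Q x =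
    ∑ r ∈ Icc 1 T, ∑ χ ∈ prm r, ∑ k ∈ (Icc 1 (Q / r)).filter (fun k => r.Coprime k),
      wi_t b ⟨r, χ⟩ k x := by
  unfold PM
  refine sum_congr rfl fun r _ => sum_congr rfl fun χ _ => ?_
  unfold wi_t wi_a ar
  rw [mul_sum, Complex.ofReal_sum, mul_sum]

theorem wi_PM (h2 : St_Bl) (b : Chr → ℂ) (T Q t L M : ℕ) (g : ℤ → ℂ) (z : ℤ → ℤ) (e : ℝ)
    (he : 0 ≤ e) (h : ∀ (c : Chr) (k : ℕ), 1 ≤ c.1 → c.1 ≤ T → 1 ≤ k → c.1 * k ≤ Q →
      wi_E t L M (fun y => wi_t b c k (z y) * g y) ≤ e) :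
    wi_E t L M (fun y => PM b T Q (z y) * g y) ≤ T * (T * (Q * e)) := by
  have e1 : (fun y => PM b T Q (z y) * g y) = fun y => ∑ r ∈ Icc 1 T, ∑ χ ∈ prm r,
      ∑ k ∈ (Icc 1 (Q / r)).filter (fun k => r.Coprime k), wi_t b ⟨r, χ⟩ k (z y) * g y := by
    funext y
    rw [wi_PM_eq]
    simp only [sum_mul]
  rw [e1]
  refine (wi_sum t L M (Icc 1 T) _ (T * (Q * e)) fun r hr => ?_).trans ?_
  · rw [mem_Icc] at hr
    refine (wi_sum t L M (prm r) _ (Q * e) fun χ _ => ?_).trans ?_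
    · refine (wi_sum t L M _ _ e fun k hk => ?_).trans ?_
      · rw [mem_filter, mem_Icc] at hk
        refine h ⟨r, χ⟩ k hr.1 hr.2 hk.1.1 ?_
        calc r * k ≤ r * (Q / r) := Nat.mul_le_mul_left _ hk.1.2
          _ ≤ Q := Nat.mul_div_le Q r
      · refine mul_le_mul_of_nonneg_right ?_ he
        norm_cast
        refine (card_filter_le _ _).trans ?_
        rw [Nat.card_Icc, Nat.add_sub_cancel]
        exact Nat.div_le_self _ _
    · refine mul_le_mul_of_nonneg_right ?_ (by positivity)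
      norm_cast
      exact (h2.2.2.2.2 r hr.1).trans hr.2
  · rw [Nat.card_Icc, Nat.add_sub_cancel]

theorem wi_base (h1 : St_Mt) (t L M N : ℕ) (f : ℤ → ℂ) (K N0 : ℝ) (hN : 1 ≤ N) (hM : 1 ≤ M)
    (hf : Per N f) (hf' : Per M f) (hK : ∀ y, ‖f y‖ ≤ K) (hN0 : (N : ℝ) ≤ N0) :
    wi_E t L M f ≤ 2 * N0 * K := by
  have h := h1.2.2.2 N t L f K hN hf hK
  rw [h1.1 N M f hN hM hf hf'] at h
  refine h.trans ?_
  have hK0 : 0 ≤ K := (norm_nonneg _).trans (hK 0)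
  exact mul_le_mul_of_nonneg_right (by linarith) hK0

/-- the sets that occur -/
noncomputable def wi_U (q₁ w : ℕ) (ψ : Finset ℕ → ℝ) : Finset (Finset ℕ) :=
  (PP 2 w).powerset.filter (fun U => sg q₁ ψ U ≠ 0)

theorem wi_prod_le {q₁ w : ℕ} {D : ℝ} {ψ : Finset ℕ → ℝ} (hq : 1 ≤ q₁) (hψ : IsPsi w D ψ)
    {U : Finset ℕ} (hU : U ∈ wi_U q₁ w ψ) : ((∏ p ∈ U, p : ℕ) : ℝ) ≤ q₁ * D := by
  obtain ⟨h1, h2⟩ := mem_filter.mp hU
  have hpr : ∀ p ∈ U, p.Prime := fun p hp => (mem_filter.mp (mem_powerset.mp h1 hp)).2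
  have h3 : ψ (U.filter (fun p => ¬ p ∣ q₁)) ≠ 0 := by
    intro h
    apply h2
    rw [sg, h, mul_zero]
  have h4 := (hψ.supp _ h3).2
  have h5 : ∏ p ∈ U.filter (fun p => p ∣ q₁), p ∣ q₁ :=
    Finset.prod_primes_dvd _ (fun p hp => (hpr p (mem_filter.mp hp).1).prime)
      fun p hp => (mem_filter.mp hp).2
  have h6 : ((∏ p ∈ U.filter (fun p => p ∣ q₁), p : ℕ) : ℝ) ≤ q₁ := by
    exact_mod_cast Nat.le_of_dvd hq h5
  have h7 : (∏ p ∈ U, p) = (∏ p ∈ U.filter (fun p => p ∣ q₁), p) *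
      ∏ p ∈ U.filter (fun p => ¬ p ∣ q₁), p := (prod_filter_mul_prod_filter_not _ _ _).symm
  rw [h7, Nat.cast_mul]
  exact mul_le_mul h6 h4 (Nat.cast_nonneg _) (Nat.cast_nonneg _)

theorem wi_U_card {q₁ w : ℕ} {D : ℝ} {ψ : Finset ℕ → ℝ} (hq : 1 ≤ q₁) (hD : 1 ≤ D)
    (hψ : IsPsi w D ψ) : ((wi_U q₁ w ψ).card : ℝ) ≤ q₁ * D := by
  have hpr : ∀ U ∈ wi_U q₁ w ψ, ∀ p ∈ U, p.Prime := fun U hU p hp =>
    (mem_filter.mp (mem_powerset.mp (mem_filter.mp hU).1 hp)).2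
  have h1 : (wi_U q₁ w ψ).card ≤ (Icc 1 ⌊(q₁ : ℝ) * D⌋₊).card := by
    refine card_le_card_of_injOn (fun U => ∏ p ∈ U, p) (fun U hU => ?_) ?_
    · simp only [coe_Icc, Set.mem_Icc]
      refine ⟨?_, Nat.le_floor (wi_prod_le hq hψ hU)⟩
      exact Nat.one_le_iff_ne_zero.mpr (prod_ne_zero_iff.mpr fun p hp => (hpr U hU p hp).ne_zero)
    · intro U hU V hV hUV
      have h3 := Nat.primeFactors_prod (hpr U hU)
      have h4 := Nat.primeFactors_prod (hpr V hV)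
      simp only at hUV
      rw [hUV] at h3
      exact h3.symm.trans h4
  rw [Nat.card_Icc, Nat.add_sub_cancel] at h1
  have h2 : (0 : ℝ) ≤ q₁ * D := by positivity
  calc ((wi_U q₁ w ψ).card : ℝ) ≤ (⌊(q₁ : ℝ) * D⌋₊ : ℝ) := by exact_mod_cast h1
    _ ≤ q₁ * D := Nat.floor_le h2

/-- one summand of the sieve weight -/
noncomputable def wi_s (q₁ : ℕ) (ψ : Finset ℕ → ℝ) (U : Finset ℕ) (y : ℤ) : ℂ :=
  (((if ∀ p ∈ U, (p : ℤ) ∣ y ^ 2 - 2 then sg q₁ ψ U else 0 : ℝ)) : ℂ)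

theorem wi_SS (q₁ w : ℕ) (ψ : Finset ℕ → ℝ) (y : ℤ) :
    ((SS q₁ w ψ y : ℝ) : ℂ) = ∑ U ∈ wi_U q₁ w ψ, wi_s q₁ ψ U y := by
  unfold SS wi_s wi_U
  rw [← Complex.ofReal_sum]
  congr 1
  refine (sum_subset (filter_subset _ _) fun U hU1 hU2 => ?_).symm
  have : sg q₁ ψ U = 0 := by
    by_contra h
    exact hU2 (mem_filter.mpr ⟨hU1, h⟩)
  rw [this]
  simp

theorem wi_s_le {q₁ w : ℕ} {D : ℝ} {ψ : Finset ℕ → ℝ} (hψ : IsPsi w D ψ) (U : Finset ℕ) (y : ℤ) :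
    ‖wi_s q₁ ψ U y‖ ≤ 1 := by
  unfold wi_s
  rw [Complex.norm_real, Real.norm_eq_abs]
  split_ifs
  · unfold sg
    rw [abs_mul, abs_pow, abs_neg, abs_one, one_pow, one_mul]
    exact hψ.bd _
  · rw [abs_zero]
    exact zero_le_one

theorem wi_s_per (q₁ : ℕ) (ψ : Finset ℕ → ℝ) (U : Finset ℕ) : Per (∏ p ∈ U, p) (wi_s q₁ ψ U) := by
  intro y
  unfold wi_s
  have h : (∀ p ∈ U, (p : ℤ) ∣ (y + ((∏ p ∈ U, p : ℕ) : ℤ)) ^ 2 - 2) ↔
      ∀ p ∈ U, (p : ℤ) ∣ y ^ 2 - 2 := by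
    refine forall_congr' fun p => forall_congr' fun hp => ?_
    have h1 : (y + ((∏ p ∈ U, p : ℕ) : ℤ)) ^ 2 - 2 = (y ^ 2 - 2) +
        ((∏ p ∈ U, p : ℕ) : ℤ) * (2 * y + ((∏ p ∈ U, p : ℕ) : ℤ)) := by ring
    have h2 : (p : ℤ) ∣ ((∏ p ∈ U, p : ℕ) : ℤ) * (2 * y + ((∏ p ∈ U, p : ℕ) : ℤ)) :=
      Dvd.dvd.mul_right (by exact_mod_cast dvd_prod_of_mem _ hp) _
    rw [h1, dvd_add_left h2]
  simp only [h]

/-- WI from MT and BL. -/
theorem thm_Wi (h1 : St_Mt) (h2 : St_Bl) : St_Wi := by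
  intro T Q m n q₁ w t L D B ψ b b' hT hTQ hq1 hD hqD hB hψ hb hb'
  have hM : 1 ≤ Q.factorial := Nat.factorial_pos Q
  have hqD0 : (0 : ℝ) ≤ q₁ * D := by positivity
  set e : ℝ := 2 * ((Q : ℝ) ^ 2 * (q₁ * D)) * ((B * T) * ((B * T) * 1)) with he
  have he0 : 0 ≤ e := by positivity
  have key : ∀ (c c' : Chr) (k k' : ℕ) (U : Finset ℕ), 1 ≤ c.1 → c.1 ≤ T → 1 ≤ k → c.1 * k ≤ Q →
      1 ≤ c'.1 → c'.1 ≤ T → 1 ≤ k' → c'.1 * k' ≤ Q → U ∈ wi_U q₁ w ψ →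
      wi_E t L Q.factorial (fun y => wi_t b' c' k' y *
        (wi_t b c k (n - m * y) * wi_s q₁ ψ U y)) ≤ e := by
    intro c c' k k' U hc hcT hk hkQ hc' hcT' hk' hkQ' hU
    have hU1 : 1 ≤ ∏ p ∈ U, p := Nat.one_le_iff_ne_zero.mpr (prod_ne_zero_iff.mpr fun p hp =>
      ((mem_filter.mp (mem_powerset.mp (mem_filter.mp hU).1 hp)).2).ne_zero)
    have hUD := wi_prod_le hq1 hψ hU
    have hUQ : ∏ p ∈ U, p ≤ Q := by exact_mod_cast hUD.trans hqD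
    have p1 := wi_t_per b' c' k'
    have p2 := wi_per_lin (wi_t_per b c k) (n : ℤ) (m : ℤ)
    have p3 := wi_s_per q₁ ψ U
    have hck : 1 ≤ c.1 * k := Nat.mul_pos hc hk
    have hck' : 1 ≤ c'.1 * k' := Nat.mul_pos hc' hk'
    refine wi_base h1 t L Q.factorial ((c'.1 * k') * ((c.1 * k) * ∏ p ∈ U, p)) _
      ((B * T) * ((B * T) * 1)) ((Q : ℝ) ^ 2 * (q₁ * D)) (Nat.mul_pos hck' (Nat.mul_pos hck hU1))
      hM ?_ ?_ ?_ ?_
    · exact wi_per_mul2 (wi_per_dvd p1 (dvd_mul_right _ _))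
        (wi_per_mul2 (wi_per_dvd p2 ((dvd_mul_right _ _).mul_left _))
          (wi_per_dvd p3 ((dvd_mul_left _ _).mul_left _)))
    · exact wi_per_mul2 (wi_per_dvd p1 (Nat.dvd_factorial hck' hkQ'))
        (wi_per_mul2 (wi_per_dvd p2 (Nat.dvd_factorial hck hkQ))
          (wi_per_dvd p3 (Nat.dvd_factorial hU1 hUQ)))
    · intro y
      have n1 := wi_t_le hb' hc' hcT' hk' y
      have n2 := wi_t_le hb hc hcT hk (n - m * y)
      have n3 := wi_s_le (q₁ := q₁) hψ U y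
      rw [norm_mul, norm_mul]
      have hBT : 0 ≤ B * T := by positivity
      exact mul_le_mul n1 (mul_le_mul n2 n3 (norm_nonneg _) hBT) (by positivity) hBT
    · push_cast
      have a1 : (c'.1 : ℝ) * k' ≤ Q := by exact_mod_cast hkQ'
      have a2 : (c.1 : ℝ) * k ≤ Q := by exact_mod_cast hkQ
      have a3 : (∏ p ∈ U, (p : ℝ)) ≤ q₁ * D := by
        have := hUD
        push_cast at this
        exact this
      calc (c'.1 : ℝ) * k' * ((c.1 : ℝ) * k * ∏ p ∈ U, (p : ℝ)) ≤ Q * (Q * (q₁ * D)) := by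
            refine mul_le_mul a1 (mul_le_mul a2 a3 ?_ ?_) ?_ ?_
            · exact prod_nonneg fun p _ => Nat.cast_nonneg _
            · positivity
            · exact mul_nonneg (by positivity) (prod_nonneg fun p _ => Nat.cast_nonneg _)
            · positivity
        _ = (Q : ℝ) ^ 2 * (q₁ * D) := by ring
  have step1 : ∀ (c : Chr) (k : ℕ), 1 ≤ c.1 → c.1 ≤ T → 1 ≤ k → c.1 * k ≤ Q →
      wi_E t L Q.factorial (fun y => wi_t b c k (n - m * y) *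
        (PM b' T Q y * ((SS q₁ w ψ y : ℝ) : ℂ))) ≤ T * (T * (Q * ((q₁ * D) * e))) := by
    intro c k hc hcT hk hkQ
    have e1 : (fun y : ℤ => wi_t b c k (n - m * y) * (PM b' T Q y * ((SS q₁ w ψ y : ℝ) : ℂ))) =
        fun y : ℤ => PM b' T Q y * (wi_t b c k (n - m * y) * ((SS q₁ w ψ y : ℝ) : ℂ)) := by
      funext y
      ring
    rw [e1]
    refine wi_PM h2 b' T Q t L Q.factorial
      (fun y => wi_t b c k (n - m * y) * ((SS q₁ w ψ y : ℝ) : ℂ)) (fun y => y) ((q₁ * D) * e)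
      (by positivity) fun c' k' hc' hcT' hk' hkQ' => ?_
    have e2 : (fun y : ℤ => wi_t b' c' k' y *
        (wi_t b c k (n - m * y) * ((SS q₁ w ψ y : ℝ) : ℂ))) =
        fun y : ℤ => ∑ U ∈ wi_U q₁ w ψ, wi_t b' c' k' y *
          (wi_t b c k (n - m * y) * wi_s q₁ ψ U y) := by
      funext y
      rw [wi_SS, mul_sum, mul_sum]
    rw [e2]
    refine (wi_sum t L Q.factorial _ _ e fun U hU =>
      key c c' k k' U hc hcT hk hkQ hc' hcT' hk' hkQ' hU).trans ?_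
    exact mul_le_mul_of_nonneg_right (wi_U_card hq1 hD hψ) he0
  have step2 := wi_PM h2 b T Q t L Q.factorial
    (fun y => PM b' T Q y * ((SS q₁ w ψ y : ℝ) : ℂ)) (fun y => (n : ℤ) - m * y)
    (T * (T * (Q * ((q₁ * D) * e)))) (by positivity) step1
  have e3 : (fun y : ℤ => PM b T Q ((n : ℤ) - m * y) * (PM b' T Q y * ((SS q₁ w ψ y : ℝ) : ℂ))) =
      fun y : ℤ => PM b T Q (n - m * y) * PM b' T Q y * ((SS q₁ w ψ y : ℝ) : ℂ) := by
    funext y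
    ring
  rw [e3] at step2
  refine step2.trans (le_of_eq ?_)
  rw [he]
  ring

end Pool.Agent.MVII
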