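import Pool.Agent.MVII.St1

set_option autoImplicit false

/-!
# MVII, module Bl: local means: trivial bound, interior, Lipschitz; number of characters
-/

namespace Pool.Agent.MVII

open Finset Filter
open Pool.Agent.GBQ (ee lam nd Admissible)
open Pool.Agent.MVX (Chr tent Bm Um prm Win GP)
open Pool.Agent.LIN (PP pz)

theorem bl_tent_nonneg (H x n : ℕ) : 0 ≤ tent H x n := le_max_left _ _

theorem bl_tent_zero {H x n : ℕ} (h : n + H ≤ x ∨ x + H ≤ n) : tent H x n = 0 := by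
  rw [tent]
  apply max_eq_left
  rcases h with h | h
  · have h1 : (n : ℝ) + H ≤ x := by exact_mod_cast h
    have h2 : |(n : ℝ) - x| = x - n := by
      rw [abs_sub_comm]
      apply abs_of_nonneg
      have : (0 : ℝ) ≤ H := Nat.cast_nonneg _
      linarith
    rw [h2]
    linarith
  · have h1 : (x : ℝ) + H ≤ n := by exact_mod_cast h
    have h2 : |(n : ℝ) - x| = n - x := by
      apply abs_of_nonneg
      have : (0 : ℝ) ≤ H := Nat.cast_nonneg _
      linarith
    rw [h2]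
    linarith

theorem bl_tent_lip (H x x' n : ℕ) : |tent H x n - tent H x' n| ≤ |(x : ℝ) - x'| := by
  have h1 : |tent H x n - tent H x' n| ≤
      |((H : ℝ) - |(n : ℝ) - x|) - ((H : ℝ) - |(n : ℝ) - x'|)| := by
    unfold tent
    rw [max_comm 0 ((H : ℝ) - |(n : ℝ) - x|), max_comm 0 ((H : ℝ) - |(n : ℝ) - x'|)]
    exact abs_max_sub_max_le_abs _ _ _
  refine h1.trans ?_
  have h2 : ((H : ℝ) - |(n : ℝ) - x|) - ((H : ℝ) - |(n : ℝ) - x'|) =
      |(n : ℝ) - x'| - |(n : ℝ) - x| := by ring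
  rw [h2]
  refine (abs_abs_sub_abs_le_abs_sub _ _).trans ?_
  rw [show (n : ℝ) - x' - (n - x) = x - x' by ring]

theorem bl_sum_a (H : ℕ) : ∑ j ∈ range H, ((H : ℝ) - j) = H * (H + 1) / 2 := by
  have h : ∀ m : ℕ, ∑ j ∈ range m, ((H : ℝ) - j) = m * H - m * (m - 1) / 2 := by
    intro m
    induction m with
    | zero => simp
    | succ m ih =>
      rw [sum_range_succ, ih]
      push_cast
      ring
  rw [h]
  ring

theorem bl_sum_max (H N : ℕ) :
    ∑ j ∈ range N, max 0 ((H : ℝ) - j) ≤ (H : ℝ) * (H + 1) / 2 := by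
  have h1 : ∑ j ∈ range N, max 0 ((H : ℝ) - j) ≤ ∑ j ∈ range (H + N), max 0 ((H : ℝ) - j) := by
    apply sum_le_sum_of_subset_of_nonneg
    · intro j hj
      rw [mem_range] at hj ⊢
      omega
    · intro j _ _
      exact le_max_left _ _
  have h2 : ∑ j ∈ range N, max 0 ((H : ℝ) - ((H + j : ℕ) : ℝ)) = 0 := by
    apply sum_eq_zero
    intro j _
    apply max_eq_left
    push_cast
    have : (0 : ℝ) ≤ j := Nat.cast_nonneg _
    linarith
  have h3 : ∑ j ∈ range H, max 0 ((H : ℝ) - j) = ∑ j ∈ range H, ((H : ℝ) - j) := by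
    apply sum_congr rfl
    intro j hj
    rw [mem_range] at hj
    apply max_eq_right
    have : (j : ℝ) ≤ H := by exact_mod_cast hj.le
    linarith
  rw [sum_range_add, h2, h3, add_zero, bl_sum_a] at h1
  exact h1

theorem bl_mass (H x : ℕ) (S : Finset ℕ) : ∑ n ∈ S, tent H x n ≤ (H : ℝ) ^ 2 := by
  have h1 : ∑ n ∈ S, tent H x n ≤ ∑ n ∈ range ((x + 1) + (S.sup id + 1)), tent H x n := by
    apply sum_le_sum_of_subset_of_nonneg
    · intro n hn
      rw [mem_range]
      have : n ≤ S.sup id := Finset.le_sup (f := id) hn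
      omega
    · intro n _ _
      exact bl_tent_nonneg H x n
  have h2 : ∑ n ∈ range (x + 1), tent H x n ≤ (H : ℝ) * (H + 1) / 2 := by
    rw [← sum_range_reflect]
    have h3 : ∀ j ∈ range (x + 1), tent H x (x + 1 - 1 - j) = max 0 ((H : ℝ) - j) := by
      intro j hj
      rw [mem_range] at hj
      have h4 : ((x + 1 - 1 - j : ℕ) : ℝ) = (x : ℝ) - j := by
        have : x + 1 - 1 - j = x - j := by omega
        rw [this, Nat.cast_sub (by omega)]
      rw [tent, h4]
      congr 2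
      rw [show (x : ℝ) - j - x = -j by ring, abs_neg, abs_of_nonneg (Nat.cast_nonneg _)]
    rw [sum_congr rfl h3]
    exact bl_sum_max H _
  have h6 : ∀ N : ℕ, ∑ j ∈ range N, tent H x (x + 1 + j) ≤ (H : ℝ) * (H + 1) / 2 - H := by
    intro N
    have h7 : ∀ j ∈ range N, tent H x (x + 1 + j) = max 0 ((H : ℝ) - ((j + 1 : ℕ) : ℝ)) := by
      intro j _
      rw [tent]
      push_cast
      rw [show (x : ℝ) + 1 + j - x = j + 1 by ring, abs_of_nonneg (by positivity)]
    rw [sum_congr rfl h7]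
    have h8 := bl_sum_max H (N + 1)
    rw [sum_range_succ'] at h8
    have h9 : max 0 ((H : ℝ) - ((0 : ℕ) : ℝ)) = H := by
      rw [Nat.cast_zero, sub_zero]
      exact max_eq_right (Nat.cast_nonneg _)
    rw [h9] at h8
    linarith
  rw [sum_range_add] at h1
  have h10 := h6 (S.sup id + 1)
  refine h1.trans ?_
  have h11 : (H : ℝ) ^ 2 = (H : ℝ) * (H + 1) / 2 + ((H : ℝ) * (H + 1) / 2 - H) := by ring
  rw [h11]
  exact add_le_add h2 h10

theorem bl_coef (c : Chr) (n : ℕ) : ‖((lam n : ℝ) : ℂ) * c.2 (n : ZMod c.1)‖ ≤ lam n := by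
  rw [norm_mul, Complex.norm_real, Real.norm_eq_abs,
    abs_of_nonneg (show 0 ≤ lam n from ArithmeticFunction.vonMangoldt_nonneg)]
  have h1 : ‖c.2 (n : ZMod c.1)‖ ≤ 1 := DirichletCharacter.norm_le_one c.2 _
  calc lam n * ‖c.2 (n : ZMod c.1)‖ ≤ lam n * 1 :=
        mul_le_mul_of_nonneg_left h1 ArithmeticFunction.vonMangoldt_nonneg
    _ = lam n := mul_one _

theorem bl_lam_le {n : ℕ} {t : ℝ} (h1 : 1 ≤ n) (h : (n : ℝ) ≤ t) : lam n ≤ Real.log t := by
  have h2 : lam n ≤ Real.log n := ArithmeticFunction.vonMangoldt_le_log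
  refine h2.trans (Real.log_le_log ?_ h)
  have : (1 : ℝ) ≤ n := by exact_mod_cast h1
  linarith

theorem bl_one (h u v x : ℕ) (c : Chr) (hh : 1 ≤ h) (hv : 1 ≤ v) :
    ‖BI h u v x c‖ ≤ Real.log v := by
  have hh' : (0 : ℝ) < h := by exact_mod_cast hh
  have hlog : 0 ≤ Real.log v := Real.log_natCast_nonneg v
  unfold BI
  rw [norm_mul, norm_inv, norm_pow, Complex.norm_natCast]
  have h1 : ‖∑ n ∈ Ioc u v, (((lam n : ℝ) : ℂ) * c.2 (n : ZMod c.1)) * ((tent h x n : ℝ) : ℂ)‖ ≤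
      Real.log v * (h : ℝ) ^ 2 := by
    calc _ ≤ ∑ n ∈ Ioc u v,
          ‖(((lam n : ℝ) : ℂ) * c.2 (n : ZMod c.1)) * ((tent h x n : ℝ) : ℂ)‖ := norm_sum_le _ _
      _ ≤ ∑ n ∈ Ioc u v, Real.log v * tent h x n := by
          apply sum_le_sum
          intro n hn
          rw [mem_Ioc] at hn
          rw [norm_mul, Complex.norm_real, Real.norm_eq_abs, abs_of_nonneg (bl_tent_nonneg _ _ _)]
          refine mul_le_mul_of_nonneg_right ?_ (bl_tent_nonneg _ _ _)
          refine (bl_coef c n).trans (bl_lam_le (by omega) ?_)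
          exact_mod_cast hn.2
      _ = Real.log v * ∑ n ∈ Ioc u v, tent h x n := (mul_sum _ _ _).symm
      _ ≤ _ := mul_le_mul_of_nonneg_left (bl_mass h x _) hlog
  calc ((h : ℝ) ^ 2)⁻¹ * _ ≤ ((h : ℝ) ^ 2)⁻¹ * (Real.log v * (h : ℝ) ^ 2) :=
        mul_le_mul_of_nonneg_left h1 (by positivity)
    _ = Real.log v := by field_simp

theorem bl_two (h u v x : ℕ) (c : Chr) (hux : u + h ≤ x) (hxv : x + h ≤ v + 1) :
    BI h u v x c = Bc h x c := by
  unfold BI Bc Bm
  congr 1
  have h1 : ∑ n ∈ Ioc u v, (((lam n : ℝ) : ℂ) * c.2 (n : ZMod c.1)) * ((tent h x n : ℝ) : ℂ) =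
      ∑ n ∈ Icc 1 (v + 1), (((lam n : ℝ) : ℂ) * c.2 (n : ZMod c.1)) * ((tent h x n : ℝ) : ℂ) := by
    apply sum_subset
    · intro n hn
      rw [mem_Ioc] at hn
      rw [mem_Icc]
      omega
    · intro n hn hn'
      rw [mem_Icc] at hn
      rw [mem_Ioc] at hn'
      rw [bl_tent_zero (by omega), Complex.ofReal_zero, mul_zero]
  have h2 : ∑ n ∈ Icc 1 (x + h), (((lam n : ℝ) : ℂ) * c.2 (n : ZMod c.1)) *
        ((tent h x n : ℝ) : ℂ) =
      ∑ n ∈ Icc 1 (v + 1), (((lam n : ℝ) : ℂ) * c.2 (n : ZMod c.1)) * ((tent h x n : ℝ) : ℂ) := by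
    apply sum_subset
    · intro n hn
      rw [mem_Icc] at hn ⊢
      omega
    · intro n hn hn'
      rw [mem_Icc] at hn
      rw [mem_Icc] at hn'
      rw [bl_tent_zero (by omega), Complex.ofReal_zero, mul_zero]
  rw [h1]
  exact h2.symm

theorem bl_three (h u v x : ℕ) (c : Chr) (hx : x + h ≤ u ∨ v + h ≤ x) : BI h u v x c = 0 := by
  unfold BI
  rw [sum_eq_zero, mul_zero]
  intro n hn
  rw [mem_Ioc] at hn
  rw [bl_tent_zero (by omega), Complex.ofReal_zero, mul_zero]

theorem bl_four (X h x x' : ℕ) (c : Chr) (hh : 1 ≤ h) (hX : h ≤ X) (hx : x ≤ X) (hx' : x' ≤ X) :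
    ‖Bc h x c - Bc h x' c‖ ≤ 4 * |(x : ℝ) - x'| * Real.log (2 * X) / h := by
  have hh' : (0 : ℝ) < h := by exact_mod_cast hh
  have hX1 : (1 : ℝ) ≤ X := by
    have : 1 ≤ X := hh.trans hX
    exact_mod_cast this
  have hlog : 0 ≤ Real.log (2 * X) := Real.log_nonneg (by linarith)
  have key : ∀ y : ℕ, y ≤ X → Bc h y c = ((h : ℂ) ^ 2)⁻¹ * ∑ n ∈ Icc 1 (X + h),
      (((lam n : ℝ) : ℂ) * c.2 (n : ZMod c.1)) * ((tent h y n : ℝ) : ℂ) := by
    intro y hy
    unfold Bc Bm
    congr 1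
    apply sum_subset
    · intro n hn
      rw [mem_Icc] at hn ⊢
      omega
    · intro n hn hn'
      rw [mem_Icc] at hn
      rw [mem_Icc] at hn'
      rw [bl_tent_zero (by omega), Complex.ofReal_zero, mul_zero]
  rw [key x hx, key x' hx', ← mul_sub, ← sum_sub_distrib, norm_mul, norm_inv, norm_pow,
    Complex.norm_natCast]
  have h1 : ‖∑ n ∈ Icc 1 (X + h), ((((lam n : ℝ) : ℂ) * c.2 (n : ZMod c.1)) *
      ((tent h x n : ℝ) : ℂ) - (((lam n : ℝ) : ℂ) * c.2 (n : ZMod c.1)) *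
      ((tent h x' n : ℝ) : ℂ))‖ ≤ (4 * h) * (Real.log (2 * X) * |(x : ℝ) - x'|) := by
    calc _ ≤ ∑ n ∈ Icc 1 (X + h), ‖(((lam n : ℝ) : ℂ) * c.2 (n : ZMod c.1)) *
          ((tent h x n : ℝ) : ℂ) - (((lam n : ℝ) : ℂ) * c.2 (n : ZMod c.1)) *
          ((tent h x' n : ℝ) : ℂ)‖ := norm_sum_le _ _
      _ ≤ ∑ n ∈ Icc 1 (X + h), (if n ∈ Ioo (x - h) (x + h) ∪ Ioo (x' - h) (x' + h) then
            Real.log (2 * X) * |(x : ℝ) - x'| else 0) := by
          apply sum_le_sum
          intro n hn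
          rw [mem_Icc] at hn
          split_ifs with hc
          · rw [← mul_sub, norm_mul, ← Complex.ofReal_sub, Complex.norm_real, Real.norm_eq_abs]
            refine mul_le_mul ((bl_coef c n).trans (bl_lam_le hn.1 ?_)) (bl_tent_lip _ _ _ _)
              (abs_nonneg _) hlog
            have : n ≤ 2 * X := by omega
            exact_mod_cast this
          · rw [mem_union, mem_Ioo, mem_Ioo, not_or] at hc
            rw [bl_tent_zero (H := h) (x := x) (n := n) (by omega),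
              bl_tent_zero (H := h) (x := x') (n := n) (by omega)]
            simp
      _ = ∑ n ∈ (Icc 1 (X + h)).filter
            (fun n => n ∈ Ioo (x - h) (x + h) ∪ Ioo (x' - h) (x' + h)),
            Real.log (2 * X) * |(x : ℝ) - x'| := by rw [sum_filter]
      _ = (((Icc 1 (X + h)).filter
            (fun n => n ∈ Ioo (x - h) (x + h) ∪ Ioo (x' - h) (x' + h))).card : ℝ) *
            (Real.log (2 * X) * |(x : ℝ) - x'|) := by rw [sum_const, nsmul_eq_mul]
      _ ≤ _ := by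
          refine mul_le_mul_of_nonneg_right ?_ (mul_nonneg hlog (abs_nonneg _))
          have h2 : ((Icc 1 (X + h)).filter
              (fun n => n ∈ Ioo (x - h) (x + h) ∪ Ioo (x' - h) (x' + h))).card ≤ 4 * h := by
            calc _ ≤ (Ioo (x - h) (x + h) ∪ Ioo (x' - h) (x' + h)).card := by
                  apply card_le_card
                  intro n hn
                  exact (mem_filter.1 hn).2
              _ ≤ (Ioo (x - h) (x + h)).card + (Ioo (x' - h) (x' + h)).card := card_union_le _ _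
              _ ≤ 4 * h := by
                  rw [Nat.card_Ioo, Nat.card_Ioo]
                  omega
          exact_mod_cast h2
  calc ((h : ℝ) ^ 2)⁻¹ * _ ≤ ((h : ℝ) ^ 2)⁻¹ * ((4 * h) * (Real.log (2 * X) * |(x : ℝ) - x'|)) :=
        mul_le_mul_of_nonneg_left h1 (by positivity)
    _ = 4 * |(x : ℝ) - x'| * Real.log (2 * X) / h := by
        field_simp

theorem bl_five (r : ℕ) (hr : 1 ≤ r) : (prm r).card ≤ r := by
  classical
  have : NeZero r := ⟨by omega⟩
  calc (prm r).card ≤ Fintype.card (DirichletCharacter ℂ r) := card_le_univ _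
    _ = Nat.card (DirichletCharacter ℂ r) := (Nat.card_eq_fintype_card).symm
    _ = r.totient := DirichletCharacter.card_eq_totient_of_hasEnoughRootsOfUnity ℂ r
    _ ≤ r := Nat.totient_le r

theorem thm_Bl : St_Bl :=
  ⟨bl_one, fun h u v x c _ => bl_two h u v x c, bl_three, bl_four, bl_five⟩

end Pool.Agent.MVII
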