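import Pool.Agent.MVII.St2

set_option autoImplicit false

/-!
# MVII / Br: the truncated singular series as a sum over sets of primes, and the full one
-/

namespace Pool.Agent.MVII

open Finset Filter
open Pool.Agent.LIN (PP pz)

private theorem br_totient (V : Finset ℕ) (hV : ∀ p ∈ V, p.Prime) :
    ((∏ p ∈ V, p).totient : ℝ) = ∏ p ∈ V, ((p : ℝ) - 1) := by
  classical
  induction V using Finset.induction_on with
  | empty => simp
  | insert a s ha ih =>
    have h1 : a.Prime := hV a (Finset.mem_insert_self _ _)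
    have h2 : ∀ p ∈ s, p.Prime := fun p hp => hV p (Finset.mem_insert_of_mem hp)
    rw [Finset.prod_insert ha, Finset.prod_insert ha, Nat.totient_mul, Nat.cast_mul, ih h2,
      Nat.totient_prime h1, Nat.cast_sub h1.one_le, Nat.cast_one]
    refine Nat.Coprime.prod_right fun p hp => ?_
    exact (Nat.coprime_primes h1 (h2 p hp)).2 (fun h => ha (h ▸ hp))

private theorem br_moebius (V : Finset ℕ) (hV : ∀ p ∈ V, p.Prime) :
    (ArithmeticFunction.moebius (∏ p ∈ V, p) : ℝ) = ∏ _p ∈ V, (-1 : ℝ) := by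
  classical
  induction V using Finset.induction_on with
  | empty => simp
  | insert a s ha ih =>
    have h1 : a.Prime := hV a (Finset.mem_insert_self _ _)
    have h2 : ∀ p ∈ s, p.Prime := fun p hp => hV p (Finset.mem_insert_of_mem hp)
    rw [Finset.prod_insert ha, Finset.prod_insert ha,
      ArithmeticFunction.isMultiplicative_moebius.map_mul_of_coprime, Int.cast_mul, ih h2,
      ArithmeticFunction.moebius_apply_prime h1]
    · norm_num
    · refine Nat.Coprime.prod_right fun p hp => ?_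
      exact (Nat.coprime_primes h1 (h2 p hp)).2 (fun h => ha (h ▸ hp))

private theorem br_sqf (V : Finset ℕ) (hV : ∀ p ∈ V, p.Prime) : Squarefree (∏ p ∈ V, p) := by
  classical
  induction V using Finset.induction_on with
  | empty => simp
  | insert a s ha ih =>
    have h1 : a.Prime := hV a (Finset.mem_insert_self _ _)
    have h2 : ∀ p ∈ s, p.Prime := fun p hp => hV p (Finset.mem_insert_of_mem hp)
    rw [Finset.prod_insert ha, Nat.squarefree_mul]
    · exact ⟨h1.squarefree, ih h2⟩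
    · refine Nat.Coprime.prod_right fun p hp => ?_
      exact (Nat.coprime_primes h1 (h2 p hp)).2 (fun h => ha (h ▸ hp))

private theorem br_term (x : ℤ) (V : Finset ℕ) (hV : ∀ p ∈ V, p.Prime) :
    (ArithmeticFunction.moebius (∏ p ∈ V, p) : ℝ) / ((∏ p ∈ V, p).totient : ℝ) *
      cs (∏ p ∈ V, p) x = ∏ p ∈ V, (-(cp p x / ((p : ℝ) - 1))) := by
  rw [br_totient V hV, br_moebius V hV]
  unfold cs
  rw [Nat.primeFactors_prod hV, ← Finset.prod_div_distrib, ← Finset.prod_mul_distrib]
  refine Finset.prod_congr rfl fun p _ => ?_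
  ring

private theorem br_one (Q r : ℕ) (x : ℤ) (hr : 1 ≤ r) : ar Q r x =
    (r : ℝ) / r.totient * ∑ V ∈ (pz Q).powerset.filter (fun V => r * ∏ p ∈ V, p ≤ Q ∧
      ∀ p ∈ V, ¬ p ∣ r), ∏ p ∈ V, (-(cp p x / ((p : ℝ) - 1))) := by
  classical
  unfold ar
  congr 1
  have hpr : ∀ V ∈ (pz Q).powerset.filter (fun V => r * ∏ p ∈ V, p ≤ Q ∧
      ∀ p ∈ V, ¬ p ∣ r), ∀ p ∈ V, p.Prime := by
    intro V hV p hp
    exact (Finset.mem_filter.1 (Finset.mem_powerset.1 (Finset.mem_filter.1 hV).1 hp)).2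
  have h1 : ∑ V ∈ (pz Q).powerset.filter (fun V => r * ∏ p ∈ V, p ≤ Q ∧
      ∀ p ∈ V, ¬ p ∣ r), ∏ p ∈ V, (-(cp p x / ((p : ℝ) - 1))) =
      ∑ k ∈ ((pz Q).powerset.filter (fun V => r * ∏ p ∈ V, p ≤ Q ∧
        ∀ p ∈ V, ¬ p ∣ r)).image (fun V => ∏ p ∈ V, p),
        (ArithmeticFunction.moebius k : ℝ) / k.totient * cs k x := by
    rw [Finset.sum_image]
    · exact Finset.sum_congr rfl fun V hV => (br_term x V (hpr V hV)).symm
    · intro V hV W hW h
      have h2 := congrArg Nat.primeFactors h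
      simp only at h2
      rwa [Nat.primeFactors_prod (hpr V hV), Nat.primeFactors_prod (hpr W hW)] at h2
  rw [h1]
  symm
  apply Finset.sum_subset
  · intro k hk
    rw [Finset.mem_image] at hk
    obtain ⟨V, hV, rfl⟩ := hk
    have h2 := hpr V hV
    rw [Finset.mem_filter] at hV
    rw [Finset.mem_filter, Finset.mem_Icc]
    refine ⟨⟨Nat.one_le_iff_ne_zero.2 (Finset.prod_ne_zero_iff.2 fun p hp => (h2 p hp).ne_zero),
      ?_⟩, ?_⟩
    · rw [Nat.le_div_iff_mul_le (by omega), mul_comm]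
      exact hV.2.1
    · refine Nat.Coprime.prod_right fun p hp => ?_
      exact ((Nat.Prime.coprime_iff_not_dvd (h2 p hp)).2 (hV.2.2 p hp)).symm
  · intro k hk hk'
    rw [Finset.mem_filter, Finset.mem_Icc, Nat.le_div_iff_mul_le (by omega)] at hk
    have h2 : ¬ Squarefree k := by
      intro hs
      apply hk'
      rw [Finset.mem_image]
      refine ⟨k.primeFactors, ?_, Nat.prod_primeFactors_of_squarefree hs⟩
      rw [Finset.mem_filter, Finset.mem_powerset]
      refine ⟨fun p hp => ?_, ?_, fun p hp => ?_⟩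
      · have h3 := Nat.mem_primeFactors.1 hp
        have h4 := Nat.le_of_dvd (by omega) h3.2.1
        have h5 : k ≤ k * r := Nat.le_mul_of_pos_right k (by omega)
        exact Finset.mem_filter.2 ⟨Finset.mem_range.2 (by omega), h3.1⟩
      · rw [Nat.prod_primeFactors_of_squarefree hs, mul_comm]
        exact hk.1.2
      · have h3 := Nat.mem_primeFactors.1 hp
        intro h4
        exact Nat.not_coprime_of_dvd_of_dvd h3.1.one_lt h4 h3.2.1 hk.2
    rw [ArithmeticFunction.moebius_eq_zero_of_not_squarefree h2]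
    simp

private theorem br_gp (p : ℕ) (hp : p.Prime) (x : ℤ) : 1 + (-(cp p x / ((p : ℝ) - 1))) = gp p x := by
  have h2 : (2 : ℝ) ≤ p := by exact_mod_cast hp.two_le
  have hp1 : (p : ℝ) - 1 ≠ 0 := by linarith
  unfold cp gp
  split_ifs
  · rw [div_self hp1]
    ring
  · field_simp
    ring

private theorem br_two (Q r : ℕ) (χ : DirichletCharacter ℂ r) (x : ℤ) (hr : 1 ≤ r) (hrQ : r ≤ Q) :
    (starRingEnd ℂ) (χ (x : ZMod r)) * (((r : ℝ) / r.totient *
      ∑ V ∈ (pz Q).powerset.filter (fun V => ∀ p ∈ V, ¬ p ∣ r),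
        ∏ p ∈ V, (-(cp p x / ((p : ℝ) - 1))) : ℝ) : ℂ) =
    (starRingEnd ℂ) (χ (x : ZMod r)) * ((GQ Q x : ℝ) : ℂ) := by
  classical
  by_cases hx : IsUnit ((x : ℤ) : ZMod r)
  swap
  · rw [χ.map_nonunit hx, map_zero, zero_mul, zero_mul]
  have hcop : IsCoprime x (r : ℤ) := by
    exact ((ZMod.coe_int_isUnit_iff_isCoprime x r).1 hx).symm
  congr 2
  have h1 : (pz Q).powerset.filter (fun V => ∀ p ∈ V, ¬ p ∣ r) =
      ((pz Q).filter (fun p => ¬ p ∣ r)).powerset := by
    ext V
    rw [Finset.mem_filter, Finset.mem_powerset, Finset.mem_powerset]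
    constructor
    · intro h p hp
      exact Finset.mem_filter.2 ⟨h.1 hp, h.2 p hp⟩
    · intro h
      exact ⟨fun p hp => (Finset.mem_filter.1 (h hp)).1, fun p hp => (Finset.mem_filter.1 (h hp)).2⟩
  rw [h1, ← Finset.prod_one_add]
  unfold GQ
  rw [← Finset.prod_filter_mul_prod_filter_not (pz Q) (fun p => p ∣ r)]
  have h2 : ∏ p ∈ (pz Q).filter (fun p => ¬ p ∣ r), (1 + (-(cp p x / ((p : ℝ) - 1)))) =
      ∏ p ∈ (pz Q).filter (fun p => ¬ p ∣ r), gp p x :=
    Finset.prod_congr rfl fun p hp =>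
      br_gp p (Finset.mem_filter.1 (Finset.mem_filter.1 hp).1).2 x
  have h3 : (pz Q).filter (fun p => p ∣ r) = r.primeFactors := by
    ext p
    rw [Finset.mem_filter, Nat.mem_primeFactors]
    constructor
    · intro h
      exact ⟨(Finset.mem_filter.1 h.1).2, h.2, by omega⟩
    · intro h
      have := Nat.le_of_dvd (by omega) h.2.1
      exact ⟨Finset.mem_filter.2 ⟨Finset.mem_range.2 (by omega), h.1⟩, h.2.1⟩
  have h4 : (r : ℝ) / r.totient = ∏ p ∈ r.primeFactors, gp p x := by
    have h5 : ∏ p ∈ r.primeFactors, gp p x = ∏ p ∈ r.primeFactors, (1 - (p : ℝ)⁻¹)⁻¹ := by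
      refine Finset.prod_congr rfl fun p hp => ?_
      have h6 := Nat.mem_primeFactors.1 hp
      have h7 : ¬ (p : ℤ) ∣ x := by
        intro h8
        have h9 := hcop.isUnit_of_dvd' h8 (Int.natCast_dvd_natCast.2 h6.2.1)
        have h10 := Int.natAbs_of_isUnit h9
        rw [Int.natAbs_natCast] at h10
        exact h6.1.one_lt.ne' h10
      have h2 : (2 : ℝ) ≤ p := by exact_mod_cast h6.1.two_le
      have hp1 : (p : ℝ) - 1 ≠ 0 := by linarith
      unfold gp
      rw [if_neg h7, ← inv_div]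
      congr 1
      field_simp
    have h6 : (r.totient : ℝ) = r * ∏ p ∈ r.primeFactors, (1 - (p : ℝ)⁻¹) := by
      have h := Nat.totient_eq_mul_prod_factors r
      have h' := congrArg (fun q : ℚ => (q : ℝ)) h
      push_cast at h'
      exact h'
    have h7 : (r : ℝ) ≠ 0 := by positivity
    have h8 : (r.totient : ℝ) ≠ 0 := by
      have := Nat.totient_pos.2 (show 0 < r by omega)
      positivity
    rw [h5, Finset.prod_inv_distrib, div_eq_iff h8, h6]
    have h9 : ∏ p ∈ r.primeFactors, (1 - (p : ℝ)⁻¹) ≠ 0 := by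
      intro h
      rw [h, mul_zero] at h6
      exact h8 h6
    rw [mul_comm (r : ℝ), ← mul_assoc, inv_mul_cancel₀ h9, one_mul]
  rw [h2, h3, h4]

theorem thm_Br : St_Br := ⟨fun Q r x hr _ => br_one Q r x hr, br_two⟩

end Pool.Agent.MVII
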