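import Mathlib
import Pool.Agent.MVII.St3

set_option autoImplicit false

/-!
# MVII: Mn, the main term from below
-/

namespace Pool.Agent.MVII

open Finset Filter
open Pool.Agent.GBQ (ee lam nd Admissible)
open Pool.Agent.MVX (Chr tent Bm Um prm Win GP)
open Pool.Agent.LIN (PP pz)

theorem mn_ev (s t C : ℝ) (hst : s < t) : ∀ᶠ X : ℕ in atTop, C * (X : ℝ) ^ s ≤ (X : ℝ) ^ t := by
  have h1 : Tendsto (fun X : ℕ => (X : ℝ) ^ (t - s)) atTop atTop :=
    (tendsto_rpow_atTop (by linarith)).comp tendsto_natCast_atTop_atTop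
  filter_upwards [h1.eventually_ge_atTop C, eventually_ge_atTop 1] with X hX hX1
  have hX0 : (0 : ℝ) < X := by exact_mod_cast hX1
  have h2 : (X : ℝ) ^ t = (X : ℝ) ^ (t - s) * (X : ℝ) ^ s := by
    rw [← Real.rpow_add hX0]
    congr 1
    ring
  rw [h2]
  exact mul_le_mul_of_nonneg_right hX (Real.rpow_nonneg hX0.le _)

theorem mn_windows (f : ℕ → ℝ) (a L : ℕ) (c : ℝ) (J : ℕ)
    (h : ∀ i, i < J → c ≤ ∑ y ∈ Ioc (a + i * L) (a + i * L + L), f y) :
    (J : ℝ) * c ≤ ∑ y ∈ Ioc a (a + J * L), f y := by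
  induction J with
  | zero => simp
  | succ J ih =>
    have h1 := ih fun i hi => h i (by omega)
    have h2 := h J (by omega)
    have h3 : a + (J + 1) * L = a + J * L + L := by ring
    rw [h3, ← Finset.sum_Ioc_consecutive f (Nat.le_add_right a (J * L))
      (Nat.le_add_right (a + J * L) L)]
    push_cast
    linarith

/-- the trivial bound for the model -/
theorem mn_md {E : ℝ} (hE : 0 ≤ E) (T Q h u v x : ℕ) (hcard : ∀ r : ℕ, 1 ≤ r → (prm r).card ≤ r)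
    (B : ℝ) (hB : ∀ c : Chr, ‖BI h u v x c‖ ≤ B)
    (har : ∀ r : ℕ, 1 ≤ r → r ≤ T → |ar Q r (x : ℤ)| ≤ E) :
    |(Md T Q h u v x).re| ≤ (T : ℝ) * T * (B * E) := by
  refine (Complex.abs_re_le_norm _).trans ?_
  have hB0 : 0 ≤ B := (norm_nonneg _).trans (hB ⟨1, 1⟩)
  unfold Md PM
  calc ‖∑ r ∈ Icc 1 T, ∑ χ ∈ prm r, BI h u v x ⟨r, χ⟩ * (starRingEnd ℂ) (χ (((x : ℤ)) : ZMod r)) *
        ((ar Q r (x : ℤ) : ℝ) : ℂ)‖
      ≤ ∑ r ∈ Icc 1 T, (T : ℝ) * (B * E) := by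
        refine norm_sum_le_of_le _ fun r hr => ?_
        rw [mem_Icc] at hr
        calc ‖∑ χ ∈ prm r, BI h u v x ⟨r, χ⟩ * (starRingEnd ℂ) (χ (((x : ℤ)) : ZMod r)) *
              ((ar Q r (x : ℤ) : ℝ) : ℂ)‖
            ≤ ∑ χ ∈ prm r, B * E := by
              refine norm_sum_le_of_le _ fun χ hχ => ?_
              rw [norm_mul, norm_mul, RCLike.norm_conj, Complex.norm_real, Real.norm_eq_abs]
              have h1 := hB ⟨r, χ⟩
              have h2 : ‖χ (((x : ℤ)) : ZMod r)‖ ≤ 1 := χ.norm_le_one _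
              have h3 := har r hr.1 hr.2
              have h4 : ‖BI h u v x ⟨r, χ⟩‖ * ‖χ (((x : ℤ)) : ZMod r)‖ ≤ B * 1 :=
                mul_le_mul h1 h2 (norm_nonneg _) hB0
              rw [mul_one] at h4
              exact mul_le_mul h4 h3 (abs_nonneg _) hB0
          _ = ((prm r).card : ℝ) * (B * E) := by rw [sum_const, nsmul_eq_mul]
          _ ≤ (T : ℝ) * (B * E) := by
              apply mul_le_mul_of_nonneg_right _ (mul_nonneg hB0 hE)
              exact_mod_cast (hcard r hr.1).trans hr.2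
    _ = (T : ℝ) * T * (B * E) := by
        rw [sum_const, Nat.card_Icc, nsmul_eq_mul, Nat.add_sub_cancel]
        ring

theorem mn_md_zero (T Q h u v x : ℕ) (hz : ∀ c : Chr, BI h u v x c = 0) :
    Md T Q h u v x = 0 := by
  unfold Md PM
  refine sum_eq_zero fun r _ => sum_eq_zero fun χ _ => ?_
  rw [hz, zero_mul, zero_mul]

theorem thm_Mn (h1 : St_W1) (h2 : St_Bl) (h3 : St_Ep) : St_Mn := by
  classical
  intro δ hδ0 hδ1
  obtain ⟨b1, -, b3, -, b5⟩ := h2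
  have hε : (0 : ℝ) < δ / 10 := by positivity
  filter_upwards [h1 δ hδ0 hδ1, h3 (δ / 10) hε 1, eventually_ge_atTop 2,
    mn_ev (1 - 10 * δ) (1 - δ / 10) 1000 (by linarith),
    mn_ev 0 (1 - δ / 10) 1000 (by linarith),
    mn_ev (1 - 11 / 100 * δ) (1 - 105 / 1000 * δ) 128 (by linarith),
    mn_ev (1 - 55 / 10 * δ) (1 - 11 / 100 * δ) 9 (by linarith),
    mn_ev (1 - 99 / 10 * δ) 1 32 (by linarith)] with X hW hE hX2 e2 e3 e4 e5 e6
  obtain ⟨-, E2, -, E4, E5⟩ := hE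
  intro q₁ χ₁ U l hDat m w ψ hm hmX hw hwQ hψ n hBlk hcop hpar
  have hX1 : (1 : ℝ) ≤ X := by
    have : 1 ≤ X := by omega
    exact_mod_cast this
  have hX0 : (0 : ℝ) < X := by linarith
  rw [Real.rpow_one] at e6
  rw [Real.rpow_zero, mul_one] at e3
  rw [pow_one] at E2
  -- parameters
  set T := TT δ X with hT
  set Q := QQ δ X with hQ
  set h := HH δ X with hh
  set L := H0 δ X with hL
  set K := X / (8 * m) with hK
  set a := K / 2 + h with ha
  have hp10 : (1 : ℝ) ≤ (X : ℝ) ^ (1 - 10 * δ) := Real.one_le_rpow hX1 (by linarith)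
  have hp20 : (1 : ℝ) ≤ (X : ℝ) ^ (1 - 20 * δ) := Real.one_le_rpow hX1 (by linarith)
  have hTle : (T : ℝ) ≤ (X : ℝ) ^ δ := Nat.floor_le (Real.rpow_nonneg hX0.le _)
  have hTX : T ≤ X := by
    have h4 : (X : ℝ) ^ δ ≤ (X : ℝ) ^ (1 : ℝ) := Real.rpow_le_rpow_of_exponent_le hX1 (by linarith)
    rw [Real.rpow_one] at h4
    exact_mod_cast hTle.trans h4
  have hQX : Q ≤ X := by
    have h4 : (Q : ℝ) ≤ (X : ℝ) ^ (30 * δ) := Nat.floor_le (Real.rpow_nonneg hX0.le _)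
    have h5 : (X : ℝ) ^ (30 * δ) ≤ (X : ℝ) ^ (1 : ℝ) :=
      Real.rpow_le_rpow_of_exponent_le hX1 (by linarith)
    rw [Real.rpow_one] at h5
    exact_mod_cast h4.trans h5
  have hh1 : 1 ≤ h := by
    have h4 : (X : ℝ) ^ (1 - 10 * δ) ≤ h := Nat.le_ceil _
    exact_mod_cast hp10.trans h4
  have hh2 : (h : ℝ) ≤ 2 * (X : ℝ) ^ (1 - 10 * δ) := by
    have h4 : (h : ℝ) < (X : ℝ) ^ (1 - 10 * δ) + 1 := Nat.ceil_lt_add_one (by positivity)
    linarith
  have hL1 : 1 ≤ L := Nat.le_floor (by exact_mod_cast hp20)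
  have hL2 : (L : ℝ) ≤ (X : ℝ) ^ (1 - 10 * δ) := by
    have h4 : (L : ℝ) ≤ (X : ℝ) ^ (1 - 20 * δ) := Nat.floor_le (Real.rpow_nonneg hX0.le _)
    exact h4.trans (Real.rpow_le_rpow_of_exponent_le hX1 (by linarith))
  have hm1 : (1 : ℝ) ≤ m := by exact_mod_cast hm
  -- size of `K`
  have hK1 : (X : ℝ) ^ (1 - δ / 10) < 8 * (K + 1) := by
    have h4 : X < 8 * m * (K + 1) := Nat.lt_mul_div_succ X (by omega)
    have h5 : (X : ℝ) < 8 * m * (K + 1) := by exact_mod_cast h4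
    have h6 : (X : ℝ) = (X : ℝ) ^ (1 - δ / 10) * (X : ℝ) ^ (δ / 10) := by
      rw [← Real.rpow_add hX0, show 1 - δ / 10 + δ / 10 = 1 by ring, Real.rpow_one]
    have h7 : (0 : ℝ) < (X : ℝ) ^ (δ / 10) := Real.rpow_pos_of_pos hX0 _
    have h8 : (8 : ℝ) * m * (K + 1) ≤ 8 * (K + 1) * (X : ℝ) ^ (δ / 10) := by
      have h9 := mul_le_mul_of_nonneg_left hmX (by positivity : (0 : ℝ) ≤ 8 * (K + 1))
      linarith
    have h10 : (X : ℝ) ^ (1 - δ / 10) * (X : ℝ) ^ (δ / 10) < 8 * (K + 1) * (X : ℝ) ^ (δ / 10) := by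
      rw [← h6]
      exact h5.trans_le h8
    exact lt_of_mul_lt_mul_right h10 h7.le
  set A := (X : ℝ) ^ (1 - δ / 10) with hA
  have hKA : A / 16 ≤ K := by linarith
  have hhA : (h : ℝ) ≤ A / 500 := by linarith
  have hLA : (L : ℝ) ≤ A / 1000 := by linarith
  have hKm : K * (8 * m) ≤ X := Nat.div_mul_le_self X (8 * m)
  -- natural inequalities
  have hn1 : 2 * h + L ≤ K / 2 := by
    have h4 : 2 * (2 * h + L) ≤ K := by
      have h5 : (2 : ℝ) * (2 * h + L) ≤ K := by linarith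
      exact_mod_cast h5
    omega
  have hmh : (m : ℝ) * h ≤ X / 16 := by
    have h4 : (m : ℝ) * h ≤ (X : ℝ) ^ (δ / 10) * (2 * (X : ℝ) ^ (1 - 10 * δ)) :=
      mul_le_mul hmX hh2 (Nat.cast_nonneg _) (Real.rpow_nonneg hX0.le _)
    have h5 : (X : ℝ) ^ (δ / 10) * (2 * (X : ℝ) ^ (1 - 10 * δ)) = 2 * (X : ℝ) ^ (1 - 99 / 10 * δ) := by
      rw [show (1 : ℝ) - 99 / 10 * δ = δ / 10 + (1 - 10 * δ) by ring, Real.rpow_add hX0]
      ring
    linarith
  have hmh' : 16 * (m * h) ≤ X := by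
    have h4 : (16 : ℝ) * (m * h) ≤ X := by linarith
    exact_mod_cast h4
  have hmm : m ≤ m * h := Nat.le_mul_of_pos_right m hh1
  -- the terms
  set f : ℕ → ℝ := fun y => (Md T Q h (K / 2) K y).re * SS q₁ w ψ y *
    (Md T Q h (X / 8) X (n - m * y)).re with hf
  have hR2 : R2 δ X m K q₁ w ψ n = ∑ y ∈ range (K + h), f y := rfl
  rw [hR2]
  -- the windows
  set J := (K - h - a) / L with hJ
  have hJL : J * L ≤ K - h - a := Nat.div_mul_le_self _ _
  have hJL2 : K - h - a < (J + 1) * L := by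
    have h4 := Nat.lt_mul_div_succ (K - h - a) (by omega : 0 < L)
    rw [mul_comm] at h4
    exact h4
  have hJL3 : K - h - a < J * L + L := by
    have h4 : (J + 1) * L = J * L + L := by ring
    omega
  have hhaK : h + a ≤ K := by omega
  have hmain : (J : ℝ) * ((L : ℝ) * (X : ℝ) ^ (-(δ / 200))) ≤ ∑ y ∈ Ioc a (a + J * L), f y := by
    apply mn_windows f a L _ J
    intro i hi
    have h5 : i * L + L ≤ J * L := by
      have h6 : (i + 1) * L ≤ J * L := Nat.mul_le_mul_right L hi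
      have h7 : (i + 1) * L = i * L + L := by ring
      omega
    exact hW q₁ χ₁ U l hDat m w ψ hm hmX hw hwQ hψ n hBlk hcop hpar (a + i * L) (by omega)
      (by omega)
  have hJA : A / 64 ≤ (J : ℝ) * L := by
    have h4 : K ≤ J * L + L + 2 * h + K / 2 := by omega
    have h5 : (K : ℝ) ≤ J * L + L + 2 * h + ((K / 2 : ℕ) : ℝ) := by exact_mod_cast h4
    have h6 : ((K / 2 : ℕ) : ℝ) ≤ (K : ℝ) / 2 := Nat.cast_div_le
    linarith
  have hmain2 : 2 * (X : ℝ) ^ (1 - 11 / 100 * δ) ≤ ∑ y ∈ Ioc a (a + J * L), f y := by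
    have h4 : A / 64 * (X : ℝ) ^ (-(δ / 200)) ≤ (J : ℝ) * L * (X : ℝ) ^ (-(δ / 200)) :=
      mul_le_mul_of_nonneg_right hJA (Real.rpow_nonneg hX0.le _)
    have h5 : A * (X : ℝ) ^ (-(δ / 200)) = (X : ℝ) ^ (1 - 105 / 1000 * δ) := by
      rw [hA, ← Real.rpow_add hX0]
      congr 1
      ring
    have h6 : A / 64 * (X : ℝ) ^ (-(δ / 200)) = (X : ℝ) ^ (1 - 105 / 1000 * δ) / 64 := by
      rw [← h5]
      ring
    have h7 : (J : ℝ) * ((L : ℝ) * (X : ℝ) ^ (-(δ / 200))) = (J : ℝ) * L * (X : ℝ) ^ (-(δ / 200)) := by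
      ring
    linarith
  -- the other terms
  have hsub : Ioc a (a + J * L) ⊆ range (K + h) := by
    intro y hy
    rw [mem_Ioc] at hy
    rw [mem_range]
    omega
  have hsplit : ∑ y ∈ range (K + h), f y = ∑ y ∈ Ioc a (a + J * L), f y +
      ∑ y ∈ range (K + h) \ Ioc a (a + J * L), f y := by
    exact ((add_comm _ _).trans (Finset.sum_sdiff hsub)).symm
  have hlogX : Real.log X ≤ (X : ℝ) ^ (δ / 10) := by
    have h4 : Real.log X ≤ Real.log (2 * X) := Real.log_le_log hX0 (by linarith)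
    linarith
  have hXε0 : (0 : ℝ) ≤ (X : ℝ) ^ (δ / 10) := Real.rpow_nonneg hX0.le _
  set B := (X : ℝ) ^ (45 / 10 * δ) with hBdef
  have hbound : ∀ y, y < K + h → ¬ y + h ≤ K / 2 → |f y| ≤ B := by
    intro y hy1 hy2
    have hy0 : 1 ≤ y := by omega
    have hKX : K ≤ X := Nat.div_le_self _ _
    have hyX : y ≤ 2 * X := by
      have h4 : h ≤ m * h := Nat.le_mul_of_pos_left h hm
      omega
    have hmy : m * y ≤ m * K + m * h := by
      rw [← mul_add]
      exact Nat.mul_le_mul_left m hy1.le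
    have hmK : 8 * (m * K) ≤ X := by
      have h4 : K * (8 * m) = 8 * (m * K) := by ring
      omega
    have hB1 := hBlk.1
    have hB2 := hBlk.2
    have hx0 : 1 ≤ n - m * y := by omega
    have hxX : n - m * y ≤ 2 * X := by omega
    have hcastK : Real.log (K : ℝ) ≤ (X : ℝ) ^ (δ / 10) := by
      have hK0 : (0 : ℝ) < K := by
        have : 1 ≤ K := by omega
        exact_mod_cast this
      have h4 : Real.log (K : ℝ) ≤ Real.log X := Real.log_le_log hK0 (by exact_mod_cast hKX)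
      linarith
    have g1 : |(Md T Q h (K / 2) K y).re| ≤ (T : ℝ) * T * ((X : ℝ) ^ (δ / 10) * (X : ℝ) ^ (δ / 10)) := by
      refine mn_md hXε0 T Q h (K / 2) K y b5 _ (fun c => (b1 h (K / 2) K y c hh1 (by omega)).trans
        hcastK) fun r hr1 hr2 => ?_
      exact E4 Q r y hQX hr1 (hr2.trans hTX) (by omega) (by rw [abs_of_nonneg (by omega)]; omega)
    have g2 : |(Md T Q h (X / 8) X (n - m * y)).re| ≤
        (T : ℝ) * T * ((X : ℝ) ^ (δ / 10) * (X : ℝ) ^ (δ / 10)) := by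
      refine mn_md hXε0 T Q h (X / 8) X (n - m * y) b5 _
        (fun c => (b1 h (X / 8) X (n - m * y) c hh1 (by omega)).trans hlogX) fun r hr1 hr2 => ?_
      exact E4 Q r _ hQX hr1 (hr2.trans hTX) (by omega) (by rw [abs_of_nonneg (by omega)]; omega)
    have g3 : |SS q₁ w ψ (y : ℤ)| ≤ (X : ℝ) ^ (δ / 10) :=
      E5 q₁ w _ ψ (y : ℤ) hψ (by rw [abs_of_nonneg (by omega)]; omega)
    have g4 : (T : ℝ) * T * ((X : ℝ) ^ (δ / 10) * (X : ℝ) ^ (δ / 10)) ≤ (X : ℝ) ^ (22 / 10 * δ) := by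
      have h4 : (T : ℝ) * T ≤ (X : ℝ) ^ δ * (X : ℝ) ^ δ :=
        mul_le_mul hTle hTle (Nat.cast_nonneg _) (Real.rpow_nonneg hX0.le _)
      have h5 : (X : ℝ) ^ (22 / 10 * δ) = (X : ℝ) ^ δ * (X : ℝ) ^ δ *
          ((X : ℝ) ^ (δ / 10) * (X : ℝ) ^ (δ / 10)) := by
        rw [← Real.rpow_add hX0, ← Real.rpow_add hX0, ← Real.rpow_add hX0]
        congr 1
        ring
      rw [h5]
      exact mul_le_mul_of_nonneg_right h4 (mul_nonneg hXε0 hXε0)
    have h22 : (0 : ℝ) ≤ (X : ℝ) ^ (22 / 10 * δ) := Real.rpow_nonneg hX0.le _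
    have g5 : |f y| = |(Md T Q h (K / 2) K y).re| * |SS q₁ w ψ (y : ℤ)| *
        |(Md T Q h (X / 8) X (n - m * y)).re| := by
      rw [hf]
      simp only [abs_mul]
    have g6 : B = (X : ℝ) ^ (22 / 10 * δ) * (X : ℝ) ^ (δ / 10) * (X : ℝ) ^ (22 / 10 * δ) := by
      rw [hBdef, ← Real.rpow_add hX0, ← Real.rpow_add hX0]
      congr 1
      ring
    rw [g5, g6]
    refine mul_le_mul (mul_le_mul (g1.trans g4) g3 (abs_nonneg _) h22) (g2.trans g4) (abs_nonneg _)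
      (mul_nonneg h22 hXε0)
  have hzero : ∀ y, y + h ≤ K / 2 → f y = 0 := by
    intro y hy
    have h4 : Md T Q h (K / 2) K y = 0 := mn_md_zero _ _ _ _ _ _ fun c =>
      b3 h (K / 2) K y c (Or.inl hy)
    show (Md T Q h (K / 2) K y).re * SS q₁ w ψ y * (Md T Q h (X / 8) X (n - m * y)).re = 0
    rw [h4, Complex.zero_re, zero_mul, zero_mul]
  have hrest : |∑ y ∈ range (K + h) \ Ioc a (a + J * L), f y| ≤ (4 * h + L : ℕ) * B := by
    set S := (range (K + h) \ Ioc a (a + J * L)).filter (fun y => ¬ y + h ≤ K / 2) with hS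
    have h4 : ∑ y ∈ range (K + h) \ Ioc a (a + J * L), f y = ∑ y ∈ S, f y := by
      rw [hS, sum_filter]
      refine sum_congr rfl fun y hy => ?_
      by_cases hc : y + h ≤ K / 2
      · rw [if_neg (not_not.2 hc), hzero y hc]
      · rw [if_pos hc]
    rw [h4]
    have h5 : S ⊆ Ioc (K / 2 - h) a ∪ Ioo (a + J * L) (K + h) := by
      intro y hy
      rw [hS, mem_filter, Finset.mem_sdiff, mem_range, mem_Ioc] at hy
      rw [mem_union, mem_Ioc, mem_Ioo]
      omega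
    have h6 : S.card ≤ 4 * h + L := by
      refine (card_le_card h5).trans ((card_union_le _ _).trans ?_)
      rw [Nat.card_Ioc, Nat.card_Ioo]
      omega
    have hB0 : 0 ≤ B := Real.rpow_nonneg hX0.le _
    calc |∑ y ∈ S, f y| ≤ ∑ y ∈ S, |f y| := abs_sum_le_sum_abs _ _
      _ ≤ ∑ y ∈ S, B := by
          refine sum_le_sum fun y hy => ?_
          rw [hS, mem_filter, Finset.mem_sdiff, mem_range] at hy
          exact hbound y hy.1.1 hy.2
      _ = (S.card : ℝ) * B := by rw [sum_const, nsmul_eq_mul]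
      _ ≤ (4 * h + L : ℕ) * B := mul_le_mul_of_nonneg_right (by exact_mod_cast h6) hB0
  have hrest2 : ((4 * h + L : ℕ) : ℝ) * B ≤ (X : ℝ) ^ (1 - 11 / 100 * δ) := by
    have h4 : ((4 * h + L : ℕ) : ℝ) ≤ 9 * (X : ℝ) ^ (1 - 10 * δ) := by
      push_cast
      linarith
    have hB0 : 0 ≤ B := Real.rpow_nonneg hX0.le _
    have h5 := mul_le_mul_of_nonneg_right h4 hB0
    have h6 : (X : ℝ) ^ (1 - 10 * δ) * B = (X : ℝ) ^ (1 - 55 / 10 * δ) := by
      rw [hBdef, ← Real.rpow_add hX0]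
      congr 1
      ring
    have h7 : 9 * (X : ℝ) ^ (1 - 10 * δ) * B = 9 * (X : ℝ) ^ (1 - 55 / 10 * δ) := by
      rw [← h6]
      ring
    linarith
  have hr := abs_le.1 hrest
  rw [hsplit]
  linarith [hr.1]

end Pool.Agent.MVII
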