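import Pool.Agent.MVII.St3

set_option autoImplicit false

/-!
# MVII: in a short interval the local means can be taken constant
-/

namespace Pool.Agent.MVII

open Finset Filter
open Pool.Agent.GBQ (ee lam nd Admissible)
open Pool.Agent.MVX (Chr tent Bm Um prm Win GP)
open Pool.Agent.LIN (PP pz)

/-- bound for the model -/
lemma w0_pm (b : Chr → ℂ) (T Q : ℕ) (x : ℤ) (E : ℝ) (hE : ∀ r ∈ Icc 1 T, |ar Q r x| ≤ E) :
    ‖PM b T Q x‖ ≤ NB b T * E := by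
  unfold PM NB
  rw [Finset.sum_mul]
  refine (norm_sum_le _ _).trans (Finset.sum_le_sum fun r hr => ?_)
  rw [Finset.sum_mul]
  refine (norm_sum_le _ _).trans (Finset.sum_le_sum fun χ _ => ?_)
  rw [norm_mul, norm_mul, RCLike.norm_conj, Complex.norm_real, Real.norm_eq_abs]
  have h1 : ‖χ (x : ZMod r)‖ ≤ 1 := DirichletCharacter.norm_le_one χ _
  have h2 := hE r hr
  have h3 : 0 ≤ |ar Q r x| := abs_nonneg _
  calc ‖b ⟨r, χ⟩‖ * ‖χ (x : ZMod r)‖ * |ar Q r x| ≤ ‖b ⟨r, χ⟩‖ * 1 * E := by gcongr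
    _ = _ := by ring

lemma w0_sub (b b' : Chr → ℂ) (T Q : ℕ) (x : ℤ) :
    PM b T Q x - PM b' T Q x = PM (fun c => b c - b' c) T Q x := by
  unfold PM
  rw [← Finset.sum_sub_distrib]
  refine Finset.sum_congr rfl fun r _ => ?_
  rw [← Finset.sum_sub_distrib]
  refine Finset.sum_congr rfl fun χ _ => ?_
  ring

lemma w0_nb (h5 : ∀ r : ℕ, 1 ≤ r → (prm r).card ≤ r) (b : Chr → ℂ) (T : ℕ) (M : ℝ)
    (hM : 0 ≤ M) (hb : ∀ c, ‖b c‖ ≤ M) : NB b T ≤ (T : ℝ) ^ 2 * M := by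
  unfold NB
  calc ∑ r ∈ Icc 1 T, ∑ χ ∈ prm r, ‖b ⟨r, χ⟩‖ ≤ ∑ r ∈ Icc 1 T, (T : ℝ) * M := by
        refine Finset.sum_le_sum fun r hr => ?_
        rw [Finset.mem_Icc] at hr
        calc ∑ χ ∈ prm r, ‖b ⟨r, χ⟩‖ ≤ ∑ χ ∈ prm r, M := Finset.sum_le_sum fun χ _ => hb _
          _ = (prm r).card * M := by rw [Finset.sum_const, nsmul_eq_mul]
          _ ≤ T * M := by
            have h6 : ((prm r).card : ℝ) ≤ T := by exact_mod_cast (h5 r hr.1).trans hr.2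
            gcongr
    _ = _ := by
      rw [Finset.sum_const, nsmul_eq_mul, Nat.card_Icc, Nat.add_sub_cancel]
      ring

/-- one term -/
lemma w0_term (A A' B B' : ℂ) (S a b E : ℝ) (hA : ‖A‖ ≤ a) (hB' : ‖B'‖ ≤ a)
    (hAA : ‖A - A'‖ ≤ b) (hBB : ‖B - B'‖ ≤ b) (hS : |S| ≤ E) (ha : 0 ≤ a) (hb : 0 ≤ b) :
    ‖B * A * (S : ℂ) - B' * A' * (S : ℂ)‖ ≤ 2 * a * b * E := by
  have h1 : B * A * (S : ℂ) - B' * A' * (S : ℂ) = ((B - B') * A + B' * (A - A')) * (S : ℂ) := by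
    ring
  have hE : 0 ≤ E := (abs_nonneg S).trans hS
  rw [h1, norm_mul, Complex.norm_real, Real.norm_eq_abs]
  have h2 : ‖(B - B') * A + B' * (A - A')‖ ≤ b * a + a * b := by
    refine (norm_add_le _ _).trans (add_le_add ?_ ?_)
    · rw [norm_mul]; gcongr
    · rw [norm_mul]; gcongr
  calc ‖(B - B') * A + B' * (A - A')‖ * |S| ≤ (b * a + a * b) * E := by gcongr
    _ = _ := by ring

/-- the numbers -/
lemma w0_num (δ : ℝ) (X : ℕ) (T m L h : ℝ) (hδ : 0 < δ) (hX : 2 ≤ X) (hT0 : 0 ≤ T) (hm0 : 0 ≤ m)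
    (hL0 : 0 ≤ L) (hh : (X : ℝ) ^ (1 - 10 * δ) ≤ h) (hT : T ≤ (X : ℝ) ^ δ)
    (hm : m ≤ (X : ℝ) ^ (δ / 10)) (hL : L ≤ (X : ℝ) ^ (1 - 20 * δ))
    (hlog : (1 + Real.log (2 * X)) ^ 6 ≤ (X : ℝ) ^ (δ / 10)) :
    2 * (4 * (X : ℝ) ^ (δ / 10)) * (T ^ 2 * (4 * (m * L) * Real.log (2 * X) / h) *
      (X : ℝ) ^ (δ / 10)) * (X : ℝ) ^ (δ / 10) ≤ (X : ℝ) ^ (-(7 * δ)) := by
  have hX2 : (2 : ℝ) ≤ X := by exact_mod_cast hX
  have hX0 : (0 : ℝ) < X := by linarith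
  have hl1 : 1 ≤ Real.log (2 * X) := by
    rw [Real.le_log_iff_exp_le (by positivity)]
    have := Real.exp_one_lt_d9
    linarith
  have hl : 32 * Real.log (2 * X) ≤ (X : ℝ) ^ (δ / 10) := by
    refine le_trans ?_ hlog
    set l := Real.log (2 * X) with hl
    have h2 : (2 : ℝ) ^ 5 ≤ (1 + l) ^ 5 := by gcongr; linarith
    calc 32 * l ≤ (1 + l) ^ 5 * (1 + l) := by
          have h3 : (0 : ℝ) ≤ l := by linarith
          have h4 : (0 : ℝ) ≤ (1 + l) ^ 5 := by positivity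
          nlinarith
      _ = _ := by ring
  have hhp : 0 < (X : ℝ) ^ (1 - 10 * δ) := Real.rpow_pos_of_pos hX0 _
  have hh0 : 0 < h := lt_of_lt_of_le hhp hh
  have hLh : L / h ≤ (X : ℝ) ^ (-(10 * δ)) := by
    rw [div_le_iff₀ hh0]
    calc L ≤ (X : ℝ) ^ (1 - 20 * δ) := hL
      _ = (X : ℝ) ^ (-(10 * δ)) * (X : ℝ) ^ (1 - 10 * δ) := by
        rw [← Real.rpow_add hX0]; congr 1; ring
      _ ≤ _ := by gcongr
  have hLh0 : 0 ≤ L / h := by positivity
  have hT2 : T ^ 2 ≤ (X : ℝ) ^ (2 * δ) := by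
    calc T ^ 2 ≤ ((X : ℝ) ^ δ) ^ 2 := by gcongr
      _ = _ := by rw [← Real.rpow_natCast, ← Real.rpow_mul hX0.le]; congr 1; push_cast; ring
  have e1 : 2 * (4 * (X : ℝ) ^ (δ / 10)) * (T ^ 2 * (4 * (m * L) * Real.log (2 * X) / h) *
      (X : ℝ) ^ (δ / 10)) * (X : ℝ) ^ (δ / 10) =
      (32 * Real.log (2 * X)) * T ^ 2 * m * (L / h) * ((X : ℝ) ^ (δ / 10)) ^ 3 := by
    field_simp
    ring
  rw [e1]
  have hl0 : 0 ≤ 32 * Real.log (2 * X) := by linarith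
  calc (32 * Real.log (2 * X)) * T ^ 2 * m * (L / h) * ((X : ℝ) ^ (δ / 10)) ^ 3 ≤
      (X : ℝ) ^ (δ / 10) * (X : ℝ) ^ (2 * δ) * (X : ℝ) ^ (δ / 10) * (X : ℝ) ^ (-(10 * δ)) *
        ((X : ℝ) ^ (δ / 10)) ^ 3 := by gcongr
    _ = (X : ℝ) ^ (δ / 10 + 2 * δ + δ / 10 + -(10 * δ) + δ / 10 * 3) := by
      have e2 : ((X : ℝ) ^ (δ / 10)) ^ 3 = (X : ℝ) ^ (δ / 10 * 3) := by
        rw [← Real.rpow_natCast, ← Real.rpow_mul hX0.le]
        norm_num
      rw [e2, ← Real.rpow_add hX0, ← Real.rpow_add hX0, ← Real.rpow_add hX0, ← Real.rpow_add hX0]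
    _ ≤ _ := by
      apply Real.rpow_le_rpow_of_exponent_le (by linarith)
      linarith

/-- elementary conditions on `X` -/
lemma w0_ev (δ : ℝ) (h0 : 0 < δ) (h1 : δ ≤ 1 / 310) : ∀ᶠ X : ℕ in atTop, 32 ≤ X ∧
    1 ≤ HH δ X ∧ 16 * HH δ X ≤ X ∧ TT δ X ≤ X ∧ QQ δ X ≤ X ∧
    (∀ m : ℕ, (m : ℝ) ≤ (X : ℝ) ^ (δ / 10) → 32 * m ≤ X) := by
  have e1 : ∀ᶠ X : ℕ in atTop, (X : ℝ) ^ (-(10 * δ)) < 1 / 32 := by
    have h2 : Tendsto (fun x : ℝ => x ^ (-(10 * δ))) atTop (nhds 0) :=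
      tendsto_rpow_neg_atTop (by positivity)
    have h3 := (h2.comp tendsto_natCast_atTop_atTop).eventually
      (gt_mem_nhds (show (0 : ℝ) < 1 / 32 by norm_num))
    exact h3
  filter_upwards [e1, eventually_ge_atTop 32] with X hX1 hX2
  have hXr : (32 : ℝ) ≤ X := by exact_mod_cast hX2
  have hX0 : (0 : ℝ) < X := by linarith
  have hX1' : (1 : ℝ) ≤ X := by linarith
  have h3 : (X : ℝ) ^ (1 - 10 * δ) ≤ X / 32 := by
    have h4 : (X : ℝ) ^ (1 - 10 * δ) = X * (X : ℝ) ^ (-(10 * δ)) := by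
      rw [show 1 - 10 * δ = 1 + -(10 * δ) by ring, Real.rpow_add hX0, Real.rpow_one]
    rw [h4]
    nlinarith
  have h4 : (HH δ X : ℝ) < X / 32 + 1 := by
    unfold HH
    have := Nat.ceil_lt_add_one (show 0 ≤ (X : ℝ) ^ (1 - 10 * δ) by positivity)
    linarith
  refine ⟨hX2, ?_, ?_, ?_, ?_, ?_⟩
  · unfold HH
    rw [Nat.one_le_ceil_iff]
    positivity
  · have h5 : (16 : ℝ) * HH δ X ≤ X := by linarith
    exact_mod_cast h5
  · unfold TT
    have h5 : (X : ℝ) ^ δ ≤ X := by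
      calc (X : ℝ) ^ δ ≤ (X : ℝ) ^ (1 : ℝ) :=
            Real.rpow_le_rpow_of_exponent_le hX1' (by linarith)
        _ = X := Real.rpow_one _
    exact (Nat.floor_le_floor h5).trans (by rw [Nat.floor_natCast])
  · unfold QQ
    have h5 : (X : ℝ) ^ (30 * δ) ≤ X := by
      calc (X : ℝ) ^ (30 * δ) ≤ (X : ℝ) ^ (1 : ℝ) :=
            Real.rpow_le_rpow_of_exponent_le hX1' (by linarith)
        _ = X := Real.rpow_one _
    exact (Nat.floor_le_floor h5).trans (by rw [Nat.floor_natCast])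
  · intro m hm
    have h5 : (X : ℝ) ^ (δ / 10) ≤ (X : ℝ) ^ (1 - 10 * δ) :=
      Real.rpow_le_rpow_of_exponent_le hX1' (by linarith)
    have h6 : (32 : ℝ) * m ≤ X := by linarith
    exact_mod_cast h6

theorem thm_W0 (h1 : St_Bl) (h2 : St_Ep) (h3 : St_Re) : St_W0 := by
  obtain ⟨-, hBL2, -, hBL4, hBL5⟩ := h1
  intro δ hδ hδ1
  filter_upwards [h2 (δ / 10) (by positivity) 6, w0_ev δ hδ hδ1] with X hEP hX
  obtain ⟨-, hlog, -, har, hSS⟩ := hEP
  obtain ⟨hX32, hh1, hhX, hTX, hQX, hmX⟩ := hX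
  intro hSum m q₁ w ψ hm1 hm hψ n hBlk t ht1 ht2
  have hmX' := hmX m hm
  obtain ⟨T, hT⟩ : ∃ T, T = TT δ X := ⟨_, rfl⟩
  obtain ⟨Q, hQ⟩ : ∃ Q, Q = QQ δ X := ⟨_, rfl⟩
  obtain ⟨h, hh⟩ : ∃ h, h = HH δ X := ⟨_, rfl⟩
  obtain ⟨L, hL⟩ : ∃ L, L = H0 δ X := ⟨_, rfl⟩
  obtain ⟨K, hK⟩ : ∃ K, K = X / (8 * m) := ⟨_, rfl⟩
  unfold Sum4 at hSum
  rw [← hT, ← hh] at hSum
  rw [← hT] at hTX
  rw [← hQ] at hQX
  rw [← hh] at hh1 hhX
  rw [← hK, ← hh] at ht1 ht2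
  rw [← hL] at ht2
  rw [← hT, ← hQ, ← hh, ← hL, ← hK]
  have hXr : (32 : ℝ) ≤ X := by exact_mod_cast hX32
  have hX0 : (0 : ℝ) < X := by linarith
  have hmK : m * K ≤ X / 8 := by
    rw [Nat.le_div_iff_mul_le (by norm_num)]
    have h4 := Nat.div_mul_le_self X (8 * m)
    rw [← hK] at h4
    linarith
  obtain ⟨hB1, hB2⟩ := hBlk
  set E : ℝ := (X : ℝ) ^ (δ / 10) with hE
  have hE0 : 0 ≤ E := by positivity
  set a : ℝ := 4 * E with ha
  set b : ℝ := ((T : ℝ) ^ 2 * (4 * ((m : ℝ) * L) * Real.log (2 * X) / h)) * E with hb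
  have hlog0 : 0 ≤ Real.log (2 * X) := Real.log_nonneg (by linarith)
  have ha0 : 0 ≤ a := by positivity
  have hb0 : 0 ≤ b := by positivity
  -- one value of `y`
  have key : ∀ y ∈ Ioc t (t + L),
      ‖PM (Bc h (n - m * y)) T Q (n - m * (y : ℤ)) * PM (Bc h y) T Q (y : ℤ) *
        ((SS q₁ w ψ (y : ℤ) : ℝ) : ℂ) -
      PM (Bc h (n - m * t)) T Q (n - m * (y : ℤ)) * PM (Bc h t) T Q (y : ℤ) *
        ((SS q₁ w ψ (y : ℤ) : ℝ) : ℂ)‖ ≤ 2 * a * b * E ∧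
      (Md T Q h (K / 2) K y).re * SS q₁ w ψ y * (Md T Q h (X / 8) X (n - m * y)).re =
        (PM (Bc h (n - m * y)) T Q (n - m * (y : ℤ)) * PM (Bc h y) T Q (y : ℤ) *
        ((SS q₁ w ψ (y : ℤ) : ℝ) : ℂ)).re := by
    intro y hy
    rw [Finset.mem_Ioc] at hy
    obtain ⟨hy1, hy2⟩ := hy
    have hyK : y + h ≤ K := by omega
    have hmy : m * y ≤ X / 8 := (Nat.mul_le_mul_left m (by omega)).trans hmK
    have hmt : m * t ≤ m * y := Nat.mul_le_mul_left m hy1.le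
    have hKX : K ≤ X := by rw [hK]; exact Nat.div_le_self _ _
    have hx1 : X / 8 + h ≤ n - m * y := by omega
    have hx2 : n - m * y + h ≤ X + 1 := by omega
    have hx3 : ((n - m * y : ℕ) : ℤ) = n - m * (y : ℤ) := by
      rw [Nat.cast_sub (by omega)]
      push_cast
      ring
    have hMd1 : Md T Q h (K / 2) K y = PM (Bc h y) T Q (y : ℤ) := by
      unfold Md
      congr 1
      funext c
      exact hBL2 h (K / 2) K y c hh1 (by omega) (by omega)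
    have hMd2 : Md T Q h (X / 8) X (n - m * y) =
        PM (Bc h (n - m * y)) T Q (n - m * (y : ℤ)) := by
      unfold Md
      rw [hx3]
      congr 1
      funext c
      exact hBL2 h (X / 8) X (n - m * y) c hh1 hx1 hx2
    have hr1 := h3 T Q h (K / 2) K y
    have hr2 := h3 T Q h (X / 8) X (n - m * y)
    rw [hMd1] at hr1
    rw [hMd2] at hr2
    constructor
    · have hary : ∀ r ∈ Icc 1 T, |ar Q r (y : ℤ)| ≤ E := by
        intro r hr
        rw [Finset.mem_Icc] at hr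
        refine har Q r (y : ℤ) hQX hr.1 (hr.2.trans hTX) (by omega) ?_
        rw [abs_of_nonneg (by omega)]
        omega
      have harx : ∀ r ∈ Icc 1 T, |ar Q r (n - m * (y : ℤ))| ≤ E := by
        intro r hr
        rw [Finset.mem_Icc] at hr
        rw [← hx3]
        refine har Q r _ hQX hr.1 (hr.2.trans hTX) (by omega) ?_
        rw [abs_of_nonneg (by omega)]
        omega
      have hNy : NB (Bc h y) T ≤ 4 := hSum y (by omega) (by omega)
      have hNx : NB (Bc h (n - m * t)) T ≤ 4 := hSum _ (by omega) (by omega)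
      have hS : |SS q₁ w ψ (y : ℤ)| ≤ E := by
        refine hSS q₁ w _ ψ (y : ℤ) hψ ?_
        rw [abs_of_nonneg (by omega)]
        omega
      have hyt : |((y : ℕ) : ℝ) - (t : ℕ)| ≤ L := by
        have e1 : (t : ℝ) ≤ y := by exact_mod_cast hy1.le
        have e2 : (y : ℝ) ≤ t + L := by exact_mod_cast hy2
        rw [abs_of_nonneg (by linarith)]
        linarith
      have hm1' : (1 : ℝ) ≤ m := by exact_mod_cast hm1
      have hL0 : (0 : ℝ) ≤ L := Nat.cast_nonneg _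
      have hxt : |((n - m * y : ℕ) : ℝ) - ((n - m * t : ℕ) : ℝ)| ≤ m * L := by
        rw [Nat.cast_sub (by omega), Nat.cast_sub (by omega)]
        push_cast
        have e3 : (n : ℝ) - m * y - (n - m * t) = -(m * ((y : ℝ) - t)) := by ring
        rw [e3, abs_neg, abs_mul, abs_of_nonneg (by linarith : (0 : ℝ) ≤ m)]
        gcongr
      have hh0 : (0 : ℝ) < h := by exact_mod_cast hh1
      refine w0_term _ _ _ _ _ a b E ?_ ?_ ?_ ?_ hS ha0 hb0
      · refine (w0_pm _ T Q _ E hary).trans ?_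
        rw [ha]
        gcongr
      · refine (w0_pm _ T Q _ E harx).trans ?_
        rw [ha]
        gcongr
      · rw [w0_sub]
        refine (w0_pm _ T Q _ E hary).trans ?_
        rw [hb]
        refine mul_le_mul_of_nonneg_right ?_ hE0
        refine w0_nb hBL5 _ T _ (by positivity) fun c => ?_
        refine (hBL4 X h y t c hh1 (by omega) (by omega) (by omega)).trans ?_
        have e4 : |((y : ℕ) : ℝ) - (t : ℕ)| ≤ m * L := by
          refine hyt.trans ?_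
          nlinarith
        gcongr
      · rw [w0_sub]
        refine (w0_pm _ T Q _ E harx).trans ?_
        rw [hb]
        refine mul_le_mul_of_nonneg_right ?_ hE0
        refine w0_nb hBL5 _ T _ (by positivity) fun c => ?_
        refine (hBL4 X h _ _ c hh1 (by omega) (by omega) (by omega)).trans ?_
        gcongr
    · rw [hMd1, hMd2, Complex.mul_re, Complex.mul_re, Complex.ofReal_re, Complex.ofReal_im,
        hr1, hr2]
      ring
  have hfin : |∑ y ∈ Ioc t (t + L),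
      (Md T Q h (K / 2) K y).re * SS q₁ w ψ y * (Md T Q h (X / 8) X (n - m * y)).re -
      (∑ y ∈ Ioc t (t + L), PM (Bc h (n - m * t)) T Q (n - m * (y : ℤ)) *
      PM (Bc h t) T Q (y : ℤ) * ((SS q₁ w ψ (y : ℤ) : ℝ) : ℂ)).re| ≤ L * (2 * a * b * E) := by
    rw [Finset.sum_congr rfl fun y hy => (key y hy).2, ← Complex.re_sum, ← Complex.sub_re,
      ← Finset.sum_sub_distrib]
    refine (Complex.abs_re_le_norm _).trans ?_
    refine (norm_sum_le _ _).trans ?_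
    refine (Finset.sum_le_sum fun y hy => (key y hy).1).trans ?_
    rw [Finset.sum_const, Nat.card_Ioc, nsmul_eq_mul, Nat.add_sub_cancel_left]
  refine hfin.trans ?_
  refine mul_le_mul_of_nonneg_left ?_ (Nat.cast_nonneg _)
  refine w0_num δ X T m L h hδ (by omega) (Nat.cast_nonneg _) (Nat.cast_nonneg _)
    (Nat.cast_nonneg _) ?_ ?_ hm ?_ hlog
  · rw [hh]; exact Nat.le_ceil _
  · rw [hT]; exact Nat.floor_le (by positivity)
  · rw [hL]; exact Nat.floor_le (by positivity)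

end Pool.Agent.MVII
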