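import Pool.Agent.MVII.St1
import Pool.Agent.GBQ.Basic

set_option autoImplicit false

/-!
# MVII, module Bf: the Fourier transform of the local means
-/

namespace Pool.Agent.MVII

open Finset Filter
open Pool.Agent.GBQ (ee lam nd Admissible)
open Pool.Agent.MVX (Chr tent Bm Um prm Win GP)

/-- the number of pairs with given difference -/
theorem bf_card (h n x : ℕ) :
    ((((range h ×ˢ range h).filter (fun p : ℕ × ℕ => n + p.1 = x + p.2)).card : ℕ) : ℝ) =
      tent h x n := by
  rcases le_total n x with hnx | hnx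
  · have h1 : (range h ×ˢ range h).filter (fun p : ℕ × ℕ => n + p.1 = x + p.2) =
        (range (h - (x - n))).image (fun j => (j + (x - n), j)) := by
      ext ⟨i, j⟩
      simp only [mem_filter, mem_product, mem_range, mem_image, Prod.mk.injEq]
      constructor
      · rintro ⟨⟨h1, h2⟩, h3⟩
        exact ⟨j, by omega, by omega, rfl⟩
      · rintro ⟨k, hk, h3, rfl⟩
        omega
    rw [h1, card_image_of_injective, card_range, tent]
    · have h2 : |(n : ℝ) - x| = (x - n : ℕ) := by
        rw [abs_sub_comm, Nat.cast_sub hnx]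
        exact abs_of_nonneg (sub_nonneg.mpr (by exact_mod_cast hnx))
      rw [h2]
      rcases le_total (x - n) h with h3 | h3
      · rw [Nat.cast_sub h3, max_eq_right]
        exact sub_nonneg.mpr (by exact_mod_cast h3)
      · rw [Nat.sub_eq_zero_of_le h3, Nat.cast_zero, max_eq_left]
        exact sub_nonpos.mpr (by exact_mod_cast h3)
    · intro a b hab
      exact (Prod.mk.inj hab).2
  · have h1 : (range h ×ˢ range h).filter (fun p : ℕ × ℕ => n + p.1 = x + p.2) =
        (range (h - (n - x))).image (fun i => (i, i + (n - x))) := by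
      ext ⟨i, j⟩
      simp only [mem_filter, mem_product, mem_range, mem_image, Prod.mk.injEq]
      constructor
      · rintro ⟨⟨h1, h2⟩, h3⟩
        exact ⟨i, by omega, rfl, by omega⟩
      · rintro ⟨k, hk, rfl, h3⟩
        omega
    rw [h1, card_image_of_injective, card_range, tent]
    · have h2 : |(n : ℝ) - x| = (n - x : ℕ) := by
        rw [Nat.cast_sub hnx]
        exact abs_of_nonneg (sub_nonneg.mpr (by exact_mod_cast hnx))
      rw [h2]
      rcases le_total (n - x) h with h3 | h3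
      · rw [Nat.cast_sub h3, max_eq_right]
        exact sub_nonneg.mpr (by exact_mod_cast h3)
      · rw [Nat.sub_eq_zero_of_le h3, Nat.cast_zero, max_eq_left]
        exact sub_nonpos.mpr (by exact_mod_cast h3)
    · intro a b hab
      exact (Prod.mk.inj hab).1

/-- the transform of the tent -/
theorem bf_tent (h u v n : ℕ) (γ : ℝ) (hu : h ≤ u) (hn : u < n) (hv : n ≤ v) :
    ∑ x ∈ range (v + h), ((tent h x n : ℝ) : ℂ) * ee (γ * x) =
      ((‖∑ j ∈ range h, ee (γ * j)‖ ^ 2 : ℝ) : ℂ) * ee (γ * n) := by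
  have h1 : ∀ x ∈ range (v + h), ((tent h x n : ℝ) : ℂ) * ee (γ * x) =
      ∑ p ∈ (range h ×ˢ range h).filter (fun p : ℕ × ℕ => n + p.1 - p.2 = x),
        ee (γ * ((n + p.1 - p.2 : ℕ) : ℝ)) := by
    intro x _
    have e1 : (range h ×ˢ range h).filter (fun p : ℕ × ℕ => n + p.1 - p.2 = x) =
        (range h ×ˢ range h).filter (fun p : ℕ × ℕ => n + p.1 = x + p.2) := by
      refine filter_congr fun p hp => ?_
      rw [mem_product, mem_range, mem_range] at hp
      omega
    have e2 : ∀ p ∈ (range h ×ˢ range h).filter (fun p : ℕ × ℕ => n + p.1 - p.2 = x),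
        ee (γ * ((n + p.1 - p.2 : ℕ) : ℝ)) = ee (γ * x) := by
      intro p hp
      rw [(mem_filter.mp hp).2]
    rw [sum_congr rfl e2, e1, sum_const, nsmul_eq_mul, ← bf_card]
    push_cast
    rfl
  rw [sum_congr rfl h1, sum_fiberwise_of_maps_to (g := fun p : ℕ × ℕ => n + p.1 - p.2)
    (f := fun p : ℕ × ℕ => ee (γ * ((n + p.1 - p.2 : ℕ) : ℝ)))]
  · have h2 : ((‖∑ j ∈ range h, ee (γ * j)‖ ^ 2 : ℝ) : ℂ) =
        (∑ j ∈ range h, ee (γ * j)) * (starRingEnd ℂ) (∑ j ∈ range h, ee (γ * j)) := by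
      rw [Complex.mul_conj, Complex.normSq_eq_norm_sq]
    rw [h2, map_sum, sum_mul_sum, ← sum_product', sum_mul]
    refine sum_congr rfl fun p hp => ?_
    rw [mem_product, mem_range, mem_range] at hp
    rw [← GBQ.ee_neg, ← GBQ.ee_add, ← GBQ.ee_add]
    congr 1
    rw [Nat.cast_sub (by omega)]
    push_cast
    ring
  · intro p hp
    rw [mem_product, mem_range, mem_range] at hp
    rw [mem_range]
    omega

/-- **Bf** -/
theorem thm_Bf : St_Bf := by
  intro h u v c γ hh hu huv
  simp only [BI]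
  have h1 : ∀ x ∈ range (v + h), ((h : ℂ) ^ 2)⁻¹ * (∑ n ∈ Ioc u v,
      (((lam n : ℝ) : ℂ) * c.2 (n : ZMod c.1)) * ((tent h x n : ℝ) : ℂ)) * ee (γ * x) =
      ∑ n ∈ Ioc u v, ((h : ℂ) ^ 2)⁻¹ * (((lam n : ℝ) : ℂ) * c.2 (n : ZMod c.1)) *
        (((tent h x n : ℝ) : ℂ) * ee (γ * x)) := by
    intro x _
    rw [mul_assoc, sum_mul, mul_sum]
    refine sum_congr rfl fun n _ => ?_
    ring
  rw [sum_congr rfl h1, sum_comm, mul_sum]
  refine sum_congr rfl fun n hn => ?_
  rw [mem_Ioc] at hn
  rw [← mul_sum, bf_tent h u v n γ hu hn.1 hn.2, fj]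
  push_cast
  have hh0 : (h : ℂ) ≠ 0 := by
    have : h ≠ 0 := by omega
    exact_mod_cast this
  field_simp

end Pool.Agent.MVII
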