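import Pool.Agent.MVII.St2
import Pool.Agent.GBQ.RhoLow

set_option autoImplicit false

/-!
# MVII / Lc: the local densities are positive
-/

namespace Pool.Agent.MVII

open Finset Filter
open Pool.Agent.LIN (PP pz)

private theorem lc_cls (p m n : ℕ) (hp : p.Prime) (hc : n.Coprime m) :
    ((range p).filter (fun y : ℕ => (p : ℤ) ∣ (n : ℤ) - m * y)).card ≤ 1 := by
  rw [Finset.card_le_one]
  intro y hy y' hy'
  rw [Finset.mem_filter, Finset.mem_range] at hy hy'
  have hpm : ¬ (p : ℤ) ∣ (m : ℤ) := by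
    intro h
    have h1 : (p : ℤ) ∣ (n : ℤ) := by
      have h2 := dvd_add hy.2 (h.mul_right (y : ℤ))
      rwa [sub_add_cancel] at h2
    exact Nat.not_coprime_of_dvd_of_dvd hp.one_lt (Int.natCast_dvd_natCast.1 h1)
      (Int.natCast_dvd_natCast.1 h) hc
  have h1 : (p : ℤ) ∣ (m : ℤ) * ((y : ℤ) - y') := by
    have h2 := dvd_sub hy'.2 hy.2
    have e : (n : ℤ) - m * y' - (n - m * y) = m * ((y : ℤ) - y') := by ring
    rwa [e] at h2
  have h3 := ((Nat.prime_iff_prime_int.1 hp).dvd_or_dvd h1).resolve_left hpm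
  have h4 : (y : ℤ) - y' = 0 := Int.eq_zero_of_abs_lt_dvd h3 (by
    rw [abs_lt]
    constructor <;> omega)
  omega

private theorem lc_zero (p : ℕ) : ((range p).filter (fun y : ℕ => (p : ℤ) ∣ (y : ℤ))).card ≤ 1 := by
  rw [Finset.card_le_one]
  intro y hy y' hy'
  rw [Finset.mem_filter, Finset.mem_range] at hy hy'
  have h1 : y = 0 := Nat.eq_zero_of_dvd_of_lt (Int.natCast_dvd_natCast.1 hy.2) hy.1
  have h2 : y' = 0 := Nat.eq_zero_of_dvd_of_lt (Int.natCast_dvd_natCast.1 hy'.2) hy'.1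
  rw [h1, h2]

private theorem lc_A (p m n : ℕ) (hp : p.Prime) (hc : n.Coprime m) (h2 : (n + m) % 2 = 1) :
    p ≤ ((range p).filter
      (fun y : ℕ => ¬ (p : ℤ) ∣ (y : ℤ) ∧ ¬ (p : ℤ) ∣ (n : ℤ) - m * y)).card + 2 ∧
    1 ≤ ((range p).filter
      (fun y : ℕ => ¬ (p : ℤ) ∣ (y : ℤ) ∧ ¬ (p : ℤ) ∣ (n : ℤ) - m * y)).card := by
  have h1 : p ≤ ((range p).filter
      (fun y : ℕ => ¬ (p : ℤ) ∣ (y : ℤ) ∧ ¬ (p : ℤ) ∣ (n : ℤ) - m * y)).card + 2 := by
    have hs : range p ⊆ (range p).filter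
        (fun y : ℕ => ¬ (p : ℤ) ∣ (y : ℤ) ∧ ¬ (p : ℤ) ∣ (n : ℤ) - m * y) ∪
        ((range p).filter (fun y : ℕ => (p : ℤ) ∣ (y : ℤ)) ∪
          (range p).filter (fun y : ℕ => (p : ℤ) ∣ (n : ℤ) - m * y)) := by
      intro y hy
      simp only [Finset.mem_union, Finset.mem_filter]
      tauto
    have h3 := Finset.card_le_card hs
    have h4 := Finset.card_union_le ((range p).filter
        (fun y : ℕ => ¬ (p : ℤ) ∣ (y : ℤ) ∧ ¬ (p : ℤ) ∣ (n : ℤ) - m * y))
        ((range p).filter (fun y : ℕ => (p : ℤ) ∣ (y : ℤ)) ∪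
          (range p).filter (fun y : ℕ => (p : ℤ) ∣ (n : ℤ) - m * y))
    have h5 := Finset.card_union_le ((range p).filter (fun y : ℕ => (p : ℤ) ∣ (y : ℤ)))
          ((range p).filter (fun y : ℕ => (p : ℤ) ∣ (n : ℤ) - m * y))
    have h6 := lc_cls p m n hp hc
    have h7 := lc_zero p
    rw [Finset.card_range] at h3
    omega
  refine ⟨h1, ?_⟩
  rcases Nat.lt_or_ge 2 p with h | h
  · omega
  · have hp2 : p = 2 := le_antisymm h hp.two_le
    subst hp2
    refine Finset.card_pos.2 ⟨1, ?_⟩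
    rw [Finset.mem_filter, Finset.mem_range]
    refine ⟨by norm_num, ?_, ?_⟩
    · norm_num
    · push_cast
      omega

private theorem lc_B (p : ℕ) (hp : p.Prime) :
    ((range p).filter (fun y : ℕ => ¬ (p : ℤ) ∣ (y : ℤ) ∧ (p : ℤ) ∣ (y : ℤ) ^ 2 - 2)).card ≤ 2 ∧
    (p < 7 → ((range p).filter
      (fun y : ℕ => ¬ (p : ℤ) ∣ (y : ℤ) ∧ (p : ℤ) ∣ (y : ℤ) ^ 2 - 2)).card = 0) := by
  constructor
  · rcases Finset.eq_empty_or_nonempty ((range p).filter
      (fun y : ℕ => ¬ (p : ℤ) ∣ (y : ℤ) ∧ (p : ℤ) ∣ (y : ℤ) ^ 2 - 2)) with h | ⟨a, ha⟩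
    · rw [h]
      simp
    · rw [Finset.mem_filter, Finset.mem_range] at ha
      have hs : (range p).filter
          (fun y : ℕ => ¬ (p : ℤ) ∣ (y : ℤ) ∧ (p : ℤ) ∣ (y : ℤ) ^ 2 - 2) ⊆ {a, p - a} := by
        intro y hy
        rw [Finset.mem_filter, Finset.mem_range] at hy
        rw [Finset.mem_insert, Finset.mem_singleton]
        have h1 : (p : ℤ) ∣ ((y : ℤ) - a) * ((y : ℤ) + a) := by
          have h2 := dvd_sub hy.2.2 ha.2.2
          have e : (y : ℤ) ^ 2 - 2 - ((a : ℤ) ^ 2 - 2) = ((y : ℤ) - a) * ((y : ℤ) + a) := by ring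
          rwa [e] at h2
        rcases (Nat.prime_iff_prime_int.1 hp).dvd_or_dvd h1 with h2 | h2
        · left
          have h4 : (y : ℤ) - a = 0 := Int.eq_zero_of_abs_lt_dvd h2 (by
            rw [abs_lt]
            constructor <;> omega)
          omega
        · right
          have h3 : p ∣ y + a := by
            have h4 : (p : ℤ) ∣ ((y + a : ℕ) : ℤ) := by push_cast; exact h2
            exact Int.natCast_dvd_natCast.1 h4
          have ha0 : a ≠ 0 := by
            rintro rfl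
            exact ha.2.1 (by simp)
          obtain ⟨k, hk⟩ := h3
          have hk1 : k = 1 := by
            have h5 : k ≠ 0 := by
              rintro rfl
              omega
            have h6 : k < 2 := by
              by_contra h7
              have h8 : p * 2 ≤ p * k := Nat.mul_le_mul_left p (by omega)
              omega
            omega
          rw [hk1, mul_one] at hk
          omega
      exact (Finset.card_le_card hs).trans Finset.card_le_two
  · intro h7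
    rw [Finset.card_eq_zero, Finset.filter_eq_empty_iff]
    intro y hy
    rw [Finset.mem_range] at hy
    have h2 := hp.two_le
    interval_cases p
    · interval_cases y <;> norm_num
    · interval_cases y <;> norm_num
    · exact absurd hp (by norm_num)
    · interval_cases y <;> norm_num
    · exact absurd hp (by norm_num)

private theorem lc_nl (w m n p : ℕ) (hp : p.Prime) (hc : n.Coprime m) (h2 : (n + m) % 2 = 1) :
    1 ≤ nl w m n p ∧ (5 ≤ p → p ≤ nl w m n p + 2 + (if p < 7 then 0 else 2)) := by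
  have hs : (range p).filter
      (fun y : ℕ => ¬ (p : ℤ) ∣ (y : ℤ) ∧ ¬ (p : ℤ) ∣ (n : ℤ) - m * y) ⊆
      (range p).filter (fun y : ℕ => ¬ (p : ℤ) ∣ (y : ℤ) ∧ ¬ (p : ℤ) ∣ (n : ℤ) - m * y ∧
        (p < w → ¬ (p : ℤ) ∣ (y : ℤ) ^ 2 - 2)) ∪
      (range p).filter (fun y : ℕ => ¬ (p : ℤ) ∣ (y : ℤ) ∧ (p : ℤ) ∣ (y : ℤ) ^ 2 - 2) := by
    intro y hy
    simp only [Finset.mem_union, Finset.mem_filter] at hy ⊢
    tauto
  have h3 := (Finset.card_le_card hs).trans (Finset.card_union_le _ _)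
  have h4 : nl w m n p = ((range p).filter (fun y : ℕ => ¬ (p : ℤ) ∣ (y : ℤ) ∧
      ¬ (p : ℤ) ∣ (n : ℤ) - m * y ∧ (p < w → ¬ (p : ℤ) ∣ (y : ℤ) ^ 2 - 2))).card := rfl
  rw [← h4] at h3
  obtain ⟨h5, h6⟩ := lc_A p m n hp hc h2
  obtain ⟨h7, h8⟩ := lc_B p hp
  by_cases h : p < 7
  · rw [if_pos h]
    have h9 := h8 h
    omega
  · rw [if_neg h]
    omega

private theorem lc_poly (x : ℝ) (hx : 0 ≤ x) (hx7 : x ≤ 1 / 7) : (1 - x) ^ 8 ≤ 1 - 4 * x := by
  have h1 : (1 - x) ^ 8 = 1 - 8 * x + 28 * x ^ 2 - x ^ 3 * ((56 - 70 * x) +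
      28 * x ^ 2 * (2 - x) + x ^ 4 * (8 - x)) := by ring
  have h2 : 0 ≤ x ^ 3 * ((56 - 70 * x) + 28 * x ^ 2 * (2 - x) + x ^ 4 * (8 - x)) := by
    apply mul_nonneg (by positivity)
    have h3 : 0 ≤ 56 - 70 * x := by linarith
    have h4 : 0 ≤ 28 * x ^ 2 * (2 - x) := mul_nonneg (by positivity) (by linarith)
    have h5 : 0 ≤ x ^ 4 * (8 - x) := mul_nonneg (by positivity) (by linarith)
    linarith
  rw [h1]
  nlinarith

private theorem lc_loc (w m n p : ℕ) (hp : p.Prime) (hc : n.Coprime m) (h2 : (n + m) % 2 = 1) :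
    (1 - 1 / (p : ℝ)) ^ 8 ≤ loc w m n p := by
  obtain ⟨h3, h4⟩ := lc_nl w m n p hp hc h2
  have hp2 : (2 : ℝ) ≤ p := by exact_mod_cast hp.two_le
  have hp0 : (0 : ℝ) < p := by linarith
  have hp1 : (0 : ℝ) < (p : ℝ) - 1 := by linarith
  have key : (1 - 1 / (p : ℝ)) ^ 8 ≤ (nl w m n p : ℝ) / p := by
    rcases Nat.lt_or_ge p 7 with h7 | h7
    · have h2 := hp.two_le
      interval_cases p
      · have h5 : (1 : ℝ) ≤ nl w m n 2 := by exact_mod_cast h3
        push_cast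
        rw [le_div_iff₀ (by norm_num)]
        norm_num
        linarith
      · have h5 : (1 : ℝ) ≤ nl w m n 3 := by exact_mod_cast h3
        push_cast
        rw [le_div_iff₀ (by norm_num)]
        norm_num
        linarith
      · exact absurd hp (by norm_num)
      · have h6 := h4 le_rfl
        rw [if_pos (by norm_num)] at h6
        have h5 : (3 : ℝ) ≤ nl w m n 5 := by exact_mod_cast (show 3 ≤ nl w m n 5 by omega)
        push_cast
        rw [le_div_iff₀ (by norm_num)]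
        norm_num
        linarith
      · exact absurd hp (by norm_num)
    · have h6 := h4 (by omega)
      rw [if_neg (by omega)] at h6
      have h5 : (p : ℝ) ≤ nl w m n p + 2 + 2 := by exact_mod_cast h6
      have h8 : (7 : ℝ) ≤ p := by exact_mod_cast h7
      refine (lc_poly (1 / (p : ℝ)) (by positivity)
        (one_div_le_one_div_of_le (by norm_num) h8)).trans ?_
      rw [le_div_iff₀ hp0]
      have e : (1 - 4 * (1 / (p : ℝ))) * p = p - 4 := by field_simp
      rw [e]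
      linarith
  have h5 : (1 : ℝ) ≤ ((p : ℝ) / (p - 1)) ^ 2 := by
    apply one_le_pow₀
    rw [le_div_iff₀ hp1]
    linarith
  have h6 : (0 : ℝ) ≤ (nl w m n p : ℝ) / p := by positivity
  unfold loc
  nlinarith

theorem thm_Lc : St_Lc := by
  obtain ⟨c, hc0, hc⟩ := Pool.Agent.GBQ.thm_RhoLow
  refine ⟨c, hc0, fun m n hcop hpar => ⟨fun w p hp => lc_loc w m n p hp hcop hpar,
    fun w Q hQ => ?_, fun p hp => ?_⟩⟩
  · have h1 := hc Q hQ
    have hlog : 0 < Real.log Q := Real.log_pos (by exact_mod_cast hQ)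
    have h2 : (c / Real.log Q) ^ 8 ≤ Pool.Agent.GBQ.rho Q ^ 8 :=
      pow_le_pow_left₀ (by positivity) h1 8
    refine h2.trans ?_
    unfold Pool.Agent.GBQ.rho
    rw [← Finset.prod_pow]
    refine Finset.prod_le_prod (fun p hp => by positivity) fun p hp => ?_
    exact lc_loc w m n p (Finset.mem_filter.1 hp).2 hcop hpar
  · obtain ⟨h5, h6⟩ := lc_A p m n hp hcop hpar
    obtain ⟨h7, h8⟩ := lc_B p hp
    refine ⟨by omega, ?_⟩
    have hsub : ((range p).filter (fun y : ℕ => ¬ (p : ℤ) ∣ (y : ℤ) ∧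
        ¬ (p : ℤ) ∣ (n : ℤ) - m * y ∧ (p : ℤ) ∣ (y : ℤ) ^ 2 - 2)).card ≤
        ((range p).filter (fun y : ℕ => ¬ (p : ℤ) ∣ (y : ℤ) ∧
          (p : ℤ) ∣ (y : ℤ) ^ 2 - 2)).card := by
      apply Finset.card_le_card
      intro y hy
      simp only [Finset.mem_filter] at hy ⊢
      tauto
    have hp0 : (0 : ℝ) < p := by exact_mod_cast hp.pos
    rcases Nat.lt_or_ge p 7 with h | h
    · have h9 := h8 h
      rw [h9] at hsub
      have h10 : ((range p).filter (fun y : ℕ => ¬ (p : ℤ) ∣ (y : ℤ) ∧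
        ¬ (p : ℤ) ∣ (n : ℤ) - m * y ∧ (p : ℤ) ∣ (y : ℤ) ^ 2 - 2)).card = 0 := by omega
      rw [h10, Nat.cast_zero, zero_div]
      positivity
    · have h9 : (((range p).filter (fun y : ℕ => ¬ (p : ℤ) ∣ (y : ℤ) ∧
        ¬ (p : ℤ) ∣ (n : ℤ) - m * y ∧ (p : ℤ) ∣ (y : ℤ) ^ 2 - 2)).card : ℝ) ≤ 2 := by
        exact_mod_cast hsub.trans h7
      have h10 : (p : ℝ) ≤ (((range p).filter (fun y : ℕ => ¬ (p : ℤ) ∣ (y : ℤ) ∧
          ¬ (p : ℤ) ∣ (n : ℤ) - m * y)).card : ℝ) + 2 := by exact_mod_cast h5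
      have h11 : (7 : ℝ) ≤ p := by exact_mod_cast h
      have h12 : (0 : ℝ) < (((range p).filter (fun y : ℕ => ¬ (p : ℤ) ∣ (y : ℤ) ∧
          ¬ (p : ℤ) ∣ (n : ℤ) - m * y)).card : ℝ) := by linarith
      rw [div_le_iff₀ h12]
      refine h9.trans ?_
      rcases min_choice (3 / 4 : ℝ) (4 / p) with hm | hm
      · rw [hm]
        linarith
      · rw [hm, div_mul_eq_mul_div, le_div_iff₀ hp0]
        linarith

end Pool.Agent.MVII
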