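import Mathlib
import Pool.Agent.MVII.St2

set_option autoImplicit false

/-!
# MVII: PF, the two means
-/

namespace Pool.Agent.MVII

open Finset Filter
open Pool.Agent.GBQ (ee lam nd Admissible)
open Pool.Agent.MVX (Chr tent Bm Um prm Win GP)
open Pool.Agent.LIN (PP pz)

/-! ### real means -/

/-- the mean of a real function -/
noncomputable def pf_mn (M : ℕ) (f : ℤ → ℝ) : ℝ := (∑ y ∈ range M, f y) / M

/-- periods of real functions -/
def pf_per (M : ℕ) (f : ℤ → ℝ) : Prop := ∀ y : ℤ, f (y + M) = f y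

theorem pf_cast (M : ℕ) (f : ℤ → ℝ) :
    mn M (fun y => ((f y : ℝ) : ℂ)) = ((pf_mn M f : ℝ) : ℂ) := by
  unfold mn pf_mn
  push_cast
  rfl

theorem pf_perC {M : ℕ} {f : ℤ → ℝ} (h : pf_per M f) : Per M (fun y => ((f y : ℝ) : ℂ)) :=
  fun y => by simp only [h y]

theorem pf_mt1 (h : St_Mt) {a b : ℕ} {f : ℤ → ℝ} (ha : 1 ≤ a) (hb : 1 ≤ b) (h1 : pf_per a f)
    (h2 : pf_per b f) : pf_mn a f = pf_mn b f := by
  have h3 := h.1 a b _ ha hb (pf_perC h1) (pf_perC h2)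
  rw [pf_cast, pf_cast] at h3
  exact_mod_cast h3

theorem pf_mt2 (h : St_Mt) {a b : ℕ} {f g : ℤ → ℝ} (ha : 1 ≤ a) (hb : 1 ≤ b)
    (hab : a.Coprime b) (h1 : pf_per a f) (h2 : pf_per b g) :
    pf_mn (a * b) (fun y => f y * g y) = pf_mn a f * pf_mn b g := by
  have h3 := h.2.1 a b _ _ ha hb hab (pf_perC h1) (pf_perC h2)
  simp only [← Complex.ofReal_mul] at h3
  rw [pf_cast a, pf_cast b] at h3
  have h4 := pf_cast (a * b) (fun y => f y * g y)
  rw [h4] at h3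
  exact_mod_cast h3

theorem pf_mt3 (h : St_Mt) {S : Finset ℕ} {f : ℕ → ℤ → ℝ} (hp : ∀ p ∈ S, p.Prime)
    (h1 : ∀ p ∈ S, pf_per p (f p)) :
    pf_mn (∏ p ∈ S, p) (fun y => ∏ p ∈ S, f p y) = ∏ p ∈ S, pf_mn p (f p) := by
  have h3 := h.2.2.1 S (fun p y => ((f p y : ℝ) : ℂ)) hp (fun p hp => pf_perC (h1 p hp))
  simp only [← Complex.ofReal_prod] at h3
  have h4 := pf_cast (∏ p ∈ S, p) (fun y => ∏ p ∈ S, f p y)
  rw [h4] at h3
  have h5 : ∏ p ∈ S, mn p (fun y => ((f p y : ℝ) : ℂ)) = ((∏ p ∈ S, pf_mn p (f p) : ℝ) : ℂ) := by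
    rw [Complex.ofReal_prod]
    exact prod_congr rfl fun p _ => pf_cast p (f p)
  rw [h5] at h3
  exact_mod_cast h3

theorem pf_per_mul {a : ℕ} {f : ℤ → ℝ} (h : pf_per a f) (k : ℕ) : pf_per (a * k) f := by
  intro y
  induction k with
  | zero => simp
  | succ k ih =>
    rw [← ih]
    have h1 := h (y + (a * k : ℕ))
    rw [← h1]
    congr 1
    push_cast
    ring

theorem pf_per_dvd {a b : ℕ} {f : ℤ → ℝ} (h : pf_per a f) (hab : a ∣ b) : pf_per b f := by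
  obtain ⟨k, rfl⟩ := hab
  exact pf_per_mul h k

theorem pf_mn_nonneg {M : ℕ} {f : ℤ → ℝ} (h : ∀ y, 0 ≤ f y) : 0 ≤ pf_mn M f :=
  div_nonneg (sum_nonneg fun y _ => h y) (Nat.cast_nonneg _)

/-! ### local functions -/

/-- the local weight -/
noncomputable def pf_f (m n p : ℕ) (y : ℤ) : ℝ := gp p (n - m * y) * gp p y

/-- the indicator function of `p ∣ y ^ 2 - 2` -/
noncomputable def pf_i (p : ℕ) (y : ℤ) : ℝ := if (p : ℤ) ∣ y ^ 2 - 2 then 1 else 0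

theorem pf_wq (Q m n : ℕ) (y : ℤ) : wq Q m n y = ∏ p ∈ pz Q, pf_f m n p y := by
  unfold wq GQ pf_f
  rw [← prod_mul_distrib]

theorem pf_gp_nonneg {p : ℕ} (hp : p.Prime) (x : ℤ) : 0 ≤ gp p x := by
  unfold gp
  split_ifs
  · exact le_refl _
  · have h : (2 : ℝ) ≤ p := by exact_mod_cast hp.two_le
    exact div_nonneg (by linarith) (by linarith)

theorem pf_f_nonneg {m n p : ℕ} (hp : p.Prime) (y : ℤ) : 0 ≤ pf_f m n p y :=
  mul_nonneg (pf_gp_nonneg hp _) (pf_gp_nonneg hp _)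

theorem pf_gp_add {p : ℕ} (x k : ℤ) : gp p (x + p * k) = gp p x := by
  unfold gp
  have h : (p : ℤ) ∣ x + p * k ↔ (p : ℤ) ∣ x :=
    (dvd_add_left (dvd_mul_right (p : ℤ) k))
  simp only [h]

theorem pf_f_per (m n p : ℕ) : pf_per p (pf_f m n p) := by
  intro y
  unfold pf_f
  have h1 : (n : ℤ) - m * (y + p) = (n - m * y) + p * (-m) := by ring
  have h2 : y + (p : ℤ) = y + p * 1 := by ring
  rw [h1, pf_gp_add, h2, pf_gp_add]

theorem pf_i_per (p : ℕ) : pf_per p (pf_i p) := by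
  intro y
  unfold pf_i
  have h1 : (y + (p : ℤ)) ^ 2 - 2 = (y ^ 2 - 2) + p * (2 * y + p) := by ring
  have h : (p : ℤ) ∣ (y + (p : ℤ)) ^ 2 - 2 ↔ (p : ℤ) ∣ y ^ 2 - 2 := by
    rw [h1]
    exact (dvd_add_left (dvd_mul_right (p : ℤ) _))
  simp only [h]

/-- number of the residues of the first kind -/
noncomputable def pf_A (m n p : ℕ) : ℕ :=
  ((range p).filter (fun y : ℕ => ¬ (p : ℤ) ∣ (y : ℤ) ∧ ¬ (p : ℤ) ∣ (n : ℤ) - m * y)).card

/-- number of the residues of the second kind -/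
noncomputable def pf_B (m n p : ℕ) : ℕ :=
  ((range p).filter (fun y : ℕ => ¬ (p : ℤ) ∣ (y : ℤ) ∧ ¬ (p : ℤ) ∣ (n : ℤ) - m * y ∧
      (p : ℤ) ∣ (y : ℤ) ^ 2 - 2)).card

theorem pf_f_eq (m n p : ℕ) (y : ℤ) : pf_f m n p y = ((p : ℝ) / (p - 1)) ^ 2 *
    if ¬ (p : ℤ) ∣ y ∧ ¬ (p : ℤ) ∣ (n : ℤ) - m * y then 1 else 0 := by
  unfold pf_f gp
  by_cases h1 : (p : ℤ) ∣ y <;> by_cases h2 : (p : ℤ) ∣ (n : ℤ) - m * y <;> simp [h1, h2]; ring

theorem pf_mA (m n p : ℕ) :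
    pf_mn p (pf_f m n p) = ((p : ℝ) / (p - 1)) ^ 2 / p * pf_A m n p := by
  unfold pf_mn pf_A
  simp only [pf_f_eq]
  rw [← mul_sum, Finset.sum_boole]
  ring

theorem pf_mB (m n p : ℕ) :
    pf_mn p (fun y => pf_f m n p y * pf_i p y) =
      ((p : ℝ) / (p - 1)) ^ 2 / p * pf_B m n p := by
  unfold pf_mn pf_B
  have h : ∀ y : ℕ, pf_f m n p (y : ℤ) * pf_i p (y : ℤ) = ((p : ℝ) / (p - 1)) ^ 2 *
      if (¬ (p : ℤ) ∣ (y : ℤ) ∧ ¬ (p : ℤ) ∣ (n : ℤ) - m * y ∧ (p : ℤ) ∣ (y : ℤ) ^ 2 - 2)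
      then 1 else 0 := by
    intro y
    rw [pf_f_eq, pf_i]
    by_cases h1 : (p : ℤ) ∣ (y : ℤ) <;> by_cases h2 : (p : ℤ) ∣ (n : ℤ) - m * y <;>
      by_cases h3 : (p : ℤ) ∣ (y : ℤ) ^ 2 - 2 <;> simp [h1, h2, h3]
  simp only [h]
  rw [← mul_sum, Finset.sum_boole]
  ring

theorem pf_mn_sub {M : ℕ} (f g : ℤ → ℝ) :
    pf_mn M (fun y => f y * (1 - g y)) = pf_mn M f - pf_mn M (fun y => f y * g y) := by
  unfold pf_mn
  rw [← sub_div, ← sum_sub_distrib]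
  congr 1
  exact sum_congr rfl fun y _ => by ring

/-- PF from MT, SF and LC. -/
theorem thm_Pf (h1 : St_Mt) (h2 : St_Sf) (h3 : St_Lc) : St_Pf := by
  intro Q m n q₁ w D ψ ℓ hnm hpar hq1 hqQ hw2 hwQ hψ hℓ hℓp
  obtain ⟨c, -, hLc⟩ := h3
  obtain ⟨-, -, hL3⟩ := hLc m n hnm hpar
  classical
  set P₁ := (pz Q).filter (fun p => p ∣ q₁) with hP1
  set P₂ := (pz Q).filter (fun p => ¬ p ∣ q₁) with hP2
  set P₃ := (PP 2 w).filter (fun p => ¬ p ∣ q₁) with hP3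
  have prz : ∀ p ∈ pz Q, p.Prime := fun p hp => (mem_filter.mp hp).2
  have pr2 : ∀ p ∈ P₂, p.Prime := fun p hp => prz p (mem_filter.mp hp).1
  have pr1 : ∀ p ∈ P₁, p.Prime := fun p hp => prz p (mem_filter.mp hp).1
  have prP : ∀ p ∈ PP 2 w, p.Prime := fun p hp => (mem_filter.mp hp).2
  have pr3 : ∀ p ∈ P₃, p.Prime := fun p hp => prP p (mem_filter.mp hp).1
  have h32 : P₃ ⊆ P₂ := by
    intro p hp
    obtain ⟨ha, hb⟩ := mem_filter.mp hp
    obtain ⟨ha1, ha2⟩ := mem_filter.mp ha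
    rw [mem_Ico] at ha1
    refine mem_filter.mpr ⟨mem_filter.mpr ⟨mem_range.mpr ?_, ha2⟩, hb⟩
    omega
  -- the factors
  set F₁ : ℤ → ℝ := fun y => ℓ y * (∏ p ∈ P₁, pf_f m n p y) *
    (if ∀ p ∈ PP 2 w, p ∣ q₁ → ¬ (p : ℤ) ∣ y ^ 2 - 2 then (1 : ℝ) else 0) with hF1
  set F₂ : ℤ → ℝ := fun y => ∑ T ∈ P₃.powerset, ψ T *
    ∏ p ∈ P₂, (pf_f m n p y * if p ∈ T then pf_i p y else 1) with hF2
  set F₃ : ℤ → ℝ := fun y => ∏ p ∈ P₂, (pf_f m n p y * if p ∈ P₃ then 1 - pf_i p y else 1)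
    with hF3
  -- identities
  have split : ∀ y : ℤ, wq Q m n y = (∏ p ∈ P₁, pf_f m n p y) * ∏ p ∈ P₂, pf_f m n p y := by
    intro y
    rw [pf_wq, hP1, hP2, prod_filter_mul_prod_filter_not]
  have prodT : ∀ T ⊆ P₂, ∀ (F : ℕ → ℝ) (y : ℤ),
      ∏ p ∈ P₂, (pf_f m n p y * if p ∈ T then F p else 1) =
        (∏ p ∈ P₂, pf_f m n p y) * ∏ p ∈ T, F p := by
    intro T hT F y
    rw [prod_mul_distrib]
    congr 1
    rw [prod_ite_mem, inter_eq_right.mpr hT]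
  have ind3 : ∀ y : ℤ, ∏ p ∈ P₃, (1 - pf_i p y) =
      if ∀ p ∈ PP 2 w, ¬ p ∣ q₁ → ¬ (p : ℤ) ∣ y ^ 2 - 2 then (1 : ℝ) else 0 := by
    intro y
    split_ifs with h
    · refine prod_eq_one fun p hp => ?_
      obtain ⟨ha, hb⟩ := mem_filter.mp hp
      rw [pf_i, if_neg (h p ha hb), sub_zero]
    · push Not at h
      obtain ⟨p, ha, hb, hc⟩ := h
      refine prod_eq_zero (mem_filter.mpr ⟨ha, hb⟩) ?_
      rw [pf_i, if_pos hc, sub_self]
  have idA : ∀ y : ℤ, ℓ y * wq Q m n y *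
      (if ∀ p ∈ PP 2 w, ¬ (p : ℤ) ∣ y ^ 2 - 2 then (1 : ℝ) else 0) = F₁ y * F₃ y := by
    intro y
    have e1 : (if ∀ p ∈ PP 2 w, ¬ (p : ℤ) ∣ y ^ 2 - 2 then (1 : ℝ) else 0) =
        (if ∀ p ∈ PP 2 w, p ∣ q₁ → ¬ (p : ℤ) ∣ y ^ 2 - 2 then (1 : ℝ) else 0) *
        (if ∀ p ∈ PP 2 w, ¬ p ∣ q₁ → ¬ (p : ℤ) ∣ y ^ 2 - 2 then (1 : ℝ) else 0) := by
      by_cases ha : ∀ p ∈ PP 2 w, ¬ (p : ℤ) ∣ y ^ 2 - 2
      · rw [if_pos ha, if_pos fun p hp _ => ha p hp, if_pos fun p hp _ => ha p hp, one_mul]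
      · rw [if_neg ha]
        push Not at ha
        obtain ⟨p, hp1, hp2⟩ := ha
        by_cases hb : p ∣ q₁
        · rw [if_neg fun h => h p hp1 hb hp2, zero_mul]
        · have hneg : ¬ ∀ p ∈ PP 2 w, ¬ p ∣ q₁ → ¬ (p : ℤ) ∣ y ^ 2 - 2 :=
            fun h => h p hp1 hb hp2
          rw [if_neg hneg, mul_zero]
    rw [e1, hF1, hF3]
    simp only
    rw [prodT P₃ h32 (fun p => 1 - pf_i p y) y, ind3, split]
    ring
  have idB : ∀ y : ℤ, ℓ y * wq Q m n y * SS q₁ w ψ y = F₁ y * F₂ y := by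
    intro y
    rw [h2.1 q₁ w D ψ y hψ, split, hF1, hF2]
    simp only
    have e1 : ∑ T ∈ ((PP 2 w).filter (fun p => ¬ p ∣ q₁ ∧ (p : ℤ) ∣ y ^ 2 - 2)).powerset, ψ T =
        ∑ T ∈ P₃.powerset, ψ T * ∏ p ∈ T, pf_i p y := by
      have e2 : ((PP 2 w).filter (fun p => ¬ p ∣ q₁ ∧ (p : ℤ) ∣ y ^ 2 - 2)).powerset ⊆
          P₃.powerset := by
        refine powerset_mono.mpr fun p hp => ?_
        obtain ⟨ha, hb⟩ := mem_filter.mp hp
        exact mem_filter.mpr ⟨ha, hb.1⟩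
      rw [← sum_subset e2]
      · refine sum_congr rfl fun T hT => ?_
        rw [prod_eq_one, mul_one]
        intro p hp
        have := mem_filter.mp ((mem_powerset.mp hT) hp)
        rw [pf_i, if_pos this.2.2]
      · intro T hT1 hT2
        rw [mem_powerset] at hT1 hT2
        have : ∃ p ∈ T, ¬ (p : ℤ) ∣ y ^ 2 - 2 := by
          by_contra hcon
          push Not at hcon
          refine hT2 fun p hp => ?_
          have h4 := mem_filter.mp (hT1 hp)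
          exact mem_filter.mpr ⟨h4.1, h4.2, hcon p hp⟩
        obtain ⟨p, hp1, hp2⟩ := this
        rw [prod_eq_zero hp1 (by rw [pf_i, if_neg hp2]), mul_zero]
    have e3 : ∑ T ∈ P₃.powerset, ψ T * ∏ p ∈ P₂, (pf_f m n p y * if p ∈ T then pf_i p y else 1) =
        (∏ p ∈ P₂, pf_f m n p y) * ∑ T ∈ P₃.powerset, ψ T * ∏ p ∈ T, pf_i p y := by
      rw [mul_sum]
      refine sum_congr rfl fun T hT => ?_
      rw [prodT T ((mem_powerset.mp hT).trans h32) (fun p => pf_i p y) y]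
      ring
    rw [e1, e3]
    ring
  -- periods
  have hM2 : 1 ≤ ∏ p ∈ P₂, p := Nat.one_le_iff_ne_zero.mpr
    (prod_ne_zero_iff.mpr fun p hp => (pr2 p hp).ne_zero)
  have perF1 : pf_per q₁ F₁ := by
    intro y
    have e1 : ∀ p ∈ P₁, pf_f m n p (y + q₁) = pf_f m n p y := fun p hp =>
      pf_per_dvd (pf_f_per m n p) (mem_filter.mp hp).2 y
    have e2 : (∀ p ∈ PP 2 w, p ∣ q₁ → ¬ (p : ℤ) ∣ (y + (q₁ : ℤ)) ^ 2 - 2) ↔
        ∀ p ∈ PP 2 w, p ∣ q₁ → ¬ (p : ℤ) ∣ y ^ 2 - 2 := by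
      refine forall_congr' fun p => forall_congr' fun _ => forall_congr' fun hpq => ?_
      have h5 : (y + (q₁ : ℤ)) ^ 2 - 2 = (y ^ 2 - 2) + q₁ * (2 * y + q₁) := by ring
      have h6 : (p : ℤ) ∣ (q₁ : ℤ) * (2 * y + q₁) :=
        Dvd.dvd.mul_right (by exact_mod_cast hpq) _
      rw [h5, dvd_add_left h6]
    rw [hF1]
    simp only
    rw [hℓp, prod_congr rfl e1]
    simp only [e2]
  have perT : ∀ G : ℕ → ℤ → ℝ, (∀ p, pf_per p (G p)) →
      pf_per (∏ p ∈ P₂, p) (fun y => ∏ p ∈ P₂, G p y) := by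
    intro G hG y
    exact prod_congr rfl fun p hp => pf_per_dvd (hG p) (dvd_prod_of_mem _ hp) y
  have perG : ∀ T : Finset ℕ, ∀ p, pf_per p (fun y => pf_f m n p y * if p ∈ T then pf_i p y else 1) := by
    intro T p y
    simp only [pf_f_per m n p y, pf_i_per p y]
  have perG' : ∀ T : Finset ℕ, ∀ p,
      pf_per p (fun y => pf_f m n p y * if p ∈ T then 1 - pf_i p y else 1) := by
    intro T p y
    simp only [pf_f_per m n p y, pf_i_per p y]
  have perF2 : pf_per (∏ p ∈ P₂, p) F₂ := by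
    intro y
    rw [hF2]
    simp only
    refine sum_congr rfl fun T _ => ?_
    have := perT (fun p y => pf_f m n p y * if p ∈ T then pf_i p y else 1) (perG T) y
    simp only at this
    rw [this]
  have perF3 : pf_per (∏ p ∈ P₂, p) F₃ :=
    perT (fun p y => pf_f m n p y * if p ∈ P₃ then 1 - pf_i p y else 1) (perG' P₃)
  have cop : q₁.Coprime (∏ p ∈ P₂, p) := by
    refine Nat.Coprime.prod_right fun p hp => ?_
    exact ((Nat.Prime.coprime_iff_not_dvd (pr2 p hp)).mpr (mem_filter.mp hp).2).symm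
  have dv : q₁ * (∏ p ∈ P₂, p) ∣ Q.factorial := by
    refine cop.mul_dvd_of_dvd_of_dvd (Nat.dvd_factorial hq1 hqQ) ?_
    refine Finset.prod_primes_dvd _ (fun p hp => (pr2 p hp).prime) fun p hp => ?_
    have h6 := mem_range.mp (mem_filter.mp (mem_filter.mp hp).1).1
    exact Nat.dvd_factorial (pr2 p hp).pos (by omega)
  have red : ∀ F : ℤ → ℝ, pf_per (∏ p ∈ P₂, p) F → pf_mn Q.factorial (fun y => F₁ y * F y) =
      pf_mn q₁ F₁ * pf_mn (∏ p ∈ P₂, p) F := by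
    intro F hF
    have p1 : pf_per (q₁ * (∏ p ∈ P₂, p)) (fun y => F₁ y * F y) := by
      intro y
      simp only
      rw [pf_per_dvd perF1 (dvd_mul_right _ _) y, pf_per_dvd hF (dvd_mul_left _ _) y]
    rw [← pf_mt2 h1 hq1 hM2 cop perF1 hF]
    exact pf_mt1 h1 (Nat.factorial_pos Q) (Nat.mul_pos hq1 hM2) (pf_per_dvd p1 dv) p1
  -- the local means
  set a : ℕ → ℝ := fun p => pf_mn p (pf_f m n p) with ha
  set g : ℕ → ℝ := fun p => if p ∈ P₃ then (pf_B m n p : ℝ) / pf_A m n p else 0 with hg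
  have hb : ∀ p ∈ P₃, pf_mn p (fun y => pf_f m n p y * pf_i p y) = a p * g p := by
    intro p hp
    have h5 : (0 : ℝ) < pf_A m n p := Nat.cast_pos.mpr (hL3 p (pr3 p hp)).1
    rw [pf_mB, ha, hg]
    simp only
    rw [pf_mA, if_pos hp]
    field_simp
  have meanF2 : pf_mn (∏ p ∈ P₂, p) F₂ =
      (∏ p ∈ P₂, a p) * ∑ T ∈ P₃.powerset, ψ T * ∏ p ∈ T, g p := by
    have e1 : pf_mn (∏ p ∈ P₂, p) F₂ = ∑ T ∈ P₃.powerset, ψ T *
        pf_mn (∏ p ∈ P₂, p) (fun y => ∏ p ∈ P₂, (pf_f m n p y * if p ∈ T then pf_i p y else 1)) := by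
      unfold pf_mn
      rw [hF2]
      simp only
      rw [sum_comm, sum_div]
      refine sum_congr rfl fun T _ => ?_
      rw [← mul_sum, mul_div_assoc]
    rw [e1, mul_sum]
    refine sum_congr rfl fun T hT => ?_
    have hT3 := mem_powerset.mp hT
    have hT2 := hT3.trans h32
    rw [pf_mt3 h1 (f := fun p y => pf_f m n p y * if p ∈ T then pf_i p y else 1) pr2
      (fun p _ => perG T p)]
    have e2 : ∀ p ∈ P₂, pf_mn p (fun y => pf_f m n p y * if p ∈ T then pf_i p y else 1) =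
        a p * if p ∈ T then g p else 1 := by
      intro p hp
      by_cases hpT : p ∈ T
      · simp only [if_pos hpT]
        exact hb p (hT3 hpT)
      · simp only [if_neg hpT, mul_one]
        rfl
    rw [prod_congr rfl e2, prod_mul_distrib, prod_ite_mem, inter_eq_right.mpr hT2]
    ring
  have meanF3 : pf_mn (∏ p ∈ P₂, p) F₃ = (∏ p ∈ P₂, a p) * ∏ p ∈ P₃, (1 - g p) := by
    rw [hF3, pf_mt3 h1 (f := fun p y => pf_f m n p y * if p ∈ P₃ then 1 - pf_i p y else 1) pr2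
      (fun p _ => perG' P₃ p)]
    have e2 : ∀ p ∈ P₂, pf_mn p (fun y => pf_f m n p y * if p ∈ P₃ then 1 - pf_i p y else 1) =
        a p * if p ∈ P₃ then 1 - g p else 1 := by
      intro p hp
      by_cases hpT : p ∈ P₃
      · simp only [if_pos hpT]
        rw [pf_mn_sub, hb p hpT]
        change a p - _ = _
        ring
      · simp only [if_neg hpT, mul_one]
        rfl
    rw [prod_congr rfl e2, prod_mul_distrib, prod_ite_mem, inter_eq_right.mpr h32]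
  have hmain := hψ.main g (by
    intro p hp
    rw [hg]
    simp only
    split_ifs with h5
    · obtain ⟨h6, h7⟩ := hL3 p hp
      exact ⟨by positivity, h7.trans (min_le_left _ _), h7.trans (min_le_right _ _)⟩
    · exact ⟨le_refl _, by norm_num, by positivity⟩)
  have e1 : ∏ p ∈ PP 2 w, (1 - g p) = ∏ p ∈ P₃, (1 - g p) := by
    refine (prod_subset (filter_subset _ _) fun p _ hp => ?_).symm
    rw [hg]
    simp only
    rw [if_neg hp, sub_zero]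
  have e2 : ∑ T ∈ (PP 2 w).powerset, ψ T * ∏ p ∈ T, g p =
      ∑ T ∈ P₃.powerset, ψ T * ∏ p ∈ T, g p := by
    refine (sum_subset (powerset_mono.mpr (filter_subset _ _)) fun T _ hT => ?_).symm
    have : ∃ p ∈ T, p ∉ P₃ := by
      by_contra hcon
      push Not at hcon
      exact hT (mem_powerset.mpr hcon)
    obtain ⟨p, hp1, hp2⟩ := this
    rw [prod_eq_zero hp1 (by rw [hg]; simp only; rw [if_neg hp2]), mul_zero]
  rw [e1, e2] at hmain
  have ha0 : 0 ≤ ∏ p ∈ P₂, a p := prod_nonneg fun p hp =>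
    pf_mn_nonneg fun y => pf_f_nonneg (pr2 p hp) y
  have hF0 : 0 ≤ pf_mn q₁ F₁ := by
    refine pf_mn_nonneg fun y => ?_
    rw [hF1]
    simp only
    refine mul_nonneg (mul_nonneg (hℓ y) (prod_nonneg fun p hp => pf_f_nonneg (pr1 p hp) y)) ?_
    split_ifs
    · exact zero_le_one
    · exact le_refl _
  simp only [idA, idB]
  rw [pf_cast Q.factorial (fun y => F₁ y * F₃ y), pf_cast Q.factorial (fun y => F₁ y * F₂ y),
    Complex.ofReal_re, Complex.ofReal_re, red F₃ perF3, red F₂ perF2, meanF2, meanF3]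
  have h8 := mul_le_mul_of_nonneg_left hmain (mul_nonneg hF0 ha0)
  calc _ = pf_mn q₁ F₁ * (∏ p ∈ P₂, a p) * (3 / 4 * ∏ p ∈ P₃, (1 - g p)) := by ring
    _ ≤ _ := h8
    _ = _ := by ring

end Pool.Agent.MVII
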