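import Mathlib
import Pool.Agent.MVII.St1

set_option autoImplicit false

/-!
# MVII: statement SU (the Fourier transform of the difference is small everywhere)
-/

namespace Pool.Agent.MVII

open Finset Filter
open Pool.Agent.GBQ (ee lam nd Admissible)
open Pool.Agent.MVX (Chr tent Bm Um prm Win GP)
open Pool.Agent.LIN (PP pz)

theorem su_lam_nonneg (n : ℕ) : 0 ≤ lam n := ArithmeticFunction.vonMangoldt_nonneg

theorem su_lam_le (n v : ℕ) (hn : n ≤ v) : lam n ≤ Real.log v := by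
  rcases Nat.eq_zero_or_pos n with rfl | hpos
  · have : lam 0 = 0 := by simp [lam]
    rw [this]
    exact Real.log_natCast_nonneg v
  · refine le_trans (ArithmeticFunction.vonMangoldt_le_log) ?_
    exact Real.log_le_log (by exact_mod_cast hpos) (by exact_mod_cast hn)

theorem su_lamsum (u v : ℕ) : ∑ n ∈ Ioc u v, lam n ≤ v * Real.log v := by
  have h1 : ∑ n ∈ Ioc u v, lam n ≤ ∑ _n ∈ Ioc u v, Real.log v :=
    Finset.sum_le_sum (fun n hn => su_lam_le n v (Finset.mem_Ioc.1 hn).2)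
  rw [Finset.sum_const, Nat.card_Ioc, nsmul_eq_mul] at h1
  refine h1.trans ?_
  refine mul_le_mul_of_nonneg_right ?_ (Real.log_natCast_nonneg v)
  exact_mod_cast Nat.sub_le v u

theorem su_ee (x : ℝ) : ‖ee x‖ = 1 := by
  unfold ee
  rw [Complex.norm_exp_ofReal_mul_I]

theorem su_Fnorm (u v : ℕ) (α : ℝ) :
    ‖∑ n ∈ Ioc u v, ((lam n : ℝ) : ℂ) * ee (α * n)‖ ≤ v * Real.log v := by
  refine (norm_sum_le _ _).trans (le_trans (Finset.sum_le_sum (fun n _ => ?_)) (su_lamsum u v))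
  rw [norm_mul, su_ee, mul_one, Complex.norm_real, Real.norm_of_nonneg (su_lam_nonneg n)]

theorem su_Fsum (u v h : ℕ) (hh : 1 ≤ h) (α : ℝ) :
    ∑ x ∈ range (v + h), ((if u < x ∧ x ≤ v then lam x else 0 : ℝ) : ℂ) * ee (α * x) =
      ∑ n ∈ Ioc u v, ((lam n : ℝ) : ℂ) * ee (α * n) := by
  have hf : (range (v + h)).filter (fun x => u < x ∧ x ≤ v) = Ioc u v := by
    ext x
    simp only [Finset.mem_filter, Finset.mem_range, Finset.mem_Ioc]
    constructor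
    · rintro ⟨_, h2⟩
      exact h2
    · intro h2
      exact ⟨by omega, h2⟩
  rw [← hf, Finset.sum_filter]
  refine Finset.sum_congr rfl (fun x _ => ?_)
  by_cases hc : u < x ∧ x ≤ v
  · rw [if_pos hc, if_pos hc]
  · rw [if_neg hc, if_neg hc]
    simp

theorem su_cardA (u h N : ℕ) (_hh : 1 ≤ h) (hu : h ≤ u) :
    (((range N).filter (fun x => u < x + h ∧ x < u + h)).card : ℝ) ≤ 2 * h := by
  have h1 : ((range N).filter (fun x => u < x + h ∧ x < u + h)) ⊆ Ico (u + 1 - h) (u + h) := by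
    intro x hx
    simp only [Finset.mem_filter, Finset.mem_range] at hx
    rw [Finset.mem_Ico]
    omega
  have h2 := Finset.card_le_card h1
  rw [Nat.card_Ico] at h2
  have h3 : ((range N).filter (fun x => u < x + h ∧ x < u + h)).card ≤ 2 * h := by omega
  exact_mod_cast h3

theorem su_NBle (h1 : St_Bl) (h T u v x : ℕ) (hh : 1 ≤ h) (hv : 1 ≤ v) :
    NB (BI h u v x) T ≤ (T : ℝ) ^ 2 * Real.log v := by
  obtain ⟨b1, _, _, _, b5⟩ := h1
  have hL : 0 ≤ Real.log (v : ℝ) := Real.log_natCast_nonneg v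
  unfold NB
  have e1 : ∀ r ∈ Icc 1 T, ∑ χ ∈ prm r, ‖BI h u v x ⟨r, χ⟩‖ ≤ (T : ℝ) * Real.log v := by
    intro r hr
    rw [Finset.mem_Icc] at hr
    have e2 : ∑ χ ∈ prm r, ‖BI h u v x ⟨r, χ⟩‖ ≤ ∑ _χ ∈ prm r, Real.log v :=
      Finset.sum_le_sum (fun χ _ => b1 h u v x ⟨r, χ⟩ hh hv)
    rw [Finset.sum_const, nsmul_eq_mul] at e2
    refine e2.trans (mul_le_mul_of_nonneg_right ?_ hL)
    exact_mod_cast (b5 r hr.1).trans hr.2
  refine (Finset.sum_le_sum e1).trans ?_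
  rw [Finset.sum_const, Nat.card_Icc, nsmul_eq_mul, Nat.add_sub_cancel]
  apply le_of_eq
  ring

theorem su_NBsum (h1 : St_Bl) (h T u v X : ℕ) (hh : 1 ≤ h) (hu : h ≤ u) (huv : u ≤ v)
    (hvX : v ≤ X) (hS : ∀ x : ℕ, h ≤ x → x ≤ X → NB (Bc h x) T ≤ 4) :
    ∑ x ∈ range (v + h), NB (BI h u v x) T ≤
      4 * ((v : ℝ) + h) + 4 * h * ((T : ℝ) ^ 2 * Real.log v) := by
  have hL : 0 ≤ Real.log (v : ℝ) := Real.log_natCast_nonneg v
  have hTL : 0 ≤ (T : ℝ) ^ 2 * Real.log v := by positivity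
  have hb := su_NBle h1
  obtain ⟨b1, b2, b3, b4, b5⟩ := h1
  have key : ∀ x ∈ range (v + h), NB (BI h u v x) T ≤ 4 +
      (if u < x + h ∧ x < u + h then (T : ℝ) ^ 2 * Real.log v else 0) +
      (if v < x + h ∧ x < v + h then (T : ℝ) ^ 2 * Real.log v else 0) := by
    intro x _
    have hbx := hb h T u v x hh (by omega)
    by_cases c1 : u < x + h ∧ x < u + h
    · rw [if_pos c1]
      split_ifs
      · linarith
      · linarith
    · by_cases c2 : v < x + h ∧ x < v + h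
      · rw [if_pos c2]
        split_ifs <;> linarith
      · rw [if_neg c1, if_neg c2]
        by_cases c3 : x + h ≤ u ∨ v + h ≤ x
        · have : NB (BI h u v x) T = 0 := by
            unfold NB
            refine Finset.sum_eq_zero (fun r _ => Finset.sum_eq_zero (fun χ _ => ?_))
            rw [b3 h u v x ⟨r, χ⟩ c3, norm_zero]
          rw [this]
          norm_num
        · have d1 : u + h ≤ x := by omega
          have d2 : x + h ≤ v + 1 := by omega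
          have : NB (BI h u v x) T = NB (Bc h x) T := by
            unfold NB
            refine Finset.sum_congr rfl (fun r _ => Finset.sum_congr rfl (fun χ _ => ?_))
            rw [b2 h u v x ⟨r, χ⟩ hh d1 d2]
          rw [this]
          have := hS x (by omega) (by omega)
          linarith
  refine (Finset.sum_le_sum key).trans ?_
  rw [Finset.sum_add_distrib, Finset.sum_add_distrib, Finset.sum_const, Finset.card_range,
    ← Finset.sum_filter, ← Finset.sum_filter, Finset.sum_const, Finset.sum_const,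
    nsmul_eq_mul, nsmul_eq_mul, nsmul_eq_mul]
  have c1 := su_cardA u h (v + h) hh hu
  have c2 := su_cardA v h (v + h) hh (hu.trans huv)
  have m1 := mul_le_mul_of_nonneg_right c1 hTL
  have m2 := mul_le_mul_of_nonneg_right c2 hTL
  push_cast
  linarith

/-- powers: `X ^ a ≤ X ^ b` -/
theorem su_pw {X a b : ℝ} (hX : 1 ≤ X) (hab : a ≤ b) : X ^ a ≤ X ^ b :=
  Real.rpow_le_rpow_of_exponent_le hX hab

/-- the three error terms of MF -/
theorem su_err {X δ ε L T Q h v S N P : ℝ} (hX : 1 ≤ X) (hδ : 0 < δ) (hδ' : δ ≤ 1 / 310)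
    (hε : ε = δ / 1000) (hL0 : 0 ≤ L) (hL : L ≤ X ^ ε) (hT0 : 0 ≤ T) (hT : T ≤ X ^ δ)
    (hQ0 : 0 ≤ Q) (hQ : Q ≤ X ^ (30 * δ)) (hh1 : X ^ (1 - 10 * δ) ≤ h)
    (hh2 : h ≤ 2 * X ^ (1 - 10 * δ)) (hvh : v + h ≤ 2 * X) (hvX : v ≤ X)
    (hS : S ≤ v * L) (hN : N ≤ 4 * (v + h) + 4 * h * (T ^ 2 * L))
    (hP : P = X ^ (1 - δ / 2 + ε)) :
    2 * T ^ 6 * L + Q ^ 9 / h ^ 2 * S + Real.sqrt T * X ^ (ε - δ) * N ≤ 19 * P := by
  have hX0 : 0 < X := by linarith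
  have hε0 : 0 < ε := by rw [hε]; positivity
  have hh0 : 0 < h := lt_of_lt_of_le (Real.rpow_pos_of_pos hX0 _) hh1
  -- first
  have a1 : T ^ 6 ≤ X ^ (6 * δ) := by
    have : T ^ 6 ≤ (X ^ δ) ^ 6 := pow_le_pow_left₀ hT0 hT 6
    refine this.trans (le_of_eq ?_)
    rw [← Real.rpow_natCast, ← Real.rpow_mul hX0.le]
    congr 1
    push_cast
    ring
  have a2 : T ^ 6 * L ≤ P := by
    have : T ^ 6 * L ≤ X ^ (6 * δ) * X ^ ε :=
      mul_le_mul a1 hL hL0 (Real.rpow_nonneg hX0.le _)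
    refine this.trans ?_
    rw [← Real.rpow_add hX0, hP]
    exact su_pw hX (by linarith)
  -- second
  have b1 : Q ^ 9 ≤ X ^ (270 * δ) := by
    have : Q ^ 9 ≤ (X ^ (30 * δ)) ^ 9 := pow_le_pow_left₀ hQ0 hQ 9
    refine this.trans (le_of_eq ?_)
    rw [← Real.rpow_natCast, ← Real.rpow_mul hX0.le]
    congr 1
    push_cast
    ring
  have b2 : X ^ (2 - 20 * δ) ≤ h ^ 2 := by
    have : (X ^ (1 - 10 * δ)) ^ 2 ≤ h ^ 2 :=
      pow_le_pow_left₀ (Real.rpow_nonneg hX0.le _) hh1 2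
    refine le_trans (le_of_eq ?_) this
    rw [← Real.rpow_natCast, ← Real.rpow_mul hX0.le]
    congr 1
    push_cast
    ring
  have b3 : Q ^ 9 / h ^ 2 ≤ X ^ (290 * δ - 2) := by
    have e1 : Q ^ 9 / h ^ 2 ≤ X ^ (270 * δ) / X ^ (2 - 20 * δ) :=
      div_le_div₀ (Real.rpow_nonneg hX0.le _) b1 (Real.rpow_pos_of_pos hX0 _) b2
    refine e1.trans (le_of_eq ?_)
    rw [← Real.rpow_sub hX0]
    congr 1
    ring
  have b4 : Q ^ 9 / h ^ 2 * S ≤ P := by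
    have q0 : 0 ≤ Q ^ 9 / h ^ 2 := by positivity
    have e1 : S ≤ X ^ (1 + ε) := by
      refine hS.trans ?_
      rw [Real.rpow_add hX0, Real.rpow_one]
      exact mul_le_mul hvX hL hL0 hX0.le
    have e2 : Q ^ 9 / h ^ 2 * S ≤ X ^ (290 * δ - 2) * X ^ (1 + ε) :=
      (mul_le_mul_of_nonneg_left e1 q0).trans
        (mul_le_mul_of_nonneg_right b3 (Real.rpow_nonneg hX0.le _))
    refine e2.trans ?_
    rw [← Real.rpow_add hX0, hP]
    exact su_pw hX (by linarith)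
  -- third
  have c1 : T ^ 2 ≤ X ^ (2 * δ) := by
    have : T ^ 2 ≤ (X ^ δ) ^ 2 := pow_le_pow_left₀ hT0 hT 2
    refine this.trans (le_of_eq ?_)
    rw [← Real.rpow_natCast, ← Real.rpow_mul hX0.le]
    congr 1
    push_cast
    ring
  have c2 : h * (T ^ 2 * L) ≤ 2 * X := by
    have e1 : T ^ 2 * L ≤ X ^ (2 * δ) * X ^ ε :=
      mul_le_mul c1 hL hL0 (Real.rpow_nonneg hX0.le _)
    have e2 : h * (T ^ 2 * L) ≤ (2 * X ^ (1 - 10 * δ)) * (X ^ (2 * δ) * X ^ ε) :=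
      mul_le_mul hh2 e1 (by positivity) (by positivity)
    refine e2.trans ?_
    have e3 : (2 * X ^ (1 - 10 * δ)) * (X ^ (2 * δ) * X ^ ε) =
        2 * X ^ (1 - 10 * δ + (2 * δ + ε)) := by
      rw [Real.rpow_add hX0 (1 - 10 * δ), Real.rpow_add hX0 (2 * δ)]
      ring
    rw [e3]
    have e4 : X ^ (1 - 10 * δ + (2 * δ + ε)) ≤ X ^ (1 : ℝ) := su_pw hX (by linarith)
    rw [Real.rpow_one] at e4
    linarith
  have c3 : N ≤ 16 * X := by
    nlinarith [hN, hvh, c2]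
  have c4 : Real.sqrt T ≤ X ^ (δ / 2) := by
    refine (Real.sqrt_le_sqrt hT).trans (le_of_eq ?_)
    rw [Real.sqrt_eq_rpow, ← Real.rpow_mul hX0.le]
    congr 1
    ring
  have c5 : Real.sqrt T * X ^ (ε - δ) * N ≤ 16 * P := by
    have e1 : Real.sqrt T * X ^ (ε - δ) ≤ X ^ (δ / 2) * X ^ (ε - δ) :=
      mul_le_mul_of_nonneg_right c4 (Real.rpow_nonneg hX0.le _)
    have e0 : 0 ≤ Real.sqrt T * X ^ (ε - δ) := by positivity
    have e2 : Real.sqrt T * X ^ (ε - δ) * N ≤ (X ^ (δ / 2) * X ^ (ε - δ)) * (16 * X) :=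
      (mul_le_mul_of_nonneg_left c3 e0).trans
        (mul_le_mul_of_nonneg_right e1 (by positivity))
    refine e2.trans (le_of_eq ?_)
    rw [hP]
    have e3 : X ^ (1 - δ / 2 + ε) = X ^ (δ / 2) * X ^ (ε - δ) * X := by
      rw [← Real.rpow_add hX0]
      nth_rw 3 [← Real.rpow_one X]
      rw [← Real.rpow_add hX0]
      congr 1
      ring
    rw [e3]
    ring
  have hP0 : 0 ≤ P := by rw [hP]; exact Real.rpow_nonneg hX0.le _
  have : 2 * T ^ 6 * L = 2 * (T ^ 6 * L) := by ring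
  linarith

/-- the case `q ≤ T` -/
theorem su_maj {X δ ε L T h v K F ρ P : ℝ} (hX : 1 ≤ X) (hδ : 0 < δ) (hδ' : δ ≤ 1 / 310)
    (hε : ε = δ / 1000) (hL0 : 0 ≤ L) (hL : L ≤ X ^ ε) (hT0 : 0 ≤ T) (hT : T ≤ X ^ δ)
    (hh1 : X ^ (1 - 10 * δ) ≤ h)
    (hh2 : h ≤ 2 * X ^ (1 - 10 * δ)) (hvX : v ≤ X) (hK1 : K ≤ 1 + T ^ 6 / h ^ 2)
    (hρ0 : 0 ≤ ρ) (hρ : ρ ≤ X ^ (δ - 1)) (hK2 : 1 - 2 * Real.pi * (h * ρ) ≤ K)
    (hF0 : 0 ≤ F) (hF : F ≤ v * L) (hP : P = X ^ (1 - δ / 2 + ε)) :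
    |1 - K| * F ≤ 13 * P := by
  have hX0 : 0 < X := by linarith
  have hε0 : 0 < ε := by rw [hε]; positivity
  have hh0 : 0 < h := lt_of_lt_of_le (Real.rpow_pos_of_pos hX0 _) hh1
  have a1 : T ^ 6 ≤ X ^ (6 * δ) := by
    have : T ^ 6 ≤ (X ^ δ) ^ 6 := pow_le_pow_left₀ hT0 hT 6
    refine this.trans (le_of_eq ?_)
    rw [← Real.rpow_natCast, ← Real.rpow_mul hX0.le]
    congr 1
    push_cast
    ring
  have b2 : X ^ (2 - 20 * δ) ≤ h ^ 2 := by
    have : (X ^ (1 - 10 * δ)) ^ 2 ≤ h ^ 2 :=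
      pow_le_pow_left₀ (Real.rpow_nonneg hX0.le _) hh1 2
    refine le_trans (le_of_eq ?_) this
    rw [← Real.rpow_natCast, ← Real.rpow_mul hX0.le]
    congr 1
    push_cast
    ring
  have a2 : T ^ 6 / h ^ 2 ≤ X ^ (-(9 * δ)) := by
    have e1 : T ^ 6 / h ^ 2 ≤ X ^ (6 * δ) / X ^ (2 - 20 * δ) :=
      div_le_div₀ (Real.rpow_nonneg hX0.le _) a1 (Real.rpow_pos_of_pos hX0 _) b2
    refine e1.trans ?_
    rw [← Real.rpow_sub hX0]
    exact su_pw hX (by linarith)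
  have a3 : h * ρ ≤ 2 * X ^ (-(9 * δ)) := by
    have e1 : h * ρ ≤ (2 * X ^ (1 - 10 * δ)) * X ^ (δ - 1) :=
      mul_le_mul hh2 hρ hρ0 (by positivity)
    refine e1.trans (le_of_eq ?_)
    rw [mul_assoc, ← Real.rpow_add hX0]
    congr 2
    ring
  have hpi : Real.pi < 3.15 := Real.pi_lt_d2
  have hY0 : 0 ≤ X ^ (-(9 * δ)) := Real.rpow_nonneg hX0.le _
  have hhρ : 0 ≤ h * ρ := by positivity
  have a4 : 2 * Real.pi * (h * ρ) ≤ 13 * X ^ (-(9 * δ)) := by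
    have e1 : 2 * Real.pi * (h * ρ) ≤ 2 * Real.pi * (2 * X ^ (-(9 * δ))) :=
      mul_le_mul_of_nonneg_left a3 (by positivity)
    have e2 : Real.pi * X ^ (-(9 * δ)) ≤ 3.15 * X ^ (-(9 * δ)) :=
      mul_le_mul_of_nonneg_right hpi.le hY0
    linarith
  have a5 : |1 - K| ≤ 13 * X ^ (-(9 * δ)) := by
    rw [abs_le]
    constructor <;> linarith
  have e1 : F ≤ X * X ^ ε := hF.trans (mul_le_mul hvX hL hL0 hX0.le)
  have e2 : |1 - K| * F ≤ (13 * X ^ (-(9 * δ))) * (X * X ^ ε) :=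
    mul_le_mul a5 e1 hF0 (by positivity)
  refine e2.trans ?_
  have e3 : (13 * X ^ (-(9 * δ))) * (X * X ^ ε) = 13 * X ^ (-(9 * δ) + (1 + ε)) := by
    rw [Real.rpow_add hX0 (-(9 * δ)), Real.rpow_add hX0 1, Real.rpow_one]
    ring
  rw [e3, hP]
  have e4 : X ^ (-(9 * δ) + (1 + ε)) ≤ X ^ (1 - δ / 2 + ε) := su_pw hX (by linarith)
  linarith

/-- Vinogradov for one of the two limits -/
theorem su_min {X δ ε LC q N C F P : ℝ} (hX : 1 ≤ X) (hδ : 0 < δ) (hδ' : δ ≤ 1 / 310)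
    (hN0 : 0 ≤ N) (hNX : N ≤ X) (hC : 0 ≤ C) (hL0 : 0 ≤ LC) (hL : LC ≤ X ^ ε)
    (hq1 : X ^ δ ≤ q) (hq2 : q ≤ X ^ (1 - δ))
    (hF : F ≤ C * (N / Real.sqrt q + N ^ (5 / 6 : ℝ) + Real.sqrt (N * q)) * LC)
    (hP : P = X ^ (1 - δ / 2 + ε)) : F ≤ 3 * C * P := by
  have hX0 : 0 < X := by linarith
  have hq0 : 0 < q := lt_of_lt_of_le (Real.rpow_pos_of_pos hX0 _) hq1
  have c4 : X ^ (δ / 2) ≤ Real.sqrt q := by
    refine le_trans (le_of_eq ?_) (Real.sqrt_le_sqrt hq1)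
    rw [Real.sqrt_eq_rpow, ← Real.rpow_mul hX0.le]
    congr 1
    ring
  have e1 : N / Real.sqrt q ≤ X ^ (1 - δ / 2) := by
    have : N / Real.sqrt q ≤ X / X ^ (δ / 2) :=
      div_le_div₀ hX0.le hNX (Real.rpow_pos_of_pos hX0 _) c4
    refine this.trans (le_of_eq ?_)
    rw [Real.rpow_sub hX0, Real.rpow_one]
  have e2 : N ^ (5 / 6 : ℝ) ≤ X ^ (1 - δ / 2) :=
    (Real.rpow_le_rpow hN0 hNX (by norm_num)).trans (su_pw hX (by linarith))
  have e3 : Real.sqrt (N * q) ≤ X ^ (1 - δ / 2) := by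
    have : N * q ≤ X * X ^ (1 - δ) := mul_le_mul hNX hq2 hq0.le hX0.le
    refine (Real.sqrt_le_sqrt this).trans (le_of_eq ?_)
    have e4 : X * X ^ (1 - δ) = X ^ (2 - δ) := by
      nth_rw 1 [← Real.rpow_one X]
      rw [← Real.rpow_add hX0]
      congr 1
      ring
    rw [e4, Real.sqrt_eq_rpow, ← Real.rpow_mul hX0.le]
    congr 1
    ring
  have hM : N / Real.sqrt q + N ^ (5 / 6 : ℝ) + Real.sqrt (N * q) ≤ 3 * X ^ (1 - δ / 2) := by
    linarith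
  have h3 : C * (N / Real.sqrt q + N ^ (5 / 6 : ℝ) + Real.sqrt (N * q)) * LC ≤
      C * (3 * X ^ (1 - δ / 2)) * X ^ ε := by
    have m1 : C * (N / Real.sqrt q + N ^ (5 / 6 : ℝ) + Real.sqrt (N * q)) ≤
        C * (3 * X ^ (1 - δ / 2)) := mul_le_mul_of_nonneg_left hM hC
    exact mul_le_mul m1 hL hL0 (by positivity)
  refine hF.trans (h3.trans (le_of_eq ?_))
  rw [hP, Real.rpow_add hX0]
  ring

theorem su_vin (C : ℕ) (hC : ∀ (N : ℕ) (α : ℝ) (a : ℤ) (q : ℕ), 3 ≤ N → 1 ≤ q →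
    Int.gcd a q = 1 → |α - a / q| ≤ 1 / (q : ℝ) ^ 2 →
    ‖∑ n ∈ range (N + 1), ((lam n : ℝ) : ℂ) * ee (α * n)‖ ≤
      C * (N / Real.sqrt q + (N : ℝ) ^ (5 / 6 : ℝ) + Real.sqrt (N * q)) * Real.log N ^ C)
    (X u v : ℕ) (δ ε : ℝ) (hX : (1 : ℝ) ≤ X) (hδ : 0 < δ) (hδ' : δ ≤ 1 / 310)
    (hu : 3 ≤ u) (huv : u ≤ v) (hvX : v ≤ X) (hL : Real.log X ^ C ≤ (X : ℝ) ^ ε)
    (q : ℕ) (a : ℤ) (α : ℝ) (hq1 : 1 ≤ q) (hg : Int.gcd a q = 1)
    (hα : |α - a / q| ≤ 1 / (q : ℝ) ^ 2) (hqa : (X : ℝ) ^ δ ≤ q)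
    (hqb : (q : ℝ) ≤ (X : ℝ) ^ (1 - δ)) :
    ‖∑ n ∈ Ioc u v, ((lam n : ℝ) : ℂ) * ee (α * n)‖ ≤ 6 * C * (X : ℝ) ^ (1 - δ / 2 + ε) := by
  have hone : ∀ N : ℕ, 3 ≤ N → N ≤ X →
      ‖∑ n ∈ range (N + 1), ((lam n : ℝ) : ℂ) * ee (α * n)‖ ≤
        3 * C * (X : ℝ) ^ (1 - δ / 2 + ε) := by
    intro N h3 hNX
    have h1 := hC N α a q h3 hq1 hg hα
    have hN1 : (1 : ℝ) ≤ N := by exact_mod_cast (by omega : 1 ≤ N)
    have hlog : Real.log (N : ℝ) ^ C ≤ (X : ℝ) ^ ε := by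
      refine le_trans ?_ hL
      exact pow_le_pow_left₀ (Real.log_nonneg hN1)
        (Real.log_le_log (by linarith) (by exact_mod_cast hNX)) C
    exact su_min hX hδ hδ' (by linarith) (by exact_mod_cast hNX) (Nat.cast_nonneg C)
      (pow_nonneg (Real.log_nonneg hN1) C) hlog hqa hqb h1 rfl
  have hd : ∑ n ∈ Ioc u v, ((lam n : ℝ) : ℂ) * ee (α * n) =
      ∑ n ∈ range (v + 1), ((lam n : ℝ) : ℂ) * ee (α * n) -
        ∑ n ∈ range (u + 1), ((lam n : ℝ) : ℂ) * ee (α * n) := by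
    have h1 : Ioc u v = range (v + 1) \ range (u + 1) := by
      ext x
      simp only [Finset.mem_Ioc, Finset.mem_sdiff, Finset.mem_range]
      omega
    rw [h1, Finset.sum_sdiff_eq_sub]
    intro x hx
    rw [Finset.mem_range] at hx ⊢
    omega
  rw [hd]
  refine (norm_sub_le _ _).trans ?_
  have := hone v (by omega) hvX
  have := hone u hu (by omega)
  linarith

/-- SU -/
theorem thm_Su (h0 : Pool.Agent.GBQ.St_Vin) (h1 : St_Kt) (h2 : St_Mf) (h3 : St_Bl)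
    (h4 : St_Ep) : St_Su := by
  obtain ⟨C, hC⟩ := h0
  intro δ hδ hδ'
  have hε0 : (0 : ℝ) < δ / 1000 := by positivity
  have ev1 := h4 (δ / 1000) hε0 (C + 1)
  have ev2 : ∀ᶠ X : ℕ in atTop, (32 + 6 * (C : ℝ)) ≤ (X : ℝ) ^ (9 / 1000 * δ) :=
    (tendsto_natCast_atTop_atTop (R := ℝ)).eventually
      ((tendsto_rpow_atTop (by positivity : (0 : ℝ) < 9 / 1000 * δ)).eventually_ge_atTop _)
  have ev3 : ∀ᶠ X : ℕ in atTop, (3 : ℝ) ≤ (X : ℝ) ^ (1 - 10 * δ) :=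
    (tendsto_natCast_atTop_atTop (R := ℝ)).eventually
      ((tendsto_rpow_atTop (by linarith : (0 : ℝ) < 1 - 10 * δ)).eventually_ge_atTop _)
  filter_upwards [ev1, ev2, ev3, Filter.eventually_ge_atTop 3] with X hE hbig h10 hX3 hS
  intro u v hu huv hvX α
  obtain ⟨_, hE2, hE3, _, _⟩ := hE
  set ε : ℝ := δ / 1000 with hε
  set T := TT δ X with hTdef
  set Q := QQ δ X with hQdef
  set h := HH δ X with hhdef
  have hX3' : (3 : ℝ) ≤ X := by exact_mod_cast hX3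
  have hX1 : (1 : ℝ) ≤ X := by linarith
  have hX0 : (0 : ℝ) < X := by linarith
  -- logs
  have hlogX : 0 ≤ Real.log (X : ℝ) := Real.log_nonneg hX1
  have hlog2 : Real.log (X : ℝ) ≤ 1 + Real.log (2 * X) := by
    have : Real.log (X : ℝ) ≤ Real.log (2 * X) := Real.log_le_log hX0 (by linarith)
    linarith
  have hlog1 : 1 ≤ 1 + Real.log (2 * (X : ℝ)) := by
    have : 0 ≤ Real.log (2 * (X : ℝ)) := Real.log_nonneg (by linarith)
    linarith
  have hLC1 : Real.log (X : ℝ) ≤ (X : ℝ) ^ ε := by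
    refine (hlog2.trans ?_).trans hE2
    exact le_self_pow₀ hlog1 (Nat.succ_ne_zero C)
  have hLC2 : Real.log (X : ℝ) ^ C ≤ (X : ℝ) ^ ε := by
    refine le_trans ?_ hE2
    exact (pow_le_pow_left₀ hlogX hlog2 C).trans (pow_le_pow_right₀ hlog1 (Nat.le_succ C))
  -- parameters
  have hT : (T : ℝ) ≤ (X : ℝ) ^ δ := Nat.floor_le (Real.rpow_nonneg hX0.le _)
  have hT' : (X : ℝ) ^ δ < (T : ℝ) + 1 := Nat.lt_floor_add_one _
  have hT1 : 1 ≤ T := by
    rw [hTdef, TT, Nat.one_le_floor_iff]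
    exact Real.one_le_rpow hX1 hδ.le
  have hQ : (Q : ℝ) ≤ (X : ℝ) ^ (30 * δ) := Nat.floor_le (Real.rpow_nonneg hX0.le _)
  have hTQ : T ≤ Q := Nat.floor_mono (su_pw hX1 (by linarith))
  have hQX : Q ≤ X := by
    have : (Q : ℝ) ≤ (X : ℝ) ^ (1 : ℝ) := hQ.trans (su_pw hX1 (by linarith))
    rw [Real.rpow_one] at this
    exact_mod_cast this
  have hh1 : (X : ℝ) ^ (1 - 10 * δ) ≤ (h : ℝ) := Nat.le_ceil _
  have hh2 : (h : ℝ) ≤ 2 * (X : ℝ) ^ (1 - 10 * δ) := by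
    have : (h : ℝ) < (X : ℝ) ^ (1 - 10 * δ) + 1 :=
      Nat.ceil_lt_add_one (Real.rpow_nonneg hX0.le _)
    linarith
  have hh3 : 3 ≤ h := by
    have : (3 : ℝ) ≤ h := h10.trans hh1
    exact_mod_cast this
  have hvX' : (v : ℝ) ≤ X := by exact_mod_cast hvX
  have hvh : (v : ℝ) + h ≤ 2 * X := by
    have : (h : ℝ) ≤ X := by exact_mod_cast (hu.trans (huv.trans hvX))
    linarith
  have hlogv0 : 0 ≤ Real.log (v : ℝ) := Real.log_natCast_nonneg v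
  have hlogv : Real.log (v : ℝ) ≤ (X : ℝ) ^ ε := by
    refine le_trans ?_ hLC1
    exact Real.log_le_log (by exact_mod_cast (by omega : 0 < v)) hvX'
  -- the model
  have hη : ∀ q : ℕ, T < q → q ≤ Q → 1 / (q.totient : ℝ) ≤ (X : ℝ) ^ (ε - δ) := by
    intro q hq1 hq2
    have e1 := (hE3 q (by omega) (hq2.trans hQX)).1
    have hφ : (0 : ℝ) < q.totient := by
      exact_mod_cast Nat.totient_pos.2 (by omega : 0 < q)
    have hq3 : (X : ℝ) ^ δ ≤ q := by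
      have : ((T + 1 : ℕ) : ℝ) ≤ q := by exact_mod_cast hq1
      push_cast at this
      linarith
    have e2 : (X : ℝ) ^ δ ≤ q.totient * (X : ℝ) ^ ε := hq3.trans e1
    rw [Real.rpow_sub hX0, div_le_div_iff₀ hφ (Real.rpow_pos_of_pos hX0 _)]
    linarith
  have hMf := h2 T Q h u v α ((X : ℝ) ^ (ε - δ)) (by omega) hu huv hT1 hTQ
    (Real.rpow_nonneg hX0.le _) hη
  have hNB := su_NBsum h3 h T u v X (by omega) hu huv hvX hS
  have herr := su_err (P := (X : ℝ) ^ (1 - δ / 2 + ε)) hX1 hδ hδ' hε hlogv0 hlogv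
    (Nat.cast_nonneg T) hT (Nat.cast_nonneg Q) hQ hh1 hh2 hvh hvX' (su_lamsum u v) hNB rfl
  -- Dirichlet
  have hN0 : 0 < ⌊(X : ℝ) ^ (1 - δ)⌋₊ := by
    rw [Nat.floor_pos]
    exact Real.one_le_rpow hX1 (by linarith)
  obtain ⟨r, hr1, hr2⟩ := Real.exists_rat_abs_sub_le_and_den_le α hN0
  have hden : 0 < r.den := r.den_pos
  have hden' : (0 : ℝ) < r.den := by exact_mod_cast hden
  have hden1 : (1 : ℝ) ≤ r.den := by exact_mod_cast hden
  have hrc : (r : ℝ) = (r.num : ℝ) / (r.den : ℝ) := Rat.cast_def r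
  rw [hrc] at hr1
  have hNN : (X : ℝ) ^ (1 - δ) ≤ (⌊(X : ℝ) ^ (1 - δ)⌋₊ : ℝ) + 1 := (Nat.lt_floor_add_one _).le
  have hden2 : (r.den : ℝ) ≤ (X : ℝ) ^ (1 - δ) := by
    have : (r.den : ℝ) ≤ (⌊(X : ℝ) ^ (1 - δ)⌋₊ : ℝ) := by exact_mod_cast hr2
    exact this.trans (Nat.floor_le (Real.rpow_nonneg hX0.le _))
  have hgcd : Int.gcd r.num (r.den : ℤ) = 1 := by
    have := r.reduced
    rw [Int.gcd, Int.natAbs_natCast]
    exact this
  have hcop : IsCoprime r.num (r.den : ℤ) := Int.isCoprime_iff_gcd_eq_one.2 hgcd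
  obtain ⟨k1, k2, k3⟩ := h1 T h α hT1 (by omega)
  have hmain : |1 - KT T h α| * ‖∑ n ∈ Ioc u v, ((lam n : ℝ) : ℂ) * ee (α * n)‖ ≤
      (13 + 6 * (C : ℝ)) * (X : ℝ) ^ (1 - δ / 2 + ε) := by
    have hP0 : 0 ≤ (X : ℝ) ^ (1 - δ / 2 + ε) := Real.rpow_nonneg hX0.le _
    by_cases hq : r.den ≤ T
    · have hρ : 1 / (((⌊(X : ℝ) ^ (1 - δ)⌋₊ : ℝ) + 1) * r.den) ≤ (X : ℝ) ^ (δ - 1) := by
        have e1 : (X : ℝ) ^ (1 - δ) ≤ ((⌊(X : ℝ) ^ (1 - δ)⌋₊ : ℝ) + 1) * r.den :=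
          hNN.trans (le_mul_of_one_le_right (by positivity) hden1)
        have e2 : (X : ℝ) ^ (δ - 1) = 1 / (X : ℝ) ^ (1 - δ) := by
          rw [one_div, ← Real.rpow_neg hX0.le]
          congr 1
          ring
        rw [e2]
        exact one_div_le_one_div_of_le (Real.rpow_pos_of_pos hX0 _) e1
      have := su_maj (P := (X : ℝ) ^ (1 - δ / 2 + ε)) hX1 hδ hδ' hε hlogv0 hlogv
        (Nat.cast_nonneg T) hT hh1 hh2 hvX' k2 (by positivity) hρ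
        (k3 r.den r.num _ hden hq hcop hr1) (norm_nonneg _) (su_Fnorm u v α) rfl
      have hCC : 0 ≤ 6 * (C : ℝ) * (X : ℝ) ^ (1 - δ / 2 + ε) := by positivity
      linarith
    · push Not at hq
      have hα2 : |α - r.num / r.den| ≤ 1 / (r.den : ℝ) ^ 2 := by
        refine hr1.trans (one_div_le_one_div_of_le (by positivity) ?_)
        rw [sq]
        refine mul_le_mul_of_nonneg_right ?_ hden'.le
        have : (r.den : ℝ) ≤ (⌊(X : ℝ) ^ (1 - δ)⌋₊ : ℝ) := by exact_mod_cast hr2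
        linarith
      have hqa : (X : ℝ) ^ δ ≤ r.den := by
        have : ((T + 1 : ℕ) : ℝ) ≤ r.den := by exact_mod_cast hq
        push_cast at this
        linarith
      have hV := su_vin C hC X u v δ ε hX1 hδ hδ' (by omega) huv hvX hLC2 r.den r.num α hden
        hgcd hα2 hqa hden2
      have hK : |1 - KT T h α| ≤ 1 := by
        have e0 : (T : ℝ) ^ 6 / (h : ℝ) ^ 2 ≤ 1 := by
          rw [div_le_one (by positivity)]
          have a1 : (T : ℝ) ^ 6 ≤ ((X : ℝ) ^ δ) ^ 6 := pow_le_pow_left₀ (Nat.cast_nonneg T) hT 6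
          have b2 : ((X : ℝ) ^ (1 - 10 * δ)) ^ 2 ≤ (h : ℝ) ^ 2 :=
            pow_le_pow_left₀ (Real.rpow_nonneg hX0.le _) hh1 2
          refine a1.trans (le_trans ?_ b2)
          rw [← Real.rpow_natCast, ← Real.rpow_natCast, ← Real.rpow_mul hX0.le,
            ← Real.rpow_mul hX0.le]
          apply su_pw hX1
          push_cast
          linarith
        rw [abs_le]
        constructor <;> linarith
      have e1 : |1 - KT T h α| * ‖∑ n ∈ Ioc u v, ((lam n : ℝ) : ℂ) * ee (α * n)‖ ≤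
          1 * (6 * C * (X : ℝ) ^ (1 - δ / 2 + ε)) :=
        mul_le_mul hK hV (norm_nonneg _) zero_le_one
      linarith
  -- conclusion
  have hsplit : ∑ x ∈ range (v + h), (((if u < x ∧ x ≤ v then lam x else 0 : ℝ) : ℂ) -
      Md T Q h u v x) * ee (α * x) =
      ((1 - KT T h α : ℝ) : ℂ) * ∑ n ∈ Ioc u v, ((lam n : ℝ) : ℂ) * ee (α * n) -
      (∑ x ∈ range (v + h), Md T Q h u v x * ee (α * x) -
        ((KT T h α : ℝ) : ℂ) * ∑ n ∈ Ioc u v, ((lam n : ℝ) : ℂ) * ee (α * n)) := by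
    rw [← su_Fsum u v h (by omega) α]
    simp only [sub_mul, Finset.sum_sub_distrib]
    push_cast
    ring
  rw [hsplit]
  refine (norm_sub_le _ _).trans ?_
  rw [norm_mul, Complex.norm_real, Real.norm_eq_abs]
  have hfin : (32 + 6 * (C : ℝ)) * (X : ℝ) ^ (1 - δ / 2 + ε) ≤ (X : ℝ) ^ (1 - 49 / 100 * δ) := by
    have e1 : (32 + 6 * (C : ℝ)) * (X : ℝ) ^ (1 - δ / 2 + ε) ≤
        (X : ℝ) ^ (9 / 1000 * δ) * (X : ℝ) ^ (1 - δ / 2 + ε) :=
      mul_le_mul_of_nonneg_right hbig (Real.rpow_nonneg hX0.le _)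
    refine e1.trans (le_of_eq ?_)
    rw [← Real.rpow_add hX0]
    congr 1
    rw [hε]
    ring
  linarith

end Pool.Agent.MVII
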