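import Mathlib
import Pool.Agent.MVII.St3

set_option autoImplicit false

/-!
# MVII: W1, the sum over one short interval
-/

namespace Pool.Agent.MVII

open Finset Filter
open Pool.Agent.GBQ (ee lam nd Admissible)
open Pool.Agent.MVX (Chr tent Bm Um prm Win GP)
open Pool.Agent.LIN (PP pz)

theorem w1_ge {ε : ℝ} (hε : 0 < ε) (K : ℝ) : ∀ᶠ X : ℕ in atTop, K ≤ (X : ℝ) ^ ε :=
  ((tendsto_rpow_atTop hε).comp tendsto_natCast_atTop_atTop).eventually_ge_atTop K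

theorem w1_pw {x : ℝ} (hx : 0 < x) (a : ℝ) (n : ℕ) : (x ^ a) ^ n = x ^ (a * n) := by
  rw [← Real.rpow_natCast, ← Real.rpow_mul hx.le]

theorem w1_Bc (h6 : St_Bl) {X h x : ℕ} (hh : 1 ≤ h) (hhx : h ≤ x) (hxX : x ≤ X) (c : Chr) :
    ‖Bc h x c‖ ≤ Real.log (2 * X) := by
  have e1 := h6.2.1 h 0 (x + h) x c hh (by omega) (by omega)
  rw [← e1]
  refine (h6.1 h 0 (x + h) x c hh (by omega)).trans ?_
  apply Real.log_le_log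
  · have : 0 < x + h := by omega
    exact_mod_cast this
  · have : x + h ≤ 2 * X := by omega
    exact_mod_cast this

/-- The final inequality. -/
theorem w1_fin {S p x7 e2 e3 L : ℝ} {Sg M1 M2 : ℂ} (hL : 0 ≤ L) (h1 : |S - Sg.re| ≤ L * x7)
    (h2 : ‖Sg - (L : ℂ) * M1‖ ≤ e2) (h3 : ‖M1 - M2‖ ≤ e3) (h4 : p ≤ M2.re) :
    L * (p - x7 - e3) - e2 ≤ S := by
  have a1 := neg_le_of_abs_le h1
  have a2 : -(e2) ≤ (Sg - (L : ℂ) * M1).re := by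
    have := (Complex.abs_re_le_norm (Sg - (L : ℂ) * M1)).trans h2
    exact neg_le_of_abs_le this
  have a3 : -(e3) ≤ (M1 - M2).re := by
    have := (Complex.abs_re_le_norm (M1 - M2)).trans h3
    exact neg_le_of_abs_le this
  rw [Complex.sub_re, Complex.re_ofReal_mul] at a2
  rw [Complex.sub_re] at a3
  have a4 : L * (p - e3) ≤ L * M1.re := mul_le_mul_of_nonneg_left (by linarith) hL
  have a5 : L * (p - x7 - e3) = L * (p - e3) - L * x7 := by ring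
  rw [a5]
  linarith

/-- bound of the error of WI -/
theorem w1_g2 {x δ ε B T Q q L : ℝ} (hx1 : 1 ≤ x) (hδ' : δ ≤ 1 / 310) (hδ : 0 < δ)
    (hε : ε = δ / 2000) (hB0 : 0 ≤ B) (hB : B ^ 2 ≤ x ^ ε) (hK : 4 ≤ x ^ ε) (hT0 : 0 ≤ T)
    (hT : T ≤ x ^ δ) (hQ0 : 0 ≤ Q) (hQ : Q ≤ x ^ (30 * δ)) (hq0 : 0 ≤ q)
    (hq : q ≤ x ^ (41 / 40 * δ)) (hL : x ^ (1 - 20 * δ) / 2 ≤ L) :
    2 * B ^ 2 * T ^ 6 * Q ^ 4 * q ^ 2 ≤ L * x ^ (-δ) := by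
  have hx0 : 0 < x := by linarith
  have ppos : ∀ a : ℝ, 0 < x ^ a := fun a => Real.rpow_pos_of_pos hx0 a
  have padd : ∀ a b : ℝ, x ^ a * x ^ b = x ^ (a + b) := fun a b => (Real.rpow_add hx0 a b).symm
  have s1 : T ^ 6 ≤ x ^ (6 * δ) := by
    calc T ^ 6 ≤ (x ^ δ) ^ 6 := pow_le_pow_left₀ hT0 hT 6
      _ = x ^ (6 * δ) := by rw [w1_pw hx0]; congr 1; push_cast; ring
  have s2 : Q ^ 4 ≤ x ^ (120 * δ) := by
    calc Q ^ 4 ≤ (x ^ (30 * δ)) ^ 4 := pow_le_pow_left₀ hQ0 hQ 4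
      _ = x ^ (120 * δ) := by rw [w1_pw hx0]; congr 1; push_cast; ring
  have s3 : q ^ 2 ≤ x ^ (41 / 20 * δ) := by
    calc q ^ 2 ≤ (x ^ (41 / 40 * δ)) ^ 2 := pow_le_pow_left₀ hq0 hq 2
      _ = x ^ (41 / 20 * δ) := by rw [w1_pw hx0]; congr 1; push_cast; ring
  have s0 : 2 * B ^ 2 ≤ x ^ ε / 2 * x ^ ε :=
    mul_le_mul (by linarith) hB (sq_nonneg B) (by linarith)
  have p0 := (ppos ε).le
  have t1 : 2 * B ^ 2 * T ^ 6 ≤ x ^ ε / 2 * x ^ ε * x ^ (6 * δ) :=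
    mul_le_mul s0 s1 (pow_nonneg hT0 6) (by positivity)
  have t2 : 2 * B ^ 2 * T ^ 6 * Q ^ 4 ≤ x ^ ε / 2 * x ^ ε * x ^ (6 * δ) * x ^ (120 * δ) :=
    mul_le_mul t1 s2 (pow_nonneg hQ0 4) (by positivity)
  have t3 : 2 * B ^ 2 * T ^ 6 * Q ^ 4 * q ^ 2 ≤
      x ^ ε / 2 * x ^ ε * x ^ (6 * δ) * x ^ (120 * δ) * x ^ (41 / 20 * δ) :=
    mul_le_mul t2 s3 (pow_nonneg hq0 2) (by positivity)
  have t4 : x ^ ε / 2 * x ^ ε * x ^ (6 * δ) * x ^ (120 * δ) * x ^ (41 / 20 * δ) =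
      x ^ (2 * ε + 6 * δ + 120 * δ + 41 / 20 * δ) / 2 := by
    rw [show x ^ ε / 2 * x ^ ε * x ^ (6 * δ) * x ^ (120 * δ) * x ^ (41 / 20 * δ) =
      (x ^ ε * x ^ ε * x ^ (6 * δ) * x ^ (120 * δ) * x ^ (41 / 20 * δ)) / 2 by ring]
    rw [padd, padd, padd, padd]
    congr 2
    ring
  have t5 : x ^ (2 * ε + 6 * δ + 120 * δ + 41 / 20 * δ) ≤ x ^ (1 - 20 * δ + -δ) :=
    Real.rpow_le_rpow_of_exponent_le hx1 (by rw [hε]; linarith)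
  have t6 : x ^ (1 - 20 * δ) / 2 * x ^ (-δ) ≤ L * x ^ (-δ) :=
    mul_le_mul_of_nonneg_right hL (ppos _).le
  have t7 : x ^ (1 - 20 * δ) / 2 * x ^ (-δ) = x ^ (1 - 20 * δ + -δ) / 2 := by
    rw [← padd]; ring
  rw [t4] at t3
  rw [t7] at t6
  linarith

/-- bound of the error of CP -/
theorem w1_g3 {x δ ε C T Q q m τ : ℝ} (hx1 : 1 ≤ x) (hδ : 0 < δ)
    (hε : ε = δ / 2000) (hC0 : 0 ≤ C) (hC : C ≤ x ^ ε) (hK : 4 ≤ x ^ ε) (hT0 : 0 ≤ T)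
    (hT : T ≤ x ^ δ) (hQ0 : 0 < Q) (hQ : x ^ (30 * δ) / 2 ≤ Q) (hq0 : 0 ≤ q)
    (hq : q ≤ x ^ (41 / 40 * δ)) (hm0 : 0 ≤ m) (hm : m ≤ x ^ (δ / 10)) (hτ0 : 0 ≤ τ)
    (hτ : τ ≤ x ^ ε) :
    C * T ^ 2 * q * (T ^ 2 * q * m) ^ 2 * τ ^ 2 * Real.sqrt (T * (T ^ 2 * q * m) / Q) ≤
      x ^ (-δ) := by
  have hx0 : 0 < x := by linarith
  have ppos : ∀ a : ℝ, 0 < x ^ a := fun a => Real.rpow_pos_of_pos hx0 a
  have padd : ∀ a b : ℝ, x ^ a * x ^ b = x ^ (a + b) := fun a b => (Real.rpow_add hx0 a b).symm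
  have s1 : T ^ 2 ≤ x ^ (2 * δ) := by
    calc T ^ 2 ≤ (x ^ δ) ^ 2 := pow_le_pow_left₀ hT0 hT 2
      _ = x ^ (2 * δ) := by rw [w1_pw hx0]; congr 1; push_cast; ring
  have s2 : T ^ 2 * q * m ≤ x ^ (25 / 8 * δ) := by
    calc T ^ 2 * q * m ≤ x ^ (2 * δ) * x ^ (41 / 40 * δ) * x ^ (δ / 10) :=
          mul_le_mul (mul_le_mul s1 hq hq0 (ppos _).le) hm hm0 (by positivity)
      _ = x ^ (25 / 8 * δ) := by rw [padd, padd]; congr 1; ring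
  have n2 : 0 ≤ T ^ 2 * q * m := by positivity
  have s3 : (T ^ 2 * q * m) ^ 2 ≤ x ^ (25 / 4 * δ) := by
    calc (T ^ 2 * q * m) ^ 2 ≤ (x ^ (25 / 8 * δ)) ^ 2 := pow_le_pow_left₀ n2 s2 2
      _ = x ^ (25 / 4 * δ) := by rw [w1_pw hx0]; congr 1; push_cast; ring
  have s4 : τ ^ 2 ≤ x ^ (2 * ε) := by
    calc τ ^ 2 ≤ (x ^ ε) ^ 2 := pow_le_pow_left₀ hτ0 hτ 2
      _ = x ^ (2 * ε) := by rw [w1_pw hx0]; congr 1; push_cast; ring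
  have s5 : Real.sqrt (T * (T ^ 2 * q * m) / Q) ≤ x ^ (ε - 12 * δ) := by
    rw [Real.sqrt_le_left (ppos _).le, div_le_iff₀ hQ0]
    have a1 : T * (T ^ 2 * q * m) ≤ x ^ (δ + 25 / 8 * δ) := by
      rw [← padd]; exact mul_le_mul hT s2 n2 (ppos _).le
    have a2 : x ^ (δ + 25 / 8 * δ) * x ^ ε ≤ x ^ (2 * (ε - 12 * δ) + 30 * δ) := by
      rw [padd]; exact Real.rpow_le_rpow_of_exponent_le hx1 (by linarith)
    have a3 : x ^ (δ + 25 / 8 * δ) * 4 ≤ x ^ (δ + 25 / 8 * δ) * x ^ ε :=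
      mul_le_mul_of_nonneg_left hK (ppos _).le
    have a4 : (x ^ (ε - 12 * δ)) ^ 2 = x ^ (2 * (ε - 12 * δ)) := by
      rw [w1_pw hx0]; congr 1; push_cast; ring
    have a5 : x ^ (2 * (ε - 12 * δ)) * (x ^ (30 * δ) / 2) ≤ x ^ (2 * (ε - 12 * δ)) * Q :=
      mul_le_mul_of_nonneg_left hQ (ppos _).le
    have a6 : x ^ (2 * (ε - 12 * δ)) * (x ^ (30 * δ) / 2) = x ^ (2 * (ε - 12 * δ) + 30 * δ) / 2 := by
      rw [← padd]; ring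
    have a7 := ppos (δ + 25 / 8 * δ)
    rw [a4]
    linarith
  have t1 : C * T ^ 2 ≤ x ^ ε * x ^ (2 * δ) := mul_le_mul hC s1 (by positivity) (ppos _).le
  have t2 : C * T ^ 2 * q ≤ x ^ ε * x ^ (2 * δ) * x ^ (41 / 40 * δ) :=
    mul_le_mul t1 hq hq0 (by positivity)
  have t3 : C * T ^ 2 * q * (T ^ 2 * q * m) ^ 2 ≤
      x ^ ε * x ^ (2 * δ) * x ^ (41 / 40 * δ) * x ^ (25 / 4 * δ) :=
    mul_le_mul t2 s3 (by positivity) (by positivity)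
  have t4 : C * T ^ 2 * q * (T ^ 2 * q * m) ^ 2 * τ ^ 2 ≤
      x ^ ε * x ^ (2 * δ) * x ^ (41 / 40 * δ) * x ^ (25 / 4 * δ) * x ^ (2 * ε) :=
    mul_le_mul t3 s4 (by positivity) (by positivity)
  have t5 : C * T ^ 2 * q * (T ^ 2 * q * m) ^ 2 * τ ^ 2 *
      Real.sqrt (T * (T ^ 2 * q * m) / Q) ≤
      x ^ ε * x ^ (2 * δ) * x ^ (41 / 40 * δ) * x ^ (25 / 4 * δ) * x ^ (2 * ε) *
        x ^ (ε - 12 * δ) :=
    mul_le_mul t4 s5 (Real.sqrt_nonneg _) (by positivity)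
  refine t5.trans ?_
  rw [padd, padd, padd, padd, padd]
  exact Real.rpow_le_rpow_of_exponent_le hx1 (by rw [hε]; linarith)

/-- bound of the main term -/
theorem w1_g4 {x ε c l g P : ℝ} (hx1 : 1 ≤ x) (hc : 0 < c) (hKc : 32 / c ^ 8 ≤ x ^ ε)
    (hl : x ^ (-(2 * ε)) ≤ l) (hg : 0 < g) (hg8 : g ^ 8 ≤ x ^ ε) (hP : (c / g) ^ 8 ≤ P) :
    x ^ (-(6 * ε)) ≤ 1 / 2 * (l / 4) ^ 2 * P := by
  have hx0 : 0 < x := by linarith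
  have ppos : ∀ a : ℝ, 0 < x ^ a := fun a => Real.rpow_pos_of_pos hx0 a
  have padd : ∀ a b : ℝ, x ^ a * x ^ b = x ^ (a + b) := fun a b => (Real.rpow_add hx0 a b).symm
  have e2 : x ^ (-(4 * ε)) ≤ l ^ 2 := by
    have : x ^ (-(4 * ε)) = (x ^ (-(2 * ε))) ^ 2 := by
      rw [w1_pw hx0]; congr 1; push_cast; ring
    rw [this]
    exact pow_le_pow_left₀ (ppos _).le hl 2
  have e3 : 32 * x ^ (-(2 * ε)) ≤ (c / g) ^ 8 := by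
    rw [div_pow, le_div_iff₀ (by positivity)]
    have e4 : 32 ≤ x ^ ε * c ^ 8 := by
      rwa [div_le_iff₀ (by positivity)] at hKc
    have e5 : 32 * x ^ (-(2 * ε)) ≤ x ^ ε * c ^ 8 * x ^ (-(2 * ε)) :=
      mul_le_mul_of_nonneg_right e4 (ppos _).le
    have e6 : 32 * x ^ (-(2 * ε)) * g ^ 8 ≤ x ^ ε * c ^ 8 * x ^ (-(2 * ε)) * x ^ ε :=
      mul_le_mul e5 hg8 (by positivity) (by have := ppos ε; have := ppos (-(2 * ε)); positivity)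
    refine e6.trans (le_of_eq ?_)
    rw [show x ^ ε * c ^ 8 * x ^ (-(2 * ε)) * x ^ ε = c ^ 8 * (x ^ ε * x ^ (-(2 * ε)) * x ^ ε) by
      ring]
    rw [padd, padd, show ε + -(2 * ε) + ε = 0 by ring, Real.rpow_zero, mul_one]
  have e7 := e3.trans hP
  have e8 : x ^ (-(4 * ε)) * (32 * x ^ (-(2 * ε))) ≤ l ^ 2 * P :=
    mul_le_mul e2 e7 (by have := ppos (-(2 * ε)); positivity) (sq_nonneg l)
  have e9 : x ^ (-(4 * ε)) * (32 * x ^ (-(2 * ε))) = 32 * x ^ (-(6 * ε)) := by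
    rw [show -(6 * ε) = -(4 * ε) + -(2 * ε) by ring, ← padd]; ring
  have e10 : 1 / 2 * (l / 4) ^ 2 * P = l ^ 2 * P / 32 := by ring
  rw [e10]
  linarith

/-- comparison of the exponents -/
theorem w1_end {x δ ε S L p e2 e3 : ℝ} (hx1 : 1 ≤ x) (hδ : 0 < δ) (hε : ε = δ / 2000)
    (hK : 4 ≤ x ^ ε) (hL : 0 ≤ L) (hp : x ^ (-(6 * ε)) ≤ p) (he2 : e2 ≤ L * x ^ (-δ))
    (he3 : e3 ≤ x ^ (-δ)) (hS : L * (p - x ^ (-(7 * δ)) - e3) - e2 ≤ S) :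
    L * x ^ (-(δ / 200)) ≤ S := by
  have hx0 : 0 < x := by linarith
  have ppos : ∀ a : ℝ, 0 < x ^ a := fun a => Real.rpow_pos_of_pos hx0 a
  have k1 : x ^ (-(7 * δ)) ≤ x ^ (-(δ / 200)) :=
    Real.rpow_le_rpow_of_exponent_le hx1 (by linarith)
  have k2 : x ^ (-δ) ≤ x ^ (-(δ / 200)) := Real.rpow_le_rpow_of_exponent_le hx1 (by linarith)
  have k3 : 4 * x ^ (-(δ / 200)) ≤ x ^ (-(6 * ε)) := by
    calc 4 * x ^ (-(δ / 200)) ≤ x ^ ε * x ^ (-(δ / 200)) :=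
          mul_le_mul_of_nonneg_right hK (ppos _).le
      _ = x ^ (ε + -(δ / 200)) := (Real.rpow_add hx0 _ _).symm
      _ ≤ x ^ (-(6 * ε)) := Real.rpow_le_rpow_of_exponent_le hx1 (by rw [hε]; linarith)
  have k5 : L * (x ^ (-(6 * ε)) - x ^ (-(7 * δ)) - x ^ (-δ)) ≤ L * (p - x ^ (-(7 * δ)) - e3) :=
    mul_le_mul_of_nonneg_left (by linarith) hL
  have k6 : L * x ^ (-(δ / 200)) ≤ L * (x ^ (-(6 * ε)) - x ^ (-(7 * δ)) - x ^ (-δ) - x ^ (-δ)) :=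
    mul_le_mul_of_nonneg_left (by linarith) hL
  have k7 : L * (x ^ (-(6 * ε)) - x ^ (-(7 * δ)) - x ^ (-δ) - x ^ (-δ)) =
    L * (x ^ (-(6 * ε)) - x ^ (-(7 * δ)) - x ^ (-δ)) - L * x ^ (-δ) := by ring
  linarith

/-- sizes of the parameters -/
theorem w1_par {δ : ℝ} {X : ℕ} (hδ : 0 < δ) (hδ' : δ ≤ 1 / 310) (hX : 1 ≤ X)
    (hK : 4 ≤ (X : ℝ) ^ (δ / 2000)) :
    (TT δ X : ℝ) ≤ (X : ℝ) ^ δ ∧ (QQ δ X : ℝ) ≤ (X : ℝ) ^ (30 * δ) ∧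
    (X : ℝ) ^ (30 * δ) / 2 ≤ QQ δ X ∧ (X : ℝ) ^ (1 - 20 * δ) / 2 ≤ H0 δ X ∧ 1 ≤ TT δ X ∧
    TT δ X ≤ QQ δ X ∧ 1 ≤ HH δ X := by
  have hx1 : (1 : ℝ) ≤ X := by exact_mod_cast hX
  have hx0 : (0 : ℝ) < X := by linarith
  have ppos : ∀ a : ℝ, 0 < (X : ℝ) ^ a := fun a => Real.rpow_pos_of_pos hx0 a
  have hhalf : ∀ {y : ℝ}, 2 ≤ y → y / 2 ≤ (⌊y⌋₊ : ℝ) := fun {y} hy => by
    have := Nat.lt_floor_add_one y
    linarith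
  have pm : ∀ {a : ℝ}, δ / 2000 ≤ a → 2 ≤ (X : ℝ) ^ a := fun {a} ha => by
    have := Real.rpow_le_rpow_of_exponent_le hx1 ha
    linarith
  refine ⟨Nat.floor_le (ppos _).le, Nat.floor_le (ppos _).le, hhalf (pm (by linarith)),
    hhalf (pm (by linarith)), Nat.le_floor (by push_cast; exact Real.one_le_rpow hx1 hδ.le),
    Nat.floor_mono (Real.rpow_le_rpow_of_exponent_le hx1 (by linarith)), Nat.ceil_pos.2 (ppos _)⟩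

/-- elementary facts on `t`, `n` -/
theorem w1_nat {X m n t h L : ℕ} (hm1 : 1 ≤ m) (hh1 : 1 ≤ h) (hBlk : Blk X m n)
    (ht1 : X / (8 * m) / 2 + h ≤ t) (ht2 : t + L + h ≤ X / (8 * m)) :
    h ≤ n - m * t ∧ n - m * t ≤ X ∧ h ≤ t ∧ t ≤ X ∧ 1 ≤ n ∧ n ≤ X ^ 4 := by
  obtain ⟨hB1, hB2⟩ := hBlk
  have htK : t ≤ X / (8 * m) := by omega
  have hhK : h ≤ X / (8 * m) := by omega
  have hm0 : 0 < 8 * m := by omega
  have htm : t * (8 * m) ≤ X := (Nat.le_div_iff_mul_le hm0).1 htK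
  have hhm : h * (8 * m) ≤ X := (Nat.le_div_iff_mul_le hm0).1 hhK
  have h8m : 8 * m ≤ X := le_trans (Nat.le_mul_of_pos_left _ hh1) hhm
  have h8h : 8 * h ≤ X := by
    have h1 : h * 8 ≤ h * (8 * m) := Nat.mul_le_mul_left h (by omega)
    omega
  have hmt : 8 * (m * t) ≤ X := by
    have : t * (8 * m) = 8 * (m * t) := by ring
    omega
  have htX : t ≤ X := by
    have : t ≤ t * (8 * m) := Nat.le_mul_of_pos_right _ hm0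
    omega
  have h4 : X ≤ X ^ 4 := Nat.le_self_pow (by norm_num) X
  obtain ⟨s, hs⟩ : ∃ s, s = m * t := ⟨_, rfl⟩
  rw [← hs] at hmt ⊢
  refine ⟨by omega, by omega, by omega, htX, by omega, by omega⟩

theorem thm_W1 (h1 : St_W0) (h2 : St_Wi) (h3 : St_Cp) (h4 : St_Po) (h5 : St_Lc) (h6 : St_Bl)
    (h7 : St_Ep) : St_W1 := by
  intro δ hδ hδ'
  obtain ⟨C, hC, h3⟩ := h3
  obtain ⟨c, hc, h5⟩ := h5
  have hε0 : 0 < δ / 2000 := by positivity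
  filter_upwards [h1 δ hδ hδ', h7 (δ / 2000) hε0 10, w1_ge hε0 4, w1_ge hε0 C,
    w1_ge hε0 (32 / c ^ 8), eventually_ge_atTop 2] with X hW0 hEp hK4 hKC hKc hX2
  intro q₁ χ₁ U l hDat m w ψ hm1 hm2 hw2 hwQ hψ n hBlk hcop hpar t ht1 ht2
  have hX1 : 1 ≤ X := by omega
  have hx1 : (1 : ℝ) ≤ X := by exact_mod_cast hX1
  have hx0 : (0 : ℝ) < X := by linarith
  obtain ⟨hEp1, hEp2, -⟩ := hEp
  obtain ⟨p1, p2, p3, p4, p5, p6, p7⟩ := w1_par hδ hδ' hX1 hK4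
  obtain ⟨hs1, hs2, ht0, htX, hn1, hnX⟩ := w1_nat hm1 p7 hBlk ht1 ht2
  obtain ⟨hq1, hq2⟩ := hDat.cond
  have hqx : (q₁ : ℝ) ≤ (X : ℝ) ^ δ := le_trans (by exact_mod_cast hq2) p1
  have hD1 : 1 ≤ (X : ℝ) ^ (δ / 40) := Real.one_le_rpow hx1 (by positivity)
  have hqD : (q₁ : ℝ) * (X : ℝ) ^ (δ / 40) ≤ (X : ℝ) ^ (41 / 40 * δ) := by
    calc (q₁ : ℝ) * (X : ℝ) ^ (δ / 40) ≤ (X : ℝ) ^ δ * (X : ℝ) ^ (δ / 40) :=
          mul_le_mul_of_nonneg_right hqx (by positivity)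
      _ = (X : ℝ) ^ (41 / 40 * δ) := by rw [← Real.rpow_add hx0]; congr 1; ring
  have hqDQ : (q₁ : ℝ) * (X : ℝ) ^ (δ / 40) ≤ QQ δ X := by
    refine hqD.trans (le_trans ?_ p3)
    have e1 : (X : ℝ) ^ (δ / 2000) * (X : ℝ) ^ (41 / 40 * δ) ≤ (X : ℝ) ^ (30 * δ) := by
      rw [← Real.rpow_add hx0]; exact Real.rpow_le_rpow_of_exponent_le hx1 (by linarith)
    have e2 : 4 * (X : ℝ) ^ (41 / 40 * δ) ≤ (X : ℝ) ^ (δ / 2000) * (X : ℝ) ^ (41 / 40 * δ) :=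
      mul_le_mul_of_nonneg_right hK4 (by positivity)
    have e3 : 0 < (X : ℝ) ^ (41 / 40 * δ) := by positivity
    linarith
  have hlog0 : 0 ≤ Real.log (2 * X) := Real.log_nonneg (by linarith)
  -- the four facts
  have f1 := hW0 hDat.sum m q₁ w ψ hm1 hm2 hψ n hBlk t ht1 ht2
  have f2 := h2 (TT δ X) (QQ δ X) m n q₁ w t (H0 δ X) _ (Real.log (2 * X)) ψ
    (Bc (HH δ X) (n - m * t)) (Bc (HH δ X) t) p5 p6 hq1 hD1 hqDQ hlog0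
    hψ (w1_Bc h6 p7 hs1 hs2) (w1_Bc h6 p7 ht0 htX)
  have f3 := h3 (TT δ X) (QQ δ X) m n q₁ w _ ψ (Bc (HH δ X) (n - m * t)) (Bc (HH δ X) t) p5 p6 hm1
    hn1 hq1 hD1 hqDQ hψ (hDat.sum _ hs1 hs2) (hDat.sum t ht0 htX)
  obtain ⟨u1, u2⟩ := hDat.U_bd _ hs1 hs2
  obtain ⟨u3, u4⟩ := hDat.U_bd t ht0 htX
  have hl0 : 0 < l := lt_of_lt_of_le (Real.rpow_pos_of_pos hx0 _) hDat.low
  have f4 := h4 (TT δ X) (QQ δ X) m n q₁ w _ l (U (n - m * t)) (U t) ψ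
    (Bc (HH δ X) (n - m * t)) (Bc (HH δ X) t) χ₁ hcop hpar hq1
    (hq2.trans p6) hw2 hwQ p6 hψ hDat.real hl0 hDat.one u1 u2 u3 u4
    (hDat.main _ hs1 hs2) (hDat.main t ht0 htX)
  have hQ2 : 2 ≤ QQ δ X := hw2.trans hwQ
  have f5 := (h5 m n hcop hpar).2.1 w (QQ δ X) hQ2
  have hτ := hEp1 n hn1 hnX
  have hlogQ : 0 < Real.log (QQ δ X) := Real.log_pos (by exact_mod_cast (by omega : 1 < QQ δ X))
  have hB2 : Real.log (2 * X) ^ 2 ≤ (X : ℝ) ^ (δ / 2000) := by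
    calc Real.log (2 * X) ^ 2 ≤ (1 + Real.log (2 * X)) ^ 2 :=
          pow_le_pow_left₀ hlog0 (by linarith) 2
      _ ≤ (1 + Real.log (2 * X)) ^ 10 := pow_le_pow_right₀ (by linarith) (by norm_num)
      _ ≤ (X : ℝ) ^ (δ / 2000) := hEp2
  have hlogQ8 : Real.log (QQ δ X) ^ 8 ≤ (X : ℝ) ^ (δ / 2000) := by
    have e0 : (QQ δ X : ℝ) ≤ 2 * X := by
      have e1 : (X : ℝ) ^ (30 * δ) ≤ (X : ℝ) ^ (1 : ℝ) :=
        Real.rpow_le_rpow_of_exponent_le hx1 (by linarith)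
      rw [Real.rpow_one] at e1
      linarith
    have e1 : Real.log (QQ δ X) ≤ 1 + Real.log (2 * X) := by
      have := Real.log_le_log (by exact_mod_cast (by omega : 0 < QQ δ X)) e0
      linarith
    calc Real.log (QQ δ X) ^ 8 ≤ (1 + Real.log (2 * X)) ^ 8 := pow_le_pow_left₀ hlogQ.le e1 8
      _ ≤ (1 + Real.log (2 * X)) ^ 10 := pow_le_pow_right₀ (by linarith) (by norm_num)
      _ ≤ (X : ℝ) ^ (δ / 2000) := hEp2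
  have g4 := w1_g4 (l := l) hx1 hc hKc (by
    refine le_trans (Real.rpow_le_rpow_of_exponent_le hx1 ?_) hDat.low
    linarith) hlogQ hlogQ8 f5
  have hq0 : (0 : ℝ) ≤ q₁ * (X : ℝ) ^ (δ / 40) := by positivity
  have g2 := w1_g2 hx1 hδ' hδ rfl hlog0 hB2 hK4 (Nat.cast_nonneg _) p1 (Nat.cast_nonneg _) p2 hq0
    hqD p4
  have g3 := w1_g3 hx1 hδ rfl hC.le hKC hK4 (Nat.cast_nonneg _) p1
    (by exact_mod_cast (by omega : 0 < QQ δ X)) p3 hq0 hqD (Nat.cast_nonneg _) hm2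
    (Nat.cast_nonneg _) hτ
  -- conclusion
  exact w1_end hx1 hδ rfl hK4 (Nat.cast_nonneg _) g4 g2 g3
    (w1_fin (Nat.cast_nonneg _) f1 f2 f3 f4)

end Pool.Agent.MVII
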