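import Pool.Agent.MVII.Asm0
import Pool.Agent.MVII.Bf
import Pool.Agent.MVII.Lc
import Pool.Agent.MVII.Pf
import Pool.Agent.MVII.Su
import Pool.Agent.MVII.W1
import Pool.Agent.AAN.Asm
import Pool.Agent.GBQ.Red

set_option autoImplicit false

/-! Assembly of Part II. -/

namespace Pool.Agent.MVII

open Finset Filter
open Pool.Agent.MVX (GP)
open Pool.Agent.GBQ (Admissible)

theorem asm_Su : St_Su :=
  thm_Su GBQ.thm_Vin (thm_Kt thm_Fj thm_Sp)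
    (thm_Mf (thm_Ex (thm_Cr thm_Ga)) (thm_Wc thm_Bf thm_Ga (thm_Gi thm_Ga) thm_Bl) thm_Sp thm_Fj)
    thm_Bl thm_Ep

theorem asm_E1 : St_E1 := thm_E1 GBQ.thm_L2 asm_Su thm_Bl thm_Ep

theorem asm_E2 : St_E2 := thm_E2 GBQ.thm_L2 asm_Su thm_Sw thm_Bl thm_Ep

theorem asm_Mn : St_Mn :=
  thm_Mn (thm_W1 (thm_W0 thm_Bl thm_Ep thm_Re) (thm_Wi thm_Mt thm_Bl)
    (thm_Cp (thm_Cq (thm_Or thm_Mt thm_Lo) thm_Ta) thm_Br)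
    (thm_Po (thm_Pf thm_Mt thm_Sf thm_Lc) (thm_Pl thm_Mt) thm_Sf) thm_Lc thm_Bl thm_Ep)
    thm_Bl thm_Ep

theorem asm_Bk : St_Bk := thm_Bk asm_E1 asm_E2 asm_Mn (thm_Up thm_Sf thm_Ep) thm_Sf

theorem asm_Fi : St_Fi := thm_Fi AAN.thm_Dya GBQ.thm_Red

/-- the theorem without the number of representations -/
theorem part2 (h : GP) : ∃ (δ : ℝ) (R C N₀ : ℕ), 0 < δ ∧ ∀ N ≥ N₀, ∀ m : ℕ, ∀ F : Finset ℕ,
    (∀ n ∈ F, n ≤ N ∧ Admissible m n ∧ Bad R m n) →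
    (F.card : ℝ) ≤ (N : ℝ) ^ (1 - δ) ∧ (m : ℝ) * F.card ≤ N * Real.log N ^ C := by
  refine asm_Fi ?_ ⟨1, 5, AAN.fin5⟩
  obtain ⟨δ, h1, h2, h3⟩ := thm_Gd h
  obtain ⟨R, h4⟩ := asm_Bk δ h1 h2 h3
  exact ⟨δ, R, h1, h2, h4⟩

end Pool.Agent.MVII
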