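import Pool.Agent.MVII.St1

set_option autoImplicit false
set_option linter.unusedVariables false

/-!
# MVII, module E2: the mean square of the second error
-/

namespace Pool.Agent.MVII

open Finset Filter
open Pool.Agent.GBQ (ee lam nd Admissible)
open Pool.Agent.MVX (Chr tent Bm Um prm Win GP)
open Pool.Agent.LIN (PP pz)

theorem e2_conj_ee (t : ℝ) : (starRingEnd ℂ) (ee t) = ee (-t) := by
  unfold Pool.Agent.GBQ.ee
  rw [← Complex.exp_conj, map_mul, Complex.conj_ofReal, Complex.conj_I]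
  congr 1
  push_cast
  ring

theorem e2_re (N : ℕ) (f : ℕ → ℝ) (G : ℕ → ℂ) (M : ℝ)
    (h : ∀ α : ℝ, ‖∑ x ∈ range N, (((f x : ℝ) : ℂ) - G x) * ee (α * x)‖ ≤ M) (α : ℝ) :
    ‖∑ x ∈ range N, ((f x - (G x).re : ℝ) : ℂ) * ee (α * x)‖ ≤ M := by
  have h1 : ∑ x ∈ range N, ((f x - (G x).re : ℝ) : ℂ) * ee (α * x) =
      (1 / 2 : ℂ) * (∑ x ∈ range N, (((f x : ℝ) : ℂ) - G x) * ee (α * x) +
        (starRingEnd ℂ) (∑ x ∈ range N, (((f x : ℝ) : ℂ) - G x) * ee ((-α) * x))) := by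
    rw [map_sum, ← Finset.sum_add_distrib, Finset.mul_sum]
    refine Finset.sum_congr rfl fun x _ => ?_
    rw [map_mul, map_sub, Complex.conj_ofReal, e2_conj_ee, neg_mul, neg_neg]
    push_cast
    rw [Complex.re_eq_add_conj]
    ring
  have h2 := h α
  have h4 : ‖(starRingEnd ℂ) (∑ x ∈ range N, (((f x : ℝ) : ℂ) - G x) * ee ((-α) * x))‖ ≤ M := by
    rw [RCLike.norm_conj]
    exact h (-α)
  rw [h1, norm_mul]
  have h5 := norm_add_le (∑ x ∈ range N, (((f x : ℝ) : ℂ) - G x) * ee (α * x))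
    ((starRingEnd ℂ) (∑ x ∈ range N, (((f x : ℝ) : ℂ) - G x) * ee ((-α) * x)))
  have h6 : ‖(1 / 2 : ℂ)‖ = 1 / 2 := by
    rw [norm_div, norm_one, Complex.norm_ofNat]
  rw [h6]
  linarith

theorem e2_img {β : Type} [AddCommMonoid β] (m N n : ℕ) (hm : 1 ≤ m)
    (hN : ∀ y < N, m * y ≤ n) (φ : ℕ → β)
    (h0 : ∀ v, ¬ (m ∣ v ∧ v / m < N) → φ v = 0) :
    ∑ v ∈ range (n + 1), φ v = ∑ y ∈ range N, φ (m * y) := by
  symm
  rw [← Finset.sum_image (s := range N) (g := fun y => m * y) (f := φ)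
    (by intro a _ b _ hab; exact Nat.eq_of_mul_eq_mul_left (by omega) hab)]
  apply Finset.sum_subset
  · intro v hv
    rw [mem_image] at hv
    obtain ⟨y, hy, rfl⟩ := hv
    rw [mem_range] at *
    have := hN y hy
    omega
  · intro v hv hv'
    apply h0
    rintro ⟨⟨y, rfl⟩, h2⟩
    apply hv'
    rw [mem_image]
    refine ⟨y, ?_, rfl⟩
    rw [Nat.mul_div_cancel_left y (by omega)] at h2
    rwa [mem_range]

theorem e2_md (T Q h u v x : ℕ) (A : ℝ) (hA : ∀ r ∈ Icc 1 T, |ar Q r x| ≤ A) :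
    ‖Md T Q h u v x‖ ≤ NB (BI h u v x) T * A := by
  unfold Md PM NB
  rw [Finset.sum_mul]
  refine (norm_sum_le _ _).trans (Finset.sum_le_sum fun r hr => ?_)
  rw [Finset.sum_mul]
  refine (norm_sum_le _ _).trans (Finset.sum_le_sum fun χ _ => ?_)
  rw [norm_mul, norm_mul, RCLike.norm_conj, Complex.norm_real, Real.norm_eq_abs]
  have h1 : ‖χ (((x : ℤ) : ℤ) : ZMod r)‖ ≤ 1 := DirichletCharacter.norm_le_one χ _
  have h2 := hA r hr
  have h3 : 0 ≤ ‖BI h u v x ⟨r, χ⟩‖ := norm_nonneg _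
  calc ‖BI h u v x ⟨r, χ⟩‖ * ‖χ (((x : ℤ) : ℤ) : ZMod r)‖ * |ar Q r x|
      ≤ ‖BI h u v x ⟨r, χ⟩‖ * 1 * A := by
        refine mul_le_mul (mul_le_mul_of_nonneg_left h1 h3) h2 (abs_nonneg _) (by positivity)
    _ = ‖BI h u v x ⟨r, χ⟩‖ * A := by ring

theorem e2_nb (b : Chr → ℂ) (T : ℕ) (B : ℝ) (hB : 0 ≤ B) (hb : ∀ c, ‖b c‖ ≤ B)
    (hc : ∀ r : ℕ, 1 ≤ r → (prm r).card ≤ r) : NB b T ≤ (T : ℝ) ^ 2 * B := by
  unfold NB
  have h1 : ∀ r ∈ Icc 1 T, ∑ χ ∈ prm r, ‖b ⟨r, χ⟩‖ ≤ (T : ℝ) * B := by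
    intro r hr
    rw [mem_Icc] at hr
    calc ∑ χ ∈ prm r, ‖b ⟨r, χ⟩‖ ≤ ∑ χ ∈ prm r, B := Finset.sum_le_sum fun χ _ => hb _
      _ = (prm r).card * B := by rw [Finset.sum_const, nsmul_eq_mul]
      _ ≤ T * B := by
        refine mul_le_mul_of_nonneg_right ?_ hB
        exact_mod_cast (hc r hr.1).trans hr.2
  calc ∑ r ∈ Icc 1 T, ∑ χ ∈ prm r, ‖b ⟨r, χ⟩‖ ≤ ∑ r ∈ Icc 1 T, (T : ℝ) * B :=
        Finset.sum_le_sum h1
    _ = (T : ℝ) ^ 2 * B := by
        rw [Finset.sum_const, nsmul_eq_mul, Nat.card_Icc, Nat.add_sub_cancel]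
        ring

theorem e2_bd (T Q h u v x : ℕ) (A L : ℝ) (hh : 1 ≤ h) (hhu : h ≤ u) (hA0 : 0 ≤ A)
    (hL0 : 0 ≤ L) (hA : x ≠ 0 → ∀ r ∈ Icc 1 T, |ar Q r x| ≤ A)
    (hL : ∀ c, ‖BI h u v x c‖ ≤ L)
    (hvan : (x + h ≤ u ∨ v + h ≤ x) → ∀ c, BI h u v x c = 0)
    (hint : u + h ≤ x → x + h ≤ v + 1 → NB (BI h u v x) T ≤ 4)
    (hc : ∀ r : ℕ, 1 ≤ r → (prm r).card ≤ r) :
    (Md T Q h u v x).re ^ 2 ≤ (4 * A) ^ 2 +
      if x ∈ Ico (u - h) (u + h) ∪ Ico (v + 1 - h) (v + h) then ((T : ℝ) ^ 2 * L * A) ^ 2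
      else 0 := by
  have hre : (Md T Q h u v x).re ^ 2 ≤ ‖Md T Q h u v x‖ ^ 2 := by
    rw [← sq_abs]
    exact pow_le_pow_left₀ (abs_nonneg _) (Complex.abs_re_le_norm _) 2
  have hz : (∀ c, BI h u v x c = 0) → Md T Q h u v x = 0 := by
    intro hc0
    unfold Md PM
    refine Finset.sum_eq_zero fun r _ => Finset.sum_eq_zero fun χ _ => ?_
    rw [hc0, zero_mul, zero_mul]
  by_cases hx0 : x = 0
  · have h1 := hz (hvan (Or.inl (by omega)))
    rw [h1, Complex.zero_re]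
    have : (0 : ℝ) ≤ if x ∈ Ico (u - h) (u + h) ∪ Ico (v + 1 - h) (v + h) then
      ((T : ℝ) ^ 2 * L * A) ^ 2 else 0 := by
      split_ifs <;> positivity
    nlinarith [sq_nonneg (4 * A)]
  · have hmd := e2_md T Q h u v x A (hA hx0)
    by_cases hE : x ∈ Ico (u - h) (u + h) ∪ Ico (v + 1 - h) (v + h)
    · rw [if_pos hE]
      have h1 : NB (BI h u v x) T * A ≤ (T : ℝ) ^ 2 * L * A :=
        mul_le_mul_of_nonneg_right (e2_nb _ T L hL0 hL hc) hA0
      have h2 : ‖Md T Q h u v x‖ ^ 2 ≤ ((T : ℝ) ^ 2 * L * A) ^ 2 :=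
        pow_le_pow_left₀ (norm_nonneg _) (hmd.trans h1) 2
      nlinarith [sq_nonneg (4 * A)]
    · rw [if_neg hE, add_zero]
      rw [mem_union, mem_Ico, mem_Ico] at hE
      by_cases hv : x + h ≤ u ∨ v + h ≤ x
      · rw [hz (hvan hv), Complex.zero_re]
        nlinarith [sq_nonneg (4 * A)]
      · have h1 := hint (by omega) (by omega)
        have h2 : NB (BI h u v x) T * A ≤ 4 * A := mul_le_mul_of_nonneg_right h1 hA0
        exact hre.trans (pow_le_pow_left₀ (norm_nonneg _) (hmd.trans h2) 2)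

theorem e2_sum (T Q h u v N : ℕ) (A L : ℝ) (hh : 1 ≤ h) (hhu : h ≤ u) (hA0 : 0 ≤ A)
    (hL0 : 0 ≤ L) (hA : ∀ x < N, x ≠ 0 → ∀ r ∈ Icc 1 T, |ar Q r x| ≤ A)
    (hL : ∀ x c, ‖BI h u v x c‖ ≤ L)
    (hvan : ∀ x, (x + h ≤ u ∨ v + h ≤ x) → ∀ c, BI h u v x c = 0)
    (hint : ∀ x, u + h ≤ x → x + h ≤ v + 1 → NB (BI h u v x) T ≤ 4)
    (hc : ∀ r : ℕ, 1 ≤ r → (prm r).card ≤ r) :
    ∑ x ∈ range N, (Md T Q h u v x).re ^ 2 ≤ N * (4 * A) ^ 2 +
      4 * h * ((T : ℝ) ^ 2 * L * A) ^ 2 := by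
  have h1 : ∑ x ∈ range N, (Md T Q h u v x).re ^ 2 ≤ ∑ x ∈ range N, ((4 * A) ^ 2 +
      if x ∈ Ico (u - h) (u + h) ∪ Ico (v + 1 - h) (v + h) then ((T : ℝ) ^ 2 * L * A) ^ 2
      else 0) := by
    refine Finset.sum_le_sum fun x hx => ?_
    rw [mem_range] at hx
    exact e2_bd T Q h u v x A L hh hhu hA0 hL0 (hA x hx) (hL x) (hvan x) (hint x) hc
  refine h1.trans ?_
  rw [Finset.sum_add_distrib, Finset.sum_const, nsmul_eq_mul, card_range]
  refine add_le_add le_rfl ?_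
  rw [← Finset.sum_filter, Finset.sum_const, nsmul_eq_mul]
  refine mul_le_mul_of_nonneg_right ?_ (sq_nonneg _)
  have h2 : ((range N).filter fun x => x ∈ Ico (u - h) (u + h) ∪ Ico (v + 1 - h) (v + h)).card ≤
      4 * h := by
    calc ((range N).filter fun x => x ∈ Ico (u - h) (u + h) ∪ Ico (v + 1 - h) (v + h)).card
        ≤ (Ico (u - h) (u + h) ∪ Ico (v + 1 - h) (v + h)).card := by
          refine Finset.card_le_card fun x hx => ?_
          exact (Finset.mem_filter.1 hx).2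
      _ ≤ (Ico (u - h) (u + h)).card + (Ico (v + 1 - h) (v + h)).card := Finset.card_union_le _ _
      _ ≤ 4 * h := by rw [Nat.card_Ico, Nat.card_Ico]; omega
  exact_mod_cast h2

/-- the second error as a convolution -/
theorem e2_conv (w f g : ℕ → ℝ) (m N n Y : ℕ) (hm : 1 ≤ m) (hnY : n ≤ Y)
    (hN : ∀ y < N, m * y ≤ n) (hf : ∀ v, f v = if m ∣ v ∧ v / m < N then g (v / m) else 0) :
    ∑ k ∈ range (Y + 1), (if 1 * k ≤ n then w k * f (n - 1 * k) else 0) =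
      ∑ y ∈ range N, g y * w (n - m * y) := by
  have h1 : ∑ k ∈ range (Y + 1), (if 1 * k ≤ n then w k * f (n - 1 * k) else 0) =
      ∑ k ∈ range (n + 1), w k * f (n - k) := by
    rw [← Finset.sum_filter]
    refine Finset.sum_congr ?_ fun k hk => by rw [one_mul]
    ext k
    simp only [mem_filter, mem_range]
    omega
  have h2 : ∑ k ∈ range (n + 1), w k * f (n - k) = ∑ v ∈ range (n + 1), w (n - v) * f v := by
    rw [← Finset.sum_range_reflect (fun k => w k * f (n - k))]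
    refine Finset.sum_congr rfl fun v hv => ?_
    rw [mem_range] at hv
    rw [show n + 1 - 1 - v = n - v by omega, show n - (n - v) = v by omega]
  have h3 := e2_img m N n hm hN (fun v => w (n - v) * f v) (by
    intro v hv
    show w (n - v) * f v = 0
    rw [hf v, if_neg hv, mul_zero])
  rw [h1, h2, h3]
  refine Finset.sum_congr rfl fun y hy => ?_
  rw [mem_range] at hy
  show w (n - m * y) * f (m * y) = g y * w (n - m * y)
  rw [hf, Nat.mul_div_cancel_left y (by omega), if_pos ⟨Dvd.intro y rfl, hy⟩, mul_comm]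

/-- the final estimate -/
theorem e2_num (δ x A L T h M2 : ℝ) (hδ : 0 < δ) (hx : 1 ≤ x) (hA : A = x ^ (δ / 1000))
    (hA0 : 0 ≤ L) (hL : L ^ 2 ≤ x ^ (δ / 1000)) (hT0 : 0 ≤ T) (hT : T ≤ x ^ δ) (hh0 : 0 ≤ h)
    (hh : h ≤ 2 * x ^ (1 - 10 * δ)) (hM0 : 0 ≤ M2)
    (hM : M2 ≤ x ^ (δ / 1000) * (x ^ (δ / 40)) ^ 2 * x ^ (1 - 49 / 100 * δ))
    (h56 : 56 ≤ x ^ (δ / 200)) :
    M2 ^ 2 * ((2 * x + 1) * (4 * A) ^ 2 + 4 * h * (T ^ 2 * L * A) ^ 2) ≤
      x ^ (3 - 87 / 100 * δ) := by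
  have hx0 : 0 < x := by linarith
  have hp : ∀ a : ℝ, 0 < x ^ a := fun a => Real.rpow_pos_of_pos hx0 a
  have hsq : ∀ a : ℝ, (x ^ a) ^ 2 = x ^ (2 * a) := by
    intro a
    rw [← Real.rpow_natCast, ← Real.rpow_mul hx0.le]
    congr 1
    push_cast
    ring
  have hm : ∀ a b : ℝ, a ≤ b → x ^ a ≤ x ^ b := fun a b hab =>
    Real.rpow_le_rpow_of_exponent_le hx hab
  -- bound for M2
  have h1 : M2 ^ 2 ≤ x ^ (2 - 88 / 100 * δ + 2 * (δ / 1000)) := by
    have h2 : x ^ (δ / 1000) * (x ^ (δ / 40)) ^ 2 * x ^ (1 - 49 / 100 * δ) =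
        x ^ (1 - 44 / 100 * δ + δ / 1000) := by
      rw [hsq, ← Real.rpow_add hx0, ← Real.rpow_add hx0]
      congr 1
      ring
    rw [h2] at hM
    calc M2 ^ 2 ≤ (x ^ (1 - 44 / 100 * δ + δ / 1000)) ^ 2 := pow_le_pow_left₀ hM0 hM 2
      _ = _ := by
        rw [hsq]
        congr 1
        ring
  -- the main part
  have h3 : (2 * x + 1) * (4 * A) ^ 2 ≤ 48 * x ^ (1 + 3 * (δ / 1000)) := by
    rw [hA, mul_pow, hsq]
    have h4 : x * x ^ (2 * (δ / 1000)) ≤ x ^ (1 + 3 * (δ / 1000)) := by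
      calc x * x ^ (2 * (δ / 1000)) = x ^ (1 + 2 * (δ / 1000)) := by
            rw [Real.rpow_add hx0, Real.rpow_one]
        _ ≤ _ := hm _ _ (by linarith)
    have h5 := hp (2 * (δ / 1000))
    nlinarith
  -- the edges
  have h6 : 4 * h * (T ^ 2 * L * A) ^ 2 ≤ 8 * x ^ (1 + 3 * (δ / 1000)) := by
    have h7 : T ^ 4 ≤ x ^ (4 * δ) := by
      calc T ^ 4 ≤ (x ^ δ) ^ 4 := pow_le_pow_left₀ hT0 hT 4
        _ = x ^ (4 * δ) := by
          rw [← Real.rpow_natCast, ← Real.rpow_mul hx0.le]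
          congr 1
          push_cast
          ring
    have h8 : (T ^ 2 * L * A) ^ 2 ≤ x ^ (4 * δ) * x ^ (δ / 1000) * x ^ (2 * (δ / 1000)) := by
      calc (T ^ 2 * L * A) ^ 2 = T ^ 4 * L ^ 2 * A ^ 2 := by ring
        _ ≤ x ^ (4 * δ) * x ^ (δ / 1000) * x ^ (2 * (δ / 1000)) := by
          refine mul_le_mul (mul_le_mul h7 hL (sq_nonneg _) (hp _).le) ?_ (sq_nonneg _) ?_
          · rw [hA, hsq]
          · exact (mul_pos (hp _) (hp _)).le
    calc 4 * h * (T ^ 2 * L * A) ^ 2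
        ≤ 4 * (2 * x ^ (1 - 10 * δ)) *
          (x ^ (4 * δ) * x ^ (δ / 1000) * x ^ (2 * (δ / 1000))) := by
          refine mul_le_mul (by linarith) h8 (sq_nonneg _) ?_
          have := hp (1 - 10 * δ)
          positivity
      _ = 8 * x ^ (1 - 6 * δ + 3 * (δ / 1000)) := by
          have : x ^ (1 - 6 * δ + 3 * (δ / 1000)) = x ^ (1 - 10 * δ) *
              (x ^ (4 * δ) * x ^ (δ / 1000) * x ^ (2 * (δ / 1000))) := by
            rw [← Real.rpow_add hx0, ← Real.rpow_add hx0, ← Real.rpow_add hx0]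
            congr 1
            ring
          rw [this]
          ring
      _ ≤ 8 * x ^ (1 + 3 * (δ / 1000)) := by
          have := hm (1 - 6 * δ + 3 * (δ / 1000)) (1 + 3 * (δ / 1000)) (by linarith)
          linarith
  have h9 : (2 * x + 1) * (4 * A) ^ 2 + 4 * h * (T ^ 2 * L * A) ^ 2 ≤
      56 * x ^ (1 + 3 * (δ / 1000)) := by linarith
  have h10 : 0 ≤ (2 * x + 1) * (4 * A) ^ 2 + 4 * h * (T ^ 2 * L * A) ^ 2 := by positivity
  calc M2 ^ 2 * ((2 * x + 1) * (4 * A) ^ 2 + 4 * h * (T ^ 2 * L * A) ^ 2)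
      ≤ x ^ (2 - 88 / 100 * δ + 2 * (δ / 1000)) * (56 * x ^ (1 + 3 * (δ / 1000))) :=
        mul_le_mul h1 h9 h10 (hp _).le
    _ ≤ x ^ (2 - 88 / 100 * δ + 2 * (δ / 1000)) * (x ^ (δ / 200) * x ^ (1 + 3 * (δ / 1000))) := by
        refine mul_le_mul_of_nonneg_left ?_ (hp _).le
        exact mul_le_mul_of_nonneg_right h56 (hp _).le
    _ = x ^ (3 - 87 / 100 * δ) := by
        rw [← Real.rpow_add hx0, ← Real.rpow_add hx0]
        congr 1
        ring

theorem thm_E2 (h0 : Pool.Agent.GBQ.St_L2) (h1 : St_Su) (h2 : St_Sw) (h3 : St_Bl)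
    (h4 : St_Ep) : St_E2 := by
  intro δ hδ hδ1
  obtain ⟨bl1, bl2, bl3, bl4, bl5⟩ := h3
  have e1 : ∀ᶠ X : ℕ in atTop, (56 : ℝ) ≤ (X : ℝ) ^ (δ / 200) :=
    ((tendsto_rpow_atTop (show 0 < δ / 200 by positivity)).comp
      tendsto_natCast_atTop_atTop).eventually_ge_atTop 56
  have e2 : ∀ᶠ X : ℕ in atTop, (32 : ℝ) ≤ (X : ℝ) ^ (99 / 10 * δ) :=
    ((tendsto_rpow_atTop (show 0 < 99 / 10 * δ by positivity)).comp
      tendsto_natCast_atTop_atTop).eventually_ge_atTop 32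
  filter_upwards [h1 δ hδ hδ1, h4 (δ / 1000) (by positivity) 2, e1, e2,
    eventually_ge_atTop 1] with X hSu hEp he1 he2 hX1
  intro hS m q₁ w ψ hm hmX hq hqT hψ F hF
  obtain ⟨ep1, ep2, ep3, ep4, ep5⟩ := hEp
  set x : ℝ := (X : ℝ) with hxdef
  have hx1 : (1 : ℝ) ≤ x := by rw [hxdef]; exact_mod_cast hX1
  have hx0 : (0 : ℝ) < x := by linarith
  have hp : ∀ a : ℝ, 0 < x ^ a := fun a => Real.rpow_pos_of_pos hx0 a
  -- parameters
  have hTr : ((TT δ X : ℕ) : ℝ) ≤ x ^ δ := Nat.floor_le (hp δ).le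
  have hTX : TT δ X ≤ X := by
    have : ((TT δ X : ℕ) : ℝ) ≤ (X : ℝ) := by
      refine hTr.trans ?_
      calc x ^ δ ≤ x ^ (1 : ℝ) := Real.rpow_le_rpow_of_exponent_le hx1 (by linarith)
        _ = x := Real.rpow_one x
    exact_mod_cast this
  have hQX : QQ δ X ≤ X := by
    have : ((QQ δ X : ℕ) : ℝ) ≤ (X : ℝ) := by
      refine (Nat.floor_le (hp (30 * δ)).le).trans ?_
      calc x ^ (30 * δ) ≤ x ^ (1 : ℝ) := Real.rpow_le_rpow_of_exponent_le hx1 (by linarith)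
        _ = x := Real.rpow_one x
    exact_mod_cast this
  have hh1 : 1 ≤ HH δ X := Nat.ceil_pos.2 (hp _)
  have hh2 : ((HH δ X : ℕ) : ℝ) ≤ 2 * x ^ (1 - 10 * δ) := by
    have h5 : ((HH δ X : ℕ) : ℝ) < x ^ (1 - 10 * δ) + 1 := Nat.ceil_lt_add_one (hp _).le
    have h6 : 1 ≤ x ^ (1 - 10 * δ) := Real.one_le_rpow hx1 (by linarith)
    linarith
  have hmh : 16 * m * HH δ X ≤ X := by
    have h5 : (16 : ℝ) * m * (HH δ X : ℕ) ≤ x := by
      calc (16 : ℝ) * m * (HH δ X : ℕ) ≤ 16 * x ^ (δ / 10) * (2 * x ^ (1 - 10 * δ)) := by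
            refine mul_le_mul (by linarith) hh2 (Nat.cast_nonneg _) ?_
            have := hp (δ / 10)
            positivity
        _ = 32 * (x ^ (δ / 10) * x ^ (1 - 10 * δ)) := by ring
        _ ≤ x ^ (99 / 10 * δ) * (x ^ (δ / 10) * x ^ (1 - 10 * δ)) :=
            mul_le_mul_of_nonneg_right he2 (mul_pos (hp _) (hp _)).le
        _ = x := by
            rw [← Real.rpow_add hx0, ← Real.rpow_add hx0,
              show 99 / 10 * δ + (δ / 10 + (1 - 10 * δ)) = 1 by ring, Real.rpow_one]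
    have h6 : ((16 * m * HH δ X : ℕ) : ℝ) ≤ (X : ℝ) := by
      push_cast
      exact h5
    exact Nat.cast_le.1 h6
  generalize hhdef : HH δ X = h at *
  generalize hTdef : TT δ X = T at *
  generalize hQdef : QQ δ X = Q at *
  have hmh' : m ≤ m * h := Nat.le_mul_of_pos_right m hh1
  have hmh'' : h ≤ m * h := Nat.le_mul_of_pos_left h hm
  have h16 : 16 * (m * h) ≤ X := by rw [← mul_assoc]; exact hmh
  set K : ℕ := X / (8 * m) with hKdef
  have hKm : 8 * m * K ≤ X := Nat.mul_div_le X (8 * m)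
  have hKm' : 8 * (m * K) ≤ X := by rw [← mul_assoc]; exact hKm
  have hK2 : h ≤ K / 2 := by
    rw [hKdef, Nat.div_div_eq_div_mul, Nat.le_div_iff_mul_le (by omega)]
    calc h * (8 * m * 2) = 16 * (m * h) := by ring
      _ ≤ X := h16
  have hKX : K ≤ X := Nat.div_le_self _ _
  have h8 : h ≤ X / 8 := by
    rw [Nat.le_div_iff_mul_le (by norm_num)]
    omega
  -- the Fourier transform
  have sA : ∀ α : ℝ, ‖∑ y ∈ range (K + h), (((if K / 2 < y ∧ y ≤ K then lam y else 0) -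
      (Md T Q h (K / 2) K y).re : ℝ) : ℂ) * ee (α * y)‖ ≤ x ^ (1 - 49 / 100 * δ) := by
    refine e2_re (K + h) (fun y => if K / 2 < y ∧ y ≤ K then lam y else 0)
      (fun y => Md T Q h (K / 2) K y) _ ?_
    intro α
    exact hSu hS (K / 2) K hK2 (Nat.div_le_self _ _) hKX α
  have hD : 1 ≤ x ^ (δ / 40) := Real.one_le_rpow hx1 (by positivity)
  have sB := h2 q₁ w (K + h) (x ^ (δ / 40)) (x ^ (1 - 49 / 100 * δ)) ψ
    (fun y => (((if K / 2 < y ∧ y ≤ K then lam y else 0) -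
      (Md T Q h (K / 2) K y).re : ℝ) : ℂ)) hq hD hψ sA
  set M2 : ℝ := (4 : ℝ) ^ q₁.primeFactors.card * (x ^ (δ / 40)) ^ 2 *
    x ^ (1 - 49 / 100 * δ) with hM2
  set g : ℕ → ℝ := fun y => ((if K / 2 < y ∧ y ≤ K then lam y else 0) -
      (Md T Q h (K / 2) K y).re) * SS q₁ w ψ (y : ℤ) with hg
  set f : ℕ → ℝ := fun v => if m ∣ v ∧ v / m < K + h then g (v / m) else 0 with hf
  set w2 : ℕ → ℝ := fun k => (Md T Q h (X / 8) X k).re with hw2
  have hmy : ∀ y < K + h, 2 * (m * y) + 2 * m ≤ X := by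
    intro y hy
    have h5 : m * (y + 1) ≤ m * (K + h) := Nat.mul_le_mul_left m hy
    have h6 : m * (y + 1) = m * y + m := by ring
    have h7 : m * (K + h) = m * K + m * h := by ring
    omega
  have sC : ∀ α : ℝ, ‖∑ v ∈ range (2 * X + 1), ((f v : ℝ) : ℂ) * ee (α * v)‖ ≤ M2 := by
    intro α
    rw [e2_img m (K + h) (2 * X) hm (fun y hy => by have := hmy y hy; omega)
      (fun v => ((f v : ℝ) : ℂ) * ee (α * v)) (by
        intro v hv
        show ((f v : ℝ) : ℂ) * ee (α * v) = 0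
        rw [hf]
        simp only
        rw [if_neg hv, Complex.ofReal_zero, zero_mul])]
    have h5 := sB (α * m)
    have h6 : ∑ y ∈ range (K + h), ((f (m * y) : ℝ) : ℂ) * ee (α * ((m * y : ℕ) : ℝ)) =
        ∑ y ∈ range (K + h), (((if K / 2 < y ∧ y ≤ K then lam y else 0) -
          (Md T Q h (K / 2) K y).re : ℝ) : ℂ) * ((SS q₁ w ψ (y : ℤ) : ℝ) : ℂ) *
            ee (α * m * y) := by
      refine Finset.sum_congr rfl fun y hy => ?_
      rw [mem_range] at hy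
      have h7 : f (m * y) = g y := by
        rw [hf]
        simp only
        rw [Nat.mul_div_cancel_left y (by omega), if_pos ⟨Dvd.intro y rfl, hy⟩]
      rw [h7, hg]
      simp only
      rw [Complex.ofReal_mul]
      congr 2
      push_cast
      ring
    rw [h6]
    exact h5
  -- the mean square
  have sD := h0 w2 f (2 * X) (2 * X) 1 M2 le_rfl sC
  have sE : ∀ n ∈ F, R1 δ X m K q₁ w ψ n - R2 δ X m K q₁ w ψ n =
      ∑ k ∈ range (2 * X + 1), if 1 * k ≤ n then w2 k * f (n - 1 * k) else 0 := by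
    intro n hn
    obtain ⟨b1, b2⟩ := hF n hn
    rw [e2_conv w2 f g m (K + h) n (2 * X) hm (by omega)
      (fun y hy => by have := hmy y hy; omega) (fun v => rfl)]
    unfold R1 R2
    rw [hhdef, hTdef, hQdef]
    have h5 : ∑ y ∈ Ioc (K / 2) K, lam y * SS q₁ w ψ y * (Md T Q h (X / 8) X (n - m * y)).re =
        ∑ y ∈ range (K + h), (if K / 2 < y ∧ y ≤ K then lam y else 0) * SS q₁ w ψ y *
          (Md T Q h (X / 8) X (n - m * y)).re := by
      have h6 : Ioc (K / 2) K = (range (K + h)).filter fun y => K / 2 < y ∧ y ≤ K := by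
        ext y
        simp only [mem_Ioc, mem_filter, mem_range]
        omega
      rw [h6, Finset.sum_filter]
      refine Finset.sum_congr rfl fun y _ => ?_
      split_ifs with h7
      · rfl
      · rw [zero_mul, zero_mul]
    rw [h5, ← Finset.sum_sub_distrib]
    refine Finset.sum_congr rfl fun y _ => ?_
    rw [hg, hw2]
    simp only
    ring
  have sF : ∑ n ∈ F, (R1 δ X m K q₁ w ψ n - R2 δ X m K q₁ w ψ n) ^ 2 ≤
      M2 ^ 2 * ∑ k ∈ range (2 * X + 1), w2 k ^ 2 := by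
    refine le_trans ?_ sD
    rw [Finset.sum_congr rfl fun n hn => by rw [sE n hn]]
    refine Finset.sum_le_sum_of_subset_of_nonneg ?_ fun _ _ _ => sq_nonneg _
    intro n hn
    obtain ⟨b1, b2⟩ := hF n hn
    rw [mem_range]
    omega
  -- the sum of the squares of the model
  have hlog0 : 0 ≤ Real.log x := Real.log_nonneg hx1
  have sG := e2_sum T Q h (X / 8) X (2 * X + 1) (x ^ (δ / 1000)) (Real.log x) hh1 h8
    (hp _).le hlog0 (by
      intro k hk hk0 r hr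
      rw [mem_Icc] at hr
      refine ep4 Q r k hQX hr.1 (hr.2.trans hTX) (by exact_mod_cast hk0) ?_
      rw [abs_of_nonneg (Int.natCast_nonneg k)]
      omega)
    (fun k c => bl1 h (X / 8) X k c hh1 hX1) (fun k hk c => bl3 h (X / 8) X k c hk) (by
      intro k hk1 hk2
      have h5 : NB (BI h (X / 8) X k) T = NB (Bc h k) T := by
        unfold NB
        refine Finset.sum_congr rfl fun r _ => Finset.sum_congr rfl fun χ _ => ?_
        rw [bl2 h (X / 8) X k _ hh1 hk1 hk2]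
      rw [h5]
      have h6 := hS k
      rw [hhdef, hTdef] at h6
      exact h6 (by omega) (by omega)) bl5
  have hlog2 : Real.log x ^ 2 ≤ x ^ (δ / 1000) := by
    refine le_trans ?_ ep2
    refine pow_le_pow_left₀ hlog0 ?_ 2
    have : Real.log x ≤ Real.log (2 * x) := Real.log_le_log hx0 (by linarith)
    linarith
  have hω : (4 : ℝ) ^ q₁.primeFactors.card ≤ x ^ (δ / 1000) := (ep3 q₁ hq (hqT.trans hTX)).2
  have hM0 : 0 ≤ M2 := by
    have := hp (1 - 49 / 100 * δ)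
    rw [hM2]
    positivity
  have sH := e2_num δ x (x ^ (δ / 1000)) (Real.log x) T h M2 hδ hx1 rfl hlog0 hlog2
    (Nat.cast_nonneg _) hTr (Nat.cast_nonneg _) hh2 hM0 (by
      rw [hM2]
      exact mul_le_mul_of_nonneg_right (mul_le_mul_of_nonneg_right hω (sq_nonneg _))
        (hp _).le) he1
  refine sF.trans (le_trans ?_ sH)
  refine mul_le_mul_of_nonneg_left ?_ (sq_nonneg _)
  refine sG.trans (le_of_eq ?_)
  push_cast
  ring

end Pool.Agent.MVII
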