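import Pool.Agent.MVII.St1
import Pool.Agent.BVX.MulLS

set_option autoImplicit false

/-!
# MVII, module Re: the model is real
-/

namespace Pool.Agent.MVII

open Finset Filter
open Pool.Agent.GBQ (ee lam nd Admissible)
open Pool.Agent.MVX (Chr tent Bm Um prm Win GP)

theorem re_conj {r : ℕ} [NeZero r] (χ : DirichletCharacter ℂ r) (a : ZMod r) :
    χ⁻¹ a = (starRingEnd ℂ) (χ a) := by
  rw [← MulChar.star_apply' χ a]
  rfl

theorem re_BI {r : ℕ} [NeZero r] (h u v x : ℕ) (χ : DirichletCharacter ℂ r) :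
    (starRingEnd ℂ) (BI h u v x ⟨r, χ⟩) = BI h u v x ⟨r, χ⁻¹⟩ := by
  rw [BI, BI, map_mul, map_inv₀, map_pow, Complex.conj_natCast, map_sum]
  congr 1
  refine Finset.sum_congr rfl fun n _ => ?_
  rw [map_mul, map_mul, Complex.conj_ofReal, Complex.conj_ofReal]
  simp only
  rw [re_conj]

theorem thm_Re : St_Re := by
  intro T Q h u v x
  rw [← Complex.conj_eq_iff_im, Md, PM, map_sum]
  refine Finset.sum_congr rfl fun r hr => ?_
  have hr1 : 1 ≤ r := (Finset.mem_Icc.mp hr).1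
  haveI : NeZero r := ⟨by omega⟩
  rw [map_sum]
  refine Finset.sum_bij' (fun χ _ => χ⁻¹) (fun χ _ => χ⁻¹) ?_ ?_ ?_ ?_ ?_
  · intro χ hχ
    rw [MVX.mem_prm] at hχ ⊢
    exact BVX.isPrimitive_inv χ hχ
  · intro χ hχ
    rw [MVX.mem_prm] at hχ ⊢
    exact BVX.isPrimitive_inv χ hχ
  · intro χ _
    exact inv_inv χ
  · intro χ _
    exact inv_inv χ
  · intro χ _
    rw [map_mul, map_mul, Complex.conj_ofReal, re_BI, re_conj]

end Pool.Agent.MVII
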