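import Pool.Agent.MVII.St3

set_option autoImplicit false

/-!
# MVII: assembly of the theorem from the block estimate
-/

namespace Pool.Agent.MVII

open Finset Filter
open Pool.Agent.GBQ (ee lam nd Admissible)
open Pool.Agent.MVX (Chr tent Bm Um prm Win GP)
open Pool.Agent.LIN (PP pz)

theorem fi_SolP {R m n : ℕ} (hR : 5 ≤ R) (h : Bad R m n) : EVN.SolP EVN.Phi m n = ∅ := by
  classical
  rw [Finset.eq_empty_iff_forall_notMem]
  intro p hp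
  simp only [EVN.SolP, mem_filter, mem_range] at hp
  obtain ⟨hpn, hpp, hq, hPhi⟩ := hp
  have h1 := h p hpp hpn hq
  have h2 := hPhi.1.2
  omega

theorem fi_Sol {R R₀ m n r : ℕ} (hR : R₀ ≤ R) (hr : r < m) (h : Bad R m n) (y : ℕ) :
    ¬ Sol R₀ m (n - r) y := by
  rintro ⟨hy, hlt, hp, hΩ⟩
  have hpos : 0 < m * y := Nat.mul_pos (by omega) hy.pos
  have h1 : (n - (n - r - m * y)) / m = y := by
    have h2 : n - (n - r - m * y) = r + m * y := by omega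
    rw [h2, Nat.add_mul_div_left _ _ (by omega), Nat.div_eq_of_lt hr, zero_add]
  have h3 := h (n - r - m * y) hp (by omega) (by rw [h1]; exact hy)
  rw [h1] at h3
  omega

theorem fi_block (hRed : GBQ.St_Red) {R R₀ m X : ℕ} (hR : R₀ ≤ R) {D : ℝ}
    (hB : ∀ F : Finset ℕ, (∀ n ∈ F, Blk X m n ∧ n.Coprime m ∧ (n + m) % 2 = 1 ∧
      ∀ y : ℕ, ¬ Sol R₀ m n y) → (F.card : ℝ) ≤ D)
    (F : Finset ℕ) (hF : ∀ n ∈ F, X ≤ 2 * n ∧ 4 * n ≤ 3 * X ∧ Admissible m n ∧ Bad R m n) :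
    (F.card : ℝ) ≤ m * D := by
  classical
  choose! r hr using hRed m
  have h1 : F.card ≤ m * (F.image (fun n => n - r n)).card := by
    refine card_le_mul_card_image F m (fun a _ => ?_)
    have h2 : F.filter (fun x => x - r x = a) ⊆ Ico a (a + m) := by
      intro x hx
      obtain ⟨hxF, hxa⟩ := mem_filter.mp hx
      obtain ⟨h3, h4, -, -⟩ := hr x (hF x hxF).2.2.1
      rw [mem_Ico]
      omega
    refine (card_le_card h2).trans ?_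
    rw [Nat.card_Ico]
    omega
  have h2 : ((F.image (fun n => n - r n)).card : ℝ) ≤ D := by
    refine hB _ (fun n' hn' => ?_)
    obtain ⟨n, hn, rfl⟩ := mem_image.mp hn'
    obtain ⟨h3, h4, h5, h6⟩ := hF n hn
    obtain ⟨h7, h8, h9, h10⟩ := hr n h5
    refine ⟨⟨?_, ?_⟩, h9, h10, fi_Sol hR h7 h6⟩
    · omega
    · omega
  calc (F.card : ℝ) ≤ ((m * (F.image (fun n => n - r n)).card : ℕ) : ℝ) := by exact_mod_cast h1
    _ = (m : ℝ) * ((F.image (fun n => n - r n)).card : ℝ) := by push_cast; rfl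
    _ ≤ m * D := mul_le_mul_of_nonneg_left h2 (Nat.cast_nonneg m)

theorem fi_log (C : ℕ) {a : ℝ} (ha : 0 < a) :
    ∀ᶠ N : ℕ in atTop, Real.log N ^ C ≤ (N : ℝ) ^ a := by
  have h1 := (isLittleO_log_rpow_rpow_atTop (C : ℝ) ha).def (show (0 : ℝ) < 1 by norm_num)
  have h2 := tendsto_natCast_atTop_atTop.eventually h1
  filter_upwards [h2] with N hN
  have hlog : 0 ≤ Real.log N := Real.log_natCast_nonneg N
  rwa [Real.rpow_natCast, Real.norm_of_nonneg (pow_nonneg hlog C),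
    Real.norm_of_nonneg (Real.rpow_nonneg (Nat.cast_nonneg N) _), one_mul] at hN

theorem fi_ge (b : ℝ) {a : ℝ} (ha : 0 < a) : ∀ᶠ N : ℕ in atTop, b ≤ (N : ℝ) ^ a :=
  ((tendsto_rpow_atTop ha).comp
    (tendsto_natCast_atTop_atTop (R := ℝ))).eventually_ge_atTop b

/-- many `m` -/
theorem fi_large {N m δ : ℝ} {k : ℝ} {C : ℕ} (hN : 0 < N) (hk : 0 ≤ k)
    (hm : N ^ (δ / 40) < m) (hlog : Real.log N ^ C ≤ N ^ (δ / 200))
    (h : m * k ≤ N * Real.log N ^ C) : k ≤ N ^ (1 - δ / 50) := by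
  have h1 : 0 < N ^ (δ / 40) := Real.rpow_pos_of_pos hN _
  have h2 : N ^ (δ / 40) * k ≤ N * N ^ (δ / 200) :=
    (mul_le_mul_of_nonneg_right hm.le hk).trans (h.trans (mul_le_mul_of_nonneg_left hlog hN.le))
  have h3 : N * N ^ (δ / 200) = N ^ (δ / 40) * N ^ (1 - δ / 50) := by
    rw [← Real.rpow_add hN]
    nth_rewrite 1 [← Real.rpow_one N]
    rw [← Real.rpow_add hN]
    congr 1
    ring
  rw [h3] at h2
  exact le_of_mul_le_mul_left h2 h1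

/-- few `m` -/
theorem fi_small (hD : AAN.St_Dya) (hRed : GBQ.St_Red) {δ : ℝ} {R₀ R : ℕ} (hδ : 0 < δ)
    (hδ1 : δ ≤ 1 / 310) (hR : R₀ ≤ R) (hB : BlockH δ R₀) :
    ∀ᶠ N : ℕ in atTop, ∀ m : ℕ, 1 ≤ m → (m : ℝ) ≤ (N : ℝ) ^ (δ / 40) → ∀ F : Finset ℕ,
    (∀ n ∈ F, n ≤ N ∧ Admissible m n ∧ Bad R m n) → (F.card : ℝ) ≤ (N : ℝ) ^ (1 - δ / 50) := by
  obtain ⟨X₁, hX₁⟩ := eventually_atTop.1 hB
  filter_upwards [fi_ge (X₁ + 1 + 1) (show (0 : ℝ) < 1 / 2 by norm_num),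
    fi_ge 10 (show (0 : ℝ) < 23 * δ / 100 by positivity), eventually_ge_atTop 1] with
    N hN1 hN2 hN3 m hm hmN F hF
  have hN1r : (1 : ℝ) ≤ N := by exact_mod_cast hN3
  have hN0 : (0 : ℝ) < N := by linarith
  obtain ⟨X₀, hX₀⟩ : ∃ X₀ : ℕ, X₀ = ⌈(N : ℝ) ^ (1 / 2 : ℝ)⌉₊ + X₁ := ⟨_, rfl⟩
  have hs0 : 0 ≤ (N : ℝ) ^ (1 / 2 : ℝ) := Real.rpow_nonneg hN0.le _
  have hX₀1 : (N : ℝ) ^ (1 / 2 : ℝ) ≤ X₀ := by
    rw [hX₀]
    push_cast
    have h1 := Nat.le_ceil ((N : ℝ) ^ (1 / 2 : ℝ))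
    have h2 : (0 : ℝ) ≤ X₁ := Nat.cast_nonneg _
    linarith
  have hX₀2 : (X₀ : ℝ) ≤ 2 * (N : ℝ) ^ (1 / 2 : ℝ) := by
    rw [hX₀]
    push_cast
    have h1 := (Nat.ceil_lt_add_one hs0).le
    linarith
  have hX₀3 : 1 ≤ X₀ := by
    have h1 : (1 : ℝ) ≤ X₀ := by
      have h2 : (0 : ℝ) ≤ X₁ := Nat.cast_nonneg _
      linarith
    exact_mod_cast h1
  have h1 := hD (fun n => Admissible m n ∧ Bad R m n) X₀ ((N : ℝ) ^ (-(δ / 4))) hX₀3
    (Real.rpow_nonneg hN0.le _) N ?_ F hF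
  · refine h1.trans ?_
    have h2 : (X₀ : ℝ) ≤ 2 * (N : ℝ) ^ (1 - δ / 4) := by
      refine hX₀2.trans ?_
      have h3 : (N : ℝ) ^ (1 / 2 : ℝ) ≤ (N : ℝ) ^ (1 - δ / 4) :=
        Real.rpow_le_rpow_of_exponent_le hN1r (by linarith)
      linarith
    have h3 : 8 * (N : ℝ) ^ (-(δ / 4)) * N = 8 * (N : ℝ) ^ (1 - δ / 4) := by
      have h4 : (N : ℝ) ^ (1 - δ / 4) = (N : ℝ) ^ (-(δ / 4)) * N := by
        nth_rewrite 3 [← Real.rpow_one (N : ℝ)]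
        rw [← Real.rpow_add hN0]
        congr 1
        ring
      rw [h4]
      ring
    have h5 : (N : ℝ) ^ (1 - δ / 50) = (N : ℝ) ^ (23 * δ / 100) * (N : ℝ) ^ (1 - δ / 4) := by
      rw [← Real.rpow_add hN0]
      congr 1
      ring
    rw [h3, h5]
    have h6 : 10 * (N : ℝ) ^ (1 - δ / 4) ≤ (N : ℝ) ^ (23 * δ / 100) * (N : ℝ) ^ (1 - δ / 4) :=
      mul_le_mul_of_nonneg_right hN2 (Real.rpow_nonneg hN0.le _)
    linarith
  · intro X hX hXN F' hF'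
    have hXr : (N : ℝ) ^ (1 / 2 : ℝ) ≤ X := hX₀1.trans (by exact_mod_cast hX)
    have hX1 : (1 : ℝ) ≤ X := by exact_mod_cast hX₀3.trans hX
    have hX0 : (0 : ℝ) < X := by linarith
    have hNX : (N : ℝ) ≤ (X : ℝ) ^ (2 : ℝ) := by
      have h2 := Real.rpow_le_rpow hs0 hXr (show (0 : ℝ) ≤ 2 by norm_num)
      rwa [← Real.rpow_mul hN0.le, show (1 / 2 : ℝ) * 2 = 1 by norm_num, Real.rpow_one] at h2
    have hm1 : (m : ℝ) ≤ (X : ℝ) ^ (δ / 20) := by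
      refine hmN.trans ((Real.rpow_le_rpow hN0.le hNX (by positivity)).trans ?_)
      rw [← Real.rpow_mul hX0.le]
      exact le_of_eq (by congr 1; ring)
    have hm2 : (m : ℝ) ≤ (X : ℝ) ^ (δ / 10) :=
      hm1.trans (Real.rpow_le_rpow_of_exponent_le hX1 (by linarith))
    have h2 := fi_block hRed hR (hX₁ X (by omega) m hm hm2) F' hF'
    refine h2.trans ?_
    have h3 : (m : ℝ) * (X : ℝ) ^ (1 - 6 / 10 * δ) ≤
        (X : ℝ) ^ (δ / 20) * (X : ℝ) ^ (1 - 6 / 10 * δ) :=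
      mul_le_mul_of_nonneg_right hm1 (Real.rpow_nonneg hX0.le _)
    refine h3.trans ?_
    have h4 : (X : ℝ) ^ (δ / 20) * (X : ℝ) ^ (1 - 6 / 10 * δ) ≤ (X : ℝ) ^ (-(δ / 2)) * X := by
      have h5 : (X : ℝ) ^ (-(δ / 2)) * X = (X : ℝ) ^ (1 - δ / 2) := by
        nth_rewrite 2 [← Real.rpow_one (X : ℝ)]
        rw [← Real.rpow_add hX0]
        congr 1
        ring
      rw [h5, ← Real.rpow_add hX0]
      exact Real.rpow_le_rpow_of_exponent_le hX1 (by linarith)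
    refine h4.trans (mul_le_mul_of_nonneg_right ?_ hX0.le)
    have h5 : (X : ℝ) ^ (-(δ / 2)) = ((X : ℝ) ^ (2 : ℝ)) ^ (-(δ / 4)) := by
      rw [← Real.rpow_mul hX0.le]
      congr 1
      ring
    rw [h5]
    exact Real.rpow_le_rpow_of_nonpos hN0 hNX (by linarith)

theorem thm_Fi (h1 : Pool.Agent.AAN.St_Dya) (h2 : Pool.Agent.GBQ.St_Red) : St_Fi := by
  rintro ⟨δ, R₀, hδ, hδ1, hB⟩ ⟨c, j, hFin⟩
  obtain ⟨C, hC⟩ := hFin
  obtain ⟨N₁, hN₁⟩ := hC 0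
  obtain ⟨N₂, hN₂⟩ := eventually_atTop.1
    (fi_small (R := max R₀ 5) h1 h2 hδ hδ1 (le_max_left _ _) hB)
  obtain ⟨N₃, hN₃⟩ := eventually_atTop.1 (fi_log C (show (0 : ℝ) < δ / 200 by positivity))
  refine ⟨δ / 50, max R₀ 5, C, max N₁ (max N₂ (max N₃ 3)), by positivity, ?_⟩
  intro N hN m F hF
  have hNN1 : N₁ ≤ N := (le_max_left _ _).trans hN
  have hN' := (le_max_right _ _).trans hN
  have hNN2 : N₂ ≤ N := (le_max_left _ _).trans hN'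
  have hN'' := (le_max_right _ _).trans hN'
  have hNN3 : N₃ ≤ N := (le_max_left _ _).trans hN''
  have hN3 : 3 ≤ N := (le_max_right _ _).trans hN''
  have hN0 : (0 : ℝ) < N := by
    have : 0 < N := by omega
    exact_mod_cast this
  have h3 := (hN₁ N hNN1 m F (fun n hn => ⟨(hF n hn).1, (hF n hn).2.1,
    Or.inl (fi_SolP (le_max_right _ _) (hF n hn).2.2)⟩)).2
  refine ⟨?_, h3⟩
  rcases F.eq_empty_or_nonempty with rfl | ⟨n, hn⟩
  · rw [card_empty, Nat.cast_zero]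
    exact Real.rpow_nonneg hN0.le _
  · have hm : 1 ≤ m := (hF n hn).2.1.1
    by_cases hmN : (m : ℝ) ≤ (N : ℝ) ^ (δ / 40)
    · exact hN₂ N hNN2 m hm hmN F hF
    · exact fi_large hN0 (Nat.cast_nonneg _) (not_le.mp hmN) (hN₃ N hNN3) h3

end Pool.Agent.MVII
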