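import Pool.Agent.MVII.St4
import Pool.Agent.MVII.Fi

set_option autoImplicit false

/-!
# MVII [FiC]: assembly of the theorem with the number of representations
-/

namespace Pool.Agent.MVII

open Finset Filter
open Pool.Agent.GBQ (ee lam nd Admissible)
open Pool.Agent.MVX (Chr tent Bm Um prm Win GP)
open Pool.Agent.LIN (PP pz)

/-- few representations -/
def ExcC (R m n : ℕ) (ε : ℝ) : Prop :=
  SolN R m n = ∅ ∨ (12 * m ≤ n ∧ ((SolN R m n).card : ℝ) < (n : ℝ) ^ (1 - ε))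

theorem fiC_SolP {R : ℕ} (hR : 5 ≤ R) (m n : ℕ) : EVN.SolP EVN.Phi m n ⊆ SolN R m n := by
  classical
  intro p hp
  simp only [EVN.SolP, mem_filter, mem_range] at hp
  obtain ⟨hpn, hpp, hq, hPhi⟩ := hp
  unfold SolN
  rw [mem_filter, mem_range]
  exact ⟨hpn, hpp, hq, hPhi.1.2.trans hR⟩

theorem fiC_Sol {R R₀ m n r : ℕ} (hR : R₀ ≤ R) (hr : r < m) :
    (SolY R₀ m (n - r)).card ≤ (SolN R m n).card := by
  classical
  refine card_le_card_of_injOn (fun y => n - r - m * y) ?_ ?_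
  · intro y hy
    rw [mem_coe] at hy
    unfold SolY at hy
    rw [mem_filter, mem_range] at hy
    obtain ⟨-, hyp, hlt, hp, hΩ⟩ := hy
    have hpos : 0 < m * y := Nat.mul_pos (by omega) hyp.pos
    have h1 : (n - (n - r - m * y)) / m = y := by
      have h2 : n - (n - r - m * y) = r + m * y := by omega
      rw [h2, Nat.add_mul_div_left _ _ (by omega), Nat.div_eq_of_lt hr, zero_add]
    rw [mem_coe]
    unfold SolN
    rw [mem_filter, mem_range]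
    simp only [h1]
    exact ⟨by omega, hp, hyp, hΩ.trans hR⟩
  · intro a ha b hb hab
    rw [mem_coe] at ha hb
    unfold SolY at ha hb
    rw [mem_filter, mem_range] at ha hb
    have h1 := ha.2.2.1
    have h2 := hb.2.2.1
    simp only at hab
    have h3 : m * a = m * b := by omega
    exact Nat.eq_of_mul_eq_mul_left (by omega) h3

theorem fiC_block (hRed : GBQ.St_Red) {R R₀ m X : ℕ} {ε : ℝ} (hR : R₀ ≤ R) (hε : ε ≤ 1) {D : ℝ}
    (hB : ∀ F : Finset ℕ, (∀ n ∈ F, Blk X m n ∧ n.Coprime m ∧ (n + m) % 2 = 1 ∧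
      ((SolY R₀ m n).card : ℝ) ≤ (X : ℝ) ^ (1 - ε)) → (F.card : ℝ) ≤ D)
    (F : Finset ℕ) (hF : ∀ n ∈ F, X ≤ 2 * n ∧ 4 * n ≤ 3 * X ∧ Admissible m n ∧ ExcC R m n ε) :
    (F.card : ℝ) ≤ m * D := by
  classical
  choose! r hr using hRed m
  have h1 : F.card ≤ m * (F.image (fun n => n - r n)).card := by
    refine card_le_mul_card_image F m (fun a _ => ?_)
    have h2 : F.filter (fun x => x - r x = a) ⊆ Ico a (a + m) := by
      intro x hx
      obtain ⟨hxF, hxa⟩ := mem_filter.mp hx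
      obtain ⟨h3, h4, -, -⟩ := hr x (hF x hxF).2.2.1
      rw [mem_Ico]
      omega
    refine (card_le_card h2).trans ?_
    rw [Nat.card_Ico]
    omega
  have h2 : ((F.image (fun n => n - r n)).card : ℝ) ≤ D := by
    refine hB _ (fun n' hn' => ?_)
    obtain ⟨n, hn, rfl⟩ := mem_image.mp hn'
    obtain ⟨h3, h4, h5, h6⟩ := hF n hn
    obtain ⟨h7, h8, h9, h10⟩ := hr n h5
    refine ⟨⟨?_, ?_⟩, h9, h10, ?_⟩
    · omega
    · omega
    · have h11 : ((SolY R₀ m (n - r n)).card : ℝ) ≤ (SolN R m n).card := by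
        exact_mod_cast fiC_Sol hR h7
      refine h11.trans ?_
      rcases h6 with h6 | ⟨-, h6⟩
      · rw [h6, card_empty, Nat.cast_zero]
        exact Real.rpow_nonneg (Nat.cast_nonneg _) _
      · refine h6.le.trans (Real.rpow_le_rpow (Nat.cast_nonneg _) ?_ (by linarith))
        exact_mod_cast (by omega : n ≤ X)
  calc (F.card : ℝ) ≤ ((m * (F.image (fun n => n - r n)).card : ℕ) : ℝ) := by exact_mod_cast h1
    _ = (m : ℝ) * ((F.image (fun n => n - r n)).card : ℝ) := by push_cast; rfl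
    _ ≤ m * D := mul_le_mul_of_nonneg_left h2 (Nat.cast_nonneg m)

/-- few `m` -/
theorem fiC_small (hD : AAN.St_Dya) (hRed : GBQ.St_Red) {δ ε : ℝ} {R₀ R : ℕ} (hδ : 0 < δ)
    (hδ1 : δ ≤ 1 / 310) (hε : ε ≤ 1) (hR : R₀ ≤ R) (hB : BlockC δ ε R₀) :
    ∀ᶠ N : ℕ in atTop, ∀ m : ℕ, 1 ≤ m → (m : ℝ) ≤ (N : ℝ) ^ (δ / 40) → ∀ F : Finset ℕ,
    (∀ n ∈ F, n ≤ N ∧ Admissible m n ∧ ExcC R m n ε) →
    (F.card : ℝ) ≤ (N : ℝ) ^ (1 - δ / 50) := by
  obtain ⟨X₁, hX₁⟩ := eventually_atTop.1 hB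
  filter_upwards [fi_ge (X₁ + 1 + 1) (show (0 : ℝ) < 1 / 2 by norm_num),
    fi_ge 10 (show (0 : ℝ) < 23 * δ / 100 by positivity), eventually_ge_atTop 1] with
    N hN1 hN2 hN3 m hm hmN F hF
  have hN1r : (1 : ℝ) ≤ N := by exact_mod_cast hN3
  have hN0 : (0 : ℝ) < N := by linarith
  obtain ⟨X₀, hX₀⟩ : ∃ X₀ : ℕ, X₀ = ⌈(N : ℝ) ^ (1 / 2 : ℝ)⌉₊ + X₁ := ⟨_, rfl⟩
  have hs0 : 0 ≤ (N : ℝ) ^ (1 / 2 : ℝ) := Real.rpow_nonneg hN0.le _
  have hX₀1 : (N : ℝ) ^ (1 / 2 : ℝ) ≤ X₀ := by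
    rw [hX₀]
    push_cast
    have h1 := Nat.le_ceil ((N : ℝ) ^ (1 / 2 : ℝ))
    have h2 : (0 : ℝ) ≤ X₁ := Nat.cast_nonneg _
    linarith
  have hX₀2 : (X₀ : ℝ) ≤ 2 * (N : ℝ) ^ (1 / 2 : ℝ) := by
    rw [hX₀]
    push_cast
    have h1 := (Nat.ceil_lt_add_one hs0).le
    linarith
  have hX₀3 : 1 ≤ X₀ := by
    have h1 : (1 : ℝ) ≤ X₀ := by
      have h2 : (0 : ℝ) ≤ X₁ := Nat.cast_nonneg _
      linarith
    exact_mod_cast h1
  have h1 := hD (fun n => Admissible m n ∧ ExcC R m n ε) X₀ ((N : ℝ) ^ (-(δ / 4))) hX₀3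
    (Real.rpow_nonneg hN0.le _) N ?_ F hF
  · refine h1.trans ?_
    have h2 : (X₀ : ℝ) ≤ 2 * (N : ℝ) ^ (1 - δ / 4) := by
      refine hX₀2.trans ?_
      have h3 : (N : ℝ) ^ (1 / 2 : ℝ) ≤ (N : ℝ) ^ (1 - δ / 4) :=
        Real.rpow_le_rpow_of_exponent_le hN1r (by linarith)
      linarith
    have h3 : 8 * (N : ℝ) ^ (-(δ / 4)) * N = 8 * (N : ℝ) ^ (1 - δ / 4) := by
      have h4 : (N : ℝ) ^ (1 - δ / 4) = (N : ℝ) ^ (-(δ / 4)) * N := by
        nth_rewrite 3 [← Real.rpow_one (N : ℝ)]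
        rw [← Real.rpow_add hN0]
        congr 1
        ring
      rw [h4]
      ring
    have h5 : (N : ℝ) ^ (1 - δ / 50) = (N : ℝ) ^ (23 * δ / 100) * (N : ℝ) ^ (1 - δ / 4) := by
      rw [← Real.rpow_add hN0]
      congr 1
      ring
    rw [h3, h5]
    have h6 : 10 * (N : ℝ) ^ (1 - δ / 4) ≤ (N : ℝ) ^ (23 * δ / 100) * (N : ℝ) ^ (1 - δ / 4) :=
      mul_le_mul_of_nonneg_right hN2 (Real.rpow_nonneg hN0.le _)
    linarith
  · intro X hX hXN F' hF'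
    have hXr : (N : ℝ) ^ (1 / 2 : ℝ) ≤ X := hX₀1.trans (by exact_mod_cast hX)
    have hX1 : (1 : ℝ) ≤ X := by exact_mod_cast hX₀3.trans hX
    have hX0 : (0 : ℝ) < X := by linarith
    have hNX : (N : ℝ) ≤ (X : ℝ) ^ (2 : ℝ) := by
      have h2 := Real.rpow_le_rpow hs0 hXr (show (0 : ℝ) ≤ 2 by norm_num)
      rwa [← Real.rpow_mul hN0.le, show (1 / 2 : ℝ) * 2 = 1 by norm_num, Real.rpow_one] at h2
    have hm1 : (m : ℝ) ≤ (X : ℝ) ^ (δ / 20) := by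
      refine hmN.trans ((Real.rpow_le_rpow hN0.le hNX (by positivity)).trans ?_)
      rw [← Real.rpow_mul hX0.le]
      exact le_of_eq (by congr 1; ring)
    have hm2 : (m : ℝ) ≤ (X : ℝ) ^ (δ / 10) :=
      hm1.trans (Real.rpow_le_rpow_of_exponent_le hX1 (by linarith))
    have h2 := fiC_block hRed hR hε (hX₁ X (by omega) m hm hm2) F' hF'
    refine h2.trans ?_
    have h3 : (m : ℝ) * (X : ℝ) ^ (1 - 6 / 10 * δ) ≤
        (X : ℝ) ^ (δ / 20) * (X : ℝ) ^ (1 - 6 / 10 * δ) :=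
      mul_le_mul_of_nonneg_right hm1 (Real.rpow_nonneg hX0.le _)
    refine h3.trans ?_
    have h4 : (X : ℝ) ^ (δ / 20) * (X : ℝ) ^ (1 - 6 / 10 * δ) ≤ (X : ℝ) ^ (-(δ / 2)) * X := by
      have h5 : (X : ℝ) ^ (-(δ / 2)) * X = (X : ℝ) ^ (1 - δ / 2) := by
        nth_rewrite 2 [← Real.rpow_one (X : ℝ)]
        rw [← Real.rpow_add hX0]
        congr 1
        ring
      rw [h5, ← Real.rpow_add hX0]
      exact Real.rpow_le_rpow_of_exponent_le hX1 (by linarith)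
    refine h4.trans (mul_le_mul_of_nonneg_right ?_ hX0.le)
    have h5 : (X : ℝ) ^ (-(δ / 2)) = ((X : ℝ) ^ (2 : ℝ)) ^ (-(δ / 4)) := by
      rw [← Real.rpow_mul hX0.le]
      congr 1
      ring
    rw [h5]
    exact Real.rpow_le_rpow_of_nonpos hN0 hNX (by linarith)

theorem fiC_n1 {c ε : ℝ} (hc : 0 < c) (hε : 0 < ε) :
    ∀ᶠ n : ℕ in atTop, (n : ℝ) ^ (1 - ε) ≤ c * n / Real.log n ^ 3 := by
  filter_upwards [fi_log 3 (show (0 : ℝ) < ε / 2 by linarith),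
    fi_ge (1 / c) (show (0 : ℝ) < ε / 2 by linarith), eventually_ge_atTop 3] with n h1 h2 h3
  have hn0 : (0 : ℝ) < n := by
    have : 0 < n := by omega
    exact_mod_cast this
  have hlog : 0 < Real.log n := Real.log_pos (by exact_mod_cast (by omega : 1 < n))
  rw [le_div_iff₀ (pow_pos hlog 3)]
  have h4 : 1 ≤ c * (n : ℝ) ^ (ε / 2) := by
    rw [div_le_iff₀ hc] at h2
    linarith
  have h5 : (n : ℝ) ^ (1 - ε) * (n : ℝ) ^ (ε / 2) = (n : ℝ) ^ (1 - ε / 2) := by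
    rw [← Real.rpow_add hn0]
    congr 1
    ring
  have h6 : (n : ℝ) = (n : ℝ) ^ (1 - ε / 2) * (n : ℝ) ^ (ε / 2) := by
    rw [← Real.rpow_add hn0, show (1 - ε / 2 + ε / 2 : ℝ) = 1 by ring, Real.rpow_one]
  have h7 : 0 ≤ (n : ℝ) ^ (1 - ε / 2) := Real.rpow_nonneg hn0.le _
  calc (n : ℝ) ^ (1 - ε) * Real.log n ^ 3 ≤ (n : ℝ) ^ (1 - ε) * (n : ℝ) ^ (ε / 2) :=
        mul_le_mul_of_nonneg_left h1 (Real.rpow_nonneg hn0.le _)
    _ = (n : ℝ) ^ (1 - ε / 2) * 1 := by rw [h5, mul_one]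
    _ ≤ (n : ℝ) ^ (1 - ε / 2) * (c * (n : ℝ) ^ (ε / 2)) := mul_le_mul_of_nonneg_left h4 h7
    _ = c * ((n : ℝ) ^ (1 - ε / 2) * (n : ℝ) ^ (ε / 2)) := by ring
    _ = c * n := by rw [← h6]

/-- all `m` -/
theorem fiC_all {c ε : ℝ} {C R : ℕ} (hc : 0 < c) (hε : 0 < ε) (hR : 5 ≤ R)
    (hC : ∀ A : ℕ, ∃ N₀ : ℕ, ∀ N ≥ N₀, ∀ m : ℕ, ∀ F : Finset ℕ,
      (∀ n ∈ F, n ≤ N ∧ Admissible m n ∧ (EVN.SolP EVN.Phi m n = ∅ ∨
        (12 * m ≤ n ∧ ((EVN.SolP EVN.Phi m n).card : ℝ) < c * n / Real.log n ^ 3))) →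
      (F.card : ℝ) ≤ N / Real.log N ^ A ∧ (m : ℝ) * F.card ≤ N * Real.log N ^ C) :
    ∃ N₁ : ℕ, ∀ N ≥ N₁, ∀ m : ℕ, ∀ F : Finset ℕ,
      (∀ n ∈ F, n ≤ N ∧ Admissible m n ∧ ExcC R m n ε) →
      (m : ℝ) * F.card ≤ N * Real.log N ^ (C + 1) := by
  classical
  obtain ⟨N₀, hN₀⟩ := hC 0
  obtain ⟨n₁, hn₁⟩ := eventually_atTop.1 (fiC_n1 hc hε)
  refine ⟨max N₀ (max (n₁ * n₁) 8), ?_⟩
  intro N hN m F hF
  have hNN0 : N₀ ≤ N := (le_max_left _ _).trans hN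
  have hN' := (le_max_right _ _).trans hN
  have hNN1 : n₁ * n₁ ≤ N := (le_max_left _ _).trans hN'
  have hN8 : 8 ≤ N := (le_max_right _ _).trans hN'
  obtain ⟨F₂, hF₂⟩ : ∃ F₂ : Finset ℕ, F₂ = F.filter (fun n => n < n₁ ∧ SolN R m n ≠ ∅) := ⟨_, rfl⟩
  obtain ⟨F₁, hF₁⟩ : ∃ F₁ : Finset ℕ, F₁ = F.filter (fun n => ¬ (n < n₁ ∧ SolN R m n ≠ ∅)) :=
    ⟨_, rfl⟩
  have hcard : F.card = F₂.card + F₁.card := by
    rw [hF₁, hF₂]
    exact (card_filter_add_card_filter_not _).symm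
  have h1 : (m : ℝ) * F₁.card ≤ N * Real.log N ^ C := by
    refine (hN₀ N hNN0 m F₁ fun n hn => ?_).2
    rw [hF₁, mem_filter] at hn
    obtain ⟨hnF, hn'⟩ := hn
    obtain ⟨a1, a2, a3⟩ := hF n hnF
    refine ⟨a1, a2, ?_⟩
    rcases a3 with a3 | ⟨a3, a4⟩
    · left
      have h := fiC_SolP hR m n
      rw [a3] at h
      exact subset_empty.mp h
    · by_cases he : SolN R m n = ∅
      · left
        have h := fiC_SolP hR m n
        rw [he] at h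
        exact subset_empty.mp h
      · right
        refine ⟨a3, ?_⟩
        have h2 : n₁ ≤ n := by
          by_contra hlt
          exact hn' ⟨by omega, he⟩
        have h3 : ((EVN.SolP EVN.Phi m n).card : ℝ) ≤ (SolN R m n).card := by
          exact_mod_cast card_le_card (fiC_SolP hR m n)
        exact (h3.trans_lt a4).trans_le (hn₁ n h2)
  have h2 : (m : ℝ) * F₂.card ≤ n₁ * n₁ := by
    rcases F₂.eq_empty_or_nonempty with h0 | ⟨n, hn⟩
    · rw [h0, card_empty, Nat.cast_zero, mul_zero]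
      positivity
    · have hm : m ≤ n₁ := by
        rw [hF₂, mem_filter] at hn
        obtain ⟨hnF, hn1, hn2⟩ := hn
        rcases (hF n hnF).2.2 with a3 | ⟨a3, -⟩
        · exact absurd a3 hn2
        · omega
      have hc2 : F₂.card ≤ n₁ := by
        have h3 : F₂ ⊆ range n₁ := by
          intro k hk
          rw [hF₂, mem_filter] at hk
          exact mem_range.mpr hk.2.1
        exact (card_le_card h3).trans (card_range n₁).le
      exact mul_le_mul (by exact_mod_cast hm) (by exact_mod_cast hc2) (Nat.cast_nonneg _)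
        (Nat.cast_nonneg _)
  have hN0 : (0 : ℝ) < N := by
    have : 0 < N := by omega
    exact_mod_cast this
  have hlog2 : 2 ≤ Real.log N := by
    rw [Real.le_log_iff_exp_le hN0]
    have e1 : Real.exp 2 = Real.exp 1 ^ 2 := by
      rw [← Real.exp_nat_mul]
      norm_num
    rw [e1]
    have e2 := Real.exp_one_lt_d9
    have e3 : Real.exp 1 ^ 2 ≤ (2.7182818286 : ℝ) ^ 2 :=
      pow_le_pow_left₀ (Real.exp_pos 1).le e2.le 2
    have e4 : (8 : ℝ) ≤ N := by exact_mod_cast hN8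
    have e5 : (2.7182818286 : ℝ) ^ 2 ≤ 8 := by norm_num
    linarith
  have h3 : 1 ≤ Real.log N ^ C := one_le_pow₀ (by linarith)
  have h4 : (n₁ : ℝ) * n₁ ≤ N := by exact_mod_cast hNN1
  have h5 : (N : ℝ) ≤ N * Real.log N ^ C := by
    have := mul_le_mul_of_nonneg_left h3 hN0.le
    linarith
  have h6 : (N : ℝ) * Real.log N ^ C * 2 ≤ N * Real.log N ^ C * Real.log N :=
    mul_le_mul_of_nonneg_left hlog2 (by positivity)
  rw [hcard, Nat.cast_add, mul_add, pow_succ, ← mul_assoc]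
  linarith

theorem thm_FiC (h1 : Pool.Agent.AAN.St_Dya) (h2 : Pool.Agent.GBQ.St_Red) : St_FiC := by
  rintro hBl ⟨c, hc, C, hC⟩
  refine ⟨C + 1, fun ε' hε' => ?_⟩
  obtain ⟨ε, hεd⟩ : ∃ ε : ℝ, ε = min ε' 1 := ⟨_, rfl⟩
  have hε : 0 < ε := by
    rw [hεd]
    exact lt_min hε' one_pos
  have hε1 : ε ≤ 1 := by
    rw [hεd]
    exact min_le_right _ _
  have hεε : ε ≤ ε' := by
    rw [hεd]
    exact min_le_left _ _
  obtain ⟨δ, R₀, hδ, hδ1, hB⟩ := hBl ε hε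
  obtain ⟨N₁, hN₁⟩ := fiC_all (R := max R₀ 5) hc hε (le_max_right _ _) hC
  obtain ⟨N₂, hN₂⟩ := eventually_atTop.1
    (fiC_small (R := max R₀ 5) h1 h2 hδ hδ1 hε1 (le_max_left _ _) hB)
  obtain ⟨N₃, hN₃⟩ := eventually_atTop.1
    (fi_log (C + 1) (show (0 : ℝ) < δ / 200 by positivity))
  refine ⟨δ / 50, max R₀ 5, max N₁ (max N₂ (max N₃ 3)), by positivity, ?_⟩
  intro N hN m F hF0
  have hNN1 : N₁ ≤ N := (le_max_left _ _).trans hN
  have hN' := (le_max_right _ _).trans hN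
  have hNN2 : N₂ ≤ N := (le_max_left _ _).trans hN'
  have hN'' := (le_max_right _ _).trans hN'
  have hNN3 : N₃ ≤ N := (le_max_left _ _).trans hN''
  have hN3 : 3 ≤ N := (le_max_right _ _).trans hN''
  have hN0 : (0 : ℝ) < N := by
    have : 0 < N := by omega
    exact_mod_cast this
  have hF : ∀ n ∈ F, n ≤ N ∧ Admissible m n ∧ ExcC (max R₀ 5) m n ε := by
    intro n hn
    obtain ⟨a1, a2, a3⟩ := hF0 n hn
    refine ⟨a1, a2, ?_⟩
    rcases a3 with a3 | ⟨a3, a4⟩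
    · exact Or.inl a3
    · refine Or.inr ⟨a3, a4.trans_le ?_⟩
      have hm : 1 ≤ m := a2.1
      exact Real.rpow_le_rpow_of_exponent_le (by exact_mod_cast (by omega : 1 ≤ n)) (by linarith)
  have h3 := hN₁ N hNN1 m F hF
  refine ⟨?_, h3⟩
  rcases F.eq_empty_or_nonempty with rfl | ⟨n, hn⟩
  · rw [card_empty, Nat.cast_zero]
    exact Real.rpow_nonneg hN0.le _
  · have hm : 1 ≤ m := (hF n hn).2.1.1
    by_cases hmN : (m : ℝ) ≤ (N : ℝ) ^ (δ / 40)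
    · exact hN₂ N hNN2 m hm hmN F hF
    · exact fi_large hN0 (Nat.cast_nonneg _) (not_le.mp hmN) (hN₃ N hNN3) h3

end Pool.Agent.MVII
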