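import Pool.Agent.MVII.St2

set_option autoImplicit false

/-!
# MVII, module Lo: means of the local Ramanujan sums (helper18)
-/

namespace Pool.Agent.MVII

open Finset

/-- a linear congruence with invertible coefficient has one solution in `range p` -/
private lemma lo_root {p m : ℕ} (n : ℤ) (hp : p.Prime) (hm : ¬ p ∣ m) :
    ∃ x₀ ∈ range p, ∀ y ∈ range p, ((p : ℤ) ∣ n - m * (y : ℤ)) ↔ y = x₀ := by
  haveI : Fact p.Prime := ⟨hp⟩
  have hm0 : (m : ZMod p) ≠ 0 := by
    rw [Ne, ZMod.natCast_eq_zero_iff]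
    exact hm
  refine ⟨((n : ZMod p) * (m : ZMod p)⁻¹).val, Finset.mem_range.2 (ZMod.val_lt _), ?_⟩
  intro y hy
  have h1 : ((p : ℤ) ∣ n - m * (y : ℤ)) ↔ (y : ZMod p) = (n : ZMod p) * (m : ZMod p)⁻¹ := by
    rw [← ZMod.intCast_zmod_eq_zero_iff_dvd]
    push_cast
    constructor
    · intro h
      field_simp
      linear_combination (-1 : ZMod p) * h
    · intro h
      rw [h]
      field_simp
      ring
  rw [h1]
  constructor
  · intro h
    rw [← h, ZMod.val_natCast, Nat.mod_eq_of_lt (Finset.mem_range.1 hy)]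
  · intro h
    rw [h, ZMod.natCast_zmod_val]

private lemma lo_sum_one {p : ℕ} (hp : p.Prime) (x₀ : ℕ) (hx : x₀ ∈ range p) (g : ℕ → ℝ)
    (hg : ∀ y ∈ range p, g y = if y = x₀ then (p : ℝ) - 1 else -1) :
    ∑ y ∈ range p, g y = 0 := by
  rw [Finset.sum_congr rfl hg]
  have h1 : ∀ y ∈ range p, (if y = x₀ then (p : ℝ) - 1 else -1) = (if y = x₀ then (p : ℝ) else 0) - 1 := by
    intro y _
    split_ifs <;> ring
  rw [Finset.sum_congr rfl h1, Finset.sum_sub_distrib, Finset.sum_ite_eq' (range p) x₀, if_pos hx,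
    Finset.sum_const, Finset.card_range, nsmul_eq_mul, mul_one, sub_self]

theorem thm_Lo : St_Lo := by
  intro p m n hp hm
  have hp0 : (p : ℂ) ≠ 0 := by exact_mod_cast hp.ne_zero
  have hp0' : (p : ℝ) ≠ 0 := by exact_mod_cast hp.ne_zero
  obtain ⟨x₀, hx₀, hx⟩ := lo_root n hp hm
  -- the second root is `0`
  have hz : ∀ y ∈ range p, ((p : ℤ) ∣ (y : ℤ)) ↔ y = 0 := by
    intro y hy
    rw [Int.natCast_dvd_natCast]
    constructor
    · intro h
      exact Nat.eq_zero_of_dvd_of_lt h (Finset.mem_range.1 hy)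
    · rintro rfl
      exact dvd_zero p
  have h0 : (0 : ℕ) ∈ range p := Finset.mem_range.2 hp.pos
  have hc1 : ∀ y ∈ range p, cp p (y : ℤ) = if y = 0 then (p : ℝ) - 1 else -1 := by
    intro y hy
    unfold cp
    simp only [hz y hy]
  have hc2 : ∀ y ∈ range p, cp p (n - m * (y : ℤ)) = if y = x₀ then (p : ℝ) - 1 else -1 := by
    intro y hy
    unfold cp
    simp only [hx y hy]
  have hmn : ∀ (g : ℤ → ℝ) (s : ℝ), ∑ y ∈ range p, g (y : ℤ) = p * s →
      mn p (fun y => ((g y : ℝ) : ℂ)) = (s : ℂ) := by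
    intro g s h
    unfold mn
    rw [← Complex.ofReal_sum, h]
    push_cast
    rw [mul_div_cancel_left₀ _ hp0]
  refine ⟨?_, ?_, ?_⟩
  · have := hmn (fun y => cp p y) 0 (by rw [mul_zero]; exact lo_sum_one hp 0 h0 _ hc1)
    simpa using this
  · have := hmn (fun y => cp p (n - m * y)) 0 (by rw [mul_zero]; exact lo_sum_one hp x₀ hx₀ _ hc2)
    simpa using this
  · refine hmn (fun y => cp p (n - m * y) * cp p y) (cp p n) ?_
    have h1 : ∀ y ∈ range p, cp p (n - m * (y : ℤ)) * cp p (y : ℤ) =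
        (if y = x₀ then (p : ℝ) else 0) * (if y = 0 then (p : ℝ) else 0) -
          (if y = x₀ then (p : ℝ) else 0) - (if y = 0 then (p : ℝ) else 0) + 1 := by
      intro y hy
      rw [hc1 y hy, hc2 y hy]
      split_ifs <;> ring
    rw [Finset.sum_congr rfl h1, Finset.sum_add_distrib, Finset.sum_sub_distrib,
      Finset.sum_sub_distrib, Finset.sum_ite_eq' (range p) x₀, if_pos hx₀,
      Finset.sum_ite_eq' (range p) 0, if_pos h0, Finset.sum_const, Finset.card_range, nsmul_eq_mul,
      mul_one]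
    have h2 : ∑ y ∈ range p, (if y = x₀ then (p : ℝ) else 0) * (if y = 0 then (p : ℝ) else 0) =
        if x₀ = 0 then (p : ℝ) * p else 0 := by
      rw [Finset.sum_eq_single 0]
      · simp only [if_true, eq_comm (a := (0 : ℕ)) (b := x₀)]
        split_ifs <;> ring
      · intro y _ hy
        rw [if_neg hy, mul_zero]
      · intro h
        exact absurd h0 h
    rw [h2]
    have h3 : ((p : ℤ) ∣ n) ↔ x₀ = 0 := by
      have := hx 0 h0
      rw [Nat.cast_zero, mul_zero, sub_zero] at this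
      rw [this, eq_comm]
    unfold cp
    simp only [h3]
    split_ifs <;> ring

end Pool.Agent.MVII
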