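import Pool.Agent.MVII.St1
import Pool.Agent.GBQ.Basic
import Pool.Agent.GBQ.Crt

/-!
# MVII, module Sw: the sieve weight costs little in the supremum norm
-/

set_option autoImplicit false

namespace Pool.Agent.MVII

open Finset Filter
open Pool.Agent.GBQ (ee lam nd Admissible ee_norm ee_zero ee_add ee_int ee_add_int)
open Pool.Agent.MVX (Chr tent Bm Um prm Win GP)
open Pool.Agent.LIN (PP pz)

theorem sw_ee_mul_nat (x : ℝ) (j : ℕ) : ee (j * x) = ee x ^ j := by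
  induction j with
  | zero => simp [ee_zero]
  | succ j ih =>
    rw [pow_succ, ← ih, ← ee_add]
    congr 1
    push_cast
    ring

theorem sw_ee_eq_one {x : ℝ} (h : ee x = 1) : ∃ n : ℤ, x = n := by
  unfold Pool.Agent.GBQ.ee at h
  rw [Complex.exp_eq_one_iff] at h
  obtain ⟨n, hn⟩ := h
  refine ⟨n, ?_⟩
  have h1 : ((2 * Real.pi * x : ℝ) : ℂ) * Complex.I = ((2 * Real.pi * n : ℝ) : ℂ) * Complex.I := by
    rw [hn]
    push_cast
    ring
  have h2 := mul_right_cancel₀ Complex.I_ne_zero h1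
  have h3 : 2 * Real.pi * x = 2 * Real.pi * n := by exact_mod_cast h2
  exact mul_left_cancel₀ (by positivity) h3

theorem sw_orth {N : ℕ} (hN : 1 ≤ N) (x : ℤ) :
    ∑ j ∈ range N, ee ((j : ℝ) * x / N) = if (N : ℤ) ∣ x then (N : ℂ) else 0 := by
  have hN0 : (N : ℝ) ≠ 0 := by
    have : (0 : ℝ) < N := by exact_mod_cast hN
    exact this.ne'
  set ζ : ℂ := ee ((x : ℝ) / N) with hζ
  have h1 : ∀ j ∈ range N, ee ((j : ℝ) * x / N) = ζ ^ j := by
    intro j _
    rw [hζ, ← sw_ee_mul_nat]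
    congr 1
    ring
  rw [Finset.sum_congr rfl h1]
  split_ifs with hd
  · obtain ⟨y, hy⟩ := hd
    have h2 : ζ = 1 := by
      rw [hζ, hy]
      have h3 : (((N : ℤ) * y : ℤ) : ℝ) / N = (y : ℤ) := by
        push_cast
        field_simp
      rw [h3, ee_int]
    rw [h2]
    simp
  · have h2 : ζ ≠ 1 := by
      intro h3
      obtain ⟨n, hn⟩ := sw_ee_eq_one h3
      apply hd
      refine ⟨n, ?_⟩
      rw [div_eq_iff hN0] at hn
      have h4 : (x : ℝ) = ((N : ℤ) * n : ℤ) := by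
        push_cast
        rw [hn]
        ring
      exact_mod_cast h4
    have h3 : ζ ^ N = 1 := by
      rw [hζ, ← sw_ee_mul_nat]
      have h4 : (N : ℝ) * ((x : ℝ) / N) = (x : ℤ) := by
        field_simp
      rw [h4, ee_int]
    rw [geom_sum_eq h2, h3, sub_self, zero_div]

/-- restricting to a residue class does not increase the supremum norm -/
theorem sw_class {N d ν : ℕ} {M : ℝ} (hd : 1 ≤ d) (hν : ν < d) (F : ℕ → ℂ)
    (hM : ∀ α : ℝ, ‖∑ x ∈ range N, F x * ee (α * x)‖ ≤ M) (α : ℝ) :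
    ‖∑ x ∈ range N, (if x % d = ν then F x * ee (α * x) else 0)‖ ≤ M := by
  have hd0 : (0 : ℝ) < d := by exact_mod_cast hd
  have hdC : (d : ℂ) ≠ 0 := by
    have : d ≠ 0 := by omega
    exact_mod_cast this
  have h1 : ∀ x : ℕ, (if x % d = ν then F x * ee (α * x) else 0) =
      ∑ j ∈ range d, (ee (-((j : ℝ) * ν / d)) / d) * (F x * ee ((α + j / d) * x)) := by
    intro x
    have h2 : ∀ j ∈ range d, (ee (-((j : ℝ) * ν / d)) / d) * (F x * ee ((α + j / d) * x)) =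
        (F x * ee (α * x) / d) * ee ((j : ℝ) * ((x : ℤ) - (ν : ℤ) : ℤ) / d) := by
      intro j _
      have h3 : ee (-((j : ℝ) * ν / d)) * ee ((α + j / d) * x) =
          ee (α * x) * ee ((j : ℝ) * ((x : ℤ) - (ν : ℤ) : ℤ) / d) := by
        rw [← ee_add, ← ee_add]
        congr 1
        push_cast
        ring
      calc (ee (-((j : ℝ) * ν / d)) / d) * (F x * ee ((α + j / d) * x)) =
            F x * (ee (-((j : ℝ) * ν / d)) * ee ((α + j / d) * x)) / d := by ring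
        _ = _ := by rw [h3]; ring
    rw [Finset.sum_congr rfl h2, ← Finset.mul_sum, sw_orth hd]
    have h4 : ((d : ℤ) ∣ (x : ℤ) - (ν : ℤ)) ↔ x % d = ν := by
      rw [← Nat.modEq_iff_dvd]
      unfold Nat.ModEq
      rw [Nat.mod_eq_of_lt hν]
      exact eq_comm
    by_cases h5 : x % d = ν
    · rw [if_pos h5, if_pos (h4.mpr h5)]
      field_simp
    · rw [if_neg h5, if_neg (fun h6 => h5 (h4.mp h6)), mul_zero]
  have h6 : ∑ x ∈ range N, (if x % d = ν then F x * ee (α * x) else 0) =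
      ∑ j ∈ range d, (ee (-((j : ℝ) * ν / d)) / d) *
        ∑ x ∈ range N, F x * ee ((α + j / d) * x) := by
    rw [Finset.sum_congr rfl fun x _ => h1 x, Finset.sum_comm]
    refine Finset.sum_congr rfl fun j _ => ?_
    rw [Finset.mul_sum]
  rw [h6]
  have h7 : ∀ j ∈ range d, ‖(ee (-((j : ℝ) * ν / d)) / d) *
      ∑ x ∈ range N, F x * ee ((α + j / d) * x)‖ ≤ M / d := by
    intro j _
    rw [norm_mul, norm_div, ee_norm, Complex.norm_natCast]
    calc 1 / (d : ℝ) * ‖∑ x ∈ range N, F x * ee ((α + j / d) * x)‖ ≤ 1 / (d : ℝ) * M :=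
          mul_le_mul_of_nonneg_left (hM _) (by positivity)
      _ = M / d := by ring
  refine (norm_sum_le _ _).trans ((Finset.sum_le_card_nsmul _ _ _ h7).trans ?_)
  rw [Finset.card_range, nsmul_eq_mul]
  refine le_of_eq ?_
  field_simp

/-- at most two roots modulo a prime -/
theorem sw_roots {p : ℕ} (hp : p.Prime) :
    ((range p).filter (fun ν : ℕ => (p : ℤ) ∣ (ν : ℤ) ^ 2 - 2)).card ≤ 2 := by
  classical
  have : Fact p.Prime := ⟨hp⟩
  have h1 : ((range p).filter (fun ν : ℕ => (p : ℤ) ∣ (ν : ℤ) ^ 2 - 2)).card ≤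
      ((Finset.univ : Finset (ZMod p)).filter (fun a => a ^ 2 = 2)).card := by
    refine Finset.card_le_card_of_injOn (fun ν : ℕ => (ν : ZMod p)) ?_ ?_
    · intro ν hν
      rw [Finset.mem_coe, Finset.mem_filter] at hν
      rw [Finset.mem_coe, Finset.mem_filter]
      refine ⟨Finset.mem_univ _, ?_⟩
      have h2 := (ZMod.intCast_zmod_eq_zero_iff_dvd ((ν : ℤ) ^ 2 - 2) p).mpr hν.2
      push_cast at h2
      exact sub_eq_zero.mp h2
    · intro ν hν ν' hν' h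
      rw [Finset.mem_coe, Finset.mem_filter, Finset.mem_range] at hν hν'
      have h2 := (ZMod.natCast_eq_natCast_iff ν ν' p).mp h
      exact h2.eq_of_lt_of_lt hν.1 hν'.1
  refine h1.trans ?_
  rcases ((Finset.univ : Finset (ZMod p)).filter (fun a => a ^ 2 = 2)).eq_empty_or_nonempty with
    h0 | ⟨a, ha⟩
  · rw [h0]
    simp
  · rw [Finset.mem_filter] at ha
    have h2 : ((Finset.univ : Finset (ZMod p)).filter (fun a => a ^ 2 = 2)) ⊆ {a, -a} := by
      intro b hb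
      rw [Finset.mem_filter] at hb
      rw [Finset.mem_insert, Finset.mem_singleton]
      have h3 : b ^ 2 = a ^ 2 := by rw [hb.2, ha.2]
      exact sq_eq_sq_iff_eq_or_eq_neg.mp h3
    exact (Finset.card_le_card h2).trans (Finset.card_insert_le _ _)

/-- number of roots for several primes -/
theorem sw_count {U : Finset ℕ} (hU : ∀ p ∈ U, p.Prime) :
    ((range (∏ p ∈ U, p)).filter (fun ν : ℕ => ∀ p ∈ U, (p : ℤ) ∣ (ν : ℤ) ^ 2 - 2)).card ≤
      2 ^ U.card := by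
  have h1 := Pool.Agent.GBQ.thm_Crt U
    (fun p => (range p).filter (fun ν : ℕ => (p : ℤ) ∣ (ν : ℤ) ^ 2 - 2)) hU
    (fun p _ => Finset.filter_subset _ _)
  have h2 : (range (∏ p ∈ U, p)).filter (fun ν : ℕ => ∀ p ∈ U, (p : ℤ) ∣ (ν : ℤ) ^ 2 - 2) =
      (range (∏ p ∈ U, p)).filter (fun c => ∀ p ∈ U,
        c % p ∈ (range p).filter (fun ν : ℕ => (p : ℤ) ∣ (ν : ℤ) ^ 2 - 2)) := by
    refine Finset.filter_congr ?_
    intro ν _
    refine forall₂_congr ?_
    intro p hp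
    rw [Finset.mem_filter, Finset.mem_range]
    have h3 : (((ν % p : ℕ) : ℤ)) ≡ (ν : ℤ) [ZMOD p] := by
      push_cast
      exact Int.mod_modEq _ _
    have h4 : (((ν % p : ℕ) : ℤ)) ^ 2 - 2 ≡ (ν : ℤ) ^ 2 - 2 [ZMOD p] :=
      (h3.pow 2).sub_right 2
    constructor
    · intro h5
      exact ⟨Nat.mod_lt _ (hU p hp).pos, h4.dvd_iff.mpr h5⟩
    · rintro ⟨-, h5⟩
      exact h4.dvd_iff.mp h5
  rw [h2, h1]
  refine (Finset.prod_le_prod' fun p hp => sw_roots (hU p hp)).trans ?_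
  rw [Finset.prod_const]

/-- one set of primes -/
theorem sw_one {N : ℕ} {M : ℝ} {U : Finset ℕ} (hU : ∀ p ∈ U, p.Prime) (F : ℕ → ℂ)
    (hM : ∀ α : ℝ, ‖∑ x ∈ range N, F x * ee (α * x)‖ ≤ M) (α : ℝ) :
    ‖∑ x ∈ range N, (if ∀ p ∈ U, (p : ℤ) ∣ (x : ℤ) ^ 2 - 2 then F x * ee (α * x) else 0)‖ ≤
      2 ^ U.card * M := by
  set d : ℕ := ∏ p ∈ U, p with hd
  have hd1 : 1 ≤ d :=
    Nat.one_le_iff_ne_zero.mpr (Finset.prod_ne_zero_iff.mpr fun p hp => (hU p hp).ne_zero)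
  set R : Finset ℕ := (range d).filter (fun ν : ℕ => ∀ p ∈ U, (p : ℤ) ∣ (ν : ℤ) ^ 2 - 2) with hR
  have hM0 : 0 ≤ M := (norm_nonneg _).trans (hM 0)
  have h1 : ∀ x : ℕ, (if ∀ p ∈ U, (p : ℤ) ∣ (x : ℤ) ^ 2 - 2 then F x * ee (α * x) else 0) =
      ∑ ν ∈ R, (if x % d = ν then F x * ee (α * x) else 0) := by
    intro x
    rw [Finset.sum_ite_eq]
    have h2 : x % d ∈ R ↔ ∀ p ∈ U, (p : ℤ) ∣ (x : ℤ) ^ 2 - 2 := by
      rw [hR, Finset.mem_filter, Finset.mem_range]
      have h3 : (∀ p ∈ U, (p : ℤ) ∣ (((x % d : ℕ) : ℤ)) ^ 2 - 2) ↔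
          ∀ p ∈ U, (p : ℤ) ∣ (x : ℤ) ^ 2 - 2 := by
        refine forall₂_congr ?_
        intro p hp
        have h4 : (((x % d : ℕ) : ℤ)) ≡ (x : ℤ) [ZMOD d] := by
          push_cast
          exact Int.mod_modEq _ _
        have h5 : (((x % d : ℕ) : ℤ)) ≡ (x : ℤ) [ZMOD p] := by
          refine h4.of_dvd ?_
          exact_mod_cast Finset.dvd_prod_of_mem (fun p => p) hp
        have h6 : (((x % d : ℕ) : ℤ)) ^ 2 - 2 ≡ (x : ℤ) ^ 2 - 2 [ZMOD p] :=
          (h5.pow 2).sub_right 2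
        exact h6.dvd_iff
      rw [h3]
      exact ⟨fun h => h.2, fun h => ⟨Nat.mod_lt _ hd1, h⟩⟩
    by_cases h3 : ∀ p ∈ U, (p : ℤ) ∣ (x : ℤ) ^ 2 - 2
    · rw [if_pos h3, if_pos (h2.mpr h3)]
    · rw [if_neg h3, if_neg (fun h => h3 (h2.mp h))]
  rw [Finset.sum_congr rfl fun x _ => h1 x, Finset.sum_comm]
  have h2 : ∀ ν ∈ R, ‖∑ x ∈ range N, (if x % d = ν then F x * ee (α * x) else 0)‖ ≤ M := by
    intro ν hν
    rw [hR, Finset.mem_filter, Finset.mem_range] at hν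
    exact sw_class hd1 hν.1 F hM α
  refine (norm_sum_le _ _).trans ((Finset.sum_le_card_nsmul _ _ _ h2).trans ?_)
  rw [nsmul_eq_mul]
  refine mul_le_mul_of_nonneg_right ?_ hM0
  have h3 := sw_count hU
  exact_mod_cast h3

/-- the sum of the coefficients -/
theorem sw_coef {q₁ w : ℕ} {D : ℝ} {ψ : Finset ℕ → ℝ} (hq : 1 ≤ q₁) (hD : 1 ≤ D)
    (hψ : IsPsi w D ψ) :
    ∑ U ∈ (PP 2 w).powerset, |sg q₁ ψ U| * 2 ^ U.card ≤
      (4 : ℝ) ^ q₁.primeFactors.card * D ^ 2 := by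
  classical
  set P : Finset ℕ := PP 2 w with hP
  have hpr : ∀ p ∈ P, p.Prime := by
    intro p hp
    rw [hP] at hp
    unfold PP at hp
    exact (Finset.mem_filter.mp hp).2
  set A : Finset (Finset ℕ) := P.powerset.filter (fun U => sg q₁ ψ U ≠ 0) with hA
  set B : Finset (Finset ℕ) := P.powerset.filter (fun T => ψ T ≠ 0) with hB
  set g : Finset ℕ → Finset ℕ × Finset ℕ :=
    fun U => (U.filter (fun p => p ∣ q₁), U.filter (fun p => ¬ p ∣ q₁)) with hg
  have hsg : ∀ U, |sg q₁ ψ U| ≤ 1 := by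
    intro U
    unfold sg
    rw [abs_mul, abs_pow, abs_neg, abs_one, one_pow, one_mul]
    exact hψ.bd _
  have h1 : ∑ U ∈ P.powerset, |sg q₁ ψ U| * 2 ^ U.card ≤
      ∑ U ∈ A, (2 : ℝ) ^ (g U).1.card * 2 ^ (g U).2.card := by
    have h2 : ∑ U ∈ P.powerset, |sg q₁ ψ U| * 2 ^ U.card =
        ∑ U ∈ A, |sg q₁ ψ U| * 2 ^ U.card := by
      rw [hA]
      refine (Finset.sum_filter_of_ne ?_).symm
      intro U _ h3 h4
      apply h3
      rw [h4, abs_zero, zero_mul]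
    rw [h2]
    refine Finset.sum_le_sum fun U _ => ?_
    have h5 : (2 : ℝ) ^ (g U).1.card * 2 ^ (g U).2.card = 2 ^ U.card := by
      rw [← pow_add]
      congr 1
      exact Finset.card_filter_add_card_filter_not _
    rw [h5]
    calc |sg q₁ ψ U| * 2 ^ U.card ≤ 1 * 2 ^ U.card :=
          mul_le_mul_of_nonneg_right (hsg U) (by positivity)
      _ = 2 ^ U.card := one_mul _
  have hinj : Set.InjOn g (A : Set (Finset ℕ)) := by
    intro U _ U' _ h
    have e1 : U.filter (fun p => p ∣ q₁) = U'.filter (fun p => p ∣ q₁) := congrArg Prod.fst h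
    have e2 : U.filter (fun p => ¬ p ∣ q₁) = U'.filter (fun p => ¬ p ∣ q₁) :=
      congrArg Prod.snd h
    rw [← Finset.filter_union_filter_not_eq (fun p => p ∣ q₁) U, e1, e2,
      Finset.filter_union_filter_not_eq]
  have h2 : ∑ U ∈ A, (2 : ℝ) ^ (g U).1.card * 2 ^ (g U).2.card ≤
      ∑ x ∈ q₁.primeFactors.powerset ×ˢ B, (2 : ℝ) ^ x.1.card * 2 ^ x.2.card := by
    rw [← Finset.sum_image (f := fun x : Finset ℕ × Finset ℕ =>
      (2 : ℝ) ^ x.1.card * 2 ^ x.2.card) hinj]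
    refine Finset.sum_le_sum_of_subset_of_nonneg ?_ (fun _ _ _ => by positivity)
    intro x hx
    rw [Finset.mem_image] at hx
    obtain ⟨U, hU, rfl⟩ := hx
    rw [hA, Finset.mem_filter, Finset.mem_powerset] at hU
    rw [Finset.mem_product, Finset.mem_powerset, hB, Finset.mem_filter, Finset.mem_powerset]
    refine ⟨?_, ?_, ?_⟩
    · intro p hp
      rw [hg] at hp
      have hp' := Finset.mem_filter.mp hp
      rw [Nat.mem_primeFactors]
      exact ⟨hpr p (hU.1 hp'.1), hp'.2, by omega⟩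
    · exact (Finset.filter_subset _ _).trans hU.1
    · intro h0
      apply hU.2
      unfold sg
      rw [hg] at h0
      simp only [] at h0
      rw [h0, mul_zero]
  have h3 : ∑ x ∈ q₁.primeFactors.powerset ×ˢ B, (2 : ℝ) ^ x.1.card * 2 ^ x.2.card =
      (∑ V ∈ q₁.primeFactors.powerset, (2 : ℝ) ^ V.card) * ∑ T ∈ B, (2 : ℝ) ^ T.card := by
    rw [Finset.sum_product, Finset.sum_mul_sum]
  have h4 : ∑ V ∈ q₁.primeFactors.powerset, (2 : ℝ) ^ V.card = 3 ^ q₁.primeFactors.card := by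
    have h5 := Finset.sum_pow_mul_eq_add_pow (2 : ℝ) 1 q₁.primeFactors
    simp only [one_pow, mul_one] at h5
    rw [h5]
    norm_num
  have hTD : ∀ T ∈ B, (2 : ℝ) ^ T.card ≤ D := by
    intro T hT
    rw [hB, Finset.mem_filter, Finset.mem_powerset] at hT
    refine le_trans ?_ (hψ.supp T hT.2).2
    have h5 : 2 ^ T.card ≤ ∏ p ∈ T, p := by
      rw [← Finset.prod_const]
      exact Finset.prod_le_prod' fun p hp => (hpr p (hT.1 hp)).two_le
    exact_mod_cast h5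
  have hBc : (B.card : ℝ) ≤ D := by
    have h5 : B.card ≤ (Icc 1 ⌊D⌋₊).card := by
      refine Finset.card_le_card_of_injOn (fun U => ∏ p ∈ U, p) ?_ ?_
      · intro U hU
        rw [Finset.mem_coe, hB, Finset.mem_filter, Finset.mem_powerset] at hU
        rw [Finset.mem_coe, Finset.mem_Icc]
        exact ⟨Nat.one_le_iff_ne_zero.mpr
          (Finset.prod_ne_zero_iff.mpr fun p hp => (hpr p (hU.1 hp)).ne_zero),
          Nat.le_floor (hψ.supp U hU.2).2⟩
      · intro U hU U' hU' h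
        rw [Finset.mem_coe, hB, Finset.mem_filter, Finset.mem_powerset] at hU hU'
        have e1 := Nat.primeFactors_prod fun p hp => hpr p (hU.1 hp)
        have e2 := Nat.primeFactors_prod fun p hp => hpr p (hU'.1 hp)
        have h' : ∏ p ∈ U, p = ∏ p ∈ U', p := h
        rw [← e1, h', e2]
    rw [Nat.card_Icc, Nat.add_sub_cancel] at h5
    calc (B.card : ℝ) ≤ (⌊D⌋₊ : ℝ) := by exact_mod_cast h5
      _ ≤ D := Nat.floor_le (by linarith)
  have h5 : ∑ T ∈ B, (2 : ℝ) ^ T.card ≤ D ^ 2 := by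
    refine (Finset.sum_le_card_nsmul _ _ _ hTD).trans ?_
    rw [nsmul_eq_mul, pow_two]
    exact mul_le_mul_of_nonneg_right hBc (by linarith)
  refine h1.trans (h2.trans ?_)
  rw [h3, h4]
  refine mul_le_mul ?_ h5 (Finset.sum_nonneg fun _ _ => by positivity) (by positivity)
  exact pow_le_pow_left₀ (by norm_num) (by norm_num) _

theorem thm_Sw : St_Sw := by
  intro q₁ w N D M ψ F hq hD hψ hM α
  have hM0 : 0 ≤ M := (norm_nonneg _).trans (hM 0)
  have hpr : ∀ p ∈ PP 2 w, p.Prime := by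
    intro p hp
    unfold PP at hp
    exact (Finset.mem_filter.mp hp).2
  have h1 : ∑ x ∈ range N, F x * ((SS q₁ w ψ (x : ℤ) : ℝ) : ℂ) * ee (α * x) =
      ∑ U ∈ (PP 2 w).powerset, ((sg q₁ ψ U : ℝ) : ℂ) *
        ∑ x ∈ range N, (if ∀ p ∈ U, (p : ℤ) ∣ (x : ℤ) ^ 2 - 2 then F x * ee (α * x) else 0) := by
    have h2 : ∀ x ∈ range N, F x * ((SS q₁ w ψ (x : ℤ) : ℝ) : ℂ) * ee (α * x) =
        ∑ U ∈ (PP 2 w).powerset, ((sg q₁ ψ U : ℝ) : ℂ) *
          (if ∀ p ∈ U, (p : ℤ) ∣ (x : ℤ) ^ 2 - 2 then F x * ee (α * x) else 0) := by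
      intro x _
      unfold SS
      rw [Complex.ofReal_sum, Finset.mul_sum, Finset.sum_mul]
      refine Finset.sum_congr rfl fun U _ => ?_
      by_cases h3 : ∀ p ∈ U, (p : ℤ) ∣ (x : ℤ) ^ 2 - 2
      · rw [if_pos h3, if_pos h3]
        ring
      · rw [if_neg h3, if_neg h3, Complex.ofReal_zero]
        ring
    rw [Finset.sum_congr rfl h2, Finset.sum_comm]
    refine Finset.sum_congr rfl fun U _ => ?_
    rw [Finset.mul_sum]
  rw [h1]
  refine (norm_sum_le _ _).trans ?_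
  have h4 : ∀ U ∈ (PP 2 w).powerset, ‖((sg q₁ ψ U : ℝ) : ℂ) *
      ∑ x ∈ range N, (if ∀ p ∈ U, (p : ℤ) ∣ (x : ℤ) ^ 2 - 2 then F x * ee (α * x) else 0)‖ ≤
      |sg q₁ ψ U| * 2 ^ U.card * M := by
    intro U hU
    rw [Finset.mem_powerset] at hU
    rw [norm_mul, Complex.norm_real, Real.norm_eq_abs, mul_assoc]
    exact mul_le_mul_of_nonneg_left (sw_one (fun p hp => hpr p (hU hp)) F hM α) (abs_nonneg _)
  refine (Finset.sum_le_sum h4).trans ?_
  rw [← Finset.sum_mul]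
  exact mul_le_mul_of_nonneg_right (sw_coef hq hD hψ) hM0

end Pool.Agent.MVII
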