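import Pool.Agent.MVII.St1

set_option autoImplicit false

/-!
# MVII: the kernel of Fejér (helper87)
-/

namespace Pool.Agent.MVII

open Finset Filter
open Pool.Agent.GBQ (ee lam nd Admissible)
open Pool.Agent.MVX (Chr tent Bm Um prm Win GP)
open Pool.Agent.LIN (PP pz)

private lemma fj_sin (θ : ℝ) : |Real.sin (Real.pi * θ)| = Real.sin (Real.pi * nd θ) := by
  have h0 : 0 ≤ nd θ := abs_nonneg _
  have hh : nd θ ≤ 1 / 2 := abs_sub_round θ
  have h1 : Real.pi * θ = Real.pi * (θ - round θ) + (round θ : ℤ) * Real.pi := by ring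
  have h2 : |Real.sin (Real.pi * θ)| = |Real.sin (Real.pi * (θ - round θ))| := by
    rw [h1, Real.sin_add_int_mul_pi, abs_mul]
    have h3 : |((-1 : ℝ) ^ (round θ : ℤ))| = 1 := by
      rw [abs_zpow, abs_neg, abs_one, one_zpow]
    rw [h3, one_mul]
  have h4 : 0 ≤ Real.sin (Real.pi * nd θ) := by
    apply Real.sin_nonneg_of_nonneg_of_le_pi
    · exact mul_nonneg Real.pi_pos.le h0
    · nlinarith [Real.pi_pos]
  rw [h2]
  rcases abs_cases (θ - round θ) with ⟨h5, _⟩ | ⟨h5, _⟩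
  · unfold nd at h4 ⊢
    rw [h5] at h4 ⊢
    exact abs_of_nonneg h4
  · unfold nd at h4 ⊢
    rw [h5] at h4 ⊢
    rw [mul_neg, Real.sin_neg] at h4 ⊢
    rw [← abs_neg, abs_of_nonneg h4]

private lemma fj_sin_ge (θ : ℝ) : 2 * nd θ ≤ |Real.sin (Real.pi * θ)| := by
  have h0 : 0 ≤ nd θ := abs_nonneg _
  have hh : nd θ ≤ 1 / 2 := abs_sub_round θ
  rw [fj_sin]
  have h1 := Real.mul_le_sin (x := Real.pi * nd θ)
    (mul_nonneg Real.pi_pos.le h0) (by nlinarith [Real.pi_pos])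
  have h2 : 2 / Real.pi * (Real.pi * nd θ) = 2 * nd θ := by
    field_simp
  rwa [h2] at h1

private lemma fj_ee_sub (x : ℝ) : ‖ee x - 1‖ = 2 * |Real.sin (Real.pi * x)| := by
  have h1 : ee x = Complex.exp (Complex.I * ((2 * Real.pi * x : ℝ) : ℂ)) := by
    unfold ee
    rw [mul_comm]
  rw [h1, Complex.norm_exp_I_mul_ofReal_sub_one, Real.norm_eq_abs, abs_mul, abs_two]
  congr 3
  ring

private lemma fj_ee_norm (x : ℝ) : ‖ee x‖ = 1 := by
  unfold ee
  exact Complex.norm_exp_ofReal_mul_I _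

private lemma fj_ee_pow (γ : ℝ) (j : ℕ) : ee (γ * j) = ee γ ^ j := by
  unfold ee
  rw [← Complex.exp_nat_mul]
  congr 1
  push_cast
  ring

private lemma fj_ee_le (x : ℝ) : ‖ee x - 1‖ ≤ 2 * Real.pi * |x| := by
  rw [fj_ee_sub]
  have h1 : |Real.sin (Real.pi * x)| ≤ |Real.pi * x| := Real.abs_sin_le_abs
  rw [abs_mul, abs_of_pos Real.pi_pos] at h1
  linarith

/-- Fj. -/
theorem thm_Fj : St_Fj := by
  intro h γ hh
  have hpos : (0 : ℝ) < h := by exact_mod_cast hh
  have hpi := Real.pi_pos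
  set S : ℂ := ∑ j ∈ range h, ee (γ * j) with hS
  have hf : fj h γ = ‖S‖ ^ 2 / (h : ℝ) ^ 2 := rfl
  have h0 : 0 ≤ fj h γ := by rw [hf]; positivity
  have hSle : ‖S‖ ≤ h := by
    have e0 : ∀ j ∈ range h, ‖ee (γ * (j : ℝ))‖ ≤ 1 := fun j _ => (fj_ee_norm _).le
    refine (norm_sum_le _ _).trans ((Finset.sum_le_sum e0).trans ?_)
    simp
  have hnd : 0 ≤ nd γ := abs_nonneg _
  have hgeo : 2 * nd γ * ‖S‖ ≤ 1 := by
    have e1 : S = ∑ j ∈ range h, ee γ ^ j := Finset.sum_congr rfl fun j _ => fj_ee_pow γ j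
    have e2 : ‖S‖ * ‖ee γ - 1‖ ≤ 2 := by
      rw [← norm_mul, e1, geom_sum_mul]
      refine (norm_sub_le _ _).trans ?_
      rw [norm_pow, fj_ee_norm, one_pow, norm_one]
      norm_num
    rw [fj_ee_sub] at e2
    have e3 := fj_sin_ge γ
    have e4 : ‖S‖ * (2 * nd γ) ≤ ‖S‖ * |Real.sin (Real.pi * γ)| :=
      mul_le_mul_of_nonneg_left e3 (norm_nonneg _)
    nlinarith
  refine ⟨h0, ?_, ?_, ?_⟩
  · rw [hf, div_le_one (by positivity)]
    exact pow_le_pow_left₀ (norm_nonneg _) hSle 2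
  · have e1 : 4 * ((h : ℝ) * nd γ) ^ 2 * fj h γ = (2 * nd γ * ‖S‖) ^ 2 := by
      rw [hf]
      field_simp
      ring
    rw [e1]
    exact pow_le_one₀ (by positivity) hgeo
  · rcases le_or_gt (Real.pi * |γ| * h) 1 with h1 | h1
    · have e1 : ‖S - h‖ ≤ Real.pi * |γ| * h * h := by
        have e2 : S - h = ∑ j ∈ range h, (ee (γ * j) - 1) := by
          rw [Finset.sum_sub_distrib]
          simp [hS]
        rw [e2]
        refine (norm_sum_le _ _).trans ?_
        have e3 : ∀ j ∈ range h, ‖ee (γ * j) - 1‖ ≤ 2 * Real.pi * |γ| * j := by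
          intro j _
          refine (fj_ee_le _).trans ?_
          rw [abs_mul, Nat.abs_cast]
          linarith
        refine (Finset.sum_le_sum e3).trans ?_
        rw [← Finset.mul_sum]
        have e4 : (∑ j ∈ range h, (j : ℝ)) * 2 ≤ (h : ℝ) * h := by
          have e5 := Finset.sum_range_id_mul_two h
          have e6 : ((∑ j ∈ range h, j : ℕ) : ℝ) * 2 = (h : ℝ) * ((h - 1 : ℕ) : ℝ) := by
            exact_mod_cast e5
          rw [Nat.cast_sum] at e6
          rw [e6]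
          refine mul_le_mul_of_nonneg_left ?_ hpos.le
          exact_mod_cast Nat.sub_le h 1
        have e7 : 0 ≤ Real.pi * |γ| := by positivity
        nlinarith
      have e2 : (h : ℝ) * (1 - Real.pi * |γ| * h) ≤ ‖S‖ := by
        have e3 : (h : ℝ) = ‖((h : ℕ) : ℂ)‖ := by simp
        have e4 : ‖((h : ℕ) : ℂ)‖ ≤ ‖S‖ + ‖S - h‖ := by
          have := norm_sub_le S (S - h)
          simpa using this
        rw [← e3] at e4
        nlinarith
      have e3 : ((h : ℝ) * (1 - Real.pi * |γ| * h)) ^ 2 ≤ ‖S‖ ^ 2 :=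
        pow_le_pow_left₀ (mul_nonneg hpos.le (by linarith)) e2 2
      rw [hf, le_div_iff₀ (by positivity)]
      nlinarith [sq_nonneg ((h : ℝ) * (Real.pi * |γ| * h))]
    · have : 1 - 2 * Real.pi * (h * |γ|) ≤ 0 := by nlinarith
      linarith

end Pool.Agent.MVII
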