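import Mathlib
import Pool.Agent.MVII.St1
import Pool.Agent.GBQ.Basic
import Pool.Agent.BVX.MulLS

set_option autoImplicit false

/-!
# MVII.Gi: all characters modulo `q` together give `ee(- c/q)`
-/

namespace Pool.Agent.MVII

open Finset
open Pool.Agent.GBQ (ee lam nd Admissible)
open Pool.Agent.MVX (Chr tent Bm Um prm Win GP)

/-- characters modulo `q` and primitive characters with conductor dividing `q` -/
theorem gi_sum (q : ℕ) [NeZero q] (F : DirichletCharacter ℂ q → ℂ) :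
    ∑ ψ : DirichletCharacter ℂ q, F ψ =
      ∑ r ∈ q.divisors, ∑ χ ∈ prm r,
        (if h : r ∣ q then F (DirichletCharacter.changeLevel h χ) else 0) := by
  classical
  rw [Finset.sum_sigma']
  symm
  refine Finset.sum_bij
    (fun (x : (r : ℕ) × DirichletCharacter ℂ r) (_ : x ∈ q.divisors.sigma (fun r => prm r)) =>
      if h : x.1 ∣ q then DirichletCharacter.changeLevel h x.2 else 1) ?_ ?_ ?_ ?_
  · intro x _
    exact mem_univ _
  · rintro ⟨r, χ⟩ hx ⟨r', χ'⟩ hx' hxx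
    rw [mem_sigma, MVX.mem_prm, Nat.mem_divisors] at hx hx'
    simp only at hx hx' hxx
    rw [dif_pos hx.1.1, dif_pos hx'.1.1] at hxx
    have h1 := DirichletCharacter.conductor_changeLevel χ hx.1.1
    have h2 := DirichletCharacter.conductor_changeLevel χ' hx'.1.1
    have h3 := hx.2
    have h4 := hx'.2
    rw [DirichletCharacter.isPrimitive_def] at h3 h4
    have h5 : r = r' := by
      rw [← h3, ← h4, ← h1, ← h2, hxx]
    subst h5
    have h6 : χ = χ' := DirichletCharacter.changeLevel_injective hx.1.1 hxx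
    rw [h6]
  · intro ψ _
    refine ⟨⟨ψ.conductor, ψ.primitiveCharacter⟩, ?_, ?_⟩
    · rw [mem_sigma, MVX.mem_prm, Nat.mem_divisors]
      exact ⟨⟨ψ.conductor_dvd_level, NeZero.ne q⟩, ψ.primitiveCharacter_isPrimitive⟩
    · simp only
      rw [dif_pos ψ.conductor_dvd_level, DirichletCharacter.changeLevel_primitiveCharacter]
  · rintro ⟨r, χ⟩ hx
    rw [mem_sigma, Nat.mem_divisors] at hx
    simp only at hx
    simp only
    rw [dif_pos hx.1.1, dif_pos hx.1.1]

theorem gi_inv {r : ℕ} (χ : DirichletCharacter ℂ r) (x : ZMod r) :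
    χ⁻¹ x = (starRingEnd ℂ) (χ x) := by
  rw [← MulChar.star_apply']
  rfl

/-- orthogonality -/
theorem gi_orth (q : ℕ) [NeZero q] (c : ℤ) (hc : IsCoprime c (q : ℤ)) :
    (q.totient : ℂ) * ee (-(c : ℝ) / q) =
      ∑ ψ : DirichletCharacter ℂ q, ψ (c : ZMod q) *
        ∑ a ∈ rr q, (starRingEnd ℂ) (ψ (a : ZMod q)) * ee (-(a : ℝ) / q) := by
  classical
  have hq0 : (q : ℝ) ≠ 0 := by exact_mod_cast NeZero.ne q
  have hcu : IsUnit (c : ZMod q) := (ZMod.coe_int_isUnit_iff_isCoprime c q).mpr hc.symm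
  have e1 : ∑ ψ : DirichletCharacter ℂ q, ψ (c : ZMod q) *
      ∑ a ∈ rr q, (starRingEnd ℂ) (ψ (a : ZMod q)) * ee (-(a : ℝ) / q) =
      ∑ a ∈ rr q, (if (a : ZMod q) = (c : ZMod q) then (q.totient : ℂ) else 0) *
        ee (-(a : ℝ) / q) := by
    rw [Finset.sum_congr rfl (fun ψ _ => Finset.mul_sum _ _ _), Finset.sum_comm]
    refine Finset.sum_congr rfl fun a ha => ?_
    have hau : IsUnit (a : ZMod q) := by
      rw [rr, mem_filter] at ha
      exact (ZMod.isUnit_iff_coprime a q).mpr ha.2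
    rw [← DirichletCharacter.sum_char_inv_mul_char_eq ℂ hau (c : ZMod q), Finset.sum_mul]
    refine Finset.sum_congr rfl fun ψ _ => ?_
    have h1 : (starRingEnd ℂ) (ψ (a : ZMod q)) = ψ (a : ZMod q)⁻¹ := by
      rw [← gi_inv]
      have h1 : ψ (a : ZMod q) * ψ (a : ZMod q)⁻¹ = 1 := by
        rw [← map_mul, ZMod.mul_inv_of_unit _ hau, map_one]
      have h2 : ψ (a : ZMod q) * ψ⁻¹ (a : ZMod q) = 1 := by
        rw [← MulChar.mul_apply, mul_inv_cancel, MulChar.one_apply hau]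
      have h3 : ψ (a : ZMod q) ≠ 0 := left_ne_zero_of_mul_eq_one h1
      exact mul_left_cancel₀ h3 (h2.trans h1.symm)
    rw [h1]
    ring
  rw [e1]
  have hv : ((c : ZMod q).val : ZMod q) = (c : ZMod q) := ZMod.natCast_zmod_val _
  have hmem : (c : ZMod q).val ∈ rr q := by
    rw [rr, mem_filter, mem_range]
    refine ⟨ZMod.val_lt _, ?_⟩
    rw [← ZMod.isUnit_iff_coprime, hv]
    exact hcu
  rw [Finset.sum_eq_single_of_mem _ hmem]
  · rw [if_pos hv]
    congr 1
    have h1 : (((c : ZMod q).val : ℤ) : ZMod q) = (c : ZMod q) := by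
      rw [Int.cast_natCast]
      exact hv
    rw [ZMod.intCast_eq_intCast_iff_dvd_sub] at h1
    obtain ⟨k, hk⟩ := h1
    have h2 : (c : ℝ) = ((c : ZMod q).val : ℝ) + q * k := by
      have h3 : c = ((c : ZMod q).val : ℤ) + q * k := by linarith
      exact_mod_cast h3
    have h4 : -(((c : ZMod q).val : ℕ) : ℝ) / q = -(c : ℝ) / q + (k : ℤ) := by
      rw [h2]
      field_simp
      ring
    rw [h4, GBQ.ee_add_int]
  · intro b hb hne
    rw [if_neg, zero_mul]
    intro hbc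
    apply hne
    rw [rr, mem_filter, mem_range] at hb
    rw [← hbc, ZMod.val_cast_of_lt hb.1]

/-- the inner sum of one character -/
theorem gi_G (hG : St_Ga) (r k : ℕ) (hr : 1 ≤ r) (hk : 1 ≤ k) (χ : DirichletCharacter ℂ r)
    (hχ : χ ∈ prm r) :
    ∑ a ∈ rr (r * k), (starRingEnd ℂ) (χ (a : ZMod r)) * ee (-(a : ℝ) / (r * k : ℕ)) =
      (ArithmeticFunction.moebius k : ℂ) * (starRingEnd ℂ) (χ (k : ZMod r)) *
        ((r : ℂ) / gs ⟨r, χ⟩) := by
  have : NeZero r := ⟨by omega⟩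
  have hp : χ.IsPrimitive := (MVX.mem_prm χ).mp hχ
  have hχi : χ⁻¹ ∈ prm r := (MVX.mem_prm _).mpr (BVX.isPrimitive_inv χ hp)
  have h1 := (hG r hr _ hχi).2.2 k (-1) hk (isCoprime_one_left.neg_left)
  have hl : ∑ a ∈ rr (r * k), (starRingEnd ℂ) (χ (a : ZMod r)) * ee (-(a : ℝ) / (r * k : ℕ)) =
      ∑ a ∈ rr (r * k), χ⁻¹ (a : ZMod r) * ee (((-1 : ℤ) : ℝ) * a / (r * k : ℕ)) := by
    refine Finset.sum_congr rfl fun a _ => ?_
    rw [gi_inv]
    congr 2
    push_cast
    ring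
  rw [hl, h1, gi_inv, gi_inv]
  have h2 := (hG r hr _ hχ).2.1 (-1)
  have hm : χ ((-1 : ℤ) : ZMod r) * χ ((-1 : ℤ) : ZMod r) = 1 := by
    rw [← map_mul]
    push_cast
    rw [neg_mul_neg, one_mul, map_one]
  have hms : (starRingEnd ℂ) (χ ((-1 : ℤ) : ZMod r)) * (starRingEnd ℂ) (χ ((-1 : ℤ) : ZMod r)) = 1 := by
    rw [← map_mul, hm, map_one]
  have h3 : (starRingEnd ℂ) (gs ⟨r, χ⁻¹⟩) = (starRingEnd ℂ) (χ ((-1 : ℤ) : ZMod r)) * gs ⟨r, χ⟩ := by
    rw [← h2]
    unfold gs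
    rw [map_sum]
    refine Finset.sum_congr rfl fun b _ => ?_
    simp only
    rw [map_mul, gi_inv, Complex.conj_conj, ← GBQ.ee_neg]
    congr 2
    push_cast
    ring
  have h4 : gs ⟨r, χ⁻¹⟩ = χ ((-1 : ℤ) : ZMod r) * (starRingEnd ℂ) (gs ⟨r, χ⟩) := by
    have := congrArg (starRingEnd ℂ) h3
    rw [Complex.conj_conj, map_mul, Complex.conj_conj] at this
    exact this
  have h5 : (starRingEnd ℂ) (gs ⟨r, χ⟩) = (r : ℂ) / gs ⟨r, χ⟩ := by
    have h6 := (hG r hr _ hχ).1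
    have hr0 : (r : ℝ) ≠ 0 := by exact_mod_cast (by omega : r ≠ 0)
    have h7 : gs ⟨r, χ⟩ ≠ 0 := by
      intro h0
      rw [h0] at h6
      simp at h6
      exact hr0 (by exact_mod_cast h6.symm)
    rw [eq_div_iff h7]
    have h8 : (starRingEnd ℂ) (gs ⟨r, χ⟩) * gs ⟨r, χ⟩ = ((‖gs ⟨r, χ⟩‖ ^ 2 : ℝ) : ℂ) := by
      rw [mul_comm, Complex.mul_conj, Complex.normSq_eq_norm_sq]
    rw [h8, h6]
    simp
  rw [h4, h5, Complex.conj_conj]
  linear_combination ((ArithmeticFunction.moebius k : ℂ) * (starRingEnd ℂ) (χ (k : ZMod r)) *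
        ((r : ℂ) / gs ⟨r, χ⟩)) * hm

theorem thm_Gi (h : St_Ga) : St_Gi := by
  classical
  intro q c hq hc
  have : NeZero q := ⟨by omega⟩
  have ht : (q.totient : ℂ) ≠ 0 := by
    have := Nat.totient_pos.mpr (by omega : 0 < q)
    exact_mod_cast this.ne'
  apply mul_left_cancel₀ ht
  rw [gi_orth q c hc, gi_sum q]
  have hsub : ud q q = q.divisors.filter (fun r => r.Coprime (q / r)) := by
    unfold ud
    refine Finset.filter_congr fun r hr => ?_
    have := Nat.divisor_le hr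
    tauto
  rw [hsub, Finset.sum_filter, Finset.mul_sum]
  refine Finset.sum_congr rfl fun r hr => ?_
  have hrq : r ∣ q := (Nat.mem_divisors.mp hr).1
  obtain ⟨k, hk⟩ := hrq
  have hr1 : 1 ≤ r := Nat.pos_of_ne_zero (by rintro rfl; simp at hk; omega)
  have hk1 : 1 ≤ k := Nat.pos_of_ne_zero (by rintro rfl; simp at hk; omega)
  have hqr : q / r = k := by rw [hk, Nat.mul_div_cancel_left _ (by omega)]
  have key : ∀ χ ∈ prm r, (if h : r ∣ q then
      (DirichletCharacter.changeLevel h χ) (c : ZMod q) *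
        ∑ a ∈ rr q, (starRingEnd ℂ) ((DirichletCharacter.changeLevel h χ) (a : ZMod q)) *
          ee (-(a : ℝ) / q) else 0) =
      (ArithmeticFunction.moebius k : ℂ) * (((r : ℂ) / gs ⟨r, χ⟩) *
        (starRingEnd ℂ) (χ ((k : ℕ) : ZMod r)) * χ (c : ZMod r)) := by
    intro χ hχ
    rw [dif_pos (Dvd.intro _ hk.symm)]
    rw [DirichletCharacter.changeLevel_eq_cast_of_dvd' χ _ hc]
    have e1 : ∑ a ∈ rr q, (starRingEnd ℂ)
        ((DirichletCharacter.changeLevel (Dvd.intro _ hk.symm) χ) (a : ZMod q)) *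
          ee (-(a : ℝ) / q) = ∑ a ∈ rr (r * k), (starRingEnd ℂ) (χ (a : ZMod r)) *
            ee (-(a : ℝ) / (r * k : ℕ)) := by
      have hk2 : r * k = q := hk.symm
      have hrr : rr (r * k) = rr q := by rw [hk2]
      have hcast : ((r * k : ℕ) : ℝ) = (q : ℝ) := by rw [hk2]
      rw [hrr, hcast]
      refine Finset.sum_congr rfl fun a ha => ?_
      rw [rr, mem_filter] at ha
      have hc2 : IsCoprime ((a : ℕ) : ℤ) (q : ℤ) := Nat.isCoprime_iff_coprime.mpr ha.2
      have h9 := DirichletCharacter.changeLevel_eq_cast_of_dvd' χ (Dvd.intro _ hk.symm) hc2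
      rw [Int.cast_natCast, Int.cast_natCast] at h9
      rw [h9]
    rw [e1, gi_G h r k hr1 hk1 χ hχ]
    ring
  rw [Finset.sum_congr rfl key, hqr]
  split_ifs with hco
  · rw [← Finset.mul_sum]
    field_simp
  · rw [mul_zero]
    symm
    refine Finset.sum_eq_zero fun χ _ => ?_
    have h0 : χ ((k : ℕ) : ZMod r) = 0 := by
      apply MulChar.map_nonunit
      rw [ZMod.isUnit_iff_coprime]
      intro h1
      exact hco h1.symm
    rw [h0, map_zero, mul_zero, zero_mul, mul_zero]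

end Pool.Agent.MVII
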