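import Pool.Agent.MVII.St1
import Pool.Agent.GBQ.Basic

/-!
# MVII, module Cr: expansion of `conj χ(x) c_k(x)` in additive characters
-/

set_option autoImplicit false

namespace Pool.Agent.MVII

open Finset Filter
open Pool.Agent.GBQ (ee lam nd Admissible ee_norm ee_zero ee_add ee_int ee_add_int)
open Pool.Agent.MVX (Chr tent Bm Um prm Win GP)
open Pool.Agent.LIN (PP pz)

theorem cr_mem_rr {q a : ℕ} : a ∈ rr q ↔ a < q ∧ a.Coprime q := by
  unfold rr
  rw [Finset.mem_filter, Finset.mem_range]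

theorem cr_card_rr (q : ℕ) : (rr q).card = q.totient := by
  rw [Nat.totient_eq_card_coprime]
  unfold rr
  congr 1
  refine Finset.filter_congr ?_
  intro a _
  exact Nat.coprime_comm

theorem cr_ee_nat (n : ℕ) : ee (n : ℝ) = 1 := by
  have := ee_int (n : ℤ)
  push_cast at this
  exact this

theorem cr_ee_mul_nat (x : ℝ) (j : ℕ) : ee (j * x) = ee x ^ j := by
  induction j with
  | zero => simp [ee_zero]
  | succ j ih =>
    rw [pow_succ, ← ih, ← ee_add]
    congr 1
    push_cast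
    ring

theorem cr_ee_eq_one {x : ℝ} (h : ee x = 1) : ∃ n : ℤ, x = n := by
  unfold Pool.Agent.GBQ.ee at h
  rw [Complex.exp_eq_one_iff] at h
  obtain ⟨n, hn⟩ := h
  refine ⟨n, ?_⟩
  have h1 : ((2 * Real.pi * x : ℝ) : ℂ) * Complex.I = ((2 * Real.pi * n : ℝ) : ℂ) * Complex.I := by
    rw [hn]
    push_cast
    ring
  have h2 := mul_right_cancel₀ Complex.I_ne_zero h1
  have h3 : 2 * Real.pi * x = 2 * Real.pi * n := by exact_mod_cast h2
  exact mul_left_cancel₀ (by positivity) h3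

/-- orthogonality -/
theorem cr_orth {N : ℕ} (hN : 1 ≤ N) (x : ℤ) :
    ∑ j ∈ range N, ee ((j : ℝ) * x / N) = if (N : ℤ) ∣ x then (N : ℂ) else 0 := by
  have hN0 : (N : ℝ) ≠ 0 := by
    have : (0 : ℝ) < N := by exact_mod_cast hN
    exact this.ne'
  set ζ : ℂ := ee ((x : ℝ) / N) with hζ
  have h1 : ∀ j ∈ range N, ee ((j : ℝ) * x / N) = ζ ^ j := by
    intro j _
    rw [hζ, ← cr_ee_mul_nat]
    congr 1
    ring
  rw [Finset.sum_congr rfl h1]
  split_ifs with hd
  · obtain ⟨y, hy⟩ := hd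
    have h2 : ζ = 1 := by
      rw [hζ, hy]
      have h3 : (((N : ℤ) * y : ℤ) : ℝ) / N = (y : ℤ) := by
        push_cast
        field_simp
      rw [h3, ee_int]
    rw [h2]
    simp
  · have h2 : ζ ≠ 1 := by
      intro h3
      obtain ⟨n, hn⟩ := cr_ee_eq_one h3
      apply hd
      refine ⟨n, ?_⟩
      rw [div_eq_iff hN0] at hn
      have h4 : (x : ℝ) = ((N : ℤ) * n : ℤ) := by
        push_cast
        rw [hn]
        ring
      exact_mod_cast h4
    have h3 : ζ ^ N = 1 := by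
      rw [hζ, ← cr_ee_mul_nat]
      have h4 : (N : ℝ) * ((x : ℝ) / N) = (x : ℤ) := by
        field_simp
      rw [h4, ee_int]
    rw [geom_sum_eq h2, h3, sub_self, zero_div]

/-- the reduced residues modulo `r k` -/
theorem cr_sum {r k : ℕ} (hr : 1 ≤ r) (hk : 1 ≤ k) (hco : r.Coprime k) (F : ℕ → ℂ)
    (hF : ∀ a, F (a % (r * k)) = F a) :
    ∑ a ∈ rr (r * k), F a = ∑ b ∈ rr r, ∑ c ∈ rr k, F (b * k + c * r) := by
  classical
  have hrk : 0 < r * k := Nat.mul_pos hr hk
  set g : ℕ × ℕ → ℕ := fun p => (p.1 * k + p.2 * r) % (r * k) with hg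
  have hinj : Set.InjOn g (rr r ×ˢ rr k : Finset (ℕ × ℕ)) := by
    rintro ⟨b, c⟩ hp ⟨b', c'⟩ hp' h
    rw [Finset.mem_coe, Finset.mem_product, cr_mem_rr, cr_mem_rr] at hp hp'
    have h1 : b * k + c * r ≡ b' * k + c' * r [MOD r * k] := h
    have hb : b = b' := by
      have h2 : b * k + c * r ≡ b' * k + c' * r [MOD r] := h1.of_mul_right k
      have h3 : b * k ≡ b' * k [MOD r] := by
        have e1 : b * k + c * r ≡ b * k + 0 [MOD r] :=
          Nat.ModEq.add_left _ (Nat.modEq_zero_iff_dvd.mpr (dvd_mul_left r c))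
        have e2 : b' * k + c' * r ≡ b' * k + 0 [MOD r] :=
          Nat.ModEq.add_left _ (Nat.modEq_zero_iff_dvd.mpr (dvd_mul_left r c'))
        exact (e1.symm.trans h2).trans e2
      have h4 : b ≡ b' [MOD r] := Nat.ModEq.cancel_right_of_coprime hco h3
      exact h4.eq_of_lt_of_lt hp.1.1 hp'.1.1
    have hc : c = c' := by
      have h2 : b * k + c * r ≡ b' * k + c' * r [MOD k] := h1.of_mul_left r
      have h3 : c * r ≡ c' * r [MOD k] := by
        have e1 : b * k + c * r ≡ 0 + c * r [MOD k] :=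
          Nat.ModEq.add_right _ (Nat.modEq_zero_iff_dvd.mpr (dvd_mul_left k b))
        have e2 : b' * k + c' * r ≡ 0 + c' * r [MOD k] :=
          Nat.ModEq.add_right _ (Nat.modEq_zero_iff_dvd.mpr (dvd_mul_left k b'))
        rw [zero_add] at e1 e2
        exact (e1.symm.trans h2).trans e2
      have h4 : c ≡ c' [MOD k] := Nat.ModEq.cancel_right_of_coprime hco.symm h3
      exact h4.eq_of_lt_of_lt hp.2.1 hp'.2.1
    rw [hb, hc]
  have himg : (rr r ×ˢ rr k).image g = rr (r * k) := by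
    refine Finset.eq_of_subset_of_card_le ?_ ?_
    · intro a ha
      rw [Finset.mem_image] at ha
      obtain ⟨⟨b, c⟩, hp, rfl⟩ := ha
      rw [Finset.mem_product, cr_mem_rr, cr_mem_rr] at hp
      rw [cr_mem_rr]
      refine ⟨Nat.mod_lt _ hrk, ?_⟩
      have h1 : Nat.gcd ((b * k + c * r) % (r * k)) (r * k) = Nat.gcd (b * k + c * r) (r * k) :=
        Nat.ModEq.gcd_eq (Nat.mod_modEq _ _)
      have h2 : (b * k + c * r).Coprime (r * k) := by
        refine Nat.Coprime.mul_right ?_ ?_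
        · rw [Nat.coprime_add_mul_right_left]
          exact hp.1.2.mul_left hco.symm
        · rw [add_comm, Nat.coprime_add_mul_right_left]
          exact hp.2.2.mul_left hco
      exact h1.trans h2
    · rw [Finset.card_image_of_injOn hinj, Finset.card_product, cr_card_rr, cr_card_rr,
        cr_card_rr, Nat.totient_mul hco]
  rw [← himg, Finset.sum_image hinj, Finset.sum_product]
  refine Finset.sum_congr rfl fun b _ => Finset.sum_congr rfl fun c _ => ?_
  exact hF _

/-- the exponential has period `N` -/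
theorem cr_per {N : ℕ} (hN : 1 ≤ N) (x : ℤ) (a : ℕ) :
    ee (((a % N : ℕ) : ℝ) * x / N) = ee ((a : ℝ) * x / N) := by
  have hN0 : (N : ℝ) ≠ 0 := by
    have : (0 : ℝ) < N := by exact_mod_cast hN
    exact this.ne'
  obtain ⟨m, hm⟩ : ∃ m : ℕ, a = a % N + N * m := ⟨a / N, (Nat.mod_add_div a N).symm⟩
  set b : ℕ := a % N with hb
  have h1 : (a : ℝ) = (b : ℝ) + N * (m : ℝ) := by
    exact_mod_cast hm
  have h2 : (a : ℝ) * x / N = (b : ℝ) * x / N + (((m : ℤ) * x : ℤ) : ℝ) := by
    rw [h1]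
    push_cast
    field_simp
  rw [h2, ee_add_int]

theorem cr_split {r k : ℕ} (hr : 1 ≤ r) (hk : 1 ≤ k) (x : ℤ) (b c : ℕ) :
    ee (((b * k + c * r : ℕ) : ℝ) * x / (r * k : ℕ)) =
      ee ((b : ℝ) * x / r) * ee ((c : ℝ) * x / k) := by
  have hr0 : (r : ℝ) ≠ 0 := by
    have : (0 : ℝ) < r := by exact_mod_cast hr
    exact this.ne'
  have hk0 : (k : ℝ) ≠ 0 := by
    have : (0 : ℝ) < k := by exact_mod_cast hk
    exact this.ne'
  rw [← ee_add]
  congr 1
  push_cast
  field_simp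

theorem cr_prime {p : ℕ} (hp : p.Prime) (x : ℤ) :
    ∑ b ∈ rr p, ee ((b : ℝ) * x / p) = ((cp p x : ℝ) : ℂ) := by
  have h1 : range p = insert 0 (rr p) := by
    ext a
    rw [Finset.mem_insert, cr_mem_rr, Finset.mem_range]
    constructor
    · intro ha
      rcases Nat.eq_zero_or_pos a with h0 | h0
      · exact Or.inl h0
      · exact Or.inr ⟨ha, (Nat.coprime_of_lt_prime (by omega) ha hp).symm⟩
    · rintro (h0 | h0)
      · rw [h0]
        exact hp.pos
      · exact h0.1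
  have h2 : (0 : ℕ) ∉ rr p := by
    rw [cr_mem_rr]
    rintro ⟨-, h0⟩
    rw [Nat.coprime_zero_left] at h0
    exact hp.one_lt.ne' h0
  have h3 := cr_orth (N := p) hp.one_lt.le x
  rw [h1, Finset.sum_insert h2] at h3
  have h4 : ee (((0 : ℕ) : ℝ) * x / p) = 1 := by
    rw [Nat.cast_zero, zero_mul, zero_div, ee_zero]
  rw [h4] at h3
  have h5 : ∑ b ∈ rr p, ee ((b : ℝ) * x / p) = (if (p : ℤ) ∣ x then (p : ℂ) else 0) - 1 := by
    rw [← h3]
    ring
  rw [h5]
  unfold cp
  split_ifs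
  · push_cast
    ring
  · push_cast
    ring

theorem cr_cs {k : ℕ} (hk : Squarefree k) (x : ℤ) :
    ((cs k x : ℝ) : ℂ) = ∑ c ∈ rr k, ee ((c : ℝ) * x / k) := by
  induction k using Nat.strong_induction_on with
  | _ k ih =>
    rcases Nat.lt_or_ge k 2 with h | h
    · have hk1 : k = 1 := by
        have := hk.ne_zero
        omega
      subst hk1
      have h1 : rr 1 = {0} := by decide
      rw [h1]
      unfold cs
      simp [ee_zero]
    · obtain ⟨p, hp, hpk⟩ := Nat.exists_prime_and_dvd (show k ≠ 1 by omega)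
      obtain ⟨k', rfl⟩ := hpk
      have hco : p.Coprime k' := Nat.coprime_of_squarefree_mul hk
      have hk' : Squarefree k' := hk.squarefree_of_dvd (dvd_mul_left k' p)
      have hk'0 : k' ≠ 0 := hk'.ne_zero
      have hlt : k' < p * k' := by
        have := hp.two_le
        nlinarith [Nat.pos_of_ne_zero hk'0]
      have ih' := ih k' hlt hk'
      have h1 : cs (p * k') x = cp p x * cs k' x := by
        unfold cs
        rw [hco.primeFactors_mul, hp.primeFactors, Finset.prod_union, Finset.prod_singleton]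
        rw [Finset.disjoint_singleton_left]
        intro hpm
        have h2 := Nat.dvd_of_mem_primeFactors hpm
        have h3 := Nat.Coprime.eq_one_of_dvd hco h2
        exact hp.one_lt.ne' h3
      rw [h1, cr_sum hp.one_lt.le (Nat.pos_of_ne_zero hk'0) hco
        (fun a => ee ((a : ℝ) * x / (p * k' : ℕ)))
        (cr_per (Nat.mul_pos hp.pos (Nat.pos_of_ne_zero hk'0)) x)]
      have h2 : ∀ b ∈ rr p, ∑ c ∈ rr k', ee (((b * k' + c * p : ℕ) : ℝ) * x / (p * k' : ℕ)) =
          ee ((b : ℝ) * x / p) * ∑ c ∈ rr k', ee ((c : ℝ) * x / k') := by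
        intro b _
        rw [Finset.mul_sum]
        refine Finset.sum_congr rfl fun c _ => ?_
        exact cr_split hp.one_lt.le (Nat.pos_of_ne_zero hk'0) x b c
      rw [Finset.sum_congr rfl h2, ← Finset.sum_mul, cr_prime hp, ← ih', Complex.ofReal_mul]

theorem thm_Cr (h : St_Ga) : St_Cr := by
  intro r k hr hk hco χ hχ x
  obtain ⟨hg1, hg2, -⟩ := h r hr χ hχ
  have hk1 : 1 ≤ k := Nat.one_le_iff_ne_zero.mpr hk.ne_zero
  have hr0 : (0 : ℝ) < r := by exact_mod_cast hr
  have hgs : gs ⟨r, χ⟩ ≠ 0 := by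
    intro h0
    rw [h0, norm_zero] at hg1
    have : (0 : ℝ) = r := by
      rw [← hg1]
      norm_num
    linarith
  have : NeZero r := ⟨by omega⟩
  have hper : ∀ a : ℕ, (fun a : ℕ => χ (a : ZMod r) * ee ((a : ℝ) * x / (r * k : ℕ)))
      (a % (r * k)) = (fun a : ℕ => χ (a : ZMod r) * ee ((a : ℝ) * x / (r * k : ℕ))) a := by
    intro a
    simp only []
    rw [cr_per (Nat.mul_pos hr hk1) x a]
    congr 2
    rw [ZMod.natCast_eq_natCast_iff]
    exact (Nat.mod_modEq a (r * k)).of_mul_right k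
  have h1 := cr_sum hr hk1 hco (fun a : ℕ => χ (a : ZMod r) * ee ((a : ℝ) * x / (r * k : ℕ))) hper
  have h2 : ∀ b ∈ rr r, ∑ c ∈ rr k, χ ((b * k + c * r : ℕ) : ZMod r) *
      ee (((b * k + c * r : ℕ) : ℝ) * x / (r * k : ℕ)) =
      (χ (b : ZMod r) * ee ((b : ℝ) * x / r)) * (χ (k : ZMod r) * ((cs k x : ℝ) : ℂ)) := by
    intro b _
    have h3 : ∀ c ∈ rr k, χ ((b * k + c * r : ℕ) : ZMod r) *
        ee (((b * k + c * r : ℕ) : ℝ) * x / (r * k : ℕ)) =
        (χ (b : ZMod r) * ee ((b : ℝ) * x / r)) * (χ (k : ZMod r) * ee ((c : ℝ) * x / k)) := by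
      intro c _
      rw [cr_split hr hk1]
      have h4 : ((b * k + c * r : ℕ) : ZMod r) = (b : ZMod r) * (k : ZMod r) := by
        push_cast
        rw [ZMod.natCast_self, mul_zero, add_zero]
      rw [h4, map_mul]
      ring
    rw [Finset.sum_congr rfl h3, ← Finset.mul_sum, ← Finset.mul_sum, cr_cs hk]
  have h5 : ∑ a ∈ rr (r * k), χ (a : ZMod r) * ee ((a : ℝ) * x / (r * k : ℕ)) =
      ((starRingEnd ℂ) (χ (x : ZMod r)) * gs ⟨r, χ⟩) *
        (χ (k : ZMod r) * ((cs k x : ℝ) : ℂ)) := by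
    rw [h1, Finset.sum_congr rfl h2, ← Finset.sum_mul]
    congr 1
    rw [← hg2 x]
    unfold rr
    rw [Finset.sum_filter]
    refine Finset.sum_congr rfl fun b _ => ?_
    split_ifs with hb
    · rfl
    · have h6 : χ (b : ZMod r) = 0 := by
        refine MulChar.map_nonunit χ ?_
        rw [ZMod.isUnit_iff_coprime]
        exact hb
      rw [h6, zero_mul]
  rw [h5]
  have h7 : (starRingEnd ℂ) (χ (k : ZMod r)) * χ (k : ZMod r) = 1 := by
    have hu : IsUnit ((k : ℕ) : ZMod r) := by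
      rw [ZMod.isUnit_iff_coprime]
      exact hco.symm
    have h8 : ‖χ (k : ZMod r)‖ = 1 := DirichletCharacter.unit_norm_eq_one χ hu.unit
    rw [← Complex.normSq_eq_conj_mul_self, Complex.normSq_eq_norm_sq, h8]
    norm_num
  calc (starRingEnd ℂ) (χ (x : ZMod r)) * ((cs k x : ℝ) : ℂ) =
        ((starRingEnd ℂ) (χ (k : ZMod r)) * χ (k : ZMod r)) *
          ((starRingEnd ℂ) (χ (x : ZMod r)) * ((cs k x : ℝ) : ℂ)) := by rw [h7, one_mul]
    _ = _ := by field_simp

end Pool.Agent.MVII
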