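import Pool.Agent.MVII.St1

/-!
# MVII: the model as a sum of components
-/

set_option autoImplicit false

namespace Pool.Agent.MVII

open Finset
open Pool.Agent.GBQ (ee lam nd Admissible)
open Pool.Agent.MVX (Chr tent Bm Um prm Win GP)

/-- the contribution of `χ` modulo `r` and of `k` -/
private noncomputable def ex_G (h u v x r k : ℕ) (χ : DirichletCharacter ℂ r) : ℂ :=
  ∑ a ∈ rr (r * k), ee ((a : ℝ) * x / (r * k : ℕ)) *
    (((ArithmeticFunction.moebius k : ℂ) / ((r * k).totient : ℂ)) *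
      (((r : ℂ) / gs ⟨r, χ⟩) * (starRingEnd ℂ) (χ (k : ZMod r)) * χ (a : ZMod r) *
        BI h u v x ⟨r, χ⟩))

private theorem ex_term (hC : St_Cr) (h u v x r k : ℕ) (hr : 1 ≤ r) (hk : r.Coprime k)
    (χ : DirichletCharacter ℂ r) (hχ : χ ∈ prm r) :
    BI h u v x ⟨r, χ⟩ * (starRingEnd ℂ) (χ ((x : ℤ) : ZMod r)) *
      (((r : ℂ) / (r.totient : ℂ)) *
        (((ArithmeticFunction.moebius k : ℂ) / (k.totient : ℂ)) * ((cs k (x : ℤ) : ℝ) : ℂ))) =
    ex_G h u v x r k χ := by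
  unfold ex_G
  by_cases hsq : Squarefree k
  · have h1 := hC r k hr hsq hk χ hχ (x : ℤ)
    have h2 : (((r * k).totient : ℕ) : ℂ) = (r.totient : ℂ) * (k.totient : ℂ) := by
      rw [Nat.totient_mul hk, Nat.cast_mul]
    calc BI h u v x ⟨r, χ⟩ * (starRingEnd ℂ) (χ ((x : ℤ) : ZMod r)) *
        (((r : ℂ) / (r.totient : ℂ)) *
          (((ArithmeticFunction.moebius k : ℂ) / (k.totient : ℂ)) * ((cs k (x : ℤ) : ℝ) : ℂ)))
        = BI h u v x ⟨r, χ⟩ * ((r : ℂ) / (r.totient : ℂ)) *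
          ((ArithmeticFunction.moebius k : ℂ) / (k.totient : ℂ)) *
          ((starRingEnd ℂ) (χ ((x : ℤ) : ZMod r)) * ((cs k (x : ℤ) : ℝ) : ℂ)) := by ring
      _ = _ := by
        rw [h1, Finset.mul_sum, Finset.mul_sum]
        refine Finset.sum_congr rfl fun a _ => ?_
        rw [h2, Int.cast_natCast]
        simp only [div_eq_mul_inv, mul_inv]
        ring
  · have h1 : (ArithmeticFunction.moebius k : ℂ) = 0 := by
      rw [ArithmeticFunction.moebius_eq_zero_of_not_squarefree hsq, Int.cast_zero]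
    rw [h1]
    rw [Finset.sum_eq_zero]
    · rw [zero_div, zero_mul, mul_zero, mul_zero]
    · intro a _
      rw [zero_div, zero_mul, mul_zero]

theorem thm_Ex (hC : St_Cr) : St_Ex := by
  intro T Q h u v x
  -- the left side
  have hL : Md T Q h u v x = ∑ r ∈ Icc 1 T,
      ∑ k ∈ (Icc 1 (Q / r)).filter (fun k => r.Coprime k), ∑ χ ∈ prm r, ex_G h u v x r k χ := by
    unfold Md PM
    refine Finset.sum_congr rfl fun r hr => ?_
    rw [Finset.sum_comm]
    refine Finset.sum_congr rfl fun χ hχ => ?_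
    unfold ar
    rw [Complex.ofReal_mul, Complex.ofReal_sum, Finset.mul_sum, Finset.mul_sum]
    refine Finset.sum_congr rfl fun k hk => ?_
    rw [← ex_term hC h u v x r k (Finset.mem_Icc.1 hr).1 (Finset.mem_filter.1 hk).2 χ hχ]
    push_cast
    ring
  -- the right side
  have hR : ∀ q ∈ Icc 1 Q, (∑ a ∈ rr q, ee ((a : ℝ) * x / q) * Wc T h u v q a x) =
      ∑ r ∈ ud T q, ∑ χ ∈ prm r, ex_G h u v x r (q / r) χ := by
    intro q hq
    have h1 : ∀ r ∈ ud T q, r * (q / r) = q := by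
      intro r hr
      unfold ud at hr
      exact Nat.mul_div_cancel' (Nat.dvd_of_mem_divisors (Finset.mem_filter.1 hr).1)
    unfold Wc
    simp only [Finset.mul_sum]
    rw [Finset.sum_comm]
    refine Finset.sum_congr rfl fun r hr => ?_
    rw [Finset.sum_comm]
    refine Finset.sum_congr rfl fun χ _ => ?_
    unfold ex_G
    rw [h1 r hr]
  rw [hL, Finset.sum_congr rfl hR]
  obtain ⟨H, hH⟩ : ∃ H : ℕ → ℕ → ℂ, ∀ r k, H r k = ∑ χ ∈ prm r, ex_G h u v x r k χ :=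
    ⟨fun r k => ∑ χ ∈ prm r, ex_G h u v x r k χ, fun _ _ => rfl⟩
  simp only [← hH]
  rw [Finset.sum_sigma', Finset.sum_sigma']
  refine Finset.sum_nbij' (fun p : (_ : ℕ) × ℕ => (⟨p.1 * p.2, p.1⟩ : (_ : ℕ) × ℕ))
    (fun p : (_ : ℕ) × ℕ => (⟨p.2, p.1 / p.2⟩ : (_ : ℕ) × ℕ)) ?_ ?_ ?_ ?_ ?_
  · rintro ⟨r, k⟩ hp
    simp only [Finset.mem_sigma, Finset.mem_Icc, Finset.mem_filter] at hp
    obtain ⟨⟨hr1, hrT⟩, ⟨hk1, hkQ⟩, hc⟩ := hp
    have h2 : r * k / r = k := Nat.mul_div_cancel_left k (by omega)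
    simp only [Finset.mem_sigma, Finset.mem_Icc, ud, Finset.mem_filter, Nat.mem_divisors, h2]
    refine ⟨⟨?_, ?_⟩, ⟨⟨k, rfl⟩, ?_⟩, hrT, hc⟩
    · exact Nat.mul_pos (by omega) (by omega)
    · calc r * k ≤ r * (Q / r) := Nat.mul_le_mul_left r hkQ
        _ ≤ Q := Nat.mul_div_le Q r
    · exact (Nat.mul_pos (by omega) (by omega)).ne'
  · rintro ⟨q, r⟩ hp
    simp only [Finset.mem_sigma, Finset.mem_Icc, ud, Finset.mem_filter, Nat.mem_divisors] at hp
    obtain ⟨⟨hq1, hqQ⟩, ⟨hd, hq0⟩, hrT, hc⟩ := hp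
    have hr1 : 1 ≤ r := Nat.pos_of_dvd_of_pos hd (by omega)
    simp only [Finset.mem_sigma, Finset.mem_Icc, Finset.mem_filter]
    exact ⟨⟨hr1, hrT⟩, ⟨Nat.div_pos (Nat.le_of_dvd (by omega) hd) (by omega),
      Nat.div_le_div_right hqQ⟩, hc⟩
  · rintro ⟨r, k⟩ hp
    simp only [Finset.mem_sigma, Finset.mem_Icc, Finset.mem_filter] at hp
    have h2 : r * k / r = k := Nat.mul_div_cancel_left k (by omega)
    simp only [h2]
  · rintro ⟨q, r⟩ hp
    simp only [Finset.mem_sigma, Finset.mem_Icc, ud, Finset.mem_filter, Nat.mem_divisors] at hp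
    simp only [Nat.mul_div_cancel' hp.2.1.1]
  · rintro ⟨r, k⟩ hp
    simp only [Finset.mem_sigma, Finset.mem_Icc, Finset.mem_filter] at hp
    have h2 : r * k / r = k := Nat.mul_div_cancel_left k (by omega)
    simp only [h2]

end Pool.Agent.MVII
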