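import Pool.Agent.MVII.St1
import Pool.Agent.BVX.MulLS
import Pool.Agent.GBQ.Basic
import Pool.Agent.GBQ.L2

set_option autoImplicit false

/-!
# MVII / Ga: Gauss sums of primitive characters

Main result `thm_Ga : St_Ga`.
-/

namespace Pool.Agent.MVII

open Finset Filter
open Pool.Agent.GBQ (ee lam nd Admissible ee_norm ee_zero ee_add ee_neg ee_int ee_add_int l2_pow
  l2_eq_one)
open Pool.Agent.MVX (Chr tent Bm Um prm Win GP mem_prm)

/-- a sum over `range r` as a sum over `ZMod r` -/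
theorem ga_sum {r : ℕ} [NeZero r] (F : ℕ → ℂ) :
    ∑ b ∈ range r, F b = ∑ b : ZMod r, F b.val := by
  refine sum_nbij' (fun b => (b : ZMod r)) (fun b => b.val) ?_ ?_ ?_ ?_ ?_
  · intro b _
    exact mem_univ _
  · intro b _
    exact mem_range.2 (ZMod.val_lt b)
  · intro b hb
    exact ZMod.val_cast_of_lt (mem_range.1 hb)
  · intro b _
    exact ZMod.natCast_zmod_val b
  · intro b hb
    rw [ZMod.val_cast_of_lt (mem_range.1 hb)]

theorem ga_std {r : ℕ} [NeZero r] (x : ℤ) (b : ZMod r) :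
    ZMod.stdAddChar (N := r) ((x : ZMod r) * b) = ee ((b.val : ℝ) * x / r) := by
  have h1 : (x : ZMod r) * b = ((x * (b.val : ℤ) : ℤ) : ZMod r) := by
    push_cast
    rw [ZMod.natCast_val, ZMod.cast_id]
  rw [h1, ZMod.stdAddChar_coe]
  unfold ee
  congr 1
  push_cast
  ring

theorem ga_gs {r : ℕ} [NeZero r] (χ : DirichletCharacter ℂ r) :
    gs ⟨r, χ⟩ = gaussSum χ (ZMod.stdAddChar (N := r)) := by
  unfold gs gaussSum
  rw [ga_sum (r := r) (fun b => χ (b : ZMod r) * ee ((b : ℝ) / r))]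
  refine sum_congr rfl fun b _ => ?_
  have h := ga_std 1 b
  rw [Int.cast_one, one_mul, Int.cast_one, mul_one] at h
  rw [ZMod.natCast_zmod_val, h]

theorem ga_two {r : ℕ} [NeZero r] (χ : DirichletCharacter ℂ r) (hχ : χ.IsPrimitive) (x : ℤ) :
    ∑ b ∈ range r, χ (b : ZMod r) * ee ((b : ℝ) * x / r) =
      (starRingEnd ℂ) (χ (x : ZMod r)) * gs ⟨r, χ⟩ := by
  rw [ga_sum (r := r) (fun b => χ (b : ZMod r) * ee ((b : ℝ) * x / r)), ga_gs]
  have h := gaussSum_mulShift_of_isPrimitive (e := ZMod.stdAddChar (N := r)) hχ (x : ZMod r)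
  rw [← MulChar.star_apply'] at h
  rw [starRingEnd_apply, ← h]
  unfold gaussSum
  refine sum_congr rfl fun b _ => ?_
  rw [ZMod.natCast_zmod_val, AddChar.mulShift_apply, ga_std]

/-- Moebius: the sum over the residues coprime to `q` -/
theorem ga_mob (q : ℕ) (hq : 1 ≤ q) (F : ℕ → ℂ) :
    ∑ a ∈ rr q, F a =
      ∑ d ∈ q.divisors, (ArithmeticFunction.moebius d : ℂ) * ∑ b ∈ range (q / d), F (d * b) := by
  have h1 : ∀ a : ℕ, (∑ d ∈ q.divisors.filter (fun d => d ∣ a), (ArithmeticFunction.moebius d : ℂ)) =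
      if a.Coprime q then 1 else 0 := by
    intro a
    have h2 : q.divisors.filter (fun d => d ∣ a) = (a.gcd q).divisors := by
      ext d
      simp only [mem_filter, Nat.mem_divisors]
      constructor
      · rintro ⟨⟨h1, h2⟩, h3⟩
        exact ⟨Nat.dvd_gcd h3 h1, Nat.gcd_ne_zero_right h2⟩
      · rintro ⟨h1, _⟩
        exact ⟨⟨h1.trans (Nat.gcd_dvd_right _ _), by omega⟩, h1.trans (Nat.gcd_dvd_left _ _)⟩
    rw [h2]
    have h3 : (∑ d ∈ (a.gcd q).divisors, ArithmeticFunction.moebius d) =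
        if a.gcd q = 1 then 1 else 0 := by
      rw [← ArithmeticFunction.coe_mul_zeta_apply, ArithmeticFunction.moebius_mul_coe_zeta,
        ArithmeticFunction.one_apply]
    have h4 : (∑ d ∈ (a.gcd q).divisors, (ArithmeticFunction.moebius d : ℂ)) =
        ((∑ d ∈ (a.gcd q).divisors, ArithmeticFunction.moebius d : ℤ) : ℂ) := by
      push_cast
      rfl
    rw [h4, h3]
    by_cases h5 : a.Coprime q
    · rw [if_pos h5, if_pos (Nat.coprime_iff_gcd_eq_one.1 h5)]
      norm_num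
    · rw [if_neg h5, if_neg (fun h => h5 (Nat.coprime_iff_gcd_eq_one.2 h))]
      norm_num
  have h2 : ∑ a ∈ rr q, F a = ∑ a ∈ range q, ∑ d ∈ q.divisors.filter (fun d => d ∣ a),
      (ArithmeticFunction.moebius d : ℂ) * F a := by
    unfold rr
    rw [sum_filter]
    refine sum_congr rfl fun a _ => ?_
    rw [← sum_mul, h1 a]
    by_cases h5 : a.Coprime q
    · rw [if_pos h5, if_pos h5, one_mul]
    · rw [if_neg h5, if_neg h5, zero_mul]
  rw [h2]
  have h3 : ∀ a ∈ range q, ∑ d ∈ q.divisors.filter (fun d => d ∣ a),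
      (ArithmeticFunction.moebius d : ℂ) * F a =
      ∑ d ∈ q.divisors, if d ∣ a then (ArithmeticFunction.moebius d : ℂ) * F a else 0 := by
    intro a _
    rw [sum_filter]
  rw [sum_congr rfl h3, sum_comm]
  refine sum_congr rfl fun d hd => ?_
  obtain ⟨hdq, hq0⟩ := Nat.mem_divisors.1 hd
  have hd0 : 0 < d := Nat.pos_of_dvd_of_pos hdq (by omega)
  rw [mul_sum, ← sum_filter]
  refine sum_nbij' (fun a => a / d) (fun b => d * b) ?_ ?_ ?_ ?_ ?_
  · intro a ha
    obtain ⟨ha1, ha2⟩ := mem_filter.1 ha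
    exact mem_range.2 (Nat.div_lt_div_of_lt_of_dvd hdq (mem_range.1 ha1))
  · intro b hb
    refine mem_filter.2 ⟨mem_range.2 ?_, Dvd.intro _ rfl⟩
    calc d * b < d * (q / d) := Nat.mul_lt_mul_of_pos_left (mem_range.1 hb) hd0
      _ = q := Nat.mul_div_cancel' hdq
  · intro a ha
    exact Nat.mul_div_cancel' (mem_filter.1 ha).2
  · intro b _
    exact Nat.mul_div_cancel_left b hd0
  · intro a ha
    rw [Nat.mul_div_cancel' (mem_filter.1 ha).2]

/-- the complete sum over `range (r * j)` -/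
theorem ga_split (r j : ℕ) (hr : 1 ≤ r) (G : ℕ → ℂ) :
    ∑ b ∈ range (r * j), G b = ∑ b ∈ range r, ∑ i ∈ range j, G (b + r * i) := by
  rw [← sum_product']
  symm
  refine sum_nbij' (fun p => p.1 + r * p.2) (fun b => (b % r, b / r)) ?_ ?_ ?_ ?_ ?_
  · rintro ⟨b, i⟩ hp
    obtain ⟨h1, h2⟩ := mem_product.1 hp
    rw [mem_range] at h1 h2
    refine mem_range.2 ?_
    simp only at h1 h2 ⊢
    calc b + r * i < r + r * i := by omega
      _ = r * (i + 1) := by ring
      _ ≤ r * j := Nat.mul_le_mul_left _ h2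
  · intro b hb
    refine mem_product.2 ⟨mem_range.2 (Nat.mod_lt _ (by omega)), mem_range.2 ?_⟩
    exact Nat.div_lt_of_lt_mul (mem_range.1 hb)
  · rintro ⟨b, i⟩ hp
    obtain ⟨h1, h2⟩ := mem_product.1 hp
    rw [mem_range] at h1 h2
    simp only at h1 h2 ⊢
    rw [Nat.add_mul_mod_self_left, Nat.mod_eq_of_lt h1, Nat.add_mul_div_left _ _ (by omega),
      Nat.div_eq_of_lt h1, zero_add]
  · intro b _
    exact Nat.mod_add_div b r
  · rintro ⟨b, i⟩ _
    rfl

/-- the geometric sum over a complete period vanishes -/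
theorem ga_geom (j : ℕ) (hj : 1 < j) (c : ℤ) (hc : IsCoprime c (j : ℤ)) :
    ∑ i ∈ range j, ee ((c : ℝ) * i / j) = 0 := by
  have hj0 : (j : ℝ) ≠ 0 := by
    have : 0 < j := by omega
    positivity
  have h1 : ∀ i ∈ range j, ee ((c : ℝ) * i / j) = ee ((c : ℝ) / j) ^ i := by
    intro i _
    rw [← l2_pow]
    congr 1
    ring
  rw [sum_congr rfl h1]
  have h2 : ee ((c : ℝ) / j) ≠ 1 := by
    intro h
    obtain ⟨m, hm⟩ := l2_eq_one h
    rw [div_eq_iff hj0] at hm
    have h3 : c = m * j := by exact_mod_cast hm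
    have h4 : (j : ℤ) ∣ c := ⟨m, by rw [h3]; ring⟩
    have h5 : IsUnit (j : ℤ) := hc.isUnit_of_dvd' h4 (dvd_refl _)
    have h6 := Int.isUnit_iff.1 h5
    omega
  have h3 : ee ((c : ℝ) / j) ^ j = 1 := by
    rw [← l2_pow, mul_div_cancel₀ _ hj0, ee_int]
  rw [geom_sum_eq h2, h3, sub_self, zero_div]

theorem ga_three {r : ℕ} (hr : 1 ≤ r) (χ : DirichletCharacter ℂ r) (hχ : χ.IsPrimitive) (k : ℕ)
    (c : ℤ) (hk : 1 ≤ k) (hc : IsCoprime c ((r * k : ℕ) : ℤ)) :
    ∑ a ∈ rr (r * k), χ (a : ZMod r) * ee ((c : ℝ) * a / (r * k : ℕ)) =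
      (starRingEnd ℂ) (χ (c : ZMod r)) * (ArithmeticFunction.moebius k : ℂ) * χ (k : ZMod r) *
        gs ⟨r, χ⟩ := by
  have : NeZero r := ⟨by omega⟩
  have hq : 1 ≤ r * k := Nat.mul_pos hr hk
  rw [ga_mob (r * k) hq]
  rw [sum_eq_single k]
  · rw [Nat.mul_div_cancel _ (by omega : 0 < k)]
    have h1 : ∀ b ∈ range r, χ ((k * b : ℕ) : ZMod r) * ee ((c : ℝ) * (k * b : ℕ) / (r * k : ℕ)) =
        χ (k : ZMod r) * (χ (b : ZMod r) * ee ((b : ℝ) * c / r)) := by
      intro b _
      have hk0 : (k : ℝ) ≠ 0 := by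
        have : 0 < k := hk
        positivity
      have h2 : (c : ℝ) * (k * b : ℕ) / (r * k : ℕ) = (b : ℝ) * c / r := by
        push_cast
        rw [show (c : ℝ) * (k * b) = (b * c) * k by ring, mul_div_mul_right _ _ hk0]
      rw [h2, Nat.cast_mul, map_mul, mul_assoc]
    rw [sum_congr rfl h1, ← mul_sum, ga_two χ hχ]
    ring
  · intro d hd hdk
    obtain ⟨hdq, hq0⟩ := Nat.mem_divisors.1 hd
    have hd0 : 0 < d := Nat.pos_of_dvd_of_pos hdq (by omega)
    have h1 : ∀ b ∈ range (r * k / d),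
        χ ((d * b : ℕ) : ZMod r) * ee ((c : ℝ) * (d * b : ℕ) / (r * k : ℕ)) =
        χ (d : ZMod r) * (χ (b : ZMod r) * ee ((c : ℝ) * (d * b : ℕ) / (r * k : ℕ))) := by
      intro b _
      rw [Nat.cast_mul, map_mul, mul_assoc]
    rw [sum_congr rfl h1, ← mul_sum]
    by_cases hdr : d.Coprime r
    · have hdk' : d ∣ k := hdr.dvd_of_dvd_mul_left hdq
      obtain ⟨j, rfl⟩ := hdk'
      have hj : 1 < j := by
        rcases j with _ | _ | j
        · omega
        · exact absurd (by ring) hdk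
        · omega
      have hjc : IsCoprime c (j : ℤ) := by
        refine hc.of_isCoprime_of_dvd_right ⟨((r * d : ℕ) : ℤ), ?_⟩
        push_cast
        ring
      have e1 : r * (d * j) / d = r * j := by
        rw [show r * (d * j) = d * (r * j) by ring]
        exact Nat.mul_div_cancel_left _ hd0
      rw [e1, ga_split r j hr]
      have hd1 : (d : ℝ) ≠ 0 := by positivity
      have hr1 : (r : ℝ) ≠ 0 := by
        have : 0 < r := hr
        positivity
      have hj1 : (j : ℝ) ≠ 0 := by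
        have : 0 < j := by omega
        positivity
      have h2 : ∀ b ∈ range r, ∑ i ∈ range j, χ ((b + r * i : ℕ) : ZMod r) *
          ee ((c : ℝ) * (d * (b + r * i) : ℕ) / (r * (d * j) : ℕ)) = 0 := by
        intro b _
        have h3 : ∀ i ∈ range j, χ ((b + r * i : ℕ) : ZMod r) *
            ee ((c : ℝ) * (d * (b + r * i) : ℕ) / (r * (d * j) : ℕ)) =
            (χ (b : ZMod r) * ee ((c : ℝ) * b / (r * j))) * ee ((c : ℝ) * i / j) := by
          intro i _
          have h4 : ((b + r * i : ℕ) : ZMod r) = (b : ZMod r) := by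
            push_cast
            rw [ZMod.natCast_self, zero_mul, add_zero]
          have h5 : (c : ℝ) * (d * (b + r * i) : ℕ) / (r * (d * j) : ℕ) =
              (c : ℝ) * b / (r * j) + (c : ℝ) * i / j := by
            push_cast
            field_simp
          rw [h4, h5, ee_add, mul_assoc]
        rw [sum_congr rfl h3, ← mul_sum, ga_geom j hj c hjc, mul_zero]
      rw [sum_congr rfl h2, sum_const_zero, mul_zero, mul_zero]
    · have h2 : χ (d : ZMod r) = 0 := by
        apply MulChar.map_nonunit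
        rw [ZMod.isUnit_iff_coprime]
        exact hdr
      rw [h2, zero_mul, mul_zero]
  · intro h
    exact absurd (Nat.mem_divisors.2 ⟨Dvd.intro_left r rfl, by omega⟩) h

/-- GA -/
theorem thm_Ga : St_Ga := by
  intro r hr χ hχ
  have : NeZero r := ⟨by omega⟩
  have hχ' := (mem_prm χ).1 hχ
  refine ⟨?_, fun x => ga_two χ hχ' x, fun k c hk hc => ga_three hr χ hχ' k c hk hc⟩
  rw [ga_gs]
  exact BVX.gauss_sq χ hχ'

end Pool.Agent.MVII
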