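import Pool.Agent.MVII.St1
import Pool.Agent.GBQ.Basic

set_option autoImplicit false

/-!
# MVII: the transform of the model, finite form
-/

namespace Pool.Agent.MVII

open Finset Filter
open Pool.Agent.GBQ (ee lam nd Admissible)
open Pool.Agent.MVX (Chr tent Bm Um prm Win GP)
open Pool.Agent.LIN (PP pz)

/-- the transform of one component -/
noncomputable def mf_G (T h u v : ℕ) (α : ℝ) (q a : ℕ) : ℂ :=
  ∑ x ∈ range (v + h), Wc T h u v q a x * ee ((α + a / q) * x)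

theorem mf_card_rr (q : ℕ) : (rr q).card ≤ q := by
  unfold rr
  exact (card_filter_le _ _).trans (card_range q).le

theorem mf_lam_nonneg (n : ℕ) : 0 ≤ lam n := ArithmeticFunction.vonMangoldt_nonneg

theorem mf_NB_nonneg (b : Chr → ℂ) (T : ℕ) : 0 ≤ NB b T := by
  unfold NB
  exact sum_nonneg (fun r _ => sum_nonneg (fun χ _ => norm_nonneg _))

theorem mf_expand (h1 : St_Ex) (T Q h u v : ℕ) (α : ℝ) :
    ∑ x ∈ range (v + h), Md T Q h u v x * ee (α * x) =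
      ∑ q ∈ Icc 1 Q, ∑ a ∈ rr q, mf_G T h u v α q a := by
  have e1 : ∀ x ∈ range (v + h), Md T Q h u v x * ee (α * x) =
      ∑ q ∈ Icc 1 Q, ∑ a ∈ rr q, Wc T h u v q a x * ee ((α + a / q) * x) := by
    intro x _
    rw [h1 T Q h u v x, sum_mul]
    refine sum_congr rfl (fun q _ => ?_)
    rw [sum_mul]
    refine sum_congr rfl (fun a _ => ?_)
    have e2 : (α + (a : ℝ) / q) * x = α * x + (a : ℝ) * x / q := by ring
    rw [e2, GBQ.ee_add]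
    ring
  rw [sum_congr rfl e1, sum_comm]
  refine sum_congr rfl (fun q _ => ?_)
  rw [sum_comm]
  rfl

theorem mf_split {T Q : ℕ} (hT : T ≤ Q) (f : ℕ → ℂ) :
    ∑ q ∈ Icc 1 Q, f q = ∑ q ∈ Icc 1 T, f q + ∑ q ∈ Ioc T Q, f q := by
  have e1 : ∀ N : ℕ, Icc 1 N = Ioc 0 N := fun N => by
    ext x
    simp only [mem_Icc, mem_Ioc]
    omega
  rw [e1, e1]
  exact (sum_Ioc_consecutive f (Nat.zero_le T) hT).symm

/-- small denominators -/
theorem mf_small (h2 : St_Wc) {T h u v : ℕ} (hh : 1 ≤ h) (hu : h ≤ u) (huv : u ≤ v) (α : ℝ) :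
    ‖∑ q ∈ Icc 1 T, ∑ a ∈ rr q, mf_G T h u v α q a -
      ((KT T h α : ℝ) : ℂ) * ∑ n ∈ Ioc u v, ((lam n : ℝ) : ℂ) * ee (α * n)‖ ≤
      2 * (T : ℝ) ^ 6 * Real.log v := by
  set F : ℂ := ∑ n ∈ Ioc u v, ((lam n : ℝ) : ℂ) * ee (α * n) with hF
  have hv : (1 : ℝ) ≤ v := by exact_mod_cast hh.trans (hu.trans huv)
  have hlog : 0 ≤ Real.log v := Real.log_nonneg hv
  have e1 : ((KT T h α : ℝ) : ℂ) * F =
      ∑ q ∈ Icc 1 T, ∑ a ∈ rr q, ((fj h (α + a / q) : ℝ) : ℂ) * F := by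
    unfold KT
    push_cast
    rw [sum_mul]
    refine sum_congr rfl (fun q _ => ?_)
    rw [sum_mul]
  rw [e1, ← sum_sub_distrib]
  have h3 : ∀ q ∈ Icc 1 T, ‖∑ a ∈ rr q, mf_G T h u v α q a -
      ∑ a ∈ rr q, ((fj h (α + a / q) : ℝ) : ℂ) * F‖ ≤ T * (2 * (T : ℝ) ^ 4 * Real.log v) := by
    intro q hq
    obtain ⟨hq1, hqT⟩ := mem_Icc.mp hq
    have hqT' : (q : ℝ) ≤ T := by exact_mod_cast hqT
    rw [← sum_sub_distrib]
    refine (norm_sum_le _ _).trans ?_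
    have h4 : ∀ a ∈ rr q, ‖mf_G T h u v α q a - ((fj h (α + a / q) : ℝ) : ℂ) * F‖ ≤
        2 * (T : ℝ) ^ 4 * Real.log v := by
      intro a ha
      have h5 := (h2 T h u v q a (α + a / q) hh hu huv hq1 ha).2.2 hqT
      rw [add_sub_cancel_right] at h5
      refine h5.trans ?_
      have h6 : (q : ℝ) ^ 4 ≤ (T : ℝ) ^ 4 := pow_le_pow_left₀ (Nat.cast_nonneg q) hqT' 4
      have h7 : 2 * (q : ℝ) ^ 4 ≤ 2 * (T : ℝ) ^ 4 := by linarith
      exact mul_le_mul_of_nonneg_right h7 hlog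
    refine (sum_le_card_nsmul _ _ _ h4).trans ?_
    rw [nsmul_eq_mul]
    refine mul_le_mul_of_nonneg_right ?_ (by positivity)
    exact_mod_cast (mf_card_rr q).trans hqT
  refine (norm_sum_le _ _).trans ((sum_le_card_nsmul _ _ _ h3).trans ?_)
  rw [nsmul_eq_mul, Nat.card_Icc, Nat.add_sub_cancel]
  exact le_of_eq (by ring)

/-- large denominators -/
theorem mf_large (h2 : St_Wc) (h3 : St_Sp) (h4 : St_Fj) {T Q h u v : ℕ} (hh : 1 ≤ h)
    (hu : h ≤ u) (huv : u ≤ v) (hT : 1 ≤ T) (hTQ : T ≤ Q) {η : ℝ} (hη : 0 ≤ η)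
    (hφ : ∀ q : ℕ, T < q → q ≤ Q → 1 / (q.totient : ℝ) ≤ η) (α : ℝ) :
    ‖∑ q ∈ Ioc T Q, ∑ a ∈ rr q, mf_G T h u v α q a‖ ≤
      (Q : ℝ) ^ 9 / (h : ℝ) ^ 2 * ∑ n ∈ Ioc u v, lam n +
        Real.sqrt T * η * ∑ x ∈ range (v + h), NB (BI h u v x) T := by
  classical
  set L : ℝ := ∑ n ∈ Ioc u v, lam n with hL
  set C : ℝ := Real.sqrt T * η * ∑ x ∈ range (v + h), NB (BI h u v x) T with hC
  set B : ℝ := (Q : ℝ) ^ 7 / (h : ℝ) ^ 2 * L with hB
  have hQ1 : 1 ≤ Q := hT.trans hTQ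
  have hQ : (1 : ℝ) ≤ Q := by exact_mod_cast hQ1
  have hh0 : (0 : ℝ) < h := by exact_mod_cast hh
  have hL0 : 0 ≤ L := sum_nonneg (fun n _ => mf_lam_nonneg n)
  have hC0 : 0 ≤ C := mul_nonneg (mul_nonneg (Real.sqrt_nonneg _) hη)
    (sum_nonneg (fun x _ => mf_NB_nonneg _ _))
  have hB0 : 0 ≤ B := by positivity
  set P : Finset (Σ _ : ℕ, ℕ) := (Ioc T Q).sigma (fun q => rr q) with hP
  have hmem : ∀ p ∈ P, T < p.1 ∧ p.1 ≤ Q ∧ p.2 ∈ rr p.1 := by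
    intro p hp
    obtain ⟨h5, h6⟩ := mem_sigma.mp hp
    exact ⟨(mem_Ioc.mp h5).1, (mem_Ioc.mp h5).2, h6⟩
  have hsum : ∑ q ∈ Ioc T Q, ∑ a ∈ rr q, mf_G T h u v α q a =
      ∑ p ∈ P, mf_G T h u v α p.1 p.2 := by
    rw [hP, sum_sigma]
  rw [hsum]
  refine (norm_sum_le _ _).trans ?_
  have hbd : ∀ p ∈ P, ‖mf_G T h u v α p.1 p.2‖ ≤
      B + if nd (α + p.2 / p.1) < 1 / (2 * (Q : ℝ) ^ 2) then C else 0 := by
    intro p hp
    obtain ⟨hTp, hpQ, ha⟩ := hmem p hp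
    have hp1 : 1 ≤ p.1 := by omega
    have hpQ' : (p.1 : ℝ) ≤ Q := by exact_mod_cast hpQ
    have hW := h2 T h u v p.1 p.2 (α + p.2 / p.1) hh hu huv hp1 ha
    split_ifs with hc
    · have h5 : ‖mf_G T h u v α p.1 p.2‖ ≤ C := by
        unfold mf_G
        refine (norm_sum_le _ _).trans ?_
        rw [hC, mul_sum]
        refine sum_le_sum (fun x _ => ?_)
        rw [norm_mul, GBQ.ee_norm, mul_one]
        refine (hW.1 x).trans ?_
        rw [div_eq_mul_one_div]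
        exact mul_le_mul_of_nonneg_right
          (mul_le_mul_of_nonneg_left (hφ p.1 hTp hpQ) (Real.sqrt_nonneg _)) (mf_NB_nonneg _ _)
      linarith
    · rw [add_zero]
      rw [not_lt] at hc
      have h5 := (h4 h (α + p.2 / p.1) hh)
      have h6 : fj h (α + p.2 / p.1) ≤ (Q : ℝ) ^ 4 / (h : ℝ) ^ 2 := by
        have h7 : ((h : ℝ) / (Q : ℝ) ^ 2) ^ 2 ≤ 4 * ((h : ℝ) * nd (α + p.2 / p.1)) ^ 2 := by
          have h8 : (h : ℝ) / (Q : ℝ) ^ 2 ≤ 2 * ((h : ℝ) * nd (α + p.2 / p.1)) := by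
            have h9 := mul_le_mul_of_nonneg_left hc (mul_nonneg zero_le_two hh0.le)
            calc (h : ℝ) / (Q : ℝ) ^ 2 = 2 * (h : ℝ) * (1 / (2 * (Q : ℝ) ^ 2)) := by
                  field_simp
              _ ≤ 2 * (h : ℝ) * nd (α + p.2 / p.1) := h9
              _ = _ := by ring
          have h10 := pow_le_pow_left₀ (by positivity) h8 2
          rw [mul_pow] at h10
          norm_num at h10 ⊢
          exact h10
        have h11 : ((h : ℝ) / (Q : ℝ) ^ 2) ^ 2 * fj h (α + p.2 / p.1) ≤ 1 :=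
          (mul_le_mul_of_nonneg_right h7 h5.1).trans h5.2.2.1
        rw [le_div_iff₀ (by positivity)]
        have h12 : fj h (α + p.2 / p.1) * (h : ℝ) ^ 2 =
            ((h : ℝ) / (Q : ℝ) ^ 2) ^ 2 * fj h (α + p.2 / p.1) * (Q : ℝ) ^ 4 := by
          have hQ0 : (Q : ℝ) ≠ 0 := by positivity
          field_simp
        rw [h12]
        calc _ ≤ 1 * (Q : ℝ) ^ 4 := mul_le_mul_of_nonneg_right h11 (by positivity)
          _ = _ := one_mul _
      have h13 : ((p.1 : ℝ) ^ 3 * L) ≤ (Q : ℝ) ^ 3 * L :=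
        mul_le_mul_of_nonneg_right (pow_le_pow_left₀ (Nat.cast_nonneg _) hpQ' 3) hL0
      calc ‖mf_G T h u v α p.1 p.2‖ ≤ fj h (α + p.2 / p.1) * ((p.1 : ℝ) ^ 3 * L) := hW.2.1
        _ ≤ (Q : ℝ) ^ 4 / (h : ℝ) ^ 2 * ((Q : ℝ) ^ 3 * L) :=
            mul_le_mul h6 h13 (by positivity) (by positivity)
        _ = B := by rw [hB]; ring
  refine (sum_le_sum hbd).trans ?_
  rw [sum_add_distrib, sum_const, nsmul_eq_mul]
  have hcard : (P.card : ℝ) ≤ (Q : ℝ) ^ 2 := by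
    have h5 : P.card ≤ Q * Q := by
      rw [hP, card_sigma]
      refine (sum_le_card_nsmul _ _ Q (fun q hq => (mf_card_rr q).trans (mem_Ioc.mp hq).2)).trans ?_
      rw [smul_eq_mul, Nat.card_Ioc]
      exact Nat.mul_le_mul_right _ (Nat.sub_le _ _)
    calc (P.card : ℝ) ≤ ((Q * Q : ℕ) : ℝ) := by exact_mod_cast h5
      _ = _ := by push_cast; ring
  have hone : ∑ p ∈ P, (if nd (α + p.2 / p.1) < 1 / (2 * (Q : ℝ) ^ 2) then C else 0) ≤ C := by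
    rw [← sum_filter, sum_const, nsmul_eq_mul]
    have h5 : (P.filter (fun p => nd (α + p.2 / p.1) < 1 / (2 * (Q : ℝ) ^ 2))).card ≤ 1 := by
      rw [card_le_one]
      intro p hp p' hp'
      obtain ⟨hp1, hp2⟩ := mem_filter.mp hp
      obtain ⟨hp1', hp2'⟩ := mem_filter.mp hp'
      obtain ⟨hTp, hpQ, ha⟩ := hmem p hp1
      obtain ⟨hTp', hpQ', ha'⟩ := hmem p' hp1'
      by_contra hne
      have h6 : p.1 ≠ p'.1 ∨ p.2 ≠ p'.2 := by
        by_contra hcon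
        rw [not_or, not_not, not_not] at hcon
        apply hne
        obtain ⟨q, a⟩ := p
        obtain ⟨q', a'⟩ := p'
        obtain ⟨h7, h8⟩ := hcon
        simp only at h7 h8
        rw [h7, h8]
      have h9 := h3 Q p.1 p.2 p'.1 p'.2 α hQ1 (by omega) hpQ (by omega) hpQ' ha ha' h6 hp2
      exact absurd hp2' (not_lt.mpr h9)
    have h6 : ((P.filter (fun p => nd (α + p.2 / p.1) < 1 / (2 * (Q : ℝ) ^ 2))).card : ℝ) ≤ 1 := by
      exact_mod_cast h5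
    calc _ ≤ 1 * C := mul_le_mul_of_nonneg_right h6 hC0
      _ = C := one_mul C
  have h14 : (P.card : ℝ) * B ≤ (Q : ℝ) ^ 9 / (h : ℝ) ^ 2 * L := by
    calc (P.card : ℝ) * B ≤ (Q : ℝ) ^ 2 * B := mul_le_mul_of_nonneg_right hcard hB0
      _ = _ := by rw [hB]; ring
  exact add_le_add h14 hone

theorem thm_Mf (h1 : St_Ex) (h2 : St_Wc) (h3 : St_Sp) (h4 : St_Fj) : St_Mf := by
  intro T Q h u v α η hh hu huv hT hTQ hη hφ
  rw [mf_expand h1, mf_split hTQ]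
  have h5 := mf_small h2 (T := T) hh hu huv α
  have h6 := mf_large h2 h3 h4 hh hu huv hT hTQ hη hφ α
  have e1 : ∑ q ∈ Icc 1 T, ∑ a ∈ rr q, mf_G T h u v α q a +
      ∑ q ∈ Ioc T Q, ∑ a ∈ rr q, mf_G T h u v α q a -
      ((KT T h α : ℝ) : ℂ) * ∑ n ∈ Ioc u v, ((lam n : ℝ) : ℂ) * ee (α * n) =
      (∑ q ∈ Icc 1 T, ∑ a ∈ rr q, mf_G T h u v α q a -
      ((KT T h α : ℝ) : ℂ) * ∑ n ∈ Ioc u v, ((lam n : ℝ) : ℂ) * ee (α * n)) +
      ∑ q ∈ Ioc T Q, ∑ a ∈ rr q, mf_G T h u v α q a := by ring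
  rw [e1]
  refine (norm_add_le _ _).trans ?_
  linarith

end Pool.Agent.MVII
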