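import Pool.Agent.MVII.St1
import Pool.Agent.BVX.MulLS

set_option autoImplicit false

/-!
# MVII, module Sp: separation of fractions
-/

namespace Pool.Agent.MVII

open Finset Filter
open Pool.Agent.GBQ (ee lam nd Admissible)

theorem sp_nd_sub (u v : ℝ) : |(u - v) - round (u - v)| ≤ nd u + nd v := by
  have h1 := round_le (u - v) (round u - round v)
  refine h1.trans ?_
  have h2 : (u - v) - ((round u - round v : ℤ) : ℝ) = (u - round u) - (v - round v) := by
    push_cast
    ring
  rw [h2]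
  exact abs_sub _ _

/-- **Sp** -/
theorem thm_Sp : St_Sp := by
  intro Q q a q' a' α hQ hq hqQ hq' hqQ' ha ha' hne hlt
  rw [rr, mem_filter, mem_range] at ha ha'
  have h1 := BVX.farey_spacing hq hqQ hq' hqQ' ha.1 ha'.1 ha.2 ha'.2 (by
    rintro ⟨h2, h3⟩
    rcases hne with h | h
    · exact h h2
    · exact h h3)
  have h2 := sp_nd_sub (α + a / q) (α + a' / q')
  have h3 : (α + (a : ℝ) / q) - (α + (a' : ℝ) / q') = (a : ℝ) / q - (a' : ℝ) / q' := by ring
  rw [h3] at h2
  have h4 : 1 / (Q : ℝ) ^ 2 = 1 / (2 * (Q : ℝ) ^ 2) + 1 / (2 * (Q : ℝ) ^ 2) := by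
    have hQ0 : (Q : ℝ) ≠ 0 := by
      have : 0 < Q := hQ
      positivity
    field_simp
    norm_num
  rw [h4] at h1
  have h5 := h1.trans h2
  linarith

end Pool.Agent.MVII
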