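import Pool.Agent.MVII.St2

set_option autoImplicit false

/-!
# MVII: positivity of the completed mean
-/

namespace Pool.Agent.MVII

open Finset Filter
open Pool.Agent.GBQ (ee lam nd Admissible)
open Pool.Agent.MVX (Chr tent Bm Um prm Win GP)
open Pool.Agent.LIN (PP pz)

theorem po_re (M : ℕ) (f : ℤ → ℂ) : (mn M f).re = (∑ y ∈ range M, (f y).re) / M := by
  unfold mn
  rw [← Complex.re_sum]
  exact Complex.div_natCast_re _ _

theorem po_mono {M : ℕ} {f g : ℤ → ℂ} (h : ∀ y, (f y).re ≤ (g y).re) :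
    (mn M f).re ≤ (mn M g).re := by
  rw [po_re, po_re]
  exact div_le_div_of_nonneg_right (sum_le_sum (fun y _ => h y)) (Nat.cast_nonneg M)

theorem po_comb (M : ℕ) (F G : ℤ → ℝ) (a c : ℝ) :
    (mn M (fun y => ((a * F y - c * G y : ℝ) : ℂ))).re =
      a * (mn M (fun y => ((F y : ℝ) : ℂ))).re - c * (mn M (fun y => ((G y : ℝ) : ℂ))).re := by
  rw [po_re, po_re, po_re]
  simp only [Complex.ofReal_re]
  rw [sum_sub_distrib, ← mul_sum, ← mul_sum]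
  ring

theorem po_SS_le (h3 : St_Sf) {q₁ w : ℕ} {D : ℝ} {ψ : Finset ℕ → ℝ} (hψ : IsPsi w D ψ) (y : ℤ) :
    SS q₁ w ψ y ≤ if ∀ p ∈ PP 2 w, ¬ (p : ℤ) ∣ y ^ 2 - 2 then (1 : ℝ) else 0 := by
  split_ifs with hs
  · rw [h3.1 q₁ w D ψ y hψ]
    have h1 : (PP 2 w).filter (fun p => ¬ p ∣ q₁ ∧ (p : ℤ) ∣ y ^ 2 - 2) = ∅ := by
      rw [filter_eq_empty_iff]
      intro p hp hc
      exact hs p hp hc.2
    rw [h1, if_pos (fun p hp _ => hs p hp), one_mul]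
    have h2 := hψ.low ∅ (empty_subset _)
    rwa [if_pos rfl] at h2
  · by_contra hcon
    rw [not_le] at hcon
    exact hs (h3.2.1 q₁ w D ψ y hψ hcon)

theorem po_gp_nonneg {p : ℕ} (hp : p.Prime) (x : ℤ) : 0 ≤ gp p x := by
  unfold gp
  split_ifs
  · exact le_rfl
  · have h1 : (1 : ℝ) ≤ p := by exact_mod_cast hp.one_lt.le
    exact div_nonneg (by linarith) (by linarith)

theorem po_GQ_nonneg (Q : ℕ) (x : ℤ) : 0 ≤ GQ Q x :=
  prod_nonneg (fun _ hp => po_gp_nonneg (mem_filter.mp hp).2 x)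

theorem po_wq_nonneg (Q m n : ℕ) (y : ℤ) : 0 ≤ wq Q m n y :=
  mul_nonneg (po_GQ_nonneg _ _) (po_GQ_nonneg _ _)

theorem po_near {L L' : ℂ} {a a' : ℝ} (ha : 0 ≤ a) (ha' : 0 ≤ a')
    (h : ‖L - ((a : ℝ) : ℂ)‖ ≤ 4 / 1000 * a) (h' : ‖L' - ((a' : ℝ) : ℂ)‖ ≤ 4 / 1000 * a') :
    |(L * L').re - a * a'| ≤ 1 / 100 * (a * a') := by
  have e : ((L * L').re - a * a') = (L * L' - ((a * a' : ℝ) : ℂ)).re := by
    rw [Complex.sub_re, Complex.ofReal_re]
  have e2 : L * L' - ((a * a' : ℝ) : ℂ) =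
      (L - ((a : ℝ) : ℂ)) * L' + ((a : ℝ) : ℂ) * (L' - ((a' : ℝ) : ℂ)) := by
    push_cast
    ring
  have hL' : ‖L'‖ ≤ 1004 / 1000 * a' := by
    have e3 : L' = ((a' : ℝ) : ℂ) + (L' - ((a' : ℝ) : ℂ)) := by ring
    rw [e3]
    refine (norm_add_le _ _).trans ?_
    rw [Complex.norm_of_nonneg ha']
    linarith
  rw [e]
  refine (Complex.abs_re_le_norm _).trans ?_
  rw [e2]
  refine (norm_add_le _ _).trans ?_
  rw [norm_mul, norm_mul, Complex.norm_of_nonneg ha]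
  have h1 : ‖L - ((a : ℝ) : ℂ)‖ * ‖L'‖ ≤ 4 / 1000 * a * (1004 / 1000 * a') :=
    mul_le_mul h hL' (norm_nonneg _) (by positivity)
  have h2 : a * ‖L' - ((a' : ℝ) : ℂ)‖ ≤ a * (4 / 1000 * a') := mul_le_mul_of_nonneg_left h' ha
  nlinarith [mul_nonneg ha ha']

theorem po_pt {R P S s : ℝ} (hR : |R - P| ≤ 1 / 100 * P) (hS : S ≤ s)
    (hs : 0 ≤ s) : 101 / 100 * (P * S) - 2 / 100 * (P * s) ≤ R * S := by
  obtain ⟨h1, h2⟩ := abs_le.mp hR
  have h3 : (1 / 100 * P - (R - P)) * S ≤ (1 / 100 * P - (R - P)) * s :=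
    mul_le_mul_of_nonneg_left hS (by linarith)
  have h4 : (1 / 100 * P - (R - P)) * s ≤ 2 / 100 * P * s :=
    mul_le_mul_of_nonneg_right (by linarith) hs
  nlinarith

theorem po_low {q₁ : ℕ} (χ₁ : DirichletCharacter ℂ q₁) (a : ZMod q₁) {l v : ℝ} (hv : 0 ≤ v)
    (hv1 : v ≤ 1 - l / 4) : l / 4 ≤ 1 - (χ₁ a).re * v := by
  have h1 : (χ₁ a).re ≤ 1 := (Complex.re_le_norm _).trans (χ₁.norm_le_one a)
  have h2 : (χ₁ a).re * v ≤ 1 * v := mul_le_mul_of_nonneg_right h1 hv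
  linarith

theorem po_close {q₁ : ℕ} (χ₁ : DirichletCharacter ℂ q₁) (a : ZMod q₁) {l v : ℝ} (hl : 0 < l)
    (hl1 : l ≤ 1) (hv : 0 ≤ v) (hv1 : v ≤ 1 - l / 4) (him : (χ₁ a).im = 0) {L : ℂ}
    (h : ‖L - (1 - χ₁ a * ((v : ℝ) : ℂ))‖ ≤ l ^ 3 / 1000) :
    ‖L - (((1 - (χ₁ a).re * v : ℝ)) : ℂ)‖ ≤ 4 / 1000 * (1 - (χ₁ a).re * v) := by
  have e : (((1 - (χ₁ a).re * v : ℝ)) : ℂ) = 1 - χ₁ a * ((v : ℝ) : ℂ) := by
    have e1 : χ₁ a = (((χ₁ a).re : ℝ) : ℂ) := by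
      apply Complex.ext
      · rw [Complex.ofReal_re]
      · rw [Complex.ofReal_im, him]
    rw [e1]
    push_cast
    rw [Complex.ofReal_re]
  rw [e]
  refine h.trans ?_
  have h1 := po_low χ₁ a hv hv1
  have h2 : l ^ 3 ≤ l := by
    have h3 : l ^ 3 ≤ l ^ 1 := pow_le_pow_of_le_one hl.le hl1 (by norm_num)
    rwa [pow_one] at h3
  linarith

theorem thm_Po (h1 : St_Pf) (h2 : St_Pl) (h3 : St_Sf) : St_Po := by
  intro T Q m n q₁ w D l v v' ψ b b' χ₁ hnm hodd hq1 hqQ hw hwQ _ hψ him hl hl1 hv hv1 hv' hv1'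
    hL hL'
  set A : ℤ → ℝ := fun y => 1 - (χ₁ ((((n : ℤ) - m * y : ℤ)) : ZMod q₁)).re * v with hA
  set A' : ℤ → ℝ := fun y => 1 - (χ₁ ((y : ℤ) : ZMod q₁)).re * v' with hA'
  set s : ℤ → ℝ := fun y => if ∀ p ∈ PP 2 w, ¬ (p : ℤ) ∣ y ^ 2 - 2 then (1 : ℝ) else 0 with hs
  have hAl : ∀ y, l / 4 ≤ A y := fun y => po_low χ₁ _ hv hv1
  have hAl' : ∀ y, l / 4 ≤ A' y := fun y => po_low χ₁ _ hv' hv1'
  have hl4 : 0 ≤ l / 4 := by linarith
  have hA0 : ∀ y, 0 ≤ A y := fun y => hl4.trans (hAl y)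
  have hA0' : ∀ y, 0 ≤ A' y := fun y => hl4.trans (hAl' y)
  have hs0 : ∀ y, 0 ≤ s y := by
    intro y
    simp only [hs]
    split_ifs
    · exact zero_le_one
    · exact le_rfl
  have hSs : ∀ y, SS q₁ w ψ y ≤ s y := fun y => po_SS_le h3 hψ y
  have hper : ∀ y : ℤ, A (y + q₁) * A' (y + q₁) = A y * A' y := by
    intro y
    have e1 : (((n : ℤ) - m * (y + q₁) : ℤ) : ZMod q₁) = (((n : ℤ) - m * y : ℤ) : ZMod q₁) := by
      push_cast
      rw [ZMod.natCast_self]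
      ring
    have e2 : ((y + q₁ : ℤ) : ZMod q₁) = ((y : ℤ) : ZMod q₁) := by
      push_cast
      rw [ZMod.natCast_self]
      ring
    simp only [hA, hA']
    rw [e1, e2]
  have hPf := h1 Q m n q₁ w D ψ (fun y => A y * A' y) hnm hodd hq1 hqQ hw hwQ hψ
    (fun y => mul_nonneg (hA0 y) (hA0' y)) hper
  have hPl := h2 Q m n w (hq1.trans hqQ) hwQ
  -- the pointwise inequality
  have key : (mn Q.factorial (fun y => ((101 / 100 * (A y * A' y * wq Q m n y * SS q₁ w ψ y) -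
      2 / 100 * (A y * A' y * wq Q m n y * s y) : ℝ) : ℂ))).re ≤
      (mn Q.factorial (fun y => PL b T (n - m * y) * PL b' T y *
        ((wq Q m n y * SS q₁ w ψ y : ℝ) : ℂ))).re := by
    apply po_mono
    intro y
    rw [Complex.ofReal_re, Complex.re_mul_ofReal]
    have h5 := po_near (hA0 y) (hA0' y) (po_close χ₁ _ hl hl1 hv hv1 (him _) (hL (n - m * y)))
      (po_close χ₁ _ hl hl1 hv' hv1' (him _) (hL' y))
    have h6 := po_pt h5 (hSs y) (hs0 y)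
    have h7 := mul_le_mul_of_nonneg_right h6 (po_wq_nonneg Q m n y)
    calc 101 / 100 * (A y * A' y * wq Q m n y * SS q₁ w ψ y) -
          2 / 100 * (A y * A' y * wq Q m n y * s y)
        = (101 / 100 * (A y * A' y * SS q₁ w ψ y) - 2 / 100 * (A y * A' y * s y)) *
          wq Q m n y := by ring
      _ ≤ (PL b T (n - m * y) * PL b' T y).re * SS q₁ w ψ y * wq Q m n y := h7
      _ = _ := by ring
  rw [po_comb] at key
  have hlow : (l / 4) ^ 2 * ∏ p ∈ pz Q, loc w m n p ≤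
      (mn Q.factorial (fun y => ((A y * A' y * wq Q m n y * s y : ℝ) : ℂ))).re := by
    have h8 : (mn Q.factorial (fun y => (((l / 4) ^ 2 * (wq Q m n y * s y) -
        0 * (wq Q m n y * s y) : ℝ) : ℂ))).re ≤
        (mn Q.factorial (fun y => ((A y * A' y * wq Q m n y * s y : ℝ) : ℂ))).re := by
      apply po_mono
      intro y
      rw [Complex.ofReal_re, Complex.ofReal_re, zero_mul, sub_zero, mul_assoc (A y * A' y)]
      refine mul_le_mul_of_nonneg_right ?_ (mul_nonneg (po_wq_nonneg Q m n y) (hs0 y))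
      rw [pow_two]
      exact mul_le_mul (hAl y) (hAl' y) hl4 (hA0 y)
    rw [po_comb, hPl, Complex.ofReal_re, zero_mul, sub_zero] at h8
    exact h8
  have hprod : 0 ≤ ∏ p ∈ pz Q, loc w m n p := by
    refine prod_nonneg (fun p _ => ?_)
    unfold loc
    positivity
  have hM0 : 0 ≤ (mn Q.factorial (fun y => ((A y * A' y * wq Q m n y * s y : ℝ) : ℂ))).re :=
    le_trans (mul_nonneg (sq_nonneg _) hprod) hlow
  have hPf' : 3 / 4 * (mn Q.factorial (fun y => ((A y * A' y * wq Q m n y * s y : ℝ) : ℂ))).re ≤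
      (mn Q.factorial (fun y => ((A y * A' y * wq Q m n y * SS q₁ w ψ y : ℝ) : ℂ))).re := hPf
  nlinarith [key, hlow, hM0, hPf']

end Pool.Agent.MVII
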