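import Pool.Agent.MVII.St2

/-!
# MVII, module Cp: completion of the truncated singular series in the mean
-/

set_option autoImplicit false

namespace Pool.Agent.MVII

open Finset
open Pool.Agent.MVX (Chr prm)
open Pool.Agent.LIN (PP pz)

/-- the characters -/
private noncomputable def cp_S (T : ℕ) : Finset Chr := (Icc 1 T).sigma fun r => prm r

private noncomputable def cp_v (V : Finset ℕ) (x : ℤ) : ℂ :=
  ((∏ p ∈ V, (-(cp p x / ((p : ℝ) - 1))) : ℝ) : ℂ)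

private noncomputable def cp_A (Q r : ℕ) : Finset (Finset ℕ) :=
  (pz Q).powerset.filter (fun V => r * ∏ p ∈ V, p ≤ Q ∧ ∀ p ∈ V, ¬ p ∣ r)

private noncomputable def cp_B (Q r : ℕ) : Finset (Finset ℕ) :=
  (pz Q).powerset.filter (fun V => ∀ p ∈ V, ¬ p ∣ r)

private noncomputable def cp_k (r : ℕ) : ℂ := (((r : ℝ) / r.totient : ℝ) : ℂ)

private theorem cp_mem_S {T : ℕ} {c : Chr} (hc : c ∈ cp_S T) : 1 ≤ c.1 ∧ c.1 ≤ T := by
  rw [cp_S, Finset.mem_sigma, Finset.mem_Icc] at hc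
  exact hc.1

private theorem cp_PM (h2 : St_Br) (b : Chr → ℂ) (T Q : ℕ) (hTQ : T ≤ Q) (x : ℤ) :
    PM b T Q x = ∑ c ∈ cp_S T, b c * cp_k c.1 * (starRingEnd ℂ) (c.2 (x : ZMod c.1)) *
      ∑ V ∈ cp_A Q c.1, cp_v V x := by
  rw [cp_S, Finset.sum_sigma, PM]
  refine Finset.sum_congr rfl fun r hr => Finset.sum_congr rfl fun χ _ => ?_
  rw [Finset.mem_Icc] at hr
  rw [h2.1 Q r x hr.1 (hr.2.trans hTQ)]
  show b ⟨r, χ⟩ * (starRingEnd ℂ) (χ (x : ZMod r)) * _ =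
    b ⟨r, χ⟩ * cp_k r * (starRingEnd ℂ) (χ (x : ZMod r)) * ∑ V ∈ cp_A Q r, cp_v V x
  rw [Complex.ofReal_mul, Complex.ofReal_sum]
  show b ⟨r, χ⟩ * (starRingEnd ℂ) (χ (x : ZMod r)) * (cp_k r * ∑ V ∈ cp_A Q r, cp_v V x) = _
  ring

private theorem cp_PL (h2 : St_Br) (b : Chr → ℂ) (T Q : ℕ) (hTQ : T ≤ Q) (x : ℤ) :
    PL b T x * ((GQ Q x : ℝ) : ℂ) = ∑ c ∈ cp_S T, b c * cp_k c.1 *
      (starRingEnd ℂ) (c.2 (x : ZMod c.1)) * ∑ V ∈ cp_B Q c.1, cp_v V x := by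
  rw [cp_S, Finset.sum_sigma, PL, Finset.sum_mul]
  refine Finset.sum_congr rfl fun r hr => ?_
  rw [Finset.sum_mul]
  refine Finset.sum_congr rfl fun χ _ => ?_
  rw [Finset.mem_Icc] at hr
  rw [mul_assoc, ← h2.2 Q r χ x hr.1 (hr.2.trans hTQ)]
  show b ⟨r, χ⟩ * ((starRingEnd ℂ) (χ (x : ZMod r)) * _) =
    b ⟨r, χ⟩ * cp_k r * (starRingEnd ℂ) (χ (x : ZMod r)) * ∑ V ∈ cp_B Q r, cp_v V x
  rw [Complex.ofReal_mul, Complex.ofReal_sum]
  show b ⟨r, χ⟩ * ((starRingEnd ℂ) (χ (x : ZMod r)) * (cp_k r * ∑ V ∈ cp_B Q r, cp_v V x)) = _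
  ring

private theorem cp_NB (b : Chr → ℂ) (T : ℕ) : NB b T = ∑ c ∈ cp_S T, ‖b c‖ := by
  rw [cp_S, Finset.sum_sigma, NB]

private noncomputable def cp_i (U : Finset ℕ) (y : ℤ) : ℂ :=
  if ∀ p ∈ U, (p : ℤ) ∣ y ^ 2 - 2 then 1 else 0

private theorem cp_SS (q₁ w : ℕ) (ψ : Finset ℕ → ℝ) (y : ℤ) : ((SS q₁ w ψ y : ℝ) : ℂ) =
    ∑ U ∈ (PP 2 w).powerset, ((sg q₁ ψ U : ℝ) : ℂ) * cp_i U y := by
  rw [SS, Complex.ofReal_sum]
  refine Finset.sum_congr rfl fun U _ => ?_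
  unfold cp_i
  split_ifs <;> simp

private noncomputable def cp_Phi (m n : ℕ) (c c' : Chr) (U : Finset ℕ) (y : ℤ) : ℂ :=
  (starRingEnd ℂ) (c.2 (((n : ℤ) - m * y : ℤ) : ZMod c.1)) *
    (starRingEnd ℂ) (c'.2 (y : ZMod c'.1)) * cp_i U y

private theorem cp_Phi_norm (m n : ℕ) (c c' : Chr) (U : Finset ℕ) (y : ℤ) :
    ‖cp_Phi m n c c' U y‖ ≤ 1 := by
  unfold cp_Phi
  rw [norm_mul, norm_mul, RCLike.norm_conj, RCLike.norm_conj]
  have h1 := DirichletCharacter.norm_le_one c.2 (((n : ℤ) - m * y : ℤ) : ZMod c.1)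
  have h2 := DirichletCharacter.norm_le_one c'.2 (y : ZMod c'.1)
  have h3 : ‖cp_i U y‖ ≤ 1 := by
    unfold cp_i
    split_ifs <;> simp
  have h4 := mul_le_one₀ h1 (norm_nonneg _) h2
  exact mul_le_one₀ h4 (norm_nonneg _) h3

private theorem cp_Phi_per (m n : ℕ) (c c' : Chr) (U : Finset ℕ) (E : ℕ) (h1 : c.1 ∣ E)
    (h2 : c'.1 ∣ E) (h3 : ∏ p ∈ U, p ∣ E) : Per E (cp_Phi m n c c' U) := by
  intro y
  unfold cp_Phi
  have e1 : (((n : ℤ) - m * (y + E) : ℤ) : ZMod c.1) = (((n : ℤ) - m * y : ℤ) : ZMod c.1) := by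
    have : (E : ZMod c.1) = 0 := (ZMod.natCast_eq_zero_iff _ _).2 h1
    push_cast
    rw [this]
    ring
  have e2 : ((y + E : ℤ) : ZMod c'.1) = (y : ZMod c'.1) := by
    have : (E : ZMod c'.1) = 0 := (ZMod.natCast_eq_zero_iff _ _).2 h2
    push_cast
    rw [this]
    ring
  have e3 : cp_i U (y + E) = cp_i U y := by
    unfold cp_i
    have : (∀ p ∈ U, (p : ℤ) ∣ (y + E) ^ 2 - 2) ↔ ∀ p ∈ U, (p : ℤ) ∣ y ^ 2 - 2 := by
      refine forall_congr' fun p => forall_congr' fun hp => ?_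
      have h4 : (p : ℤ) ∣ E := by
        have : p ∣ E := (Finset.dvd_prod_of_mem _ hp).trans h3
        exact_mod_cast this
      have h5 : (y + E : ℤ) ^ 2 - 2 = (y ^ 2 - 2) + E * (2 * y + E) := by ring
      rw [h5]
      exact dvd_add_left (h4.mul_right _)
    simp only [this]
  rw [e1, e2, e3]

private theorem cp_mn_sum {ι : Type} (M : ℕ) (s : Finset ι) (f : ι → ℤ → ℂ) :
    mn M (fun y => ∑ i ∈ s, f i y) = ∑ i ∈ s, mn M (f i) := by
  unfold mn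
  rw [Finset.sum_comm, Finset.sum_div]

private theorem cp_mn_mul (M : ℕ) (a : ℂ) (f : ℤ → ℂ) :
    mn M (fun y => a * f y) = a * mn M f := by
  unfold mn
  rw [← Finset.mul_sum, mul_div_assoc]

private theorem cp_mn_sub (M : ℕ) (f g : ℤ → ℂ) :
    mn M f - mn M g = mn M (fun y => f y - g y) := by
  unfold mn
  rw [Finset.sum_sub_distrib, sub_div]

private theorem cp_diff {ι : Type} [DecidableEq ι] (A B A' B' : Finset ι) (hA : A ⊆ B)
    (hA' : A' ⊆ B') (f g : ι → ℂ) :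
    (∑ V ∈ A, f V) * (∑ W ∈ A', g W) - (∑ V ∈ B, f V) * (∑ W ∈ B', g W) =
      -∑ v ∈ (B ×ˢ B') \ (A ×ˢ A'), f v.1 * g v.2 := by
  rw [Finset.sum_mul_sum, Finset.sum_mul_sum, ← Finset.sum_product', ← Finset.sum_product',
    ← Finset.sum_sdiff (Finset.product_subset_product hA hA')]
  ring

private theorem cp_prod_le {q₁ w : ℕ} {D : ℝ} {ψ : Finset ℕ → ℝ} (hq : 1 ≤ q₁)
    (hψ : IsPsi w D ψ) {U : Finset ℕ} (hU : U ⊆ PP 2 w) (hs : sg q₁ ψ U ≠ 0) :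
    ((∏ p ∈ U, p : ℕ) : ℝ) ≤ q₁ * D := by
  have hpr : ∀ p ∈ U, p.Prime := fun p hp => (Finset.mem_filter.1 (hU hp)).2
  have h1 : ψ (U.filter fun p => ¬ p ∣ q₁) ≠ 0 := by
    intro h0
    apply hs
    rw [sg, h0, mul_zero]
  have h2 := (hψ.supp _ h1).2
  have h3 : (∏ p ∈ U.filter fun p => p ∣ q₁, p) ∣ q₁ := by
    refine Finset.prod_primes_dvd q₁ (fun p hp => ?_) fun p hp => (Finset.mem_filter.1 hp).2
    exact (hpr p (Finset.mem_filter.1 hp).1).prime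
  have h4 : ((∏ p ∈ U.filter fun p => p ∣ q₁, p : ℕ) : ℝ) ≤ q₁ := by
    exact_mod_cast Nat.le_of_dvd hq h3
  rw [← Finset.prod_filter_mul_prod_filter_not U (fun p => p ∣ q₁) fun p => p, Nat.cast_mul]
  exact mul_le_mul h4 h2 (by positivity) (by positivity)

private theorem cp_card {q₁ w : ℕ} {D : ℝ} {ψ : Finset ℕ → ℝ} (hq : 1 ≤ q₁) (hD : 1 ≤ D)
    (hψ : IsPsi w D ψ) :
    ((((PP 2 w).powerset.filter fun U => sg q₁ ψ U ≠ 0).card : ℕ) : ℝ) ≤ q₁ * D := by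
  have h1 : ((PP 2 w).powerset.filter fun U => sg q₁ ψ U ≠ 0).card ≤
      (Icc 1 ⌊(q₁ : ℝ) * D⌋₊).card := by
    refine Finset.card_le_card_of_injOn (fun U => ∏ p ∈ U, p) ?_ ?_
    · intro U hU
      rw [Finset.mem_coe, Finset.mem_filter, Finset.mem_powerset] at hU
      rw [Finset.mem_coe, Finset.mem_Icc]
      have hpr : ∀ p ∈ U, p.Prime := fun p hp => (Finset.mem_filter.1 (hU.1 hp)).2
      exact ⟨Nat.one_le_iff_ne_zero.2 (Finset.prod_ne_zero_iff.2 fun p hp => (hpr p hp).ne_zero),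
        Nat.le_floor (cp_prod_le hq hψ hU.1 hU.2)⟩
    · intro U hU U' hU' h
      rw [Finset.mem_coe, Finset.mem_filter, Finset.mem_powerset] at hU hU'
      have hpr : ∀ p ∈ U, p.Prime := fun p hp => (Finset.mem_filter.1 (hU.1 hp)).2
      have hpr' : ∀ p ∈ U', p.Prime := fun p hp => (Finset.mem_filter.1 (hU'.1 hp)).2
      have e1 := Nat.primeFactors_prod hpr
      have e2 := Nat.primeFactors_prod hpr'
      have h' : ∏ p ∈ U, p = ∏ p ∈ U', p := h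
      rw [← e1, h', e2]
  rw [Nat.card_Icc, Nat.add_sub_cancel] at h1
  calc ((((PP 2 w).powerset.filter fun U => sg q₁ ψ U ≠ 0).card : ℕ) : ℝ) ≤
      (⌊(q₁ : ℝ) * D⌋₊ : ℝ) := by exact_mod_cast h1
    _ ≤ _ := Nat.floor_le (by positivity)

private theorem cp_k_le {r T : ℕ} (h1 : 1 ≤ r) (h2 : r ≤ T) : ‖cp_k r‖ ≤ T := by
  have h3 : 1 ≤ r.totient := Nat.totient_pos.2 h1
  have h4 : (1 : ℝ) ≤ r.totient := by exact_mod_cast h3
  rw [cp_k, Complex.norm_real, Real.norm_of_nonneg (by positivity)]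
  have h5 : (r : ℝ) / r.totient ≤ r := div_le_self (by positivity) h4
  have h6 : (r : ℝ) ≤ T := by exact_mod_cast h2
  linarith

theorem thm_Cp (h1 : St_Cq) (h2 : St_Br) : St_Cp := by
  obtain ⟨C, hC, hCq⟩ := h1
  refine ⟨16 * C, by positivity, ?_⟩
  intro T Q m n q₁ w D ψ b b' hT hTQ hm hn hq hD hqD hψ hb hb'
  classical
  have hD0 : (0 : ℝ) < D := lt_of_lt_of_le one_pos hD
  have hq0 : (1 : ℝ) ≤ q₁ := by exact_mod_cast hq
  have hQ1 : 1 ≤ Q := hT.trans hTQ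
  -- the missing pairs
  set MM : Chr → Chr → Finset (Finset ℕ × Finset ℕ) := fun c c' =>
    (cp_B Q c.1 ×ˢ cp_B Q c'.1) \ (cp_A Q c.1 ×ˢ cp_A Q c'.1) with hMM
  set P := (PP 2 w).powerset with hP
  set co : Chr → Chr → Finset ℕ → ℂ := fun c c' U =>
    -(b c * cp_k c.1 * (b' c' * cp_k c'.1) * ((sg q₁ ψ U : ℝ) : ℂ)) with hco
  have hAB : ∀ r, cp_A Q r ⊆ cp_B Q r := by
    intro r V hV
    rw [cp_A, Finset.mem_filter] at hV
    rw [cp_B, Finset.mem_filter]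
    exact ⟨hV.1, hV.2.2⟩
  -- the pointwise identity
  have hpt : ∀ y : ℤ, PM b T Q (n - m * y) * PM b' T Q y * ((SS q₁ w ψ y : ℝ) : ℂ) -
      PL b T (n - m * y) * PL b' T y * ((wq Q m n y * SS q₁ w ψ y : ℝ) : ℂ) =
      ∑ c ∈ cp_S T, ∑ c' ∈ cp_S T, ∑ U ∈ P, ∑ v ∈ MM c c',
        co c c' U * (cp_Phi m n c c' U y * cp_v v.1 (n - m * y) * cp_v v.2 y) := by
    intro y
    have e1 : PL b T (n - m * y) * PL b' T y * ((wq Q m n y * SS q₁ w ψ y : ℝ) : ℂ) =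
        (PL b T (n - m * y) * ((GQ Q (n - m * y) : ℝ) : ℂ)) *
          (PL b' T y * ((GQ Q y : ℝ) : ℂ)) * ((SS q₁ w ψ y : ℝ) : ℂ) := by
      rw [wq]
      push_cast
      ring
    rw [e1, cp_PL h2 b T Q hTQ, cp_PL h2 b' T Q hTQ, cp_PM h2 b T Q hTQ, cp_PM h2 b' T Q hTQ,
      ← sub_mul, cp_SS, Finset.sum_mul_sum, Finset.sum_mul_sum, ← Finset.sum_sub_distrib,
      Finset.sum_mul]
    refine Finset.sum_congr rfl fun c _ => ?_
    rw [← Finset.sum_sub_distrib, Finset.sum_mul]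
    refine Finset.sum_congr rfl fun c' _ => ?_
    rw [Finset.mul_sum]
    refine Finset.sum_congr rfl fun U _ => ?_
    have e2 := cp_diff (cp_A Q c.1) (cp_B Q c.1) (cp_A Q c'.1) (cp_B Q c'.1) (hAB _) (hAB _)
      (fun V => cp_v V ((n : ℤ) - m * y)) (fun W => cp_v W y)
    have e3 : ∑ v ∈ MM c c', co c c' U *
        (cp_Phi m n c c' U y * cp_v v.1 (n - m * y) * cp_v v.2 y) =
        co c c' U * cp_Phi m n c c' U y * ∑ v ∈ MM c c', cp_v v.1 (n - m * y) * cp_v v.2 y := by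
      rw [Finset.mul_sum]
      refine Finset.sum_congr rfl fun v _ => ?_
      ring
    rw [e3]
    have e4 : ∑ v ∈ MM c c', cp_v v.1 ((n : ℤ) - m * y) * cp_v v.2 y =
        -((∑ V ∈ cp_A Q c.1, cp_v V ((n : ℤ) - m * y)) * (∑ W ∈ cp_A Q c'.1, cp_v W y) -
          (∑ V ∈ cp_B Q c.1, cp_v V ((n : ℤ) - m * y)) * (∑ W ∈ cp_B Q c'.1, cp_v W y)) := by
      rw [e2, neg_neg]
    rw [e4, hco, cp_Phi]
    ring
  -- the mean
  rw [cp_mn_sub]
  have hmn : mn Q.factorial (fun y => PM b T Q (n - m * y) * PM b' T Q y *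
      ((SS q₁ w ψ y : ℝ) : ℂ) - PL b T (n - m * y) * PL b' T y *
      ((wq Q m n y * SS q₁ w ψ y : ℝ) : ℂ)) =
      ∑ c ∈ cp_S T, ∑ c' ∈ cp_S T, ∑ U ∈ P, ∑ v ∈ MM c c',
        co c c' U * mn Q.factorial (fun y =>
          cp_Phi m n c c' U y * cp_v v.1 (n - m * y) * cp_v v.2 y) := by
    simp only [hpt]
    rw [cp_mn_sum]
    refine Finset.sum_congr rfl fun c _ => ?_
    rw [cp_mn_sum]
    refine Finset.sum_congr rfl fun c' _ => ?_
    rw [cp_mn_sum]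
    refine Finset.sum_congr rfl fun U _ => ?_
    rw [cp_mn_sum]
    refine Finset.sum_congr rfl fun v _ => ?_
    rw [cp_mn_mul]
  rw [hmn]
  -- the bound for one triple
  set Em : ℝ := (T : ℝ) ^ 2 * (q₁ * D) * m with hEm
  set R : ℝ := C * Em ^ 2 * (n.divisors.card : ℝ) ^ 2 * Real.sqrt (T * Em / Q) with hR
  have hEm0 : 0 ≤ Em := by positivity
  have hR0 : 0 ≤ R := by positivity
  have hone : ∀ c ∈ cp_S T, ∀ c' ∈ cp_S T, ∀ U ∈ P, sg q₁ ψ U ≠ 0 →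
      ∑ v ∈ MM c c', ‖mn Q.factorial (fun y =>
        cp_Phi m n c c' U y * cp_v v.1 (n - m * y) * cp_v v.2 y)‖ ≤ R := by
    intro c hc c' hc' U hU hs
    rw [hP, Finset.mem_powerset] at hU
    obtain ⟨hc1, hc2⟩ := cp_mem_S hc
    obtain ⟨hc1', hc2'⟩ := cp_mem_S hc'
    have hpr : ∀ p ∈ U, p.Prime := fun p hp => (Finset.mem_filter.1 (hU hp)).2
    have hU1 : 1 ≤ ∏ p ∈ U, p :=
      Nat.one_le_iff_ne_zero.2 (Finset.prod_ne_zero_iff.2 fun p hp => (hpr p hp).ne_zero)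
    have hUD := cp_prod_le hq hψ hU hs
    have hUQ : ∏ p ∈ U, p ≤ Q := by
      have : ((∏ p ∈ U, p : ℕ) : ℝ) ≤ Q := hUD.trans hqD
      exact_mod_cast this
    have hE1 : 1 ≤ c.1 * c'.1 * (∏ p ∈ U, p) * m :=
      Nat.one_le_iff_ne_zero.2 (by positivity)
    have hb1 := hCq T Q m n (c.1 * c'.1 * (∏ p ∈ U, p) * m) c.1 c'.1 (cp_Phi m n c c' U)
      (MM c c') hQ1 hT hn hE1 (Dvd.intro_left _ rfl) hc1 hc2 hc1' hc2'
      (cp_Phi_per m n c c' U _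
        (Dvd.intro (c'.1 * (∏ p ∈ U, p) * m) (by ring))
        (Dvd.intro (c.1 * (∏ p ∈ U, p) * m) (by ring))
        (Dvd.intro (c.1 * c'.1 * m) (by ring)))
      (cp_Phi_per m n c c' U _
        (Nat.dvd_factorial hc1 (hc2.trans hTQ)) (Nat.dvd_factorial hc1' (hc2'.trans hTQ))
        (Nat.dvd_factorial hU1 hUQ))
      (cp_Phi_norm m n c c' U)
      (by
        intro v hv
        rw [hMM] at hv
        simp only [Finset.mem_sdiff, Finset.mem_product, cp_A, cp_B, Finset.mem_filter,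
          Finset.mem_powerset] at hv
        obtain ⟨⟨⟨v1, v2⟩, v3, v4⟩, v5⟩ := hv
        refine ⟨v1, v3, ?_⟩
        by_contra hcon
        push Not at hcon
        exact v5 ⟨⟨v1, hcon.1, v2⟩, v3, hcon.2, v4⟩)
    refine le_trans hb1 ?_
    have hE2 : ((c.1 * c'.1 * (∏ p ∈ U, p) * m : ℕ) : ℝ) ≤ Em := by
      rw [hEm, Nat.cast_mul, Nat.cast_mul, Nat.cast_mul]
      have i1 : (c.1 : ℝ) ≤ T := by exact_mod_cast hc2
      have i2 : (c'.1 : ℝ) ≤ T := by exact_mod_cast hc2'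
      have i3 : (c.1 : ℝ) * c'.1 ≤ (T : ℝ) ^ 2 := by
        rw [sq]
        exact mul_le_mul i1 i2 (by positivity) (by positivity)
      exact mul_le_mul_of_nonneg_right (mul_le_mul i3 hUD (by positivity) (by positivity))
        (by positivity)
    rw [hR]
    have hQ0 : (0 : ℝ) < Q := by exact_mod_cast hQ1
    refine mul_le_mul ?_ (Real.sqrt_le_sqrt ?_) (Real.sqrt_nonneg _) (by positivity)
    · refine mul_le_mul_of_nonneg_right (mul_le_mul_of_nonneg_left ?_ hC.le) (by positivity)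
      exact pow_le_pow_left₀ (by positivity) hE2 2
    · exact div_le_div_of_nonneg_right (mul_le_mul_of_nonneg_left hE2 (by positivity)) hQ0.le
  -- summation
  have hcoN : ∀ c ∈ cp_S T, ∀ c' ∈ cp_S T, ∀ U, ‖co c c' U‖ ≤
      ‖b c‖ * ‖b' c'‖ * (T : ℝ) ^ 2 * if sg q₁ ψ U ≠ 0 then 1 else 0 := by
    intro c hc c' hc' U
    obtain ⟨hc1, hc2⟩ := cp_mem_S hc
    obtain ⟨hc1', hc2'⟩ := cp_mem_S hc'
    have k1 := cp_k_le hc1 hc2
    have k2 := cp_k_le hc1' hc2'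
    have k3 : |sg q₁ ψ U| ≤ if sg q₁ ψ U ≠ 0 then 1 else 0 := by
      split_ifs with h
      · rw [sg, abs_mul, abs_pow, abs_neg, abs_one, one_pow, one_mul]
        exact hψ.bd _
      · rw [not_not] at h
        rw [h, abs_zero]
    rw [hco]
    show ‖-(b c * cp_k c.1 * (b' c' * cp_k c'.1) * ((sg q₁ ψ U : ℝ) : ℂ))‖ ≤ _
    rw [norm_neg, norm_mul, norm_mul, norm_mul, norm_mul, Complex.norm_real, Real.norm_eq_abs]
    refine mul_le_mul ?_ k3 (abs_nonneg _) (by positivity)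
    calc ‖b c‖ * ‖cp_k c.1‖ * (‖b' c'‖ * ‖cp_k c'.1‖) ≤ ‖b c‖ * T * (‖b' c'‖ * T) :=
          mul_le_mul (mul_le_mul_of_nonneg_left k1 (norm_nonneg _))
            (mul_le_mul_of_nonneg_left k2 (norm_nonneg _)) (by positivity) (by positivity)
      _ = _ := by ring
  have hcc : ∀ c ∈ cp_S T, ∀ c' ∈ cp_S T, ‖∑ U ∈ P, ∑ v ∈ MM c c',
      co c c' U * mn Q.factorial (fun y =>
        cp_Phi m n c c' U y * cp_v v.1 (n - m * y) * cp_v v.2 y)‖ ≤
      ‖b c‖ * ‖b' c'‖ * ((T : ℝ) ^ 2 * (q₁ * D) * R) := by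
    intro c hc c' hc'
    calc _ ≤ ∑ U ∈ P, ‖b c‖ * ‖b' c'‖ * (T : ℝ) ^ 2 * ((if sg q₁ ψ U ≠ 0 then 1 else 0) * R) := by
          refine (norm_sum_le _ _).trans (Finset.sum_le_sum fun U hU => ?_)
          rw [← Finset.mul_sum, norm_mul, ← mul_assoc]
          by_cases hs : sg q₁ ψ U ≠ 0
          · refine mul_le_mul (hcoN c hc c' hc' U) ?_ (norm_nonneg _) ?_
            · exact (norm_sum_le _ _).trans (hone c hc c' hc' U hU hs)
            · rw [if_pos hs]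
              positivity
          · have h0 : ‖co c c' U‖ = 0 := by
              have := hcoN c hc c' hc' U
              rw [if_neg hs, mul_zero] at this
              exact le_antisymm this (norm_nonneg _)
            rw [h0, if_neg hs]
            simp
      _ = ‖b c‖ * ‖b' c'‖ * (T : ℝ) ^ 2 *
          (((P.filter fun U => sg q₁ ψ U ≠ 0).card : ℝ) * R) := by
          rw [← Finset.mul_sum, ← Finset.sum_mul, Finset.sum_boole]
      _ ≤ ‖b c‖ * ‖b' c'‖ * (T : ℝ) ^ 2 * ((q₁ * D) * R) := by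
          refine mul_le_mul_of_nonneg_left ?_ (by positivity)
          exact mul_le_mul_of_nonneg_right (cp_card hq hD hψ) hR0
      _ = _ := by ring
  calc _ ≤ ∑ c ∈ cp_S T, ∑ c' ∈ cp_S T, ‖b c‖ * ‖b' c'‖ * ((T : ℝ) ^ 2 * (q₁ * D) * R) := by
        refine (norm_sum_le _ _).trans (Finset.sum_le_sum fun c hc => ?_)
        exact (norm_sum_le _ _).trans (Finset.sum_le_sum fun c' hc' => hcc c hc c' hc')
    _ = NB b T * NB b' T * ((T : ℝ) ^ 2 * (q₁ * D) * R) := by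
        rw [cp_NB, cp_NB, Finset.sum_mul_sum, Finset.sum_mul]
        refine Finset.sum_congr rfl fun c _ => ?_
        rw [Finset.sum_mul]
    _ ≤ 4 * 4 * ((T : ℝ) ^ 2 * (q₁ * D) * R) := by
        have hn0 : 0 ≤ NB b' T := by
          rw [cp_NB]
          positivity
        refine mul_le_mul_of_nonneg_right ?_ (by positivity)
        exact mul_le_mul hb hb' hn0 (by norm_num)
    _ = _ := by
        rw [hR]
        ring

end Pool.Agent.MVII
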