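import Pool.Agent.MVII.St2

set_option autoImplicit false

/-!
# MVII, module Cq: the missing pairs of sets of primes (helper18)
-/

namespace Pool.Agent.MVII

open Finset
open Pool.Agent.LIN (PP pz)

private lemma cq_mem_pz {Q p : ℕ} (h : p ∈ pz Q) : p.Prime ∧ p ≤ Q := by
  unfold Pool.Agent.LIN.pz at h
  rw [Finset.mem_filter, Finset.mem_range] at h
  exact ⟨h.2, by omega⟩

private lemma cq_mn_smul (M : ℕ) (c : ℂ) (f : ℤ → ℂ) : mn M (fun y => c * f y) = c * mn M f := by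
  unfold mn
  rw [← Finset.mul_sum, mul_div_assoc]

private lemma cq_prod (V : Finset ℕ) (g : ℕ → ℝ) :
    ∏ p ∈ V, (-(g p / ((p : ℝ) - 1))) = (∏ p ∈ V, (-(1 / ((p : ℝ) - 1)))) * ∏ p ∈ V, g p := by
  rw [← Finset.prod_mul_distrib]
  exact Finset.prod_congr rfl fun p _ => by ring

/-- the product of the primes of a set dividing `E` -/
private lemma cq_dvd (E : ℕ) (hE : 1 ≤ E) (V : Finset ℕ) (hV : ∀ p ∈ V, p.Prime) :
    ∏ p ∈ V.filter (fun p => p ∣ E), p ≤ E := by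
  refine Nat.le_of_dvd hE ?_
  refine Finset.prod_primes_dvd E ?_ ?_
  · intro p hp
    exact (hV p (Finset.mem_filter.1 hp).1).prime
  · intro p hp
    exact (Finset.mem_filter.1 hp).2

private lemma cq_two_pow (E : ℕ) (hE : 1 ≤ E) : (2 : ℝ) ^ E.primeFactors.card ≤ E := by
  have h1 : 2 ^ E.primeFactors.card ≤ E := by
    calc 2 ^ E.primeFactors.card = ∏ _p ∈ E.primeFactors, 2 := by rw [Finset.prod_const]
      _ ≤ ∏ p ∈ E.primeFactors, p :=
        Finset.prod_le_prod' fun p hp => (Nat.prime_of_mem_primeFactors hp).two_le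
      _ ≤ E := Nat.le_of_dvd hE (Nat.prod_primeFactors_dvd E)
  exact_mod_cast h1

/-- the mean for one pair -/
private lemma cq_one (hO : St_Or) (Q m n E : ℕ) (hE : 1 ≤ E) (hm : m ∣ E)
    (Φ : ℤ → ℂ) (hPE : Per E Φ) (hPQ : Per Q.factorial Φ) (hΦ : ∀ y, ‖Φ y‖ ≤ 1) (V W : Finset ℕ)
    (hV : V ⊆ pz Q) (hW : W ⊆ pz Q) :
    ‖mn Q.factorial (fun y => Φ y *
      ((∏ p ∈ V, (-(cp p (n - m * y) / ((p : ℝ) - 1))) : ℝ) : ℂ) *
      ((∏ p ∈ W, (-(cp p y / ((p : ℝ) - 1))) : ℝ) : ℂ))‖ ≤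
    if V.filter (fun p => ¬ p ∣ E) = W.filter (fun p => ¬ p ∣ E) then
      ∏ p ∈ V.filter (fun p => ¬ p ∣ E), (|cp p n| / ((p : ℝ) - 1) ^ 2) else 0 := by
  have hVp : ∀ p ∈ V, (1 : ℝ) ≤ (p : ℝ) - 1 := by
    intro p hp
    have : (2 : ℝ) ≤ p := by exact_mod_cast (cq_mem_pz (hV hp)).1.two_le
    linarith
  have hWp : ∀ p ∈ W, (1 : ℝ) ≤ (p : ℝ) - 1 := by
    intro p hp
    have : (2 : ℝ) ≤ p := by exact_mod_cast (cq_mem_pz (hW hp)).1.two_le
    linarith
  have h1 := hO Q.factorial E m (n : ℤ) V W Φ (Nat.factorial_pos Q) hE hm (by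
    intro p hp
    have hp' : p ∈ pz Q := by
      rcases Finset.mem_union.1 hp with h | h
      · exact hV h
      · exact hW h
    obtain ⟨h2, h3⟩ := cq_mem_pz hp'
    exact ⟨h2, Nat.dvd_factorial h2.pos h3⟩) hPE hPQ hΦ
  set c : ℝ := (∏ p ∈ V, (-(1 / ((p : ℝ) - 1)))) * (∏ p ∈ W, (-(1 / ((p : ℝ) - 1)))) with hc
  have h2 : (fun y : ℤ => Φ y *
      ((∏ p ∈ V, (-(cp p (n - m * y) / ((p : ℝ) - 1))) : ℝ) : ℂ) *
      ((∏ p ∈ W, (-(cp p y / ((p : ℝ) - 1))) : ℝ) : ℂ)) = fun y : ℤ => (c : ℂ) *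
      (Φ y * ((∏ p ∈ V, cp p (n - m * y) : ℝ) : ℂ) * ((∏ p ∈ W, cp p y : ℝ) : ℂ)) := by
    funext y
    rw [cq_prod V, cq_prod W, hc, Complex.ofReal_mul, Complex.ofReal_mul, Complex.ofReal_mul]
    ring
  rw [h2, cq_mn_smul, norm_mul, Complex.norm_real, Real.norm_eq_abs]
  have h3 : |c| = (∏ p ∈ V, (1 / ((p : ℝ) - 1))) * (∏ p ∈ W, (1 / ((p : ℝ) - 1))) := by
    rw [hc, abs_mul, Finset.abs_prod, Finset.abs_prod]
    congr 1
    · refine Finset.prod_congr rfl fun p hp => ?_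
      rw [abs_neg, abs_of_nonneg]
      have := hVp p hp
      positivity
    · refine Finset.prod_congr rfl fun p hp => ?_
      rw [abs_neg, abs_of_nonneg]
      have := hWp p hp
      positivity
  have hV0 : 0 ≤ ∏ p ∈ V, (1 / ((p : ℝ) - 1)) :=
    Finset.prod_nonneg fun p hp => by
      have := hVp p hp
      positivity
  have hW0 : 0 ≤ ∏ p ∈ W, (1 / ((p : ℝ) - 1)) :=
    Finset.prod_nonneg fun p hp => by
      have := hWp p hp
      positivity
  rw [h3]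
  refine (mul_le_mul_of_nonneg_left h1 (mul_nonneg hV0 hW0)).trans ?_
  by_cases hVW : V.filter (fun p => ¬ p ∣ E) = W.filter (fun p => ¬ p ∣ E)
  · rw [if_pos hVW, if_pos hVW]
    refine le_of_eq ?_
    rw [← Finset.prod_filter_mul_prod_filter_not V (fun p => p ∣ E) (fun p => 1 / ((p : ℝ) - 1)),
      ← Finset.prod_filter_mul_prod_filter_not W (fun p => p ∣ E) (fun p => 1 / ((p : ℝ) - 1)),
      ← hVW]
    have e1 : (∏ p ∈ V.filter (fun p => p ∣ E), (1 / ((p : ℝ) - 1))) *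
        (∏ p ∈ V.filter (fun p => p ∣ E), ((p : ℝ) - 1)) = 1 := by
      rw [← Finset.prod_mul_distrib]
      refine Finset.prod_eq_one fun p hp => ?_
      have := hVp p (Finset.mem_filter.1 hp).1
      field_simp
    have e2 : (∏ p ∈ W.filter (fun p => p ∣ E), (1 / ((p : ℝ) - 1))) *
        (∏ p ∈ W.filter (fun p => p ∣ E), ((p : ℝ) - 1)) = 1 := by
      rw [← Finset.prod_mul_distrib]
      refine Finset.prod_eq_one fun p hp => ?_
      have := hWp p (Finset.mem_filter.1 hp).1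
      field_simp
    have e3 : ∏ p ∈ V.filter (fun p => ¬ p ∣ E), (|cp p n| / ((p : ℝ) - 1) ^ 2) =
        (∏ p ∈ V.filter (fun p => ¬ p ∣ E), (1 / ((p : ℝ) - 1))) *
        (∏ p ∈ V.filter (fun p => ¬ p ∣ E), (1 / ((p : ℝ) - 1))) *
        ∏ p ∈ V.filter (fun p => ¬ p ∣ E), |cp p n| := by
      rw [← Finset.prod_mul_distrib, ← Finset.prod_mul_distrib]
      refine Finset.prod_congr rfl fun p hp => ?_
      have := hVp p (Finset.mem_filter.1 hp).1
      field_simp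
    rw [e3]
    generalize (∏ p ∈ V.filter (fun p => p ∣ E), (1 / ((p : ℝ) - 1))) = a at e1 ⊢
    generalize (∏ p ∈ V.filter (fun p => p ∣ E), ((p : ℝ) - 1)) = a' at e1 ⊢
    generalize (∏ p ∈ W.filter (fun p => p ∣ E), (1 / ((p : ℝ) - 1))) = b at e2 ⊢
    generalize (∏ p ∈ W.filter (fun p => p ∣ E), ((p : ℝ) - 1)) = b' at e2 ⊢
    generalize (∏ p ∈ V.filter (fun p => ¬ p ∣ E), (1 / ((p : ℝ) - 1))) = c₁
    generalize (∏ p ∈ V.filter (fun p => ¬ p ∣ E), |cp p n|) = d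
    linear_combination (c₁ * c₁ * d * (b * b')) * e1 + (c₁ * c₁ * d) * e2
  · rw [if_neg hVW, if_neg hVW, mul_zero]

theorem thm_Cq (h1 : St_Or) (h2 : St_Ta) : St_Cq := by
  classical
  obtain ⟨C, hC, hTa⟩ := h2
  refine ⟨C, hC, ?_⟩
  intro T Q m n E r r' Φ A hQ hT hn hE hm hr hrT hr' hr'T hPE hPQ hΦ hA
  set z : ℝ := (Q : ℝ) / (T * E) with hz
  have hQ0 : (0 : ℝ) < Q := by exact_mod_cast hQ
  have hT0 : (0 : ℝ) < T := by exact_mod_cast hT
  have hE0 : (0 : ℝ) < E := by exact_mod_cast hE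
  have hz0 : 0 < z := by positivity
  set F : Finset ℕ → ℝ := fun B => ∏ p ∈ B, (|cp p n| / ((p : ℝ) - 1) ^ 2) with hF
  have hF0 : ∀ B, 0 ≤ F B := fun B => Finset.prod_nonneg fun p _ => by positivity
  set S3 : Finset (Finset ℕ) := (pz Q).powerset.filter (fun V => z < ((∏ p ∈ V, p : ℕ) : ℝ)) with hS3
  set S : Finset ((Finset ℕ × Finset ℕ) × Finset ℕ) :=
    (E.primeFactors.powerset ×ˢ E.primeFactors.powerset) ×ˢ S3 with hS
  set f : Finset ℕ × Finset ℕ → (Finset ℕ × Finset ℕ) × Finset ℕ := fun v =>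
    ((v.1.filter (fun p => p ∣ E), v.2.filter (fun p => p ∣ E)),
      v.1.filter (fun p => ¬ p ∣ E)) with hf
  set A' := A.filter (fun v => v.1.filter (fun p => ¬ p ∣ E) = v.2.filter (fun p => ¬ p ∣ E))
    with hA'
  have hsum : ∑ v ∈ A, ‖mn Q.factorial (fun y => Φ y *
      ((∏ p ∈ v.1, (-(cp p (n - m * y) / ((p : ℝ) - 1))) : ℝ) : ℂ) *
      ((∏ p ∈ v.2, (-(cp p y / ((p : ℝ) - 1))) : ℝ) : ℂ))‖ ≤ ∑ v ∈ A', F (f v).2 := by
    rw [hA', Finset.sum_filter]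
    refine Finset.sum_le_sum fun v hv => ?_
    obtain ⟨hv1, hv2, -⟩ := hA v hv
    exact cq_one h1 Q m n E hE hm Φ hPE hPQ hΦ v.1 v.2 hv1 hv2
  have hinj : Set.InjOn f A' := by
    intro v hv w hw h
    have hv' := (Finset.mem_filter.1 (Finset.mem_coe.1 hv)).2
    have hw' := (Finset.mem_filter.1 (Finset.mem_coe.1 hw)).2
    simp only [hf, Prod.mk.injEq] at h
    obtain ⟨⟨e1, e2⟩, e3⟩ := h
    have e4 : v.2.filter (fun p => ¬ p ∣ E) = w.2.filter (fun p => ¬ p ∣ E) := by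
      rw [← hv', ← hw', e3]
    refine Prod.ext ?_ ?_
    · rw [← Finset.filter_union_filter_not_eq (fun p => p ∣ E) v.1, e1, e3,
        Finset.filter_union_filter_not_eq]
    · rw [← Finset.filter_union_filter_not_eq (fun p => p ∣ E) v.2, e2, e4,
        Finset.filter_union_filter_not_eq]
  have himg : A'.image f ⊆ S := by
    intro s hs
    obtain ⟨v, hv, rfl⟩ := Finset.mem_image.1 hs
    obtain ⟨hvA, hvE⟩ := Finset.mem_filter.1 hv
    obtain ⟨hv1, hv2, hv3⟩ := hA v hvA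
    have hp1 : ∀ p ∈ v.1, p.Prime := fun p hp => (cq_mem_pz (hv1 hp)).1
    have hp2 : ∀ p ∈ v.2, p.Prime := fun p hp => (cq_mem_pz (hv2 hp)).1
    rw [hS, Finset.mem_product, Finset.mem_product]
    refine ⟨⟨?_, ?_⟩, ?_⟩
    · rw [Finset.mem_powerset]
      intro p hp
      obtain ⟨e1, e2⟩ := Finset.mem_filter.1 hp
      exact Nat.mem_primeFactors.2 ⟨hp1 p e1, e2, by omega⟩
    · rw [Finset.mem_powerset]
      intro p hp
      obtain ⟨e1, e2⟩ := Finset.mem_filter.1 hp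
      exact Nat.mem_primeFactors.2 ⟨hp2 p e1, e2, by omega⟩
    · rw [hS3, Finset.mem_filter, Finset.mem_powerset]
      refine ⟨(Finset.filter_subset _ _).trans hv1, ?_⟩
      have key : ∀ (V : Finset ℕ) (s : ℕ), (∀ p ∈ V, p.Prime) → s ≤ T → Q < s * ∏ p ∈ V, p →
          z < ((∏ p ∈ V.filter (fun p => ¬ p ∣ E), p : ℕ) : ℝ) := by
        intro V s hVp hs hlt
        rw [← Finset.prod_filter_mul_prod_filter_not V (fun p => p ∣ E) (fun p => p)] at hlt
        have e1 := cq_dvd E hE V hVp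
        have e2 : Q < T * (E * ∏ p ∈ V.filter (fun p => ¬ p ∣ E), p) :=
          lt_of_lt_of_le hlt (Nat.mul_le_mul hs (Nat.mul_le_mul_right _ e1))
        rw [hz, div_lt_iff₀ (by positivity)]
        calc (Q : ℝ) < ((T * (E * ∏ p ∈ V.filter (fun p => ¬ p ∣ E), p) : ℕ) : ℝ) := by
              exact_mod_cast e2
          _ = ((∏ p ∈ V.filter (fun p => ¬ p ∣ E), p : ℕ) : ℝ) * (T * E) := by
              push_cast
              ring
      rcases hv3 with h | h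
      · exact key v.1 r hp1 hrT h
      · show z < ((∏ p ∈ v.1.filter (fun p => ¬ p ∣ E), p : ℕ) : ℝ)
        rw [hvE]
        exact key v.2 r' hp2 hr'T h
  have h3 : ∑ v ∈ A', F (f v).2 ≤ ∑ s ∈ S, F s.2 := by
    rw [← Finset.sum_image (f := fun s : (Finset ℕ × Finset ℕ) × Finset ℕ => F s.2) hinj]
    exact Finset.sum_le_sum_of_subset_of_nonneg himg fun s _ _ => hF0 s.2
  have h4 : ∑ s ∈ S, F s.2 = (2 : ℝ) ^ E.primeFactors.card * 2 ^ E.primeFactors.card *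
      ∑ B ∈ S3, F B := by
    rw [hS, Finset.sum_product]
    show ∑ _x ∈ E.primeFactors.powerset ×ˢ E.primeFactors.powerset, ∑ y ∈ S3, F y = _
    rw [Finset.sum_const, Finset.card_product, Finset.card_powerset, nsmul_eq_mul]
    push_cast
    ring
  have h5 := hTa Q n z hn hz0
  have h6 := cq_two_pow E hE
  have h7 : 1 / Real.sqrt z = Real.sqrt (T * E / Q) := by
    rw [← Real.sqrt_one, ← Real.sqrt_div zero_le_one, hz]
    congr 1
    field_simp
  have h8 : (0 : ℝ) ≤ 2 ^ E.primeFactors.card := by positivity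
  refine hsum.trans (h3.trans ?_)
  rw [h4]
  calc (2 : ℝ) ^ E.primeFactors.card * 2 ^ E.primeFactors.card * ∑ B ∈ S3, F B
      ≤ (E : ℝ) * E * (C * (n.divisors.card : ℝ) ^ 2 / Real.sqrt z) := by
        refine mul_le_mul (mul_le_mul h6 h6 h8 hE0.le) h5 ?_ (by positivity)
        exact Finset.sum_nonneg fun B _ => hF0 B
    _ = C * (E : ℝ) ^ 2 * (n.divisors.card : ℝ) ^ 2 * (1 / Real.sqrt z) := by ring
    _ = C * (E : ℝ) ^ 2 * (n.divisors.card : ℝ) ^ 2 * Real.sqrt (T * E / Q) := by rw [h7]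

end Pool.Agent.MVII
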