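import Pool.Agent.MVII.St1

/-!
# MVII [E1]: the mean square of the first error
-/

set_option autoImplicit false

namespace Pool.Agent.MVII

open Finset Filter
open Pool.Agent.GBQ (ee lam nd Admissible)
open Pool.Agent.MVX (Chr tent Bm Um prm Win GP)
open Pool.Agent.LIN (PP pz)

private lemma e1_ev {a : ℝ} (ha : a < 1) (C : ℝ) : ∀ᶠ X : ℕ in atTop, C * (X : ℝ) ^ a ≤ X := by
  have h1 : Tendsto (fun X : ℕ => (X : ℝ) ^ (1 - a)) atTop atTop :=
    (tendsto_rpow_atTop (by linarith)).comp tendsto_natCast_atTop_atTop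
  filter_upwards [h1.eventually_ge_atTop C, eventually_gt_atTop 0] with X hX hX0
  have h0 : (0 : ℝ) < X := by exact_mod_cast hX0
  have h2 : (X : ℝ) ^ (1 - a) * (X : ℝ) ^ a = X := by
    rw [← Real.rpow_add h0]
    have : 1 - a + a = 1 := by ring
    rw [this, Real.rpow_one]
  calc C * (X : ℝ) ^ a ≤ (X : ℝ) ^ (1 - a) * (X : ℝ) ^ a :=
        mul_le_mul_of_nonneg_right hX (Real.rpow_nonneg h0.le _)
    _ = X := h2

private lemma e1_ee_conj (x : ℝ) : (starRingEnd ℂ) (ee x) = ee (-x) := by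
  unfold ee
  rw [← Complex.exp_conj]
  congr 1
  rw [map_mul, Complex.conj_ofReal, Complex.conj_I]
  push_cast
  ring

/-- the real part of the difference -/
private lemma e1_re (N : ℕ) (g : ℕ → ℂ) (M : ℝ)
    (h : ∀ α : ℝ, ‖∑ x ∈ range N, g x * ee (α * x)‖ ≤ M) (α : ℝ) :
    ‖∑ x ∈ range N, (((g x).re : ℝ) : ℂ) * ee (α * x)‖ ≤ M := by
  have h1 : ∑ x ∈ range N, (((g x).re : ℝ) : ℂ) * ee (α * x) =
      (1 / 2 : ℂ) * (∑ x ∈ range N, g x * ee (α * x) +
        (starRingEnd ℂ) (∑ x ∈ range N, g x * ee (-α * x))) := by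
    rw [map_sum, ← Finset.sum_add_distrib, Finset.mul_sum]
    refine Finset.sum_congr rfl fun x _ => ?_
    have h2 : (((g x).re : ℝ) : ℂ) = (1 / 2 : ℂ) * (g x + (starRingEnd ℂ) (g x)) := by
      rw [Complex.add_conj]
      push_cast
      ring
    have h3 : -(-α * (x : ℝ)) = α * x := by ring
    rw [map_mul, e1_ee_conj, h3, h2]
    ring
  rw [h1, norm_mul]
  have h4 : ‖(1 / 2 : ℂ)‖ = 1 / 2 := by simp
  rw [h4]
  have h5 := norm_add_le (∑ x ∈ range N, g x * ee (α * x))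
    ((starRingEnd ℂ) (∑ x ∈ range N, g x * ee (-α * x)))
  rw [RCLike.norm_conj] at h5
  have h6 := h α
  have h7 := h (-α)
  linarith

/-- [E1] -/
theorem thm_E1 (h0 : Pool.Agent.GBQ.St_L2) (h1 : St_Su) (_h2 : St_Bl) (h3 : St_Ep) : St_E1 := by
  intro δ hδ hδ2
  have hε : 0 < δ / 400 := by positivity
  filter_upwards [h1 δ hδ hδ2, h3 (δ / 400) hε 1, e1_ev (a := 1 - 10 * δ) (by linarith) 16,
    e1_ev (a := δ / 10) (by linarith) 8, eventually_ge_atTop 16] with X hSu hEp hX1 hX2 hX16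
  intro hS4 m q₁ w ψ hm hmX hq1 hq1T hψ F hF
  obtain ⟨-, hlog, -, -, hSS⟩ := hEp
  have hXr : (16 : ℝ) ≤ X := by exact_mod_cast hX16
  have hX0 : (0 : ℝ) < X := by linarith
  obtain ⟨K, hK⟩ : ∃ K, K = X / (8 * m) := ⟨_, rfl⟩
  obtain ⟨h, hh⟩ : ∃ h, h = HH δ X := ⟨_, rfl⟩
  obtain ⟨ε, hεd⟩ : ∃ ε, ε = δ / 400 := ⟨_, rfl⟩
  rw [← hεd] at hlog hSS hε
  have hmK : 8 * (m * K) ≤ X := by
    have h4 := Nat.mul_div_le X (8 * m)
    rw [← hK] at h4
    calc 8 * (m * K) = 8 * m * K := by ring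
      _ ≤ X := h4
  have hKX : K + 1 ≤ X := by
    have h5 : K ≤ m * K := Nat.le_mul_of_pos_left K (by omega)
    omega
  have hh1 : 1 ≤ h := by
    rw [hh]
    unfold HH
    rw [Nat.one_le_ceil_iff]
    positivity
  have hhX : h ≤ X / 8 := by
    rw [Nat.le_div_iff_mul_le (by norm_num)]
    have h5 : (h : ℝ) < (X : ℝ) ^ (1 - 10 * δ) + 1 := by
      rw [hh]
      exact Nat.ceil_lt_add_one (by positivity)
    have h6 : (h : ℝ) * 8 ≤ X := by
      have h7 : (8 : ℝ) * ((X : ℝ) ^ (1 - 10 * δ) + 1) ≤ X := by linarith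
      linarith
    exact_mod_cast h6
  have h4m : 8 * m ≤ X := by
    have h5 : (8 : ℝ) * m ≤ X := le_trans (by linarith) hX2
    exact_mod_cast h5
  -- the functions
  obtain ⟨g, hg⟩ : ∃ g : ℕ → ℂ, g = fun x => (((if X / 8 < x ∧ x ≤ X then lam x else 0 : ℝ) : ℂ) -
      Md (TT δ X) (QQ δ X) (HH δ X) (X / 8) X x) := ⟨_, rfl⟩
  have hsup : ∀ α : ℝ, ‖∑ x ∈ range (X + h), g x * ee (α * x)‖ ≤
      (X : ℝ) ^ (1 - 49 / 100 * δ) := by
    intro α
    rw [hg, hh]
    exact hSu hS4 (X / 8) X (by rw [← hh]; exact hhX) (Nat.div_le_self _ _) le_rfl α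
  obtain ⟨w', hw'⟩ : ∃ w' : ℕ → ℝ, w' = fun k => if K / 2 < k then
    lam k * SS q₁ w ψ (k : ℤ) else 0 := ⟨_, rfl⟩
  have hXh : X + h = (X + h - 1) + 1 := by omega
  have hL2 := h0 w' (fun x => (g x).re) K (X + h - 1) m ((X : ℝ) ^ (1 - 49 / 100 * δ)) hm (by
    rw [← hXh]
    exact e1_re (X + h) g _ hsup)
  rw [← hXh] at hL2
  -- the sum over `F`
  have hterm : ∀ n ∈ F, R0 m (X / (8 * m)) q₁ w ψ n - R1 δ X m (X / (8 * m)) q₁ w ψ n =
      ∑ k ∈ range (K + 1), if m * k ≤ n then w' k * (g (n - m * k)).re else 0 := by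
    intro n hn
    obtain ⟨hb1, hb2⟩ := hF n hn
    rw [← hK]
    unfold R0 R1
    rw [← Finset.sum_sub_distrib]
    have hsub : Ioc (K / 2) K ⊆ range (K + 1) := by
      intro y hy
      rw [Finset.mem_Ioc] at hy
      rw [Finset.mem_range]
      omega
    rw [← Finset.sum_subset hsub]
    · refine Finset.sum_congr rfl fun y hy => ?_
      rw [Finset.mem_Ioc] at hy
      have hmy : m * y ≤ m * K := Nat.mul_le_mul_left m hy.2
      have hle : m * y ≤ n := by omega
      rw [if_pos hle, hw', hg]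
      dsimp only
      rw [if_pos hy.1, if_pos (by omega : X / 8 < n - m * y ∧ n - m * y ≤ X), Complex.sub_re,
        Complex.ofReal_re]
      ring
    · intro y hy hy2
      rw [Finset.mem_range] at hy
      rw [Finset.mem_Ioc] at hy2
      have hy3 : ¬ K / 2 < y := by
        intro h5
        exact hy2 ⟨h5, by omega⟩
      rw [hw']
      dsimp only
      rw [if_neg hy3, zero_mul, ite_self]
  have hFs : F ⊆ range (X + h) := by
    intro n hn
    obtain ⟨hb1, hb2⟩ := hF n hn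
    rw [Finset.mem_range]
    omega
  have hsum1 : ∑ n ∈ F, (R0 m (X / (8 * m)) q₁ w ψ n - R1 δ X m (X / (8 * m)) q₁ w ψ n) ^ 2 ≤
      ∑ n ∈ range (X + h), (∑ k ∈ range (K + 1),
        if m * k ≤ n then w' k * (g (n - m * k)).re else 0) ^ 2 := by
    rw [Finset.sum_congr rfl fun n hn => by rw [hterm n hn]]
    exact Finset.sum_le_sum_of_subset_of_nonneg hFs fun n _ _ => sq_nonneg _
  refine hsum1.trans (hL2.trans ?_)
  -- the sum of the squares of the weights
  have hwk : ∀ k ∈ range (K + 1), w' k ^ 2 ≤ (X : ℝ) ^ (4 * ε) := by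
    intro k hk
    rw [Finset.mem_range] at hk
    have hXε : 0 ≤ (X : ℝ) ^ ε := Real.rpow_nonneg hX0.le _
    have h5 : |w' k| ≤ (X : ℝ) ^ ε * (X : ℝ) ^ ε := by
      rw [hw']
      dsimp only
      split_ifs with h6
      · rw [abs_mul]
        have hk0 : 0 < k := by omega
        have h7 : |lam k| ≤ (X : ℝ) ^ ε := by
          have h8 : 0 ≤ lam k := ArithmeticFunction.vonMangoldt_nonneg
          rw [abs_of_nonneg h8]
          have h9 : lam k ≤ Real.log k := ArithmeticFunction.vonMangoldt_le_log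
          have h10 : Real.log k ≤ Real.log (2 * X) := by
            apply Real.log_le_log (by exact_mod_cast hk0)
            have : (k : ℝ) ≤ X := by exact_mod_cast (by omega : k ≤ X)
            linarith
          rw [pow_one] at hlog
          linarith
        have h11 : |SS q₁ w ψ (k : ℤ)| ≤ (X : ℝ) ^ ε := by
          apply hSS q₁ w _ ψ (k : ℤ) hψ
          rw [abs_of_nonneg (by positivity)]
          omega
        exact mul_le_mul h7 h11 (abs_nonneg _) hXε
      · rw [abs_zero]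
        exact mul_nonneg hXε hXε
    have h12 : w' k ^ 2 ≤ ((X : ℝ) ^ ε * (X : ℝ) ^ ε) ^ 2 := by
      rw [← sq_abs]
      exact pow_le_pow_left₀ (abs_nonneg _) h5 2
    refine h12.trans (le_of_eq ?_)
    rw [← Real.rpow_add hX0, ← Real.rpow_natCast, ← Real.rpow_mul hX0.le]
    congr 1
    push_cast
    ring
  have hwsum : ∑ k ∈ range (K + 1), w' k ^ 2 ≤ (X : ℝ) ^ (1 + 4 * ε) := by
    refine (Finset.sum_le_sum hwk).trans ?_
    rw [Finset.sum_const, Finset.card_range, nsmul_eq_mul, Real.rpow_add hX0, Real.rpow_one]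
    apply mul_le_mul_of_nonneg_right _ (Real.rpow_nonneg hX0.le _)
    exact_mod_cast hKX
  have hM0 : 0 ≤ ((X : ℝ) ^ (1 - 49 / 100 * δ)) ^ 2 := sq_nonneg _
  refine (mul_le_mul_of_nonneg_left hwsum hM0).trans ?_
  have h13 : ((X : ℝ) ^ (1 - 49 / 100 * δ)) ^ 2 = (X : ℝ) ^ (2 - 98 / 100 * δ) := by
    rw [← Real.rpow_natCast, ← Real.rpow_mul hX0.le]
    congr 1
    push_cast
    ring
  rw [h13, ← Real.rpow_add hX0]
  apply Real.rpow_le_rpow_of_exponent_le (by linarith)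
  rw [hεd]
  linarith

end Pool.Agent.MVII
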