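import Pool.Agent.MVII.St2

set_option autoImplicit false

/-!
# MVII, module Or: orthogonality of the local Ramanujan sums (helper18)
-/

namespace Pool.Agent.MVII

open Finset
open Pool.Agent.LIN (PP pz)

private lemma or_per_cp (p : ℕ) : Per p (fun y => ((cp p y : ℝ) : ℂ)) := by
  intro y
  simp only [cp, dvd_add_self_right]

private lemma or_per_cpn (p m : ℕ) (n : ℤ) : Per p (fun y => ((cp p (n - m * y) : ℝ) : ℂ)) := by
  intro y
  have h : ((p : ℤ) ∣ n - m * (y + p)) ↔ ((p : ℤ) ∣ n - m * y) := by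
    rw [show n - (m : ℤ) * (y + p) = (n - m * y) - p * m by ring]
    exact (Int.dvd_iff_dvd_of_dvd_sub ⟨-(m : ℤ), by ring⟩)
  simp only [cp, h]

private lemma or_per_mul_right {p : ℕ} {f : ℤ → ℂ} (h : Per p f) (k : ℕ) : Per (p * k) f := by
  intro y
  induction k with
  | zero => simp
  | succ k ih =>
    have h1 := h (y + ((p * k : ℕ) : ℤ))
    rw [ih] at h1
    rw [← h1]
    congr 1
    push_cast
    ring

private lemma or_per_dvd {p q : ℕ} {f : ℤ → ℂ} (h : Per p f) (hd : p ∣ q) : Per q f := by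
  obtain ⟨k, rfl⟩ := hd
  exact or_per_mul_right h k

private lemma or_per_mul {q : ℕ} {f g : ℤ → ℂ} (hf : Per q f) (hg : Per q g) :
    Per q (fun y => f y * g y) := fun y => by
  show f (y + q) * g (y + q) = f y * g y
  rw [hf y, hg y]

private lemma or_per_prod {q : ℕ} {S : Finset ℕ} {f : ℕ → ℤ → ℂ} (hf : ∀ p ∈ S, Per q (f p)) :
    Per q (fun y => ∏ p ∈ S, f p y) := fun y =>
  Finset.prod_congr rfl fun p hp => hf p hp y

private lemma or_cp_abs {p : ℕ} (hp : p.Prime) (x : ℤ) : |cp p x| ≤ (p : ℝ) - 1 := by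
  have h2 : (2 : ℝ) ≤ p := by exact_mod_cast hp.two_le
  unfold cp
  split_ifs
  · rw [abs_of_nonneg (by linarith)]
  · rw [abs_neg, abs_one]
    linarith

private lemma or_mn_norm {M : ℕ} {f : ℤ → ℂ} {B : ℝ} (hM : 1 ≤ M) (hf : ∀ y, ‖f y‖ ≤ B) :
    ‖mn M f‖ ≤ B := by
  unfold mn
  have hM0 : (0 : ℝ) < M := by exact_mod_cast hM
  rw [norm_div, Complex.norm_natCast, div_le_iff₀ hM0]
  refine (norm_sum_le _ _).trans ?_
  refine (Finset.sum_le_sum fun (y : ℕ) _ => hf (y : ℤ)).trans ?_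
  rw [Finset.sum_const, Finset.card_range, nsmul_eq_mul, mul_comm]

theorem thm_Or (h1 : St_Mt) (h2 : St_Lo) : St_Or := by
  classical
  obtain ⟨hM1, hM2, hM3, -⟩ := h1
  intro M E m n V W Φ hM hE hmE hVW hPE hPM hΦ
  -- the two parts of the sets
  set V₁ := V.filter (fun p => p ∣ E) with hV₁
  set V₂ := V.filter (fun p => ¬ p ∣ E) with hV₂
  set W₁ := W.filter (fun p => p ∣ E) with hW₁
  set W₂ := W.filter (fun p => ¬ p ∣ E) with hW₂
  have hVp : ∀ p ∈ V, p.Prime ∧ p ∣ M := fun p hp => hVW p (Finset.mem_union_left _ hp)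
  have hWp : ∀ p ∈ W, p.Prime ∧ p ∣ M := fun p hp => hVW p (Finset.mem_union_right _ hp)
  set S := V₂ ∪ W₂ with hS
  have hSp : ∀ p ∈ S, p.Prime ∧ p ∣ M ∧ ¬ p ∣ E := by
    intro p hp
    rcases Finset.mem_union.1 hp with h | h
    · obtain ⟨e1, e2⟩ := Finset.mem_filter.1 h
      exact ⟨(hVp p e1).1, (hVp p e1).2, e2⟩
    · obtain ⟨e1, e2⟩ := Finset.mem_filter.1 h
      exact ⟨(hWp p e1).1, (hWp p e1).2, e2⟩
  set f : ℤ → ℂ := fun y => Φ y * ((∏ p ∈ V₁, ((cp p (n - m * y) : ℝ) : ℂ)) *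
    ∏ p ∈ W₁, ((cp p y : ℝ) : ℂ)) with hf
  set F : ℕ → ℤ → ℂ := fun p y => (if p ∈ V₂ then ((cp p (n - m * y) : ℝ) : ℂ) else 1) *
    (if p ∈ W₂ then ((cp p y : ℝ) : ℂ) else 1) with hF
  set P : ℕ := ∏ p ∈ S, p with hP
  have hfun : (fun y : ℤ => Φ y * ((∏ p ∈ V, cp p (n - m * y) : ℝ) : ℂ) *
      ((∏ p ∈ W, cp p y : ℝ) : ℂ)) = fun y => f y * ∏ p ∈ S, F p y := by
    funext y
    have e1 : ∏ p ∈ S, F p y = (∏ p ∈ V₂, ((cp p (n - m * y) : ℝ) : ℂ)) *
        ∏ p ∈ W₂, ((cp p y : ℝ) : ℂ) := by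
      rw [hF]
      simp only []
      rw [Finset.prod_mul_distrib]
      congr 1
      · rw [Finset.prod_ite_mem, Finset.inter_eq_right.2 Finset.subset_union_left]
      · rw [Finset.prod_ite_mem, Finset.inter_eq_right.2 Finset.subset_union_right]
    rw [e1, hf]
    simp only []
    rw [← Finset.prod_filter_mul_prod_filter_not V (fun p => p ∣ E) (fun p => cp p (n - m * y)),
      ← Finset.prod_filter_mul_prod_filter_not W (fun p => p ∣ E) (fun p => cp p y)]
    push_cast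
    ring
  have hPf : Per E f := by
    refine or_per_mul hPE (or_per_mul (or_per_prod ?_) (or_per_prod ?_))
    · intro p hp
      exact or_per_dvd (or_per_cpn p m n) (Finset.mem_filter.1 hp).2
    · intro p hp
      exact or_per_dvd (or_per_cp p) (Finset.mem_filter.1 hp).2
  have hPF : ∀ p ∈ S, Per p (F p) := by
    intro p _
    refine or_per_mul ?_ ?_
    · by_cases h : p ∈ V₂
      · simp only [if_pos h]
        exact or_per_cpn p m n
      · simp only [if_neg h]
        intro y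
        rfl
    · by_cases h : p ∈ W₂
      · simp only [if_pos h]
        exact or_per_cp p
      · simp only [if_neg h]
        intro y
        rfl
  have hPprod : Per P (fun y => ∏ p ∈ S, F p y) := by
    refine or_per_prod fun p hp => or_per_dvd (hPF p hp) ?_
    exact Finset.dvd_prod_of_mem _ hp
  have hP1 : 1 ≤ P := Finset.prod_pos fun p hp => (hSp p hp).1.pos
  have hcop : E.Coprime P := by
    rw [hP]
    refine Nat.Coprime.prod_right fun p hp => ?_
    exact ((Nat.Prime.coprime_iff_not_dvd (hSp p hp).1).2 (hSp p hp).2.2).symm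
  have hMP : Per M (fun y => ∏ p ∈ S, F p y) :=
    or_per_prod fun p hp => or_per_dvd (hPF p hp) (hSp p hp).2.1
  have hMf : Per M f := by
    refine or_per_mul hPM (or_per_mul (or_per_prod ?_) (or_per_prod ?_))
    · intro p hp
      exact or_per_dvd (or_per_cpn p m n) (hVp p (Finset.mem_filter.1 hp).1).2
    · intro p hp
      exact or_per_dvd (or_per_cp p) (hWp p (Finset.mem_filter.1 hp).1).2
  have hmean : mn M (fun y => f y * ∏ p ∈ S, F p y) = mn E f * ∏ p ∈ S, mn p (F p) := by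
    rw [← hM3 S F (fun p hp => (hSp p hp).1) hPF, ← hM2 E P f _ hE hP1 hcop hPf hPprod]
    exact hM1 M (E * P) _ hM (Nat.mul_pos hE hP1) (or_per_mul hMf hMP)
      (or_per_mul (or_per_dvd hPf (Nat.dvd_mul_right _ _)) (or_per_dvd hPprod (Nat.dvd_mul_left _ _)))
  rw [hfun, hmean, norm_mul]
  have hnm : ∀ p ∈ S, ¬ p ∣ m := fun p hp h => (hSp p hp).2.2 (h.trans hmE)
  by_cases hc : V₂ = W₂
  · rw [if_pos hc]
    have hb1 : ‖mn E f‖ ≤ (∏ p ∈ V₁, ((p : ℝ) - 1)) * ∏ p ∈ W₁, ((p : ℝ) - 1) := by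
      refine or_mn_norm hE fun y => ?_
      rw [hf]
      simp only []
      rw [norm_mul, norm_mul, norm_prod, norm_prod]
      have e1 : ∏ p ∈ V₁, ‖((cp p (n - m * y) : ℝ) : ℂ)‖ ≤ ∏ p ∈ V₁, ((p : ℝ) - 1) := by
        refine Finset.prod_le_prod (fun _ _ => norm_nonneg _) fun p hp => ?_
        rw [Complex.norm_real, Real.norm_eq_abs]
        exact or_cp_abs (hVp p (Finset.mem_filter.1 hp).1).1 _
      have e2 : ∏ p ∈ W₁, ‖((cp p y : ℝ) : ℂ)‖ ≤ ∏ p ∈ W₁, ((p : ℝ) - 1) := by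
        refine Finset.prod_le_prod (fun _ _ => norm_nonneg _) fun p hp => ?_
        rw [Complex.norm_real, Real.norm_eq_abs]
        exact or_cp_abs (hWp p (Finset.mem_filter.1 hp).1).1 _
      have e3 : 0 ≤ ∏ p ∈ V₁, ‖((cp p (n - m * y) : ℝ) : ℂ)‖ :=
        Finset.prod_nonneg fun _ _ => norm_nonneg _
      have e4 : 0 ≤ ∏ p ∈ W₁, ‖((cp p y : ℝ) : ℂ)‖ := Finset.prod_nonneg fun _ _ => norm_nonneg _
      calc ‖Φ y‖ * ((∏ p ∈ V₁, ‖((cp p (n - m * y) : ℝ) : ℂ)‖) * ∏ p ∈ W₁, ‖((cp p y : ℝ) : ℂ)‖)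
          ≤ 1 * ((∏ p ∈ V₁, ((p : ℝ) - 1)) * ∏ p ∈ W₁, ((p : ℝ) - 1)) :=
            mul_le_mul (hΦ y) (mul_le_mul e1 e2 e4 (e3.trans e1)) (mul_nonneg e3 e4) zero_le_one
        _ = _ := one_mul _
    have hb2 : ‖∏ p ∈ S, mn p (F p)‖ = ∏ p ∈ V₂, |cp p n| := by
      have e0 : S = V₂ := by rw [hS, ← hc, Finset.union_self]
      rw [norm_prod, e0]
      refine Finset.prod_congr rfl fun p hp => ?_
      have hpS : p ∈ S := by rw [e0]; exact hp
      have e1 : F p = fun y : ℤ => ((cp p (n - m * y) * cp p y : ℝ) : ℂ) := by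
        funext y
        rw [hF]
        simp only []
        rw [if_pos hp, if_pos (hc ▸ hp), Complex.ofReal_mul]
      rw [e1, (h2 p m n (hSp p hpS).1 (hnm p hpS)).2.2, Complex.norm_real, Real.norm_eq_abs]
    rw [hb2]
    refine mul_le_mul_of_nonneg_right hb1 ?_
    exact Finset.prod_nonneg fun _ _ => abs_nonneg _
  · rw [if_neg hc]
    -- some prime lies in exactly one of the two sets
    obtain ⟨p, hpS, hp⟩ : ∃ p ∈ S, ¬ (p ∈ V₂ ↔ p ∈ W₂) := by
      by_contra hcon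
      push Not at hcon
      refine hc (Finset.ext fun p => ?_)
      by_cases h : p ∈ S
      · exact hcon p h
      · rw [hS, Finset.mem_union, not_or] at h
        exact ⟨fun h' => absurd h' h.1, fun h' => absurd h' h.2⟩
    have h0 : mn p (F p) = 0 := by
      obtain ⟨e1, e2, -⟩ := h2 p m n (hSp p hpS).1 (hnm p hpS)
      by_cases hv : p ∈ V₂
      · have hw : ¬ p ∈ W₂ := fun h => hp ⟨fun _ => h, fun _ => hv⟩
        rw [← e2]
        congr 1
        funext y
        rw [hF]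
        simp only []
        rw [if_pos hv, if_neg hw, mul_one]
      · have hw : p ∈ W₂ := by
          by_contra h
          exact hp ⟨fun h' => absurd h' hv, fun h' => absurd h' h⟩
        rw [← e1]
        congr 1
        funext y
        rw [hF]
        simp only []
        rw [if_neg hv, if_pos hw, one_mul]
    rw [Finset.prod_eq_zero hpS h0, norm_zero, mul_zero]

end Pool.Agent.MVII
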