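import Pool.Agent.MVII.St2

set_option autoImplicit false

/-!
# MVII.Pl: the mean of the exact sieve function is the product of the local densities
-/

namespace Pool.Agent.MVII

open Finset Filter
open Pool.Agent.LIN (PP pz)

/-- The condition at `p`. -/
def pl_ok (w m n p : ℕ) (y : ℤ) : Prop :=
  ¬ (p : ℤ) ∣ y ∧ ¬ (p : ℤ) ∣ (n : ℤ) - m * y ∧ (p < w → ¬ (p : ℤ) ∣ y ^ 2 - 2)

open Classical in
/-- The local factor. -/
noncomputable def pl_f (w m n p : ℕ) (y : ℤ) : ℂ :=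
  if pl_ok w m n p y then ((((p : ℝ) / (p - 1)) ^ 2 : ℝ) : ℂ) else 0

theorem pl_ok_add (w m n p : ℕ) (y k : ℤ) : pl_ok w m n p (y + p * k) ↔ pl_ok w m n p y := by
  have h1 : (p : ℤ) ∣ y + p * k ↔ (p : ℤ) ∣ y := by
    rw [dvd_add_left (Dvd.intro _ rfl)]
  have h2 : (p : ℤ) ∣ (n : ℤ) - m * (y + p * k) ↔ (p : ℤ) ∣ (n : ℤ) - m * y := by
    have : (n : ℤ) - m * (y + p * k) = (n : ℤ) - m * y + p * (-(m * k)) := by ring
    rw [this, dvd_add_left (Dvd.intro _ rfl)]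
  have h3 : (p : ℤ) ∣ (y + p * k) ^ 2 - 2 ↔ (p : ℤ) ∣ y ^ 2 - 2 := by
    have : (y + p * k) ^ 2 - 2 = y ^ 2 - 2 + p * (2 * y * k + p * k ^ 2) := by ring
    rw [this, dvd_add_left (Dvd.intro _ rfl)]
  unfold pl_ok
  rw [h1, h2, h3]

theorem pl_f_add (w m n p : ℕ) (y k : ℤ) : pl_f w m n p (y + p * k) = pl_f w m n p y := by
  classical
  unfold pl_f
  exact if_congr (pl_ok_add w m n p y k) rfl rfl

theorem pl_per (w m n p M : ℕ) (h : p ∣ M) : Per M (pl_f w m n p) := by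
  intro y
  obtain ⟨k, rfl⟩ := h
  have := pl_f_add w m n p y k
  push_cast
  exact this

theorem pl_mn (w m n p : ℕ) : mn p (pl_f w m n p) = ((loc w m n p : ℝ) : ℂ) := by
  classical
  unfold mn loc nl pl_f
  rw [Finset.sum_ite, Finset.sum_const_zero, add_zero, Finset.sum_const, nsmul_eq_mul]
  have h : (range p).filter (fun y : ℕ => pl_ok w m n p (y : ℤ)) =
      (range p).filter (fun y : ℕ => ¬ (p : ℤ) ∣ (y : ℤ) ∧ ¬ (p : ℤ) ∣ (n : ℤ) - m * y ∧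
        (p < w → ¬ (p : ℤ) ∣ (y : ℤ) ^ 2 - 2)) := by
    refine Finset.filter_congr fun y _ => Iff.rfl
  rw [h]
  push_cast
  ring

theorem pl_pt (Q m n w : ℕ) (hw : w ≤ Q) (y : ℤ) :
    ((wq Q m n y * (if ∀ p ∈ PP 2 w, ¬ (p : ℤ) ∣ y ^ 2 - 2 then (1 : ℝ) else 0) : ℝ) : ℂ) =
      ∏ p ∈ pz Q, pl_f w m n p y := by
  classical
  have h1 : (if ∀ p ∈ PP 2 w, ¬ (p : ℤ) ∣ y ^ 2 - 2 then (1 : ℝ) else 0) =
      ∏ p ∈ pz Q, if (p < w → ¬ (p : ℤ) ∣ y ^ 2 - 2) then (1 : ℝ) else 0 := by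
    rw [Finset.prod_ite_zero, Finset.prod_const_one]
    refine if_congr ?_ rfl rfl
    unfold PP pz
    constructor
    · intro h p hp hpw
      rw [Finset.mem_filter, Finset.mem_range] at hp
      exact h p (Finset.mem_filter.2 ⟨Finset.mem_Ico.2 ⟨hp.2.two_le, hpw⟩, hp.2⟩)
    · intro h p hp
      rw [Finset.mem_filter, Finset.mem_Ico] at hp
      exact h p (Finset.mem_filter.2 ⟨Finset.mem_range.2 (by omega), hp.2⟩) hp.1.2
  unfold wq GQ
  rw [h1, ← Finset.prod_mul_distrib, ← Finset.prod_mul_distrib, Complex.ofReal_prod]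
  refine Finset.prod_congr rfl fun p _ => ?_
  unfold pl_f pl_ok gp
  by_cases a1 : (p : ℤ) ∣ y
  · rw [if_pos a1, mul_zero, zero_mul, if_neg (fun h => h.1 a1), Complex.ofReal_zero]
  · by_cases a2 : (p : ℤ) ∣ (n : ℤ) - m * y
    · rw [if_pos a2, zero_mul, zero_mul, if_neg (fun h => h.2.1 a2), Complex.ofReal_zero]
    · by_cases a3 : p < w → ¬ (p : ℤ) ∣ y ^ 2 - 2
      · rw [if_neg a1, if_neg a2, if_pos a3, if_pos ⟨a1, a2, a3⟩, mul_one, sq]
      · rw [if_neg a3, mul_zero, if_neg (fun h => a3 h.2.2), Complex.ofReal_zero]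

theorem thm_Pl (h1 : St_Mt) : St_Pl := by
  intro Q m n w hQ hw
  have hF : (fun y : ℤ => ((wq Q m n y *
      (if ∀ p ∈ PP 2 w, ¬ (p : ℤ) ∣ y ^ 2 - 2 then (1 : ℝ) else 0) : ℝ) : ℂ)) =
      fun y => ∏ p ∈ pz Q, pl_f w m n p y := funext fun y => pl_pt Q m n w hw y
  have hprime : ∀ p ∈ pz Q, p.Prime := fun p hp => (Finset.mem_filter.1 hp).2
  have hper : ∀ M : ℕ, (∀ p ∈ pz Q, p ∣ M) → Per M (fun y => ∏ p ∈ pz Q, pl_f w m n p y) := by
    intro M hM y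
    exact Finset.prod_congr rfl fun p hp => pl_per w m n p M (hM p hp) y
  have hfac : ∀ p ∈ pz Q, p ∣ Q.factorial := by
    intro p hp
    refine Nat.dvd_factorial (hprime p hp).pos ?_
    have := Finset.mem_range.1 (Finset.mem_filter.1 hp).1
    omega
  have hprod : ∀ p ∈ pz Q, p ∣ ∏ q ∈ pz Q, q := fun p hp => Finset.dvd_prod_of_mem _ hp
  have hpos : 1 ≤ ∏ q ∈ pz Q, q := Finset.prod_pos fun p hp => (hprime p hp).pos
  rw [hF, h1.1 Q.factorial (∏ q ∈ pz Q, q) _ (Nat.factorial_pos Q) hpos (hper _ hfac)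
    (hper _ hprod), h1.2.2.1 (pz Q) (fun p => pl_f w m n p) hprime
    (fun p _ => pl_per w m n p p dvd_rfl), Complex.ofReal_prod]
  exact Finset.prod_congr rfl fun p _ => pl_mn w m n p

end Pool.Agent.MVII
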