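import Pool.Agent.MVII.St2
import Pool.Agent.LIN.Fl
import Pool.Agent.LIN.Fl1
import Pool.Agent.LIN.Fl0
import Pool.Agent.LIN.Blk

set_option autoImplicit false

/-!
# MVII, module Sf: the sieve weight as a product; positivity; existence of the weights
-/

namespace Pool.Agent.MVII

open Finset Filter
open Pool.Agent.GBQ (ee lam nd Admissible)
open Pool.Agent.MVX (Chr tent Bm Um prm Win GP)
open Pool.Agent.LIN (PP pz)

theorem sf_split (A B : Finset ℕ) (P : ℕ → Prop) [DecidablePred P] (hA : ∀ p ∈ A, P p)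
    (hB : ∀ p ∈ B, ¬ P p) (F G : Finset ℕ → ℝ) :
    ∑ U ∈ (A ∪ B).powerset, F (U.filter P) * G (U.filter (fun p => ¬ P p)) =
      (∑ V ∈ A.powerset, F V) * ∑ T ∈ B.powerset, G T := by
  classical
  rw [sum_mul_sum, ← sum_product']
  refine sum_bij' (fun U _ => (U.filter P, U.filter (fun p => ¬ P p))) (fun x _ => x.1 ∪ x.2)
    ?_ ?_ ?_ ?_ ?_
  · intro U hU
    rw [mem_powerset] at hU
    rw [mem_product, mem_powerset, mem_powerset]
    constructor
    · intro p hp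
      rw [mem_filter] at hp
      rcases mem_union.1 (hU hp.1) with h | h
      · exact h
      · exact absurd hp.2 (hB p h)
    · intro p hp
      rw [mem_filter] at hp
      rcases mem_union.1 (hU hp.1) with h | h
      · exact absurd (hA p h) hp.2
      · exact h
  · intro x hx
    rw [mem_product, mem_powerset, mem_powerset] at hx
    rw [mem_powerset]
    exact union_subset_union hx.1 hx.2
  · intro U _
    exact filter_union_filter_not_eq P U
  · intro x hx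
    rw [mem_product, mem_powerset, mem_powerset] at hx
    ext p
    · rw [mem_filter, mem_union]
      constructor
      · rintro ⟨h1 | h1, h2⟩
        · exact h1
        · exact absurd h2 (hB p (hx.2 h1))
      · intro h1
        exact ⟨Or.inl h1, hA p (hx.1 h1)⟩
    · rw [mem_filter, mem_union]
      constructor
      · rintro ⟨h1 | h1, h2⟩
        · exact absurd (hA p (hx.1 h1)) h2
        · exact h1
      · intro h1
        exact ⟨Or.inr h1, hB p (hx.2 h1)⟩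
  · intro U _
    rfl

theorem sf_neg (A : Finset ℕ) :
    ∑ V ∈ A.powerset, (-1 : ℝ) ^ V.card = if A = ∅ then 1 else 0 := by
  classical
  have h := sum_powerset_neg_one_pow_card (x := A)
  have h2 : ((∑ V ∈ A.powerset, (-1 : ℤ) ^ V.card : ℤ) : ℝ) =
      ((if A = ∅ then 1 else 0 : ℤ) : ℝ) := by rw [h]
  push_cast at h2
  exact h2

theorem sf_one (q₁ w : ℕ) (ψ : Finset ℕ → ℝ) (y : ℤ) : SS q₁ w ψ y =
    (if ∀ p ∈ PP 2 w, p ∣ q₁ → ¬ (p : ℤ) ∣ y ^ 2 - 2 then (1 : ℝ) else 0) *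
      ∑ T ∈ ((PP 2 w).filter (fun p => ¬ p ∣ q₁ ∧ (p : ℤ) ∣ y ^ 2 - 2)).powerset, ψ T := by
  classical
  set A := (PP 2 w).filter (fun p => p ∣ q₁ ∧ (p : ℤ) ∣ y ^ 2 - 2) with hAdef
  set B := (PP 2 w).filter (fun p => ¬ p ∣ q₁ ∧ (p : ℤ) ∣ y ^ 2 - 2) with hBdef
  have h1 : SS q₁ w ψ y = ∑ U ∈ (A ∪ B).powerset, sg q₁ ψ U := by
    unfold SS
    rw [← sum_filter]
    apply sum_congr _ (fun _ _ => rfl)
    ext U
    rw [mem_filter, mem_powerset, mem_powerset]
    constructor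
    · rintro ⟨h2, h3⟩ p hp
      rw [mem_union, hAdef, hBdef, mem_filter, mem_filter]
      by_cases h4 : p ∣ q₁
      · exact Or.inl ⟨h2 hp, h4, h3 p hp⟩
      · exact Or.inr ⟨h2 hp, h4, h3 p hp⟩
    · intro h2
      constructor
      · intro p hp
        have h3 := h2 hp
        rw [mem_union, hAdef, hBdef, mem_filter, mem_filter] at h3
        rcases h3 with h3 | h3
        · exact h3.1
        · exact h3.1
      · intro p hp
        have h3 := h2 hp
        rw [mem_union, hAdef, hBdef, mem_filter, mem_filter] at h3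
        rcases h3 with h3 | h3
        · exact h3.2.2
        · exact h3.2.2
  rw [h1]
  unfold sg
  rw [sf_split A B (fun p => p ∣ q₁) (fun p hp => (mem_filter.1 hp).2.1)
    (fun p hp => (mem_filter.1 hp).2.1) (fun V => (-1 : ℝ) ^ V.card) ψ, sf_neg]
  congr 1
  have h2 : A = ∅ ↔ ∀ p ∈ PP 2 w, p ∣ q₁ → ¬ (p : ℤ) ∣ y ^ 2 - 2 := by
    rw [hAdef, filter_eq_empty_iff]
    constructor
    · intro h p hp h3 h4
      exact h hp ⟨h3, h4⟩
    · intro h p hp h3
      exact h p hp h3.1 h3.2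
  by_cases h3 : A = ∅
  · rw [if_pos h3, if_pos (h2.1 h3)]
  · rw [if_neg h3, if_neg (fun h => h3 (h2.2 h))]

theorem sf_two (q₁ w : ℕ) (D : ℝ) (ψ : Finset ℕ → ℝ) (y : ℤ) (hψ : IsPsi w D ψ)
    (h : 0 < SS q₁ w ψ y) : ∀ p ∈ PP 2 w, ¬ (p : ℤ) ∣ y ^ 2 - 2 := by
  classical
  rw [sf_one] at h
  set B := (PP 2 w).filter (fun p => ¬ p ∣ q₁ ∧ (p : ℤ) ∣ y ^ 2 - 2) with hBdef
  intro p hp
  by_cases hc : ∀ p ∈ PP 2 w, p ∣ q₁ → ¬ (p : ℤ) ∣ y ^ 2 - 2
  · rw [if_pos hc, one_mul] at h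
    have h1 := hψ.low B (filter_subset _ _)
    by_cases hB : B = ∅
    · intro hd
      by_cases h4 : p ∣ q₁
      · exact hc p hp h4 hd
      · have h5 : p ∈ B := mem_filter.2 ⟨hp, h4, hd⟩
        rw [hB] at h5
        exact notMem_empty p h5
    · rw [if_neg hB] at h1
      linarith
  · rw [if_neg hc, zero_mul] at h
    exact absurd h (lt_irrefl _)

theorem sf_three : ∃ s : ℕ, 1 ≤ s ∧ ∀ w : ℕ, 2 ≤ w → ∃ ψ : Finset ℕ → ℝ,
    IsPsi w ((w : ℝ) ^ s) ψ := by
  obtain ⟨s, hs⟩ := LIN.thm_Fl (LIN.thm_Fl1 LIN.thm_Fl0 LIN.thm_Blk) (1 / 4) (by norm_num)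
  refine ⟨max s 1, le_max_right _ _, fun w hw => ?_⟩
  obtain ⟨φ, ψ, h1, h2, h3, h4⟩ := hs w hw
  refine ⟨ψ, ⟨fun T => (h1 T).2, fun T hT => ?_, fun S hS => (h3 S hS).2, fun g hg => ?_⟩⟩
  · obtain ⟨h5, h6⟩ := h2 T (Or.inr hT)
    refine ⟨h5, h6.trans ?_⟩
    have hw1 : (1 : ℝ) ≤ w := by
      have : 1 ≤ w := by omega
      exact_mod_cast this
    exact pow_le_pow_right₀ hw1 (le_max_left _ _)
  · have h5 := (h4 g hg).2.2
    have h6 : (1 - 1 / 4 : ℝ) = 3 / 4 := by norm_num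
    rw [h6] at h5
    exact h5

theorem thm_Sf : St_Sf :=
  ⟨fun q₁ w _ ψ y _ => sf_one q₁ w ψ y, fun q₁ w D ψ y => sf_two q₁ w D ψ y, sf_three⟩

end Pool.Agent.MVII
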