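import Pool.Agent.MVII.St2

set_option autoImplicit false

/-!
# MVII / Ta: the tail of the singular series
-/

namespace Pool.Agent.MVII

open Finset Filter
open Pool.Agent.LIN (PP pz)

private theorem ta_factor (p n : ℕ) (hp : p.Prime) :
    0 ≤ Real.sqrt p * (|cp p n| / ((p : ℝ) - 1) ^ 2) ∧
    1 + Real.sqrt p * (|cp p n| / ((p : ℝ) - 1) ^ 2) ≤
      (if p ∣ n then (4 : ℝ) else 1) * Real.exp (4 * (1 / (p : ℝ) ^ (3 / 2 : ℝ))) := by
  have h2 : (2 : ℝ) ≤ p := by exact_mod_cast hp.two_le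
  have hp1 : (0 : ℝ) < (p : ℝ) - 1 := by linarith
  have hs0 : 0 ≤ Real.sqrt p := Real.sqrt_nonneg _
  have hss : Real.sqrt p * Real.sqrt p = p := Real.mul_self_sqrt (by linarith)
  have hs1 : 1 ≤ Real.sqrt p := Real.one_le_sqrt.2 (by linarith)
  have hsp : Real.sqrt p ≤ p := by nlinarith
  have hq : 0 ≤ 4 * (1 / (p : ℝ) ^ (3 / 2 : ℝ)) := by positivity
  refine ⟨by positivity, ?_⟩
  by_cases hd : p ∣ n
  · have hc : cp p (n : ℤ) = (p : ℝ) - 1 := by
      unfold cp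
      rw [if_pos (by exact_mod_cast hd)]
    rw [if_pos hd, hc, abs_of_pos hp1]
    have h3 : Real.sqrt p * (((p : ℝ) - 1) / ((p : ℝ) - 1) ^ 2) ≤ 3 := by
      have e : Real.sqrt p * (((p : ℝ) - 1) / ((p : ℝ) - 1) ^ 2) = Real.sqrt p / ((p : ℝ) - 1) := by
        field_simp
      rw [e, div_le_iff₀ hp1]
      linarith
    have h4 : (1 : ℝ) ≤ Real.exp (4 * (1 / (p : ℝ) ^ (3 / 2 : ℝ))) := Real.one_le_exp hq
    linarith
  · have hc : cp p (n : ℤ) = -1 := by
      unfold cp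
      rw [if_neg (by exact_mod_cast hd)]
    rw [if_neg hd, hc, one_mul, abs_neg, abs_one]
    have h3 : Real.sqrt p * (1 / ((p : ℝ) - 1) ^ 2) ≤ 4 * (1 / (p : ℝ) ^ (3 / 2 : ℝ)) := by
      have e : (p : ℝ) ^ (3 / 2 : ℝ) = p * Real.sqrt p := by
        rw [Real.sqrt_eq_rpow, show (3 / 2 : ℝ) = 1 + 1 / 2 by norm_num,
          Real.rpow_add (by linarith), Real.rpow_one]
      rw [e, mul_one_div, mul_one_div, div_le_div_iff₀ (by positivity) (by positivity)]
      have h5 : Real.sqrt p * (p * Real.sqrt p) = (p : ℝ) ^ 2 := by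
        calc Real.sqrt p * (p * Real.sqrt p) = p * (Real.sqrt p * Real.sqrt p) := by ring
          _ = (p : ℝ) ^ 2 := by rw [hss]; ring
      rw [h5]
      nlinarith
    have h4 := Real.add_one_le_exp (4 * (1 / (p : ℝ) ^ (3 / 2 : ℝ)))
    linarith

private theorem ta_omega {n : ℕ} (hn : 1 ≤ n) :
    (4 : ℝ) ^ n.primeFactors.card ≤ (n.divisors.card : ℝ) ^ 2 := by
  have h1 : 2 ^ n.primeFactors.card ≤ n.divisors.card := by
    rw [Nat.card_divisors (by omega), ← Finset.prod_const]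
    refine Finset.prod_le_prod' fun p hp => ?_
    have h2 := (Nat.mem_primeFactors.1 hp)
    have h3 := h2.1.factorization_pos_of_dvd h2.2.2 h2.2.1
    omega
  have h2 : (2 : ℝ) ^ n.primeFactors.card ≤ n.divisors.card := by exact_mod_cast h1
  calc (4 : ℝ) ^ n.primeFactors.card = ((2 : ℝ) ^ n.primeFactors.card) ^ 2 := by
        rw [← pow_mul, mul_comm, pow_mul]
        norm_num
    _ ≤ _ := pow_le_pow_left₀ (by positivity) h2 2

theorem thm_Ta : St_Ta := by
  have hsum : Summable (fun j : ℕ => 4 * (1 / (j : ℝ) ^ (3 / 2 : ℝ))) :=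
    (Real.summable_one_div_nat_rpow.2 (by norm_num)).mul_left 4
  have hnn : ∀ j : ℕ, 0 ≤ 4 * (1 / (j : ℝ) ^ (3 / 2 : ℝ)) := fun j => by positivity
  refine ⟨Real.exp (∑' j : ℕ, 4 * (1 / (j : ℝ) ^ (3 / 2 : ℝ))), Real.exp_pos _,
    fun Q n z hn hz => ?_⟩
  have hpr : ∀ p ∈ pz Q, p.Prime := fun p hp => (Finset.mem_filter.1 hp).2
  have hsz : 0 < Real.sqrt z := Real.sqrt_pos.2 hz
  rw [le_div_iff₀ hsz, Finset.sum_mul]
  calc ∑ V ∈ (pz Q).powerset.filter (fun V => z < ((∏ p ∈ V, p : ℕ) : ℝ)),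
        (∏ p ∈ V, (|cp p n| / ((p : ℝ) - 1) ^ 2)) * Real.sqrt z
      ≤ ∑ V ∈ (pz Q).powerset.filter (fun V => z < ((∏ p ∈ V, p : ℕ) : ℝ)),
        ∏ p ∈ V, (Real.sqrt p * (|cp p n| / ((p : ℝ) - 1) ^ 2)) := by
        refine Finset.sum_le_sum fun V hV => ?_
        rw [Finset.mem_filter] at hV
        rw [Finset.prod_mul_distrib, mul_comm]
        refine mul_le_mul_of_nonneg_right ?_ (Finset.prod_nonneg fun p _ => by positivity)
        rw [← Real.sqrt_prod _ (fun p _ => Nat.cast_nonneg p)]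
        refine Real.sqrt_le_sqrt ?_
        have h := hV.2.le
        push_cast at h
        exact h
    _ ≤ ∑ V ∈ (pz Q).powerset, ∏ p ∈ V, (Real.sqrt p * (|cp p n| / ((p : ℝ) - 1) ^ 2)) :=
        Finset.sum_le_sum_of_subset_of_nonneg (Finset.filter_subset _ _)
          (fun V hV _ => Finset.prod_nonneg fun p hp =>
            (ta_factor p n (hpr p (Finset.mem_powerset.1 hV hp))).1)
    _ = ∏ p ∈ pz Q, (1 + Real.sqrt p * (|cp p n| / ((p : ℝ) - 1) ^ 2)) := by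
        rw [Finset.prod_one_add]
    _ ≤ ∏ p ∈ pz Q, ((if p ∣ n then (4 : ℝ) else 1) *
          Real.exp (4 * (1 / (p : ℝ) ^ (3 / 2 : ℝ)))) := by
        refine Finset.prod_le_prod (fun p hp => ?_) (fun p hp => (ta_factor p n (hpr p hp)).2)
        have := (ta_factor p n (hpr p hp)).1
        linarith
    _ = (∏ p ∈ pz Q, (if p ∣ n then (4 : ℝ) else 1)) *
          Real.exp (∑ p ∈ pz Q, 4 * (1 / (p : ℝ) ^ (3 / 2 : ℝ))) := by
        rw [Finset.prod_mul_distrib, Real.exp_sum]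
    _ ≤ (n.divisors.card : ℝ) ^ 2 * Real.exp (∑' j : ℕ, 4 * (1 / (j : ℝ) ^ (3 / 2 : ℝ))) := by
        refine mul_le_mul ?_ (Real.exp_le_exp.2 (hsum.sum_le_tsum _ fun j _ => hnn j))
          (Real.exp_pos _).le (by positivity)
        refine le_trans ?_ (ta_omega hn)
        rw [Finset.prod_ite, Finset.prod_const, Finset.prod_const_one, mul_one]
        refine pow_le_pow_right₀ (by norm_num) (Finset.card_le_card fun p hp => ?_)
        rw [Finset.mem_filter] at hp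
        exact Nat.mem_primeFactors.2 ⟨hpr p hp.1, hp.2, by omega⟩
    _ = _ := mul_comm _ _

end Pool.Agent.MVII
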