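import Mathlib
import Pool.Agent.GBQ.Basic
import Pool.Agent.GBQ.Bad
import Pool.Agent.MVII.St3

set_option autoImplicit false

/-!
# MVII.Up: without solutions the sum is small
-/

namespace Pool.Agent.MVII

open Finset Filter
open Pool.Agent.GBQ (ee lam nd Admissible)
open Pool.Agent.LIN (PP pz)

/-- few prime factors -/
theorem up_omega {X : ℕ} {δ : ℝ} {s w y : ℕ} (hX : 2 ≤ X) (hδ : 0 < δ) (hs : 1 ≤ s)
    (hwX : (X : ℝ) ^ (δ / (41 * s)) ≤ w) (hy : 2 ≤ y) (hyX : y ≤ X)
    (hp : ∀ p ∈ PP 2 w, ¬ (p : ℤ) ∣ (y : ℤ) ^ 2 - 2) :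
    ArithmeticFunction.cardFactors (y ^ 2 - 2) ≤ ⌈82 * s / δ⌉₊ := by
  have hy4 : 4 ≤ y ^ 2 := by nlinarith
  have hne : y ^ 2 - 2 ≠ 0 := by omega
  have hpf : ∀ p ∈ (y ^ 2 - 2).primeFactorsList, w ≤ p := by
    intro p hp'
    have hpp := Nat.prime_of_mem_primeFactorsList hp'
    have hpd := Nat.dvd_of_mem_primeFactorsList hp'
    by_contra hlt
    push Not at hlt
    apply hp p
    · rw [LIN.PP, mem_filter, mem_Ico]
      exact ⟨⟨hpp.two_le, hlt⟩, hpp⟩
    · have := Int.natCast_dvd_natCast.2 hpd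
      rw [Nat.cast_sub (by omega)] at this
      push_cast at this
      exact this
  have h1 := List.pow_card_le_prod _ w hpf
  rw [Nat.prod_primeFactorsList hne] at h1
  rw [ArithmeticFunction.cardFactors_apply]
  set L := (y ^ 2 - 2).primeFactorsList.length with hL
  have h2 : ((X : ℝ) ^ (δ / (41 * s))) ^ L ≤ (X : ℝ) ^ (2 : ℕ) := by
    calc ((X : ℝ) ^ (δ / (41 * s))) ^ L ≤ (w : ℝ) ^ L := by gcongr
      _ ≤ ((y ^ 2 - 2 : ℕ) : ℝ) := by exact_mod_cast h1
      _ ≤ ((X ^ 2 : ℕ) : ℝ) := by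
          have : y ^ 2 ≤ X ^ 2 := Nat.pow_le_pow_left hyX 2
          exact_mod_cast (by omega : y ^ 2 - 2 ≤ X ^ 2)
      _ = _ := by push_cast; rfl
  rw [← Real.rpow_natCast, ← Real.rpow_mul (Nat.cast_nonneg X), ← Real.rpow_natCast] at h2
  have hX1 : (1 : ℝ) < X := by exact_mod_cast (by omega : 1 < X)
  rw [Real.rpow_le_rpow_left_iff hX1] at h2
  have hs0 : (0 : ℝ) < s := by exact_mod_cast (by omega : 0 < s)
  have h3 : (L : ℝ) ≤ 82 * s / δ := by
    rw [le_div_iff₀ hδ]
    rw [div_mul_eq_mul_div, div_le_iff₀ (by positivity)] at h2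
    push_cast at h2
    linarith
  exact_mod_cast h3.trans (Nat.le_ceil _)

/-- the exceptional `y` -/
theorem up_card {m n K : ℕ} (hm : 1 ≤ m) (hn : 1 ≤ n) (hK : m * K < n) :
    ((((Ioc (K / 2) K).filter
      (fun y => y ∈ GBQ.badPP n ∨ n - m * y ∈ GBQ.badPP n)).card : ℕ) : ℝ) ≤
      6 * (Real.sqrt n * Real.log n) := by
  classical
  have hpp := GBQ.bad_card_pp hn
  have h1 : ((Ioc (K / 2) K).filter
      (fun y => y ∈ GBQ.badPP n ∨ n - m * y ∈ GBQ.badPP n)).card ≤
      (GBQ.badPP n).card + (GBQ.badPP n).card := by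
    rw [filter_or]
    refine (card_union_le _ _).trans (Nat.add_le_add ?_ ?_)
    · exact card_le_card fun y hy => (mem_filter.1 hy).2
    · apply card_le_card_of_injOn (fun y => n - m * y)
      · intro y hy
        exact (mem_filter.1 hy).2
      · intro a ha b hb hab
        rw [mem_coe, mem_filter, mem_Ioc] at ha hb
        simp only at hab
        have ha2 : m * a ≤ m * K := Nat.mul_le_mul_left m ha.1.2
        have hb2 : m * b ≤ m * K := Nat.mul_le_mul_left m hb.1.2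
        have h : m * a = m * b := by omega
        exact Nat.eq_of_mul_eq_mul_left (by omega) h
  have h2 : ((((Ioc (K / 2) K).filter
      (fun y => y ∈ GBQ.badPP n ∨ n - m * y ∈ GBQ.badPP n)).card : ℕ) : ℝ) ≤
      (GBQ.badPP n).card + (GBQ.badPP n).card := by exact_mod_cast h1
  linarith

theorem thm_Up (h1 : St_Sf) (h2 : St_Ep) : St_Up := by
  classical
  intro δ hδ _ s hs
  refine ⟨⌈82 * s / δ⌉₊, ?_⟩
  have ev1 := h2 (1 / 100) (by norm_num) 4
  have ev2 : ∀ᶠ X : ℕ in atTop, 1000 ≤ X := eventually_ge_atTop 1000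
  filter_upwards [ev1, ev2] with X hX hX2
  intro m q₁ w D ψ hm hw hwX hψ n hn hsol h8
  obtain ⟨_, hlog, _, _, hSS⟩ := hX
  obtain ⟨hn1, hn2⟩ := hn
  set K := X / (8 * m) with hK
  have hKX : 8 * (m * K) ≤ X := by
    have := Nat.div_mul_le_self X (8 * m)
    calc 8 * (m * K) = X / (8 * m) * (8 * m) := by rw [hK]; ring
      _ ≤ X := this
  have hnlow : 3 * X ≤ 8 * n := by omega
  have hnX : n ≤ X := by omega
  have hmK : m * K < n := by omega
  have hKn : K ≤ m * K := Nat.le_mul_of_pos_left K (by omega)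
  have hX0 : (0 : ℝ) < X := by exact_mod_cast (by omega : 0 < X)
  have hX1 : (1 : ℝ) ≤ X := by exact_mod_cast (by omega : 1 ≤ X)
  have hlX : 0 ≤ Real.log X := Real.log_nonneg hX1
  set B : ℝ := Real.log X * (X : ℝ) ^ (1 / 100 : ℝ) * Real.log X with hB
  have hP0 : 0 ≤ (X : ℝ) ^ (1 / 100 : ℝ) := Real.rpow_nonneg hX0.le _
  have hB0 : 0 ≤ B := by positivity
  set E : Finset ℕ := (Ioc (K / 2) K).filter
    (fun y => y ∈ GBQ.badPP n ∨ n - m * y ∈ GBQ.badPP n) with hE
  have hEc := up_card hm (by omega : 1 ≤ n) hmK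
  rw [← hE] at hEc
  have hterm : ∀ y ∈ Ioc (K / 2) K, lam y * SS q₁ w ψ y * lam (n - m * y) ≤
      if y ∈ E then B else 0 := by
    intro y hy
    have hy' := mem_Ioc.1 hy
    have hmy : m * y ≤ m * K := Nat.mul_le_mul_left m hy'.2
    have hyX : y ≤ X := by omega
    split_ifs with hyE
    · -- trivial bound
      have a1 : lam y ≤ Real.log X := by
        refine (GBQ.lam_le_log y).trans ?_
        rcases Nat.eq_zero_or_pos y with h0 | h0
        · rw [h0]; simpa using hlX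
        · exact Real.log_le_log (by exact_mod_cast h0) (by exact_mod_cast hyX)
      have a2 : lam (n - m * y) ≤ Real.log X := by
        refine (GBQ.lam_le_log _).trans ?_
        rcases Nat.eq_zero_or_pos (n - m * y) with h0 | h0
        · rw [h0]; simpa using hlX
        · exact Real.log_le_log (by exact_mod_cast h0) (by exact_mod_cast (by omega))
      have a3 : SS q₁ w ψ y ≤ (X : ℝ) ^ (1 / 100 : ℝ) := by
        refine (le_abs_self _).trans (hSS q₁ w D ψ (y : ℤ) hψ ?_)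
        rw [abs_of_nonneg (by positivity)]
        exact_mod_cast (by omega : y ≤ 2 * X)
      have b1 := GBQ.lam_nonneg y
      have b2 := GBQ.lam_nonneg (n - m * y)
      rw [hB]
      refine mul_le_mul ?_ a2 b2 (by positivity)
      calc lam y * SS q₁ w ψ y ≤ lam y * (X : ℝ) ^ (1 / 100 : ℝ) :=
            mul_le_mul_of_nonneg_left a3 b1
        _ ≤ _ := mul_le_mul_of_nonneg_right a1 hP0
    · by_cases c1 : lam y = 0
      · rw [c1, zero_mul, zero_mul]
      by_cases c2 : lam (n - m * y) = 0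
      · rw [c2, mul_zero]
      have hyp : y.Prime := by
        by_contra hnp
        apply hyE
        rw [hE, mem_filter]
        refine ⟨hy, Or.inl ?_⟩
        rw [GBQ.badPP, mem_filter, mem_Ioc]
        exact ⟨⟨by omega, by omega⟩, hnp, c1⟩
      have hnp : (n - m * y).Prime := by
        by_contra hnp
        apply hyE
        rw [hE, mem_filter]
        refine ⟨hy, Or.inr ?_⟩
        rw [GBQ.badPP, mem_filter, mem_Ioc]
        exact ⟨⟨by omega, by omega⟩, hnp, c2⟩
      have hS0 : SS q₁ w ψ y ≤ 0 := by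
        by_contra hpos
        push Not at hpos
        have hfac := h1.2.1 q₁ w D ψ (y : ℤ) hψ hpos
        apply hsol y
        exact ⟨hyp, by omega, hnp, up_omega (by omega) hδ hs hwX hyp.two_le hyX hfac⟩
      have b1 := GBQ.lam_nonneg y
      have b2 := GBQ.lam_nonneg (n - m * y)
      exact mul_nonpos_of_nonpos_of_nonneg (mul_nonpos_of_nonneg_of_nonpos b1 hS0) b2
  have hsum : R0 m K q₁ w ψ n ≤ E.card * B := by
    unfold R0
    refine (sum_le_sum hterm).trans (le_of_eq ?_)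
    rw [← sum_filter, sum_const, nsmul_eq_mul]
    congr 2
    have : (Ioc (K / 2) K).filter (fun y => y ∈ E) = E := by
      ext y
      rw [mem_filter]
      constructor
      · exact fun h => h.2
      · exact fun h => ⟨(mem_filter.1 h).1, h⟩
    rw [this]
  refine hsum.trans ?_
  set M : ℝ := 1 + Real.log (2 * X) with hM
  have hlog2 : Real.log X ≤ Real.log (2 * X) := Real.log_le_log hX0 (by linarith)
  have hM6 : 6 ≤ M := by
    have h5 : (5 : ℝ) ≤ Real.log (2 * X) := by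
      rw [Real.le_log_iff_exp_le (by positivity)]
      have e1 : Real.exp 5 = Real.exp 1 ^ 5 := by
        rw [← Real.exp_nat_mul]
        norm_num
      rw [e1]
      have e2 := Real.exp_one_lt_d9
      have e3 : Real.exp 1 ^ 5 ≤ (2.7182818286 : ℝ) ^ 5 :=
        pow_le_pow_left₀ (Real.exp_pos 1).le e2.le 5
      have e4 : (1000 : ℝ) ≤ X := by exact_mod_cast hX2
      have e5 : (2.7182818286 : ℝ) ^ 5 ≤ 2000 := by norm_num
      linarith
    linarith
  have hLM : Real.log X ≤ M := by linarith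
  have hln : Real.log n ≤ M := by
    refine le_trans ?_ hLM
    exact Real.log_le_log (by exact_mod_cast (by omega : 0 < n)) (by exact_mod_cast hnX)
  have hln0 : 0 ≤ Real.log n := Real.log_natCast_nonneg n
  have hsq : Real.sqrt n ≤ (X : ℝ) ^ (1 / 2 : ℝ) := by
    rw [← Real.sqrt_eq_rpow]
    exact Real.sqrt_le_sqrt (by exact_mod_cast hnX)
  have hsq0 : 0 ≤ Real.sqrt n := Real.sqrt_nonneg _
  have hXh0 : 0 ≤ (X : ℝ) ^ (1 / 2 : ℝ) := Real.rpow_nonneg hX0.le _
  have hM0 : 0 ≤ M := by linarith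
  have c1 : (E.card : ℝ) ≤ M * ((X : ℝ) ^ (1 / 2 : ℝ) * M) := by
    refine hEc.trans ?_
    apply mul_le_mul hM6 _ (by positivity) hM0
    exact mul_le_mul hsq hln hln0 hXh0
  have c2 : B ≤ M * (X : ℝ) ^ (1 / 100 : ℝ) * M := by
    rw [hB]
    apply mul_le_mul _ hLM hlX (by positivity)
    exact mul_le_mul_of_nonneg_right hLM hP0
  calc (E.card : ℝ) * B ≤ (M * ((X : ℝ) ^ (1 / 2 : ℝ) * M)) * (M * (X : ℝ) ^ (1 / 100 : ℝ) * M) :=
        mul_le_mul c1 c2 hB0 (by positivity)
    _ = (X : ℝ) ^ (1 / 2 : ℝ) * (X : ℝ) ^ (1 / 100 : ℝ) * M ^ 4 := by ring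
    _ ≤ (X : ℝ) ^ (1 / 2 : ℝ) * (X : ℝ) ^ (1 / 100 : ℝ) * (X : ℝ) ^ (1 / 100 : ℝ) :=
        mul_le_mul_of_nonneg_left hlog (by positivity)
    _ = (X : ℝ) ^ (1 / 2 + 1 / 100 + 1 / 100 : ℝ) := by
        rw [← Real.rpow_add hX0, ← Real.rpow_add hX0]
    _ ≤ (X : ℝ) ^ (3 / 4 : ℝ) := Real.rpow_le_rpow_of_exponent_le hX1 (by norm_num)

end Pool.Agent.MVII
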