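import Pool.Agent.MVII.Bk
import Pool.Agent.MVII.Bl
import Pool.Agent.MVII.Br
import Pool.Agent.MVII.Cp
import Pool.Agent.MVII.Cq
import Pool.Agent.MVII.Cr
import Pool.Agent.MVII.E1
import Pool.Agent.MVII.E2
import Pool.Agent.MVII.Ep
import Pool.Agent.MVII.Ex
import Pool.Agent.MVII.Fi
import Pool.Agent.MVII.Fj
import Pool.Agent.MVII.Ga
import Pool.Agent.MVII.Gd
import Pool.Agent.MVII.Gi
import Pool.Agent.MVII.Kt
import Pool.Agent.MVII.Lo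
import Pool.Agent.MVII.Mf
import Pool.Agent.MVII.Mn
import Pool.Agent.MVII.Mt
import Pool.Agent.MVII.Or
import Pool.Agent.MVII.Pl
import Pool.Agent.MVII.Po
import Pool.Agent.MVII.Re
import Pool.Agent.MVII.Sf
import Pool.Agent.MVII.Sp
import Pool.Agent.MVII.Sw
import Pool.Agent.MVII.Ta
import Pool.Agent.MVII.Up
import Pool.Agent.MVII.W0
import Pool.Agent.MVII.Wc
import Pool.Agent.MVII.Wi
import Pool.Agent.GBQ.Bridge
import Pool.Agent.GBQ.L2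

set_option autoImplicit false

/-! Assembly of Part II from the last modules (Su, W1, Pf, Lc, Bf). -/

namespace Pool.Agent.MVII

open Finset Filter
open Pool.Agent.MVX (GP)

theorem asm0 (hBf : St_Bf)
    (hSu : Pool.Agent.GBQ.St_Vin → St_Kt → St_Mf → St_Bl → St_Ep → St_Su)
    (hW1 : St_W0 → St_Wi → St_Cp → St_Po → St_Lc → St_Bl → St_Ep → St_W1)
    (hPf : St_Mt → St_Sf → St_Lc → St_Pf) (hLc : St_Lc) (h : GP) :
    ∃ (δ : ℝ) (R : ℕ), 0 < δ ∧ δ ≤ 1 / 310 ∧ BlockH δ R := by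
  have Gi := thm_Gi thm_Ga
  have Ex := thm_Ex (thm_Cr thm_Ga)
  have Wc := thm_Wc hBf thm_Ga Gi thm_Bl
  have Kt := thm_Kt thm_Fj thm_Sp
  have Mf := thm_Mf Ex Wc thm_Sp thm_Fj
  have Su := hSu GBQ.thm_Vin Kt Mf thm_Bl thm_Ep
  have E1 := thm_E1 GBQ.thm_L2 Su thm_Bl thm_Ep
  have E2 := thm_E2 GBQ.thm_L2 Su thm_Sw thm_Bl thm_Ep
  have Or := thm_Or thm_Mt thm_Lo
  have Cp := thm_Cp (thm_Cq Or thm_Ta) thm_Br
  have Wi := thm_Wi thm_Mt thm_Bl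
  have Pf := hPf thm_Mt thm_Sf hLc
  have Po := thm_Po Pf (thm_Pl thm_Mt) thm_Sf
  have W0 := thm_W0 thm_Bl thm_Ep thm_Re
  have W1 := hW1 W0 Wi Cp Po hLc thm_Bl thm_Ep
  have Mn := thm_Mn W1 thm_Bl thm_Ep
  obtain ⟨δ, h1, h2, h3⟩ := thm_Gd h
  obtain ⟨R, h4⟩ := thm_Bk E1 E2 Mn (thm_Up thm_Sf thm_Ep) thm_Sf δ h1 h2 h3
  exact ⟨δ, R, h1, h2, h4⟩

end Pool.Agent.MVII
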