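import Pool.Agent.MVII.St3

set_option autoImplicit false

/-!
# MVII, module Bk: the block estimate
-/

namespace Pool.Agent.MVII

open Finset Filter
open Pool.Agent.GBQ (ee lam nd Admissible)
open Pool.Agent.MVX (Chr tent Bm Um prm Win GP)
open Pool.Agent.LIN (PP pz)

theorem bk_mono {w : ℕ} {D D' : ℝ} {ψ : Finset ℕ → ℝ} (h : IsPsi w D ψ) (hD : D ≤ D') :
    IsPsi w D' ψ :=
  ⟨h.bd, fun T hT => ⟨(h.supp T hT).1, (h.supp T hT).2.trans hD⟩, h.low, h.main⟩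

/-- powers of `X` get large -/
theorem bk_large {e : ℝ} (he : 0 < e) (B : ℝ) : ∀ᶠ X : ℕ in atTop, B ≤ (X : ℝ) ^ e :=
  ((tendsto_rpow_atTop he).comp tendsto_natCast_atTop_atTop).eventually_ge_atTop B

/-- the numerical part -/
theorem bk_num {δ x c : ℝ} (hx : 1 ≤ x) (h16 : 16 ≤ x ^ (δ / 20))
    (h : c * ((x ^ (1 - 11 / 100 * δ) / 2) ^ 2) ≤
      2 * x ^ (3 - 97 / 100 * δ) + 2 * x ^ (3 - 87 / 100 * δ)) (hδ : 0 < δ) :
    c ≤ x ^ (1 - 6 / 10 * δ) := by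
  have hx0 : 0 < x := by linarith
  have h1 : x ^ (3 - 97 / 100 * δ) ≤ x ^ (3 - 87 / 100 * δ) :=
    Real.rpow_le_rpow_of_exponent_le hx (by linarith)
  have h2 : (x ^ (1 - 11 / 100 * δ)) ^ 2 = x ^ (2 - 22 / 100 * δ) := by
    rw [← Real.rpow_natCast, ← Real.rpow_mul hx0.le]
    congr 1
    push_cast
    ring
  have h3 : x ^ (3 - 87 / 100 * δ) = x ^ (2 - 22 / 100 * δ) * x ^ (1 - 65 / 100 * δ) := by
    rw [← Real.rpow_add hx0]
    congr 1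
    ring
  have h4 : x ^ (1 - 6 / 10 * δ) = x ^ (δ / 20) * x ^ (1 - 65 / 100 * δ) := by
    rw [← Real.rpow_add hx0]
    congr 1
    ring
  have h5 : 0 < x ^ (2 - 22 / 100 * δ) := Real.rpow_pos_of_pos hx0 _
  have h6 : 0 < x ^ (1 - 65 / 100 * δ) := Real.rpow_pos_of_pos hx0 _
  rw [div_pow, h2] at h
  have h7 : c * x ^ (2 - 22 / 100 * δ) ≤
      16 * x ^ (1 - 65 / 100 * δ) * x ^ (2 - 22 / 100 * δ) := by
    nlinarith
  have h8 := le_of_mul_le_mul_right h7 h5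
  rw [h4]
  exact h8.trans (mul_le_mul_of_nonneg_right h16 h6.le)

/-- **Bk** -/
theorem thm_Bk (h1 : St_E1) (h2 : St_E2) (h3 : St_Mn) (h4 : St_Up) (h5 : St_Sf) : St_Bk := by
  intro δ hδ hδ' hdat
  obtain ⟨s, hs1, hψ⟩ := h5.2.2
  obtain ⟨R, hR⟩ := h4 δ hδ hδ' s hs1
  refine ⟨R, ?_⟩
  have hs : (0 : ℝ) < s := by exact_mod_cast hs1
  have hs1' : (1 : ℝ) ≤ s := by exact_mod_cast hs1
  have e40 : 0 < δ / (40 * s) := by positivity
  have e41 : 0 < δ / (41 * s) := by positivity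
  have ed : 0 < δ / (40 * s) - δ / (41 * s) := by
    have : δ / (40 * s) - δ / (41 * s) = δ / (1640 * s) := by
      field_simp
      norm_num
    rw [this]
    positivity
  filter_upwards [hdat, h1 δ hδ hδ', h2 δ hδ hδ', h3 δ hδ hδ', hR, eventually_ge_atTop 1,
    bk_large e41 2, bk_large ed 2, bk_large (show (0 : ℝ) < 1 - δ / 10 by linarith) 8,
    bk_large (show (0 : ℝ) < 1 / 4 - 11 / 100 * δ by linarith) 2,
    bk_large (show (0 : ℝ) < δ / 20 by linarith) 16]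
    with X hdat hE1 hE2 hMn hUp hX1 g1 g2 g4 g5 g6
  intro m hm hmX F hF
  obtain ⟨q₁, χ₁, U, l, hD⟩ := hdat
  have hX : (1 : ℝ) ≤ X := by exact_mod_cast hX1
  have hX0 : (0 : ℝ) < X := by linarith
  set w : ℕ := ⌊(X : ℝ) ^ (δ / (40 * s))⌋₊ with hw
  have hmul : (X : ℝ) ^ (δ / (40 * s)) =
      (X : ℝ) ^ (δ / (41 * s)) * (X : ℝ) ^ (δ / (40 * s) - δ / (41 * s)) := by
    rw [← Real.rpow_add hX0]
    congr 1
    ring
  have hbig : (X : ℝ) ^ (δ / (41 * s)) + 1 ≤ (X : ℝ) ^ (δ / (40 * s)) := by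
    rw [hmul]
    nlinarith
  have hwl : (X : ℝ) ^ (δ / (41 * s)) ≤ w := by
    have h6 := Nat.sub_one_lt_floor ((X : ℝ) ^ (δ / (40 * s)))
    rw [← hw] at h6
    linarith
  have hw2 : 2 ≤ w := by
    have : (2 : ℝ) ≤ w := g1.trans hwl
    exact_mod_cast this
  have hwu : (w : ℝ) ≤ (X : ℝ) ^ (δ / (40 * s)) := Nat.floor_le (by positivity)
  have hwQ : w ≤ QQ δ X := by
    rw [hw, QQ]
    refine Nat.floor_le_floor ?_
    refine Real.rpow_le_rpow_of_exponent_le hX ?_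
    rw [div_le_iff₀ (by positivity)]
    nlinarith [mul_pos hδ hs]
  have hws : (w : ℝ) ^ s ≤ (X : ℝ) ^ (δ / 40) := by
    refine (pow_le_pow_left₀ (Nat.cast_nonneg _) hwu s).trans ?_
    rw [← Real.rpow_natCast, ← Real.rpow_mul hX0.le]
    refine le_of_eq ?_
    congr 1
    field_simp
  obtain ⟨ψ, hψ'⟩ := hψ w hw2
  have hψ1 : IsPsi w ((X : ℝ) ^ (δ / 40)) ψ := bk_mono hψ' hws
  have h8m : 8 * m ≤ X := by
    have h6 : (8 : ℝ) * m ≤ X := by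
      calc (8 : ℝ) * m ≤ (X : ℝ) ^ (1 - δ / 10) * (X : ℝ) ^ (δ / 10) :=
            mul_le_mul g4 hmX (Nat.cast_nonneg _) (by positivity)
        _ = X := by
            rw [← Real.rpow_add hX0]
            have : 1 - δ / 10 + δ / 10 = 1 := by ring
            rw [this, Real.rpow_one]
    exact_mod_cast h6
  have hblk : ∀ n ∈ F, Blk X m n := fun n hn => (hF n hn).1
  have i1 := hE1 hD.sum m q₁ w ψ hm hmX hD.cond.1 hD.cond.2 hψ1 F hblk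
  have i2 := hE2 hD.sum m q₁ w ψ hm hmX hD.cond.1 hD.cond.2 hψ1 F hblk
  have hlow : ∀ n ∈ F, ((X : ℝ) ^ (1 - 11 / 100 * δ) / 2) ^ 2 ≤
      2 * (R0 m (X / (8 * m)) q₁ w ψ n - R1 δ X m (X / (8 * m)) q₁ w ψ n) ^ 2 +
        2 * (R1 δ X m (X / (8 * m)) q₁ w ψ n - R2 δ X m (X / (8 * m)) q₁ w ψ n) ^ 2 := by
    intro n hn
    obtain ⟨b1, b2, b3, b4⟩ := hF n hn
    have j1 := hUp m q₁ w _ ψ hm hw2 hwl hψ1 n b1 b4 h8m
    have j2 := hMn q₁ χ₁ U l hD m w ψ hm hmX hw2 hwQ hψ1 n b1 b2 b3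
    set r0 := R0 m (X / (8 * m)) q₁ w ψ n
    set r1 := R1 δ X m (X / (8 * m)) q₁ w ψ n
    set r2 := R2 δ X m (X / (8 * m)) q₁ w ψ n
    have j3 : (X : ℝ) ^ (3 / 4 : ℝ) ≤ (X : ℝ) ^ (1 - 11 / 100 * δ) / 2 := by
      have j4 : (X : ℝ) ^ (1 - 11 / 100 * δ) =
          (X : ℝ) ^ (1 / 4 - 11 / 100 * δ) * (X : ℝ) ^ (3 / 4 : ℝ) := by
        rw [← Real.rpow_add hX0]
        congr 1
        ring
      have j5 : (0 : ℝ) < (X : ℝ) ^ (3 / 4 : ℝ) := Real.rpow_pos_of_pos hX0 _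
      rw [j4]
      nlinarith
    have j6 : (0 : ℝ) < (X : ℝ) ^ (1 - 11 / 100 * δ) := Real.rpow_pos_of_pos hX0 _
    have j7 : (X : ℝ) ^ (1 - 11 / 100 * δ) / 2 ≤ r2 - r0 := by linarith
    have j8 := pow_le_pow_left₀ (by positivity) j7 2
    nlinarith [sq_nonneg ((r0 - r1) - (r1 - r2))]
  have hsum : (F.card : ℝ) * (((X : ℝ) ^ (1 - 11 / 100 * δ) / 2) ^ 2) ≤
      2 * (X : ℝ) ^ (3 - 97 / 100 * δ) + 2 * (X : ℝ) ^ (3 - 87 / 100 * δ) := by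
    have k1 := Finset.sum_le_sum hlow
    rw [Finset.sum_const, nsmul_eq_mul, Finset.sum_add_distrib, ← Finset.mul_sum,
      ← Finset.mul_sum] at k1
    linarith
  exact bk_num hX g6 hsum hδ

end Pool.Agent.MVII
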