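import Pool.Agent.MVII.St4
import Pool.Agent.MVII.Up

set_option autoImplicit false

/-!
# MVII.UpC: the sum is small if there are few solutions
-/

namespace Pool.Agent.MVII

open Finset Filter
open Pool.Agent.GBQ (ee lam nd Admissible)
open Pool.Agent.LIN (PP pz)

theorem thm_UpC (h1 : St_Sf) (h2 : St_Ep) : St_UpC := by
  classical
  intro δ hδ _ s hs
  refine ⟨⌈82 * s / δ⌉₊, fun ε hε => ?_⟩
  obtain ⟨η, hη⟩ : ∃ η : ℝ, η = min (1 / 100) (ε / 2) := ⟨_, rfl⟩
  have hη0 : 0 < η := by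
    rw [hη]
    exact lt_min (by norm_num) (by linarith)
  have hη1 : η ≤ 1 / 100 := by
    rw [hη]
    exact min_le_left _ _
  have hη2 : η ≤ ε / 2 := by
    rw [hη]
    exact min_le_right _ _
  have ev1 := h2 η hη0 4
  have ev2 : ∀ᶠ X : ℕ in atTop, 1000 ≤ X := eventually_ge_atTop 1000
  filter_upwards [ev1, ev2] with X hX hX2
  intro m q₁ w D ψ hm hw hwX hψ n hn h8
  obtain ⟨_, hlog, _, _, hSS⟩ := hX
  obtain ⟨hn1, hn2⟩ := hn
  set K := X / (8 * m) with hK
  have hKX : 8 * (m * K) ≤ X := by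
    have := Nat.div_mul_le_self X (8 * m)
    calc 8 * (m * K) = X / (8 * m) * (8 * m) := by rw [hK]; ring
      _ ≤ X := this
  have hnlow : 3 * X ≤ 8 * n := by omega
  have hnX : n ≤ X := by omega
  have hmK : m * K < n := by omega
  have hKn : K ≤ m * K := Nat.le_mul_of_pos_left K (by omega)
  have hX0 : (0 : ℝ) < X := by exact_mod_cast (by omega : 0 < X)
  have hX1 : (1 : ℝ) ≤ X := by exact_mod_cast (by omega : 1 ≤ X)
  have hlX : 0 ≤ Real.log X := Real.log_nonneg hX1
  set B : ℝ := Real.log X * (X : ℝ) ^ η * Real.log X with hB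
  have hP0 : 0 ≤ (X : ℝ) ^ η := Real.rpow_nonneg hX0.le _
  have hB0 : 0 ≤ B := by positivity
  set E : Finset ℕ := (Ioc (K / 2) K).filter
    (fun y => y ∈ GBQ.badPP n ∨ n - m * y ∈ GBQ.badPP n) with hE
  have hEc := up_card hm (by omega : 1 ≤ n) hmK
  rw [← hE] at hEc
  have hterm : ∀ y ∈ Ioc (K / 2) K, lam y * SS q₁ w ψ y * lam (n - m * y) ≤
      if y ∈ E ∪ SolY (⌈82 * s / δ⌉₊) m n then B else 0 := by
    intro y hy
    have hy' := mem_Ioc.1 hy
    have hmy : m * y ≤ m * K := Nat.mul_le_mul_left m hy'.2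
    have hyX : y ≤ X := by omega
    split_ifs with hyE
    · -- trivial bound
      have a1 : lam y ≤ Real.log X := by
        refine (GBQ.lam_le_log y).trans ?_
        rcases Nat.eq_zero_or_pos y with h0 | h0
        · rw [h0]; simpa using hlX
        · exact Real.log_le_log (by exact_mod_cast h0) (by exact_mod_cast hyX)
      have a2 : lam (n - m * y) ≤ Real.log X := by
        refine (GBQ.lam_le_log _).trans ?_
        rcases Nat.eq_zero_or_pos (n - m * y) with h0 | h0
        · rw [h0]; simpa using hlX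
        · exact Real.log_le_log (by exact_mod_cast h0) (by exact_mod_cast (by omega))
      have a3 : SS q₁ w ψ y ≤ (X : ℝ) ^ η := by
        refine (le_abs_self _).trans (hSS q₁ w D ψ (y : ℤ) hψ ?_)
        rw [abs_of_nonneg (by positivity)]
        exact_mod_cast (by omega : y ≤ 2 * X)
      have b1 := GBQ.lam_nonneg y
      have b2 := GBQ.lam_nonneg (n - m * y)
      rw [hB]
      refine mul_le_mul ?_ a2 b2 (by positivity)
      calc lam y * SS q₁ w ψ y ≤ lam y * (X : ℝ) ^ η :=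
            mul_le_mul_of_nonneg_left a3 b1
        _ ≤ _ := mul_le_mul_of_nonneg_right a1 hP0
    · by_cases c1 : lam y = 0
      · rw [c1, zero_mul, zero_mul]
      by_cases c2 : lam (n - m * y) = 0
      · rw [c2, mul_zero]
      have hyp : y.Prime := by
        by_contra hnp
        apply hyE
        refine mem_union_left _ ?_
        rw [hE, mem_filter]
        refine ⟨hy, Or.inl ?_⟩
        rw [GBQ.badPP, mem_filter, mem_Ioc]
        exact ⟨⟨by omega, by omega⟩, hnp, c1⟩
      have hnp : (n - m * y).Prime := by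
        by_contra hnp
        apply hyE
        refine mem_union_left _ ?_
        rw [hE, mem_filter]
        refine ⟨hy, Or.inr ?_⟩
        rw [GBQ.badPP, mem_filter, mem_Ioc]
        exact ⟨⟨by omega, by omega⟩, hnp, c2⟩
      have hS0 : SS q₁ w ψ y ≤ 0 := by
        by_contra hpos
        push Not at hpos
        have hfac := h1.2.1 q₁ w D ψ (y : ℤ) hψ hpos
        apply hyE
        refine mem_union_right _ ?_
        unfold SolY
        rw [mem_filter, mem_range]
        have hyn : y ≤ m * y := Nat.le_mul_of_pos_left y (by omega)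
        exact ⟨by omega, hyp, by omega, hnp, up_omega (by omega) hδ hs hwX hyp.two_le hyX hfac⟩
      have b1 := GBQ.lam_nonneg y
      have b2 := GBQ.lam_nonneg (n - m * y)
      exact mul_nonpos_of_nonpos_of_nonneg (mul_nonpos_of_nonneg_of_nonpos b1 hS0) b2
  have hsum : R0 m K q₁ w ψ n ≤ E.card * B + (SolY (⌈82 * s / δ⌉₊) m n).card * B := by
    unfold R0
    refine (sum_le_sum hterm).trans ?_
    rw [← sum_filter, sum_const, nsmul_eq_mul, ← add_mul]
    refine mul_le_mul_of_nonneg_right ?_ hB0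
    have h3 : ((Ioc (K / 2) K).filter (fun y => y ∈ E ∪ SolY (⌈82 * s / δ⌉₊) m n)).card ≤
        E.card + (SolY (⌈82 * s / δ⌉₊) m n).card :=
      (card_le_card fun y hy => (mem_filter.1 hy).2).trans (card_union_le _ _)
    exact_mod_cast h3
  refine hsum.trans ?_
  set M : ℝ := 1 + Real.log (2 * X) with hM
  have hlog2 : Real.log X ≤ Real.log (2 * X) := Real.log_le_log hX0 (by linarith)
  have hM6 : 6 ≤ M := by
    have h5 : (5 : ℝ) ≤ Real.log (2 * X) := by
      rw [Real.le_log_iff_exp_le (by positivity)]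
      have e1 : Real.exp 5 = Real.exp 1 ^ 5 := by
        rw [← Real.exp_nat_mul]
        norm_num
      rw [e1]
      have e2 := Real.exp_one_lt_d9
      have e3 : Real.exp 1 ^ 5 ≤ (2.7182818286 : ℝ) ^ 5 :=
        pow_le_pow_left₀ (Real.exp_pos 1).le e2.le 5
      have e4 : (1000 : ℝ) ≤ X := by exact_mod_cast hX2
      have e5 : (2.7182818286 : ℝ) ^ 5 ≤ 2000 := by norm_num
      linarith
    linarith
  have hLM : Real.log X ≤ M := by linarith
  have hln : Real.log n ≤ M := by
    refine le_trans ?_ hLM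
    exact Real.log_le_log (by exact_mod_cast (by omega : 0 < n)) (by exact_mod_cast hnX)
  have hln0 : 0 ≤ Real.log n := Real.log_natCast_nonneg n
  have hsq : Real.sqrt n ≤ (X : ℝ) ^ (1 / 2 : ℝ) := by
    rw [← Real.sqrt_eq_rpow]
    exact Real.sqrt_le_sqrt (by exact_mod_cast hnX)
  have hsq0 : 0 ≤ Real.sqrt n := Real.sqrt_nonneg _
  have hXh0 : 0 ≤ (X : ℝ) ^ (1 / 2 : ℝ) := Real.rpow_nonneg hX0.le _
  have hM0 : 0 ≤ M := by linarith
  have c1 : (E.card : ℝ) ≤ M * ((X : ℝ) ^ (1 / 2 : ℝ) * M) := by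
    refine hEc.trans ?_
    apply mul_le_mul hM6 _ (by positivity) hM0
    exact mul_le_mul hsq hln hln0 hXh0
  have c2 : B ≤ M * (X : ℝ) ^ η * M := by
    rw [hB]
    apply mul_le_mul _ hLM hlX (by positivity)
    exact mul_le_mul_of_nonneg_right hLM hP0
  have c3 : B ≤ (X : ℝ) ^ η * (X : ℝ) ^ η := by
    refine c2.trans ?_
    have hM1 : 1 ≤ M := by linarith
    calc M * (X : ℝ) ^ η * M = (X : ℝ) ^ η * M ^ 2 := by ring
      _ ≤ (X : ℝ) ^ η * M ^ 4 :=
        mul_le_mul_of_nonneg_left (pow_le_pow_right₀ hM1 (by norm_num)) hP0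
      _ ≤ _ := mul_le_mul_of_nonneg_left hlog hP0
  have c4 : B ≤ (X : ℝ) ^ ε := by
    refine c3.trans ?_
    rw [← Real.rpow_add hX0]
    exact Real.rpow_le_rpow_of_exponent_le hX1 (by linarith)
  refine add_le_add ?_ (mul_le_mul_of_nonneg_left c4 (Nat.cast_nonneg _))
  calc (E.card : ℝ) * B ≤ (M * ((X : ℝ) ^ (1 / 2 : ℝ) * M)) * (M * (X : ℝ) ^ η * M) :=
        mul_le_mul c1 c2 hB0 (by positivity)
    _ = (X : ℝ) ^ (1 / 2 : ℝ) * (X : ℝ) ^ η * M ^ 4 := by ring
    _ ≤ (X : ℝ) ^ (1 / 2 : ℝ) * (X : ℝ) ^ η * (X : ℝ) ^ η :=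
        mul_le_mul_of_nonneg_left hlog (by positivity)
    _ = (X : ℝ) ^ (1 / 2 + η + η : ℝ) := by
        rw [← Real.rpow_add hX0, ← Real.rpow_add hX0]
    _ ≤ (X : ℝ) ^ (3 / 4 : ℝ) := Real.rpow_le_rpow_of_exponent_le hX1 (by linarith)

end Pool.Agent.MVII
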