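import Pool.Agent.MVII.Asm
import Pool.Agent.MVII.BkC
import Pool.Agent.MVII.FiC
import Pool.Agent.MVII.GdC
import Pool.Agent.MVII.UpC
import Pool.Agent.GBR.Asm

set_option autoImplicit false

/-! Assembly of Part II with the number of representations. -/

namespace Pool.Agent.MVII

open Finset Filter
open Pool.Agent.MVX (GP)
open Pool.Agent.GBQ (Admissible)

theorem asm_block (h : GP) : ∀ ε : ℝ, 0 < ε → ∃ (δ : ℝ) (R : ℕ), 0 < δ ∧ δ ≤ 1 / 310 ∧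
    BlockC δ ε R := by
  intro ε hε
  obtain ⟨δ, h1, h2, h3, h4⟩ := thm_GdC h ε hε
  obtain ⟨R, h5⟩ := thm_BkC asm_E1 asm_E2 asm_Mn (thm_UpC thm_Sf thm_Ep) thm_Sf δ ε h1 h2 h3 h4
  exact ⟨δ, R, h1, h2, h5⟩

theorem part2C (h : GP) : ∃ C : ℕ, ∀ ε : ℝ, 0 < ε → ∃ (δ : ℝ) (R N₀ : ℕ), 0 < δ ∧ ∀ N ≥ N₀,
    ∀ m : ℕ, ∀ F : Finset ℕ, (∀ n ∈ F, n ≤ N ∧ Admissible m n ∧
      (SolN R m n = ∅ ∨ (12 * m ≤ n ∧ ((SolN R m n).card : ℝ) < (n : ℝ) ^ (1 - ε)))) →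
    (F.card : ℝ) ≤ (N : ℝ) ^ (1 - δ) ∧ (m : ℝ) * F.card ≤ N * Real.log N ^ C :=
  thm_FiC AAN.thm_Dya GBQ.thm_Red (asm_block h) GBR.fin

end Pool.Agent.MVII
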